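import Mathlib

/-!
# Van der Waals: coexistence intervals
-/

set_option autoImplicit false

namespace Pool.Agent.Vdw

open Set Filter Topology MeasureTheory

/-- `(x1, x2)` is a coexistence interval of the function `g` on `(0, r)`: an affine function which
is at least `g` is equal to `g` at `x1` and `x2` and larger than `g` between `x1` and `x2`. -/
def Coex (g : ℝ → ℝ) (r x1 x2 : ℝ) : Prop :=
  0 < x1 ∧ x1 < x2 ∧ x2 < r ∧ ∃ m q : ℝ, (∀ x ∈ Set.Ioo 0 r, g x ≤ m * x + q) ∧
    g x1 = m * x1 + q ∧ g x2 = m * x2 + q ∧ ∀ x ∈ Set.Ioo x1 x2, g x < m * x + q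

end Pool.Agent.Vdw
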