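import Pool.Agent.Lib.MP_09cbbd_kc.Def
import Pool.Agent.Lib.MP_09cbbd_vw.MFD

/-!
# Van der Waals theory for hard spheres with a Kac interaction: definitions
-/

set_option autoImplicit false

namespace Pool.Agent.VdwGas

open MeasureTheory Filter Topology Pool.Agent.SquareWellGas Pool.Agent.KacGas Pool.Agent.Vdw

/-- `f` is the free energy (per volume, up to the sign) of spheres of radius `a` with the pair
energy `-u (x - y)` in the thermodynamic limit, `ρ₀` is the maximal density: for cubes `[0, ℓ)^d`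
and particle numbers `N` with `ℓ → ∞` and `N / ℓ^d → ρ`, the partition function is eventually
positive with `log Z / ℓ^d → f ρ` if `0 < ρ < ρ₀`, and eventually zero if `ρ > ρ₀`. -/
def IsF (d : ℕ) (a : ℝ) (u : (Fin d → ℝ) → ℝ) (f : ℝ → ℝ) (ρ₀ : ℝ) : Prop :=
  0 < ρ₀ ∧ ∀ (ℓ : ℕ → ℝ) (N : ℕ → ℕ) (ρ : ℝ), Tendsto ℓ atTop atTop →
    Tendsto (fun j => (N j : ℝ) / ℓ j ^ d) atTop (𝓝 ρ) →
    (ρ ∈ Set.Ioo 0 ρ₀ → (∀ᶠ j in atTop, 0 < Z d a u (ℓ j) (N j)) ∧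
      Tendsto (fun j => Real.log (Z d a u (ℓ j) (N j)) / ℓ j ^ d) atTop (𝓝 (f ρ))) ∧
    (ρ₀ < ρ → ∀ᶠ j in atTop, Z d a u (ℓ j) (N j) = 0)

/-- First-order phase transition between densities `ρ₁` and `ρ₂` at distance at most `δ` from `x1`
and `x2`: on `(0, ρ₀)` the free energy `f` is at most an affine function, with equality exactly on
`[ρ₁, ρ₂]`, and `f` is not real-analytic at `ρ₁` and at `ρ₂`. -/
def TransitionNear (d : ℕ) (a : ℝ) (u : (Fin d → ℝ) → ℝ) (ρ₀ x1 x2 δ : ℝ) : Prop :=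
  ∃ (f : ℝ → ℝ) (ρ₁ ρ₂ c b : ℝ), IsF d a u f ρ₀ ∧ 0 < ρ₁ ∧ ρ₁ < ρ₂ ∧ ρ₂ < ρ₀ ∧
    |ρ₁ - x1| ≤ δ ∧ |ρ₂ - x2| ≤ δ ∧
    (∀ ρ ∈ Set.Ioo 0 ρ₀, f ρ ≤ c * ρ + b ∧ (f ρ = c * ρ + b ↔ ρ ∈ Set.Icc ρ₁ ρ₂)) ∧
    ¬ AnalyticAt ℝ f ρ₁ ∧ ¬ AnalyticAt ℝ f ρ₂

end Pool.Agent.VdwGas
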