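import Pool.Agent.Lib.MP_09cbbd_vw.MFE

/-!
# Van der Waals: the critical value
-/

set_option autoImplicit false

namespace Pool.Agent.Vdw

open Set Filter Topology MeasureTheory

/-- `x ^ 2` with a negative factor is concave. -/
theorem concave_neg_sq (r : ℝ) {e : ℝ} (he : 0 ≤ e) :
    ConcaveOn ℝ (Set.Ioo 0 r) fun x => -(e / 2 * x ^ 2) := by
  refine ⟨convex_Ioo 0 r, fun x _ y _ a b ha hb hab => ?_⟩
  simp only [smul_eq_mul]
  have hb' : b = 1 - a := by linarith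
  subst hb'
  nlinarith [mul_nonneg (mul_nonneg (mul_nonneg he ha) hb) (sq_nonneg (x - y))]

/-- The critical value of the strength of the mean field interaction. -/
theorem exists_bc {f : ℝ → ℝ} {r : ℝ} (hr : 0 < r) (hfc : ConcaveOn ℝ (Set.Ioo 0 r) f)
    (h0 : ∀ s : ℝ, ∃ y ∈ Set.Ioo 0 r, ∀ x ∈ Set.Ioo 0 y, f x ≤ f y - s * (y - x))
    (h1 : ∀ s : ℝ, ∃ y ∈ Set.Ioo 0 r, ∀ x ∈ Set.Ioo y r, f x ≤ f y - s * (x - y)) :
    ∃ bc : ℝ, 0 ≤ bc ∧
      (∀ b : ℝ, b < bc → ConcaveOn ℝ (Set.Ioo 0 r) fun x => f x + b / 2 * x ^ 2) ∧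
      ∀ b : ℝ, bc < b → ∃ x1 x2 : ℝ, Coex (fun x => f x + b / 2 * x ^ 2) r x1 x2 := by
  set S : Set ℝ := {b | ConcaveOn ℝ (Set.Ioo 0 r) fun x => f x + b / 2 * x ^ 2} with hS
  have hdown : ∀ b b' : ℝ, b' ≤ b → b ∈ S → b' ∈ S := by
    intro b b' h hb
    have h2 := hb.add (concave_neg_sq r (sub_nonneg.2 h))
    rw [hS]
    refine h2.congr fun x _ => ?_
    simp only [Pi.add_apply]
    ring
  have h0S : (0 : ℝ) ∈ S := by
    rw [hS]
    refine hfc.congr fun x _ => ?_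
    simp
  have hbdd : BddAbove S := by
    refine ⟨32 * (f (r / 2) - (f (r / 4) + f (3 * r / 4)) / 2) / r ^ 2, fun b hb => ?_⟩
    have hb2 : ConcaveOn ℝ (Set.Ioo 0 r) fun x => f x + b / 2 * x ^ 2 := hb
    have m1 : r / 4 ∈ Set.Ioo 0 r := ⟨by linarith, by linarith⟩
    have m2 : 3 * r / 4 ∈ Set.Ioo 0 r := ⟨by linarith, by linarith⟩
    have h2 := hb2.2 m1 m2 (show (0 : ℝ) ≤ 1 / 2 by norm_num) (show (0 : ℝ) ≤ 1 / 2 by norm_num)
      (by norm_num)
    simp only [smul_eq_mul] at h2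
    rw [show 1 / 2 * (r / 4) + 1 / 2 * (3 * r / 4) = r / 2 by ring] at h2
    rw [le_div_iff₀ (by positivity)]
    nlinarith
  refine ⟨sSup S, le_csSup hbdd h0S, ?_, ?_⟩
  · intro b hb
    obtain ⟨b', hb', hlt⟩ := exists_lt_of_lt_csSup ⟨0, h0S⟩ hb
    exact hdown b' b hlt.le hb'
  · intro b hb
    have hb0 : 0 ≤ b := (le_csSup hbdd h0S).trans hb.le
    refine exists_coex hr ?_ ?_ ?_ ?_
    · refine ContinuousOn.add ?_ (by fun_prop)
      exact hfc.continuousOn isOpen_Ioo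
    · intro s
      obtain ⟨y, hy, h⟩ := h0 s
      refine ⟨y, hy, fun x hx => ?_⟩
      have h2 := h x hx
      have h3 : 0 ≤ b * ((y - x) * (y + x)) :=
        mul_nonneg hb0 (mul_nonneg (by linarith [hx.2]) (by linarith [hx.1, hy.1]))
      nlinarith
    · intro s
      obtain ⟨y, hy, h⟩ := h1 (s + b * r)
      refine ⟨y, hy, fun x hx => ?_⟩
      have h2 := h x hx
      have h3 : 0 ≤ b * ((x - y) * (2 * r - x - y)) :=
        mul_nonneg hb0 (mul_nonneg (by linarith [hx.1]) (by linarith [hx.2, hy.2]))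
      nlinarith
    · intro hc
      exact absurd (le_csSup hbdd (show b ∈ S from hc)) (not_le.2 hb)

end Pool.Agent.Vdw
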