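import Pool.Agent.Lib.MP_09cbbd_vw.Hs

/-!
# Existence of the free energy of hard spheres
-/

set_option autoImplicit false

namespace Pool.Agent.Vdw

open MeasureTheory Filter Topology Pool.Agent.StableGas Pool.Agent.SquareWellGas Pool.Agent.KacGas
  Pool.Agent.VdwGas

variable {d : ℕ}

namespace HsF

open Pool.Agent.Kac

/-- No interaction. -/
theorem ad_zero : Ad (d := d) fun _ => 0 where
  meas := measurable_const
  nonneg _ := le_rfl
  le_one _ := zero_le_one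
  even _ := rfl
  supp _ h := absurd rfl h

theorem uu_zero : uu (d := d) (fun _ => 0) 0 1 = fun _ => 0 := by
  funext x
  simp [uu]

theorem Z_mono {s t : ℝ} (h : s ≤ t) (N : ℕ) :
    Z d (1 / 2) (fun _ => 0) s N ≤ Z d (1 / 2) (fun _ => 0) t N := by
  have := Pool.Agent.Kac.Z_mono (d := d) ad_zero (R := 1) (K := 0) le_rfl h N
  rwa [uu_zero] at this

/-- The limit along real side lengths, in units of `ℓ`. -/
theorem lim_of {C B ℓ : ℝ} (hℓ : 1 < ℓ) (T : Th d (Zt d ℓ fun _ => 0) C B)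
    (u : ℕ → ℝ) (N : ℕ → ℕ) (ρ : ℝ) (hu : Tendsto u atTop atTop)
    (hN : Tendsto (fun j => (N j : ℝ) / u j ^ d) atTop (𝓝 ρ)) :
    (ρ ∈ Set.Ioo 0 (Th.rz d (Zt d ℓ fun _ => 0)) →
      (∀ᶠ j in atTop, 0 < Z d (1 / 2) (fun _ => 0) (u j * ℓ) (N j)) ∧
      Tendsto (fun j => Real.log (Z d (1 / 2) (fun _ => 0) (u j * ℓ) (N j)) / u j ^ d) atTop
        (𝓝 (Th.ff d (Zt d ℓ fun _ => 0) ρ))) ∧
      (Th.rz d (Zt d ℓ fun _ => 0) < ρ →
        ∀ᶠ j in atTop, Z d (1 / 2) (fun _ => 0) (u j * ℓ) (N j) = 0) := by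
  have hℓ0 : 0 < ℓ := by linarith
  obtain ⟨t, ht⟩ : ∃ t : ℕ → ℝ, t = fun j => u j - 1 + 1 / ℓ := ⟨_, rfl⟩
  have htu : Tendsto t atTop atTop := by
    rw [ht]
    exact tendsto_atTop_add_const_right _ _ (tendsto_atTop_add_const_right _ _ hu)
  have hratio : Tendsto (fun j => t j / u j) atTop (𝓝 1) := by
    have g1 : Tendsto (fun j => 1 + (-1 + 1 / ℓ) / u j) atTop (𝓝 (1 + 0)) :=
      (hu.const_div_atTop _).const_add 1
    rw [add_zero] at g1
    refine g1.congr' ?_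
    filter_upwards [hu.eventually_gt_atTop 0] with j hj
    rw [ht]
    field_simp
    ring
  have hratio' : Tendsto (fun j => (t j / u j) ^ d) atTop (𝓝 1) := by
    have := hratio.pow d
    rwa [one_pow] at this
  have hNt : Tendsto (fun j => (N j : ℝ) / t j ^ d) atTop (𝓝 ρ) := by
    have g1 := hN.div hratio' one_ne_zero
    rw [div_one] at g1
    refine g1.congr' ?_
    filter_upwards [hu.eventually_gt_atTop 0, htu.eventually_gt_atTop 0] with j hj hj'
    simp only [Pi.div_apply]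
    rw [div_pow]
    field_simp
  have hZr : ∀ j, Z d (1 / 2) (fun _ => 0) (u j * ℓ) (N j) =
      (fun (t : ℝ) (N : ℕ) => Z d (1 / 2) (fun _ => 0) ((t + 1) * ℓ - 1) N) (t j) (N j) := by
    intro j
    simp only
    congr 1
    rw [ht]
    field_simp
    ring
  have hr1 : ∀ t : ℝ, 0 ≤ t → ∀ N, Zt d ℓ (fun _ => 0) (⌊t⌋₊ + 1) N ≤
      (fun (t : ℝ) (N : ℕ) => Z d (1 / 2) (fun _ => 0) ((t + 1) * ℓ - 1) N) t N := by
    intro t ht N
    refine Z_mono ?_ N
    have := Nat.floor_le ht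
    push_cast
    have : ((⌊t⌋₊ : ℝ) + 1) * ℓ ≤ (t + 1) * ℓ := mul_le_mul_of_nonneg_right (by linarith) hℓ0.le
    linarith
  have hr2 : ∀ t : ℝ, 0 ≤ t → ∀ N,
      (fun (t : ℝ) (N : ℕ) => Z d (1 / 2) (fun _ => 0) ((t + 1) * ℓ - 1) N) t N ≤
        Zt d ℓ (fun _ => 0) (⌊t⌋₊ + 2) N := by
    intro t _ N
    refine Z_mono ?_ N
    have := (Nat.lt_floor_add_one t).le
    push_cast
    have : (t + 1) * ℓ ≤ ((⌊t⌋₊ : ℝ) + 2) * ℓ := mul_le_mul_of_nonneg_right (by linarith) hℓ0.le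
    linarith
  constructor
  · rintro ⟨g0, g1⟩
    obtain ⟨g2, g3⟩ := T.seq hr1 hr2 htu hNt g0 g1
    refine ⟨?_, ?_⟩
    · filter_upwards [g2] with j hj
      rw [hZr]
      exact hj
    · have g4 := g3.mul hratio'
      rw [mul_one] at g4
      refine g4.congr' ?_
      filter_upwards [hu.eventually_gt_atTop 0, htu.eventually_gt_atTop 0] with j hj hj'
      rw [hZr, div_pow]
      field_simp
  · intro g
    have g1 := T.seq_zero (fun t N => Kink.Z_nonneg d (1 / 2) _ _ N) hr2 htu hNt g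
    filter_upwards [g1] with j hj
    rw [hZr]
    exact hj

/-- The free energy is steep near density zero. -/
theorem steep {Z : ℕ → ℕ → ℝ} {C B : ℝ} (T : Th d Z C B)
    (hone : Tendsto (fun L : ℕ => Z L 1) atTop atTop) (s : ℝ) :
    ∃ y ∈ Set.Ioo 0 (Th.rz d Z), ∀ x ∈ Set.Ioo 0 y,
      Th.ff d Z x ≤ Th.ff d Z y - s * (y - x) := by
  have hinf := Pool.Agent.ConfinedGas.tendsto_vol (d := d) T.hd
  have hpos : ∀ᶠ L : ℕ in atTop, 0 < Z L 1 := hone.eventually_gt_atTop 0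
  have hrz : 0 < Th.rz d Z := by
    obtain ⟨L, hL, hL1⟩ := (hpos.and (eventually_ge_atTop 1)).exists
    have h1 := T.le_rz hL1 hL
    have hL' : (0 : ℝ) < L := by exact_mod_cast hL1
    have hLd : (0 : ℝ) < (L : ℝ) ^ d := by positivity
    push_cast at h1
    by_contra hcon
    rw [not_lt] at hcon
    have := mul_nonpos_of_nonpos_of_nonneg hcon hLd.le
    linarith
  have hlog : Tendsto (fun L : ℕ => Real.log (Z L 1)) atTop atTop :=
    Real.tendsto_log_atTop.comp hone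
  have hsm : Tendsto (fun L : ℕ => 1 / (L : ℝ) ^ d) atTop (𝓝 0) := hinf.const_div_atTop 1
  obtain ⟨L, ⟨hL1, hL2⟩, hL3, hL4⟩ := ((hpos.and (eventually_ge_atTop 1)).and
    ((hlog.eventually_ge_atTop (s + 1)).and (hsm.eventually_lt_const hrz))).exists
  have hL' : (0 : ℝ) < L := by exact_mod_cast hL2
  have hLd : (0 : ℝ) < (L : ℝ) ^ d := by positivity
  obtain ⟨z, hz⟩ : ∃ z : ℝ, z = 1 / (L : ℝ) ^ d := ⟨_, rfl⟩
  have hz0 : 0 < z := by rw [hz]; positivity
  have hfz : (s + 1) * z ≤ Th.ff d Z z := by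
    have h1 := T.point_le hL2 hL1 (by push_cast; exact hL4)
    push_cast at h1
    rw [← hz] at h1
    have h2 : s + 1 ≤ Th.ff d Z z * (L : ℝ) ^ d := hL3.trans h1
    have h3 := mul_le_mul_of_nonneg_right h2 hz0.le
    have h4 : Th.ff d Z z * (L : ℝ) ^ d * z = Th.ff d Z z := by
      rw [hz]
      field_simp
    rwa [h4] at h3
  rw [← hz] at hL4
  obtain ⟨w, hw⟩ : ∃ w : ℝ, C * Real.exp w < z / 2 := by
    have h5 : Tendsto (fun t : ℝ => C * Real.exp t) atBot (𝓝 (C * 0)) :=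
      (Real.tendsto_exp_atBot).const_mul C
    rw [mul_zero] at h5
    exact (h5.eventually_lt_const (by positivity : 0 < z / 2)).exists
  obtain ⟨y, hy⟩ : ∃ y : ℝ, y = z / (2 * (|w| + |s| + 1)) := ⟨_, rfl⟩
  have ha : 1 ≤ |w| + |s| + 1 := by
    have := abs_nonneg w
    have := abs_nonneg s
    linarith
  have hy0 : 0 < y := by
    rw [hy]
    positivity
  have hye : (|w| + |s| + 1) * y = z / 2 := by
    rw [hy]
    field_simp
  have hyz : y < z := by
    have := mul_le_mul_of_nonneg_right ha hy0.le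
    linarith
  have hfy : Th.ff d Z y ≤ -w * y + C * Real.exp w :=
    T.ff_le hy0.le (by linarith) fun L N _ hZ =>
      Pool.Agent.ConfinedGas.log_add_le Z T.hC T.ub w L N hZ
  have h6 : (-w - s) * y ≤ z / 2 := by
    rw [← hye]
    refine mul_le_mul_of_nonneg_right ?_ hy0.le
    have := neg_abs_le w
    have := neg_abs_le s
    linarith
  have h7 : s * (z - y) ≤ Th.ff d Z z - Th.ff d Z y := by
    have : (-w - s) * y = -w * y - s * y := by ring
    have e1 : (s + 1) * z = s * z + z := by ring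
    have e2 : s * (z - y) = s * z - s * y := by ring
    linarith
  refine ⟨y, ⟨hy0, by linarith⟩, fun x hx => ?_⟩
  have h8 := T.concave.slope_anti_adjacent (x := x) (y := y) (z := z) ⟨hx.1.le, by linarith [hx.2]⟩
    ⟨hz0.le, hL4⟩ hx.2 hyz
  have h9 : s ≤ (Th.ff d Z z - Th.ff d Z y) / (z - y) := by
    rw [le_div_iff₀ (by linarith)]
    exact h7
  have h10 := h9.trans h8
  rw [le_div_iff₀ (by linarith [hx.2])] at h10
  linarith

/-- The free energy is steep near close packing. -/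
theorem steep' {Z : ℕ → ℕ → ℝ} {C B v : ℝ} (T : Th d Z C B) (hv : 0 < v)
    (hins : ∀ L N K : ℕ, 1 ≤ L → (∀ n, 0 < Z L n → n ≤ K) → N ≤ K →
      ((N : ℝ) + 1) * Z L (N + 1) ≤ v * ((K : ℝ) - N) * Z L N)
    (hrz : 0 < Th.rz d Z) (s : ℝ) :
    ∃ y ∈ Set.Ioo 0 (Th.rz d Z), ∀ x ∈ Set.Ioo y (Th.rz d Z),
      Th.ff d Z x ≤ Th.ff d Z y - s * (x - y) := by
  have h5 : Tendsto (fun t : ℝ => v * (Th.rz d Z - t) / t) (𝓝 (Th.rz d Z))
      (𝓝 (v * (Th.rz d Z - Th.rz d Z) / Th.rz d Z)) := by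
    refine Tendsto.div ?_ tendsto_id hrz.ne'
    exact (tendsto_const_nhds.sub tendsto_id).const_mul v
  rw [sub_self, mul_zero, zero_div] at h5
  have h6 : ∀ᶠ t in 𝓝 (Th.rz d Z), v * (Th.rz d Z - t) / t < Real.exp (-s) :=
    h5.eventually_lt_const (Real.exp_pos _)
  have h7 : ∀ᶠ t in 𝓝[<] (Th.rz d Z), v * (Th.rz d Z - t) / t < Real.exp (-s) ∧
      t ∈ Set.Ioo 0 (Th.rz d Z) := by
    refine (h6.filter_mono nhdsWithin_le_nhds).and ?_
    exact Ioo_mem_nhdsLT hrz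
  obtain ⟨y, hy1, hy2⟩ := h7.exists
  refine ⟨y, hy2, fun x hx => ?_⟩
  have h8 := T.slope hv hins hy2.1 hx.1 hx.2
  have h10 : 0 < v * (Th.rz d Z - y) / y := by
    have h11 : 0 < Th.rz d Z - y := by linarith [hy2.2]
    have h12 := hy2.1
    positivity
  have h9 : Real.log (v * (Th.rz d Z - y) / y) ≤ -s := by
    have := Real.log_le_log h10 hy1.le
    rwa [Real.log_exp] at this
  have h11 := mul_le_mul_of_nonneg_left h9 (show 0 ≤ x - y by linarith [hx.1])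
  have h12 : (x - y) * -s = -(s * (x - y)) := by ring
  linarith

end HsF

/-- Existence of the free energy of hard spheres. -/
theorem exists_F (hd : 1 ≤ d) : ∃ (f : ℝ → ℝ) (r : ℝ), IsF d (1 / 2) (fun _ => 0) f r ∧
    ConcaveOn ℝ (Set.Ioo 0 r) f ∧
    (∀ s : ℝ, ∃ y ∈ Set.Ioo 0 r, ∀ x ∈ Set.Ioo 0 y, f x ≤ f y - s * (y - x)) ∧
    (∀ s : ℝ, ∃ y ∈ Set.Ioo 0 r, ∀ x ∈ Set.Ioo y r, f x ≤ f y - s * (x - y)) := by
  obtain ⟨C, B, T⟩ := Pool.Agent.Kac.exists_th hd (HsF.ad_zero (d := d)) (ℓ := 2) (R := 1) (K := 0)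
    (by norm_num) one_pos le_rfl
  obtain ⟨v, hv, hins⟩ := Pool.Agent.Kac.insert_le hd (HsF.ad_zero (d := d)) (ℓ := 2) (R := 1)
    (K := 0) (by norm_num) one_pos le_rfl
  rw [HsF.uu_zero] at T hins
  obtain ⟨Zz, hZz⟩ : ∃ Zz : ℕ → ℕ → ℝ, Zz = Pool.Agent.Kac.Zt d 2 fun _ => 0 := ⟨_, rfl⟩
  have hlim := HsF.lim_of (by norm_num) T
  rw [← hZz] at T hins hlim
  have hone : Tendsto (fun L : ℕ => Zz L 1) atTop atTop := by
    have h1 : Tendsto (fun L : ℕ => (L : ℝ)) atTop atTop := tendsto_natCast_atTop_atTop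
    refine tendsto_atTop_mono' atTop ?_ h1
    filter_upwards [eventually_ge_atTop 1] with L hL
    have hL' : (1 : ℝ) ≤ L := by exact_mod_cast hL
    have h4 : Zz L 1 = (L * 2 - 1) ^ d := by
      rw [hZz]
      unfold Pool.Agent.Kac.Zt
      exact Pool.Agent.Kac.Kink.Z_one (by linarith)
    rw [h4]
    calc (L : ℝ) ≤ L * 2 - 1 := by linarith
      _ ≤ (L * 2 - 1) ^ d := le_self_pow₀ (by linarith) (by omega)
  have hst := HsF.steep T hone
  have hrz : 0 < Th.rz d Zz := by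
    obtain ⟨y, hy, _⟩ := hst 0
    exact hy.1.trans hy.2
  have hst' := HsF.steep' T hv hins hrz
  obtain ⟨V, hV⟩ : ∃ V : ℝ, V = 2 ^ d := ⟨_, rfl⟩
  have hV0 : 0 < V := by rw [hV]; positivity
  refine ⟨fun ρ => Th.ff d Zz (ρ * V) / V, Th.rz d Zz / V, ⟨by positivity, ?_⟩, ?_, ?_, ?_⟩
  · intro ℓ N ρ hℓ hN
    have hu : Tendsto (fun j => ℓ j / 2) atTop atTop := hℓ.atTop_div_const two_pos
    have hNu : Tendsto (fun j => (N j : ℝ) / (ℓ j / 2) ^ d) atTop (𝓝 (ρ * V)) := by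
      refine (hN.mul_const V).congr fun j => ?_
      rw [hV, div_pow, div_div_eq_mul_div]
      ring
    obtain ⟨g1, g2⟩ := hlim _ N _ hu hNu
    constructor
    · rintro ⟨hρ0, hρ1⟩
      rw [lt_div_iff₀ hV0] at hρ1
      obtain ⟨g3, g4⟩ := g1 ⟨mul_pos hρ0 hV0, hρ1⟩
      constructor
      · filter_upwards [g3] with j hj
        rwa [div_mul_cancel₀ _ (two_ne_zero (α := ℝ))] at hj
      · refine (g4.div_const V).congr' ?_
        filter_upwards [hℓ.eventually_gt_atTop 0] with j hj0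
        rw [div_mul_cancel₀ _ (two_ne_zero (α := ℝ)), div_pow, hV]
        field_simp
    · intro hρ
      rw [div_lt_iff₀ hV0] at hρ
      filter_upwards [g2 hρ] with j hj
      rwa [div_mul_cancel₀ _ (two_ne_zero (α := ℝ))] at hj
  · refine ⟨convex_Ioo _ _, fun x hx y hy a b ha hb hab => ?_⟩
    rw [Set.mem_Ioo, lt_div_iff₀ hV0] at hx hy
    have h1 := T.concave.2 (x := x * V) ⟨(mul_pos hx.1 hV0).le, hx.2⟩ (y := y * V)
      ⟨(mul_pos hy.1 hV0).le, hy.2⟩ ha hb hab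
    simp only [smul_eq_mul] at h1 ⊢
    have e1 : (a * x + b * y) * V = a * (x * V) + b * (y * V) := by ring
    rw [e1, ← mul_div_assoc, ← mul_div_assoc, ← add_div]
    exact div_le_div_of_nonneg_right h1 hV0.le
  · intro s
    obtain ⟨y, hy, hy'⟩ := hst s
    refine ⟨y / V, ⟨div_pos hy.1 hV0, div_lt_div_of_pos_right hy.2 hV0⟩, fun x hx => ?_⟩
    rw [Set.mem_Ioo, lt_div_iff₀ hV0] at hx
    have h1 := hy' (x * V) ⟨mul_pos hx.1 hV0, hx.2⟩
    simp only
    rw [div_mul_cancel₀ _ hV0.ne', div_le_iff₀ hV0]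
    refine h1.trans (le_of_eq ?_)
    field_simp
  · intro s
    obtain ⟨y, hy, hy'⟩ := hst' s
    refine ⟨y / V, ⟨div_pos hy.1 hV0, div_lt_div_of_pos_right hy.2 hV0⟩, fun x hx => ?_⟩
    rw [Set.mem_Ioo, div_lt_iff₀ hV0, lt_div_iff₀ hV0] at hx
    have h1 := hy' (x * V) hx
    simp only
    rw [div_mul_cancel₀ _ hV0.ne', div_le_iff₀ hV0]
    refine h1.trans (le_of_eq ?_)
    field_simp

end Pool.Agent.Vdw
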