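import Pool.Agent.Lib.MP_09cbbd_vw.MFC

/-!
# Van der Waals: coexistence intervals are nondegenerate for almost all temperatures
-/

set_option autoImplicit false

namespace Pool.Agent.Vdw

open Set Filter Topology MeasureTheory

/-- The function with the quadratic term. -/
noncomputable def Gb (f : ℝ → ℝ) (b : ℝ) : ℝ → ℝ := fun x => f x + b / 2 * x ^ 2

theorem Con.anti {f : ℝ → ℝ} {r b b' x : ℝ} (hb : b ≤ b') (h : Con (Gb f b') r x) :
    Con (Gb f b) r x := by
  refine ⟨h.1, h.2.1, fun y w hy hyx hxw hwr => ?_⟩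
  have h1 := h.2.2 y w hy hyx hxw hwr
  have h2 : 0 ≤ (b' - b) * ((w - x) * (x - y) * (w - y)) := by
    refine mul_nonneg (by linarith) (mul_nonneg (mul_nonneg ?_ ?_) ?_) <;> linarith
  simp only [Gb] at *
  linarith

/-- The last contact point before `z`. -/
noncomputable def Aa (f : ℝ → ℝ) (r z b : ℝ) : ℝ := sSup {x | Con (Gb f b) r x ∧ x ≤ z}

/-- The first contact point after `z`. -/
noncomputable def Ee (f : ℝ → ℝ) (r z b : ℝ) : ℝ :=
  sInf (insert r {x | Con (Gb f b) r x ∧ z ≤ x})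

theorem Aa_antitone (f : ℝ → ℝ) (r z : ℝ) : Antitone (Aa f r z) := by
  intro b b' hb
  have hsub : {x | Con (Gb f b') r x ∧ x ≤ z} ⊆ {x | Con (Gb f b) r x ∧ x ≤ z} :=
    fun x hx => ⟨hx.1.anti hb, hx.2⟩
  rcases Set.eq_empty_or_nonempty {x | Con (Gb f b') r x ∧ x ≤ z} with h | h
  · unfold Aa
    rw [h, Real.sSup_empty]
    exact Real.sSup_nonneg fun x hx => hx.1.1.le
  · exact csSup_le_csSup ⟨z, fun x hx => hx.2⟩ h hsub

theorem bddBelow_Ee (f : ℝ → ℝ) (r z b : ℝ) :
    BddBelow (insert r {x | Con (Gb f b) r x ∧ z ≤ x}) := by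
  refine ⟨min r z, fun x hx => ?_⟩
  rcases mem_insert_iff.1 hx with rfl | hx
  · exact min_le_left _ _
  · exact (min_le_right _ _).trans hx.2

theorem Ee_monotone (f : ℝ → ℝ) (r z : ℝ) : Monotone (Ee f r z) := by
  intro b b' hb
  exact csInf_le_csInf (bddBelow_Ee f r z b) (insert_nonempty _ _)
    (insert_subset_insert fun x hx => ⟨hx.1.anti hb, hx.2⟩)

theorem ae_diff (f : ℝ → ℝ) (r : ℝ) : ∀ᵐ b : ℝ, ∀ z : ℚ,
    DifferentiableAt ℝ (Aa f r z) b ∧ DifferentiableAt ℝ (Ee f r z) b := by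
  rw [ae_all_iff]
  intro z
  have h1 : ∀ᵐ b : ℝ, DifferentiableAt ℝ (fun b => - Aa f r z b) b :=
    (Aa_antitone f r z).neg.ae_differentiableAt
  have h2 : ∀ᵐ b : ℝ, DifferentiableAt ℝ (Ee f r z) b := (Ee_monotone f r z).ae_differentiableAt
  filter_upwards [h1, h2] with b hb1 hb2
  exact ⟨by simpa using hb1.neg, hb2⟩

/-- Close to a coexistence interval there are coexistence intervals at all near temperatures, at
distance of the order of the difference of the temperatures. -/
theorem coex_near {f : ℝ → ℝ} {r : ℝ} (hf : ContinuousOn f (Set.Ioo 0 r)) {b : ℝ}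
    (hb : ∀ z : ℚ, DifferentiableAt ℝ (Aa f r z) b ∧ DifferentiableAt ℝ (Ee f r z) b)
    {x1 x2 : ℝ} (h : Coex (Gb f b) r x1 x2) :
    ∃ C η z : ℝ, 0 < C ∧ 0 < η ∧ x1 < z ∧ z < x2 ∧ ∀ b', |b' - b| ≤ η → ∃ a' e' m' q' : ℝ,
      |a' - x1| ≤ C * |b' - b| ∧ |e' - x2| ≤ C * |b' - b| ∧ 0 < a' ∧ a' < z ∧ z < e' ∧ e' < r ∧
      (∀ x ∈ Ioo 0 r, Gb f b' x ≤ m' * x + q') ∧ Gb f b' a' = m' * a' + q' ∧
      Gb f b' e' = m' * e' + q' := by
  obtain ⟨h0, h12, hr, m, q, hm, e1, e2, hlt⟩ := h
  obtain ⟨z, hz1, hz2⟩ := exists_rat_btwn h12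
  obtain ⟨hA, hE⟩ := hb z
  have hc1 : Con (Gb f b) r x1 := by
    refine Con.of_slope (m := m) h0 (h12.trans hr) fun y hy => ?_
    have := hm y hy
    linarith
  have hc2 : Con (Gb f b) r x2 := by
    refine Con.of_slope (m := m) (h0.trans h12) hr fun y hy => ?_
    have := hm y hy
    linarith
  have hno : ∀ x, x1 < x → x < x2 → ¬ Con (Gb f b) r x := by
    intro x hx1 hx2 hx
    have k1 := hx.2.2 x1 x2 h0 hx1 hx2 hr
    have k2 := mul_lt_mul_of_pos_left (hlt x ⟨hx1, hx2⟩) (by linarith : 0 < x2 - x1)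
    rw [e1, e2] at k1
    nlinarith
  have hAb : Aa f r z b = x1 := by
    refine le_antisymm (csSup_le ⟨x1, hc1, hz1.le⟩ fun x hx => ?_) ?_
    · by_contra hcon
      exact hno x (not_le.1 hcon) (lt_of_le_of_lt hx.2 hz2) hx.1
    · exact le_csSup ⟨(z : ℝ), fun x hx => hx.2⟩ ⟨hc1, hz1.le⟩
  have hEb : Ee f r z b = x2 := by
    refine le_antisymm (csInf_le (bddBelow_Ee f r z b) (mem_insert_of_mem _ ⟨hc2, hz2.le⟩)) ?_
    refine le_csInf (insert_nonempty _ _) fun x hx => ?_
    rcases mem_insert_iff.1 hx with rfl | hx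
    · exact hr.le
    · by_contra hcon
      exact hno x (lt_of_lt_of_le hz1 hx.2) (not_le.1 hcon) hx.1
  obtain ⟨C1, hC1⟩ := hA.isBigO_sub.bound
  obtain ⟨C2, hC2⟩ := hE.isBigO_sub.bound
  have hA0 : ∀ᶠ b' in 𝓝 b, 0 < Aa f r z b' := by
    refine hA.continuousAt.eventually_const_lt ?_
    rw [hAb]; exact h0
  have hAz : ∀ᶠ b' in 𝓝 b, Aa f r z b' < z := by
    refine hA.continuousAt.eventually_lt_const ?_
    rw [hAb]; exact hz1
  have hEz : ∀ᶠ b' in 𝓝 b, (z : ℝ) < Ee f r z b' := by
    refine hE.continuousAt.eventually_const_lt ?_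
    rw [hEb]; exact hz2
  have hEr : ∀ᶠ b' in 𝓝 b, Ee f r z b' < r := by
    refine hE.continuousAt.eventually_lt_const ?_
    rw [hEb]; exact hr
  obtain ⟨ε, hε, hall⟩ := Metric.eventually_nhds_iff.1
    (hC1.and (hC2.and (hA0.and (hAz.and (hEz.and hEr)))))
  refine ⟨max (max C1 C2) 1, ε / 2, z, lt_of_lt_of_le one_pos (le_max_right _ _), by positivity,
    hz1, hz2, fun b' hb' => ?_⟩
  obtain ⟨k1, k2, k3, k4, k5, k6⟩ := hall (y := b') (by rw [Real.dist_eq]; linarith)
  rw [hAb, Real.norm_eq_abs, Real.norm_eq_abs] at k1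
  rw [hEb, Real.norm_eq_abs, Real.norm_eq_abs] at k2
  have hg : ContinuousOn (Gb f b') (Ioo 0 r) := hf.add (by fun_prop)
  have hAc : Con (Gb f b') r (Aa f r z b') := by
    have hne : {x | Con (Gb f b') r x ∧ x ≤ z}.Nonempty := by
      rw [Set.nonempty_iff_ne_empty]
      intro he
      have : Aa f r z b' = 0 := by unfold Aa; rw [he, Real.sSup_empty]
      linarith
    refine Con.of_closure hg k3 (by linarith) ?_
    exact closure_mono (fun x hx => hx.1) (csSup_mem_closure hne ⟨(z : ℝ), fun x hx => hx.2⟩)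
  have hEc : Con (Gb f b') r (Ee f r z b') := by
    have h3 := csInf_mem_closure (insert_nonempty r {x | Con (Gb f b') r x ∧ z ≤ x})
      (bddBelow_Ee f r z b')
    rw [insert_eq, closure_union, closure_singleton] at h3
    rcases h3 with h3 | h3
    · exact absurd (show Ee f r z b' = r from h3) k6.ne
    · exact Con.of_closure hg (by linarith) k6 (closure_mono (fun x hx => hx.1) h3)
  obtain ⟨-, -, -, m', q', j1, j2, j3, -⟩ := Coex.of_con hg hAc hEc (by linarith) (by
    intro x hx1 hx2 hx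
    rcases le_total x z with hxz | hxz
    · exact absurd (le_csSup (show BddAbove {x | Con (Gb f b') r x ∧ x ≤ (z : ℝ)} from
        ⟨(z : ℝ), fun x hx => hx.2⟩) ⟨hx, hxz⟩) (not_le.2 hx1)
    · exact absurd (csInf_le (bddBelow_Ee f r z b') (mem_insert_of_mem _ ⟨hx, hxz⟩))
        (not_le.2 hx2))
  have hab : 0 ≤ |b' - b| := abs_nonneg _
  refine ⟨Aa f r z b', Ee f r z b', m', q', ?_, ?_, k3, k4, k5, k6, j1, j2, j3⟩
  · refine k1.trans (mul_le_mul_of_nonneg_right ?_ hab)
    exact (le_max_left _ _).trans (le_max_left _ _)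
  · refine k2.trans (mul_le_mul_of_nonneg_right ?_ hab)
    exact (le_max_right _ _).trans (le_max_left _ _)

/-- Quadratic nondegeneracy for almost all `b`. -/
theorem ae_growth {f : ℝ → ℝ} {r : ℝ} (hf : ContinuousOn f (Set.Ioo 0 r)) :
    ∀ᵐ b : ℝ, ∀ x1 x2 : ℝ, Coex (fun x => f x + b / 2 * x ^ 2) r x1 x2 →
      ∃ m q c : ℝ, 0 < c ∧
        (∀ x ∈ Set.Ioo 0 r, f x + b / 2 * x ^ 2 ≤
          m * x + q - c * min ((x - x1) ^ 2) ((x - x2) ^ 2)) ∧
        f x1 + b / 2 * x1 ^ 2 = m * x1 + q ∧ f x2 + b / 2 * x2 ^ 2 = m * x2 + q := by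
  filter_upwards [ae_diff f r] with b hb x1 x2 h
  obtain ⟨C, η, z, hC, hη, hz1, hz2, hnear⟩ := coex_near hf hb h
  obtain ⟨h0, h12, hr, m, q, hm, e1, e2, hlt⟩ := h
  simp only at hm e1 e2 hlt
  have hr0 : 0 < r := h0.trans (h12.trans hr)
  set k : ℝ := min (1 / (2 * C)) (η / r) with hk
  have hk0 : 0 < k := lt_min (by positivity) (by positivity)
  have hkC : ∀ D, 0 ≤ D → C * (k * D) ≤ D / 2 := by
    intro D hD
    have h1 : k ≤ 1 / (2 * C) := min_le_left _ _
    have h2 : C * k ≤ 1 / 2 := by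
      calc C * k ≤ C * (1 / (2 * C)) := mul_le_mul_of_nonneg_left h1 hC.le
        _ = 1 / 2 := by field_simp
    calc C * (k * D) = (C * k) * D := by ring
      _ ≤ 1 / 2 * D := mul_le_mul_of_nonneg_right h2 hD
      _ = D / 2 := by ring
  have hkη : ∀ D, 0 ≤ D → D ≤ r → k * D ≤ η := by
    intro D hD hDr
    have h1 : k ≤ η / r := min_le_right _ _
    calc k * D ≤ η / r * r := mul_le_mul h1 hDr hD (by positivity)
      _ = η := div_mul_cancel₀ _ hr0.ne'
  refine ⟨m, q, k * (x2 - x1) / 16, by have := sub_pos.2 h12; positivity, ?_, e1, e2⟩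
  intro x hx
  have hpos : 0 < x2 - x1 := sub_pos.2 h12
  rcases lt_trichotomy x x1 with hlt1 | rfl | hgt1
  · -- left of `x1`
    set D := x1 - x with hD
    have hD0 : 0 < D := sub_pos.2 hlt1
    have hDr : D ≤ r := by linarith [hx.1]
    have hkD : 0 < k * D := by positivity
    have habs : |b + k * D - b| = k * D := by rw [add_sub_cancel_left, abs_of_pos hkD]
    obtain ⟨a', e', m', q', p1, p2, p3, p4, p5, p6, p7, p8, p9⟩ := hnear (b + k * D)
      (by rw [habs]; exact hkη D hD0.le hDr)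
    rw [habs] at p1 p2
    have ha' : x1 - D / 2 ≤ a' := by
      have := (abs_le.1 p1).1
      have := hkC D hD0.le
      linarith
    have g1 := p7 x hx
    have g2 := p7 x2 ⟨by linarith, hr⟩
    have g3 := hm a' ⟨p3, by linarith⟩
    simp only [Gb] at g1 g2 p8
    -- the linear function `l`
    set m1 := m - m' with hm1
    set q1 := q - q' with hq1
    have s1 : 0 ≤ m1 * a' + q1 + k * D / 2 * a' ^ 2 := by
      have : m1 * a' + q1 = (m * a' + q) - (m' * a' + q') := by rw [hm1, hq1]; ring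
      rw [this]
      linarith
    have s2 : m1 * x2 + q1 + k * D / 2 * x2 ^ 2 ≤ 0 := by
      have : m1 * x2 + q1 = (m * x2 + q) - (m' * x2 + q') := by rw [hm1, hq1]; ring
      rw [this]
      linarith
    have s3 : k * D / 2 * ((a' - x) * (x2 - x)) ≤ m1 * x + q1 + k * D / 2 * x ^ 2 := by
      -- `l y = m1 y + q1 + kD/2 (a' + x2) y - kD/2 a' x2`
      set u := m1 + k * D / 2 * (a' + x2) with hu
      set v := q1 - k * D / 2 * (a' * x2) with hv
      have l1 : 0 ≤ u * a' + v := by rw [hu, hv]; linarith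
      have l2 : u * x2 + v ≤ 0 := by rw [hu, hv]; linarith
      have l3 : u ≤ 0 := by
        by_contra hcon
        rw [not_le] at hcon
        have := mul_pos hcon (by linarith : 0 < x2 - a')
        linarith
      have l4 : 0 ≤ u * x + v := by
        have : 0 ≤ (-u) * (a' - x) := mul_nonneg (by linarith) (by linarith)
        linarith
      have l5 : m1 * x + q1 + k * D / 2 * x ^ 2 - k * D / 2 * ((a' - x) * (x2 - x)) =
        u * x + v := by rw [hu, hv]; ring
      linarith
    have s4 : k * (x2 - x1) / 4 * D ^ 2 ≤ k * D / 2 * ((a' - x) * (x2 - x)) := by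
      have t1 : D / 2 ≤ a' - x := by linarith
      have t2 : x2 - x1 ≤ x2 - x := by linarith
      have t3 : D / 2 * (x2 - x1) ≤ (a' - x) * (x2 - x) :=
        mul_le_mul t1 t2 hpos.le (by linarith)
      calc k * (x2 - x1) / 4 * D ^ 2 = k * D / 2 * (D / 2 * (x2 - x1)) := by ring
        _ ≤ _ := mul_le_mul_of_nonneg_left t3 (by positivity)
    have s5 : k * (x2 - x1) / 16 * min ((x - x1) ^ 2) ((x - x2) ^ 2) ≤
        k * (x2 - x1) / 4 * D ^ 2 := by
      have t1 : min ((x - x1) ^ 2) ((x - x2) ^ 2) ≤ D ^ 2 := by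
        refine (min_le_left _ _).trans (le_of_eq ?_)
        rw [hD]; ring
      have t2 : 0 ≤ D ^ 2 := by positivity
      have t3 : 0 < k * (x2 - x1) := by positivity
      calc k * (x2 - x1) / 16 * min ((x - x1) ^ 2) ((x - x2) ^ 2)
          ≤ k * (x2 - x1) / 16 * D ^ 2 := mul_le_mul_of_nonneg_left t1 (by positivity)
        _ ≤ k * (x2 - x1) / 4 * D ^ 2 := by nlinarith
    have s6 : m1 * x + q1 = (m * x + q) - (m' * x + q') := by rw [hm1, hq1]; ring
    linarith
  · -- at `x1`
    have : min ((x - x) ^ 2) ((x - x2) ^ 2) = 0 := by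
      rw [sub_self, zero_pow two_ne_zero]
      exact min_eq_left (sq_nonneg _)
    rw [this, mul_zero, sub_zero]
    exact hm x hx
  rcases lt_trichotomy x x2 with hlt2 | rfl | hgt2
  · -- between
    set D := min (x - x1) (x2 - x) with hD
    have hD0 : 0 < D := lt_min (sub_pos.2 hgt1) (sub_pos.2 hlt2)
    have hD1 : D ≤ x - x1 := min_le_left _ _
    have hD2 : D ≤ x2 - x := min_le_right _ _
    have hDr : D ≤ r := by linarith [hx.1]
    have hkD : 0 < k * D := by positivity
    have habs : |b - k * D - b| = k * D := by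
      rw [sub_sub_cancel_left, abs_neg, abs_of_pos hkD]
    obtain ⟨a', e', m', q', p1, p2, p3, p4, p5, p6, p7, p8, p9⟩ := hnear (b - k * D)
      (by rw [habs]; exact hkη D hD0.le hDr)
    rw [habs] at p1 p2
    have hkD2 := hkC D hD0.le
    have ha' : a' ≤ x1 + D / 2 := by
      have := (abs_le.1 p1).2
      linarith
    have he' : x2 - D / 2 ≤ e' := by
      have := (abs_le.1 p2).1
      linarith
    have g1 := p7 x hx
    have g2 := hm e' ⟨by linarith, p6⟩
    have g3 := hm a' ⟨p3, by linarith⟩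
    simp only [Gb] at g1 p8 p9
    set m1 := m - m' with hm1
    set q1 := q - q' with hq1
    have s1 : 0 ≤ m1 * a' + q1 - k * D / 2 * a' ^ 2 := by
      have : m1 * a' + q1 = (m * a' + q) - (m' * a' + q') := by rw [hm1, hq1]; ring
      rw [this]
      linarith
    have s2 : 0 ≤ m1 * e' + q1 - k * D / 2 * e' ^ 2 := by
      have : m1 * e' + q1 = (m * e' + q) - (m' * e' + q') := by rw [hm1, hq1]; ring
      rw [this]
      linarith
    have hxa : (x - x1) / 2 ≤ x - a' := by linarith
    have hxe : (x2 - x) / 2 ≤ e' - x := by linarith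
    have s3 : k * D / 2 * ((x - a') * (e' - x)) ≤ m1 * x + q1 - k * D / 2 * x ^ 2 := by
      set u := m1 - k * D / 2 * (a' + e') with hu
      set v := q1 + k * D / 2 * (a' * e') with hv
      have l1 : 0 ≤ u * a' + v := by rw [hu, hv]; linarith
      have l2 : 0 ≤ u * e' + v := by rw [hu, hv]; linarith
      have l4 : 0 ≤ u * x + v := by
        rcases le_total 0 u with hu0 | hu0
        · have : 0 ≤ u * (x - a') := mul_nonneg hu0 (by linarith)
          linarith
        · have : 0 ≤ (-u) * (e' - x) := mul_nonneg (by linarith) (by linarith)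
          linarith
      have l5 : m1 * x + q1 - k * D / 2 * x ^ 2 - k * D / 2 * ((x - a') * (e' - x)) =
        u * x + v := by rw [hu, hv]; ring
      linarith
    have s4 : k * (x2 - x1) / 16 * D ^ 2 ≤ k * D / 2 * ((x - a') * (e' - x)) := by
      have t0 : (x - x1) / 2 * ((x2 - x) / 2) ≤ (x - a') * (e' - x) :=
        mul_le_mul hxa hxe (by linarith) (by linarith)
      have t1 : D * ((x2 - x1) / 2) ≤ (x - x1) * (x2 - x) := by
        rcases le_total (x - x1) (x2 - x) with hle | hle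
        · have w1 : (x2 - x1) / 2 ≤ x2 - x := by linarith
          exact mul_le_mul hD1 w1 (by linarith) (by linarith)
        · have w1 : (x2 - x1) / 2 ≤ x - x1 := by linarith
          calc D * ((x2 - x1) / 2) ≤ (x2 - x) * (x - x1) :=
                mul_le_mul hD2 w1 (by linarith) (by linarith)
            _ = _ := by ring
      calc k * (x2 - x1) / 16 * D ^ 2 = k * D / 2 * (D * ((x2 - x1) / 2) / 4) := by ring
        _ ≤ k * D / 2 * ((x - a') * (e' - x)) := by
          refine mul_le_mul_of_nonneg_left ?_ (by positivity)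
          linarith
    have s5 : k * (x2 - x1) / 16 * min ((x - x1) ^ 2) ((x - x2) ^ 2) ≤
        k * (x2 - x1) / 16 * D ^ 2 := by
      have t1 : min ((x - x1) ^ 2) ((x - x2) ^ 2) ≤ D ^ 2 := by
        rcases min_choice (x - x1) (x2 - x) with hmin | hmin
        · refine (min_le_left _ _).trans (le_of_eq ?_)
          rw [hD, hmin]
        · refine (min_le_right _ _).trans (le_of_eq ?_)
          rw [hD, hmin]; ring
      exact mul_le_mul_of_nonneg_left t1 (by positivity)
    have s6 : m1 * x + q1 = (m * x + q) - (m' * x + q') := by rw [hm1, hq1]; ring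
    linarith
  · -- at `x2`
    have : min ((x - x1) ^ 2) ((x - x) ^ 2) = 0 := by
      rw [sub_self, zero_pow two_ne_zero]
      exact min_eq_right (sq_nonneg _)
    rw [this, mul_zero, sub_zero]
    exact hm x hx
  · -- right of `x2`
    set D := x - x2 with hD
    have hD0 : 0 < D := sub_pos.2 hgt2
    have hDr : D ≤ r := by linarith [hx.2]
    have hkD : 0 < k * D := by positivity
    have habs : |b + k * D - b| = k * D := by rw [add_sub_cancel_left, abs_of_pos hkD]
    obtain ⟨a', e', m', q', p1, p2, p3, p4, p5, p6, p7, p8, p9⟩ := hnear (b + k * D)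
      (by rw [habs]; exact hkη D hD0.le hDr)
    rw [habs] at p1 p2
    have he' : e' ≤ x2 + D / 2 := by
      have := (abs_le.1 p2).2
      have := hkC D hD0.le
      linarith
    have g1 := p7 x hx
    have g2 := p7 x1 ⟨h0, by linarith⟩
    have g3 := hm e' ⟨by linarith, p6⟩
    simp only [Gb] at g1 g2 p9
    set m1 := m - m' with hm1
    set q1 := q - q' with hq1
    have s1 : 0 ≤ m1 * e' + q1 + k * D / 2 * e' ^ 2 := by
      have : m1 * e' + q1 = (m * e' + q) - (m' * e' + q') := by rw [hm1, hq1]; ring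
      rw [this]
      linarith
    have s2 : m1 * x1 + q1 + k * D / 2 * x1 ^ 2 ≤ 0 := by
      have : m1 * x1 + q1 = (m * x1 + q) - (m' * x1 + q') := by rw [hm1, hq1]; ring
      rw [this]
      linarith
    have s3 : k * D / 2 * ((x - e') * (x - x1)) ≤ m1 * x + q1 + k * D / 2 * x ^ 2 := by
      set u := m1 + k * D / 2 * (e' + x1) with hu
      set v := q1 - k * D / 2 * (e' * x1) with hv
      have l1 : 0 ≤ u * e' + v := by rw [hu, hv]; linarith
      have l2 : u * x1 + v ≤ 0 := by rw [hu, hv]; linarith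
      have l3 : 0 ≤ u := by
        by_contra hcon
        rw [not_le] at hcon
        have := mul_pos (neg_pos.2 hcon) (by linarith : 0 < e' - x1)
        linarith
      have l4 : 0 ≤ u * x + v := by
        have : 0 ≤ u * (x - e') := mul_nonneg (by linarith) (by linarith)
        linarith
      have l5 : m1 * x + q1 + k * D / 2 * x ^ 2 - k * D / 2 * ((x - e') * (x - x1)) =
        u * x + v := by rw [hu, hv]; ring
      linarith
    have s4 : k * (x2 - x1) / 4 * D ^ 2 ≤ k * D / 2 * ((x - e') * (x - x1)) := by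
      have t1 : D / 2 ≤ x - e' := by linarith
      have t2 : x2 - x1 ≤ x - x1 := by linarith
      have t3 : D / 2 * (x2 - x1) ≤ (x - e') * (x - x1) :=
        mul_le_mul t1 t2 hpos.le (by linarith)
      calc k * (x2 - x1) / 4 * D ^ 2 = k * D / 2 * (D / 2 * (x2 - x1)) := by ring
        _ ≤ _ := mul_le_mul_of_nonneg_left t3 (by positivity)
    have s5 : k * (x2 - x1) / 16 * min ((x - x1) ^ 2) ((x - x2) ^ 2) ≤
        k * (x2 - x1) / 4 * D ^ 2 := by
      have t1 : min ((x - x1) ^ 2) ((x - x2) ^ 2) ≤ D ^ 2 := min_le_right _ _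
      have t2 : 0 ≤ D ^ 2 := by positivity
      have t3 : 0 < k * (x2 - x1) := by positivity
      calc k * (x2 - x1) / 16 * min ((x - x1) ^ 2) ((x - x2) ^ 2)
          ≤ k * (x2 - x1) / 16 * D ^ 2 := mul_le_mul_of_nonneg_left t1 (by positivity)
        _ ≤ k * (x2 - x1) / 4 * D ^ 2 := by nlinarith
    have s6 : m1 * x + q1 = (m * x + q) - (m' * x + q') := by rw [hm1, hq1]; ring
    linarith

end Pool.Agent.Vdw
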