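import Pool.Agent.Lib.MP_09cbbd_vw.End1
import Pool.Agent.Lib.MP_09cbbd_vw.HsF
import Pool.Agent.Lib.MP_09cbbd_vw.MF
import Pool.Agent.Lib.MP_09cbbd_vw.Bc

/-!
# Van der Waals theory for hard spheres with a Kac interaction of finite range
-/

set_option autoImplicit false

namespace Pool.Agent.Vdw

open MeasureTheory Finset Filter Topology Pool.Agent.StableGas Pool.Agent.SquareWellGas
  Pool.Agent.KacGas Pool.Agent.Kac Pool.Agent.VdwGas
open Pool.Agent.SquareWell hiding Md cut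

/-! ## Scaling of the free energy -/

section Scale

variable {d : ℕ}

/-- The free energy at the other scale. -/
noncomputable def sc (d : ℕ) (s : ℝ) (g : ℝ → ℝ) (x : ℝ) : ℝ :=
  x * (d * Real.log s) + g (x * s ^ d) / s ^ d

theorem IsF.scale {a s : ℝ} (hs : 0 < s) {u : (Fin d → ℝ) → ℝ} {g : ℝ → ℝ} {r : ℝ}
    (h : IsF d (a / s) (fun x => u (s • x)) g r) : IsF d a u (sc d s g) (r / s ^ d) := by
  obtain ⟨h0, h1⟩ := h
  have hsd : 0 < s ^ d := by positivity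
  refine ⟨by positivity, fun ℓ N ρ hℓ hN => ?_⟩
  have hZ : ∀ (ℓ : ℝ) (N : ℕ), Z d a u ℓ N =
      s ^ (N * d) * Z d (a / s) (fun x => u (s • x)) (ℓ / s) N := fun ℓ N => Kink.Z_scale hs N
  have hu : Tendsto (fun j => ℓ j / s) atTop atTop := hℓ.atTop_div_const hs
  have hNu : Tendsto (fun j => (N j : ℝ) / (ℓ j / s) ^ d) atTop (𝓝 (ρ * s ^ d)) := by
    refine (hN.mul_const (s ^ d)).congr fun j => ?_
    rw [div_pow, div_div_eq_mul_div]
    ring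
  obtain ⟨g1, g2⟩ := h1 _ N _ hu hNu
  constructor
  · rintro ⟨hρ0, hρ1⟩
    rw [lt_div_iff₀ hsd] at hρ1
    obtain ⟨g3, g4⟩ := g1 ⟨mul_pos hρ0 hsd, hρ1⟩
    constructor
    · filter_upwards [g3] with j hj
      rw [hZ]
      positivity
    · have g5 := (hN.mul_const (d * Real.log s)).add (g4.div_const (s ^ d))
      refine g5.congr' ?_
      filter_upwards [g3, hℓ.eventually_gt_atTop 0] with j hj hj0
      rw [hZ, Real.log_mul (by positivity) hj.ne', Real.log_pow, div_pow]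
      push_cast
      field_simp
  · intro hρ
    rw [div_lt_iff₀ hsd] at hρ
    filter_upwards [g2 hρ] with j hj
    rw [hZ, hj, mul_zero]

theorem TransitionNear.scale {a s : ℝ} (hs : 0 < s) {u : (Fin d → ℝ) → ℝ} {r x1 x2 δ : ℝ}
    (h : TransitionNear d (a / s) (fun x => u (s • x)) r (x1 * s ^ d) (x2 * s ^ d) (δ * s ^ d)) :
    TransitionNear d a u (r / s ^ d) x1 x2 δ := by
  obtain ⟨f, ρ₁, ρ₂, μ, b, hF, h1, h2, h3, hd1, hd2, h5, h6, h7⟩ := h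
  have hsd : 0 < s ^ d := by positivity
  have hdist : ∀ {ρ x : ℝ}, |ρ - x * s ^ d| ≤ δ * s ^ d → |ρ / s ^ d - x| ≤ δ := by
    intro ρ x hx
    have e : ρ / s ^ d - x = (ρ - x * s ^ d) / s ^ d := by field_simp
    rw [e, abs_div, abs_of_pos hsd, div_le_iff₀ hsd]
    exact hx
  refine ⟨sc d s f, ρ₁ / s ^ d, ρ₂ / s ^ d, d * Real.log s + μ, b / s ^ d, IsF.scale hs hF,
    by positivity, by gcongr, by gcongr, hdist hd1, hdist hd2, ?_,
    fun hh => h6 (Kink.analytic_scale hsd hh), fun hh => h7 (Kink.analytic_scale hsd hh)⟩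
  rintro ρ ⟨hρ0, hρ1⟩
  rw [lt_div_iff₀ hsd] at hρ1
  obtain ⟨g1, g2⟩ := h5 (ρ * s ^ d) ⟨mul_pos hρ0 hsd, hρ1⟩
  have e1 : (d * Real.log s + μ) * ρ + b / s ^ d =
      ρ * (d * Real.log s) + (μ * (ρ * s ^ d) + b) / s ^ d := by
    field_simp
    ring
  have e2 : ρ ∈ Set.Icc (ρ₁ / s ^ d) (ρ₂ / s ^ d) ↔ ρ * s ^ d ∈ Set.Icc ρ₁ ρ₂ := by
    rw [Set.mem_Icc, Set.mem_Icc, div_le_iff₀ hsd, le_div_iff₀ hsd]
  rw [e1, e2, ← g2]
  unfold sc
  rw [add_le_add_iff_left, add_right_inj, div_le_div_iff_of_pos_right hsd,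
    div_left_inj' hsd.ne']
  exact ⟨g1, Iff.rfl⟩

/-- The mean field free energy at the other scale. -/
theorem sc_add {s : ℝ} (hs : 0 < s) (g : ℝ → ℝ) (b x : ℝ) :
    sc d s g x + b / 2 * x ^ 2 =
      x * (d * Real.log s) + (g (x * s ^ d) + b / s ^ d / 2 * (x * s ^ d) ^ 2) / s ^ d := by
  have hsd : 0 < s ^ d := by positivity
  unfold sc
  field_simp
  ring

theorem Coex.scale {s : ℝ} (hs : 0 < s) {g : ℝ → ℝ} {b r x1 x2 : ℝ}
    (h : Coex (fun x => g x + b / s ^ d / 2 * x ^ 2) r (x1 * s ^ d) (x2 * s ^ d)) :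
    Coex (fun x => sc d s g x + b / 2 * x ^ 2) (r / s ^ d) x1 x2 := by
  have hsd : 0 < s ^ d := by positivity
  obtain ⟨h1, h2, h3, m, q, h4, h5, h6, h7⟩ := h
  have e : ∀ x : ℝ, (d * Real.log s + m) * x + q / s ^ d =
      x * (d * Real.log s) + (m * (x * s ^ d) + q) / s ^ d := by
    intro x
    field_simp
    ring
  refine ⟨pos_of_mul_pos_left h1 hsd.le, lt_of_mul_lt_mul_right h2 hsd.le,
    by rwa [lt_div_iff₀ hsd], d * Real.log s + m, q / s ^ d, ?_, ?_, ?_, ?_⟩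
  · rintro x ⟨hx0, hx1⟩
    rw [lt_div_iff₀ hsd] at hx1
    have h8 := h4 (x * s ^ d) ⟨mul_pos hx0 hsd, hx1⟩
    simp only at h8 ⊢
    rw [sc_add hs, e]
    gcongr
  · simp only at h5 ⊢
    rw [sc_add hs, e, h5]
  · simp only at h6 ⊢
    rw [sc_add hs, e, h6]
  · rintro x ⟨hx0, hx1⟩
    have h8 := h7 (x * s ^ d) ⟨mul_lt_mul_of_pos_right hx0 hsd, mul_lt_mul_of_pos_right hx1 hsd⟩
    simp only at h8 ⊢
    rw [sc_add hs, e]
    gcongr

theorem Coex.unscale {s : ℝ} (hs : 0 < s) {g : ℝ → ℝ} {b r x1 x2 : ℝ}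
    (h : Coex (fun x => sc d s g x + b / 2 * x ^ 2) (r / s ^ d) x1 x2) :
    Coex (fun x => g x + b / s ^ d / 2 * x ^ 2) r (x1 * s ^ d) (x2 * s ^ d) := by
  have hsd : 0 < s ^ d := by positivity
  obtain ⟨h1, h2, h3, m, q, h4, h5, h6, h7⟩ := h
  rw [lt_div_iff₀ hsd] at h3
  have e : ∀ y : ℝ, g y + b / s ^ d / 2 * y ^ 2 =
      s ^ d * (sc d s g (y / s ^ d) + b / 2 * (y / s ^ d) ^ 2) - d * Real.log s * y := by
    intro y
    rw [sc_add hs, div_mul_cancel₀ _ hsd.ne']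
    field_simp
    ring
  have e2 : ∀ y : ℝ, (m - d * Real.log s) * y + q * s ^ d =
      s ^ d * (m * (y / s ^ d) + q) - d * Real.log s * y := by
    intro y
    field_simp
    ring
  refine ⟨mul_pos h1 hsd, mul_lt_mul_of_pos_right h2 hsd, h3, m - d * Real.log s, q * s ^ d,
    ?_, ?_, ?_, ?_⟩
  · rintro y ⟨hy0, hy1⟩
    have h8 := h4 (y / s ^ d) ⟨by positivity, by gcongr⟩
    simp only at h8 ⊢
    rw [e, e2]
    gcongr
  · simp only at h5 ⊢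
    rw [e, e2, mul_div_cancel_right₀ _ hsd.ne', h5]
  · simp only at h6 ⊢
    rw [e, e2, mul_div_cancel_right₀ _ hsd.ne', h6]
  · rintro y ⟨hy0, hy1⟩
    have h8 := h7 (y / s ^ d) ⟨by rwa [lt_div_iff₀ hsd], by rwa [div_lt_iff₀ hsd]⟩
    simp only at h8 ⊢
    rw [e, e2]
    gcongr

theorem concave_scale {s : ℝ} (hs : 0 < s) {g : ℝ → ℝ} {b r : ℝ}
    (h : ConcaveOn ℝ (Set.Ioo 0 r) fun x => g x + b / s ^ d / 2 * x ^ 2) :
    ConcaveOn ℝ (Set.Ioo 0 (r / s ^ d)) fun x => sc d s g x + b / 2 * x ^ 2 := by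
  have hsd : 0 < s ^ d := by positivity
  refine ⟨convex_Ioo _ _, ?_⟩
  rintro x ⟨hx0, hx1⟩ y ⟨hy0, hy1⟩ α β hα hβ hαβ
  rw [lt_div_iff₀ hsd] at hx1 hy1
  have h1 := h.2 (x := x * s ^ d) ⟨mul_pos hx0 hsd, hx1⟩ (y := y * s ^ d)
    ⟨mul_pos hy0 hsd, hy1⟩ hα hβ hαβ
  simp only [smul_eq_mul] at h1 ⊢
  rw [sc_add hs, sc_add hs, sc_add hs]
  have e1 : (α * x + β * y) * s ^ d = α * (x * s ^ d) + β * (y * s ^ d) := by ring
  rw [e1]
  have e2 : α * (x * (d * Real.log s) + (g (x * s ^ d) + b / s ^ d / 2 * (x * s ^ d) ^ 2) / s ^ d) +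
      β * (y * (d * Real.log s) + (g (y * s ^ d) + b / s ^ d / 2 * (y * s ^ d) ^ 2) / s ^ d) =
      (α * x + β * y) * (d * Real.log s) +
      (α * (g (x * s ^ d) + b / s ^ d / 2 * (x * s ^ d) ^ 2) +
        β * (g (y * s ^ d) + b / s ^ d / 2 * (y * s ^ d) ^ 2)) / s ^ d := by
    ring
  rw [e2]
  gcongr

end Scale

/-- Normalisation of the interaction. -/
theorem norm_ad {d : ℕ} {J : (Fin d → ℝ) → ℝ} (hJm : Measurable J)
    (hJc : ∀ᵐ x, ContinuousAt J x) (hJ0 : ∀ x, 0 ≤ J x) (hJe : ∀ x, J (-x) = J x)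
    {C R : ℝ} (hC : 0 < C) (hR : 0 < R) (hJC : ∀ x, J x ≤ C)
    (hJR : ∀ x, J x ≠ 0 → ∀ k, |x k| ≤ R) :
    Ad (fun x => C⁻¹ * J (R • x)) ∧ (∀ᵐ x, ContinuousAt (fun x => C⁻¹ * J (R • x)) x) ∧
      ∫ x, C⁻¹ * J (R • x) = C⁻¹ * ((R ^ d)⁻¹ * ∫ x, J x) := by
  refine ⟨⟨?_, fun x => ?_, fun x => ?_, fun x => ?_, fun x hx k => ?_⟩, ?_, ?_⟩
  · exact (hJm.comp (measurable_const_smul R)).const_mul _
  · exact mul_nonneg (inv_nonneg.2 hC.le) (hJ0 _)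
  · rw [inv_mul_le_iff₀ hC, mul_one]
    exact hJC _
  · simp only [smul_neg, hJe]
  · have h1 : J (R • x) ≠ 0 := fun h => hx (by simp only [h, mul_zero])
    have h2 := hJR _ h1 k
    rw [Pi.smul_apply, smul_eq_mul, abs_mul, abs_of_pos hR] at h2
    have h3 : R * |x k| ≤ R * 1 := by rwa [mul_one]
    exact le_of_mul_le_mul_left h3 hR
  · have h1 : Measure.QuasiMeasurePreserving (fun x : Fin d → ℝ => R • x) volume volume := by
      refine ⟨measurable_const_smul R, ?_⟩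
      rw [Measure.map_addHaar_smul volume hR.ne']
      exact Measure.smul_absolutelyContinuous
    have h2 := h1.ae hJc
    filter_upwards [h2] with x hx
    have h3 : ContinuousAt (fun y : Fin d → ℝ => R • y) x := by fun_prop
    have h4 : ContinuousAt (J ∘ fun y : Fin d → ℝ => R • y) x := ContinuousAt.comp hx h3
    exact continuousAt_const.mul h4
  · rw [integral_const_mul, Measure.integral_comp_smul volume J R]
    simp only [Module.finrank_fintype_fun_eq_card, Fintype.card_fin, smul_eq_mul]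
    rw [abs_of_pos (by positivity)]

/-- Van der Waals theory for hard spheres with a Kac interaction of finite range. -/
theorem main (d : ℕ) (hd : 2 ≤ d) (a : ℝ) (ha : 0 < a) :
    ∃ (f : ℝ → ℝ) (ρ₀ bc : ℝ), IsF d a (fun _ => 0) f ρ₀ ∧ 0 ≤ bc ∧
      (∀ b : ℝ, b < bc → ConcaveOn ℝ (Set.Ioo 0 ρ₀) fun x => f x + b / 2 * x ^ 2) ∧
      (∀ b : ℝ, bc < b → ∃ x1 x2 : ℝ, Coex (fun x => f x + b / 2 * x ^ 2) ρ₀ x1 x2) ∧
      ∀ J : (Fin d → ℝ) → ℝ, Measurable J → (∀ᵐ x, ContinuousAt J x) → (∀ x, 0 ≤ J x) →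
        (∃ C, ∀ x, J x ≤ C) → (∀ x, J (-x) = J x) → (∃ R, ∀ x, J x ≠ 0 → ∀ k, |x k| ≤ R) →
        0 < ∫ x, J x → ∀ᵐ β : ℝ, 0 < β → ∀ x1 x2 : ℝ,
          Coex (fun x => f x + β * (∫ x, J x) / 2 * x ^ 2) ρ₀ x1 x2 → ∀ δ : ℝ, 0 < δ →
            ∃ γ0 : ℝ, 0 < γ0 ∧ ∀ γ : ℝ, 0 < γ → γ < γ0 →
              TransitionNear d a (fun x => β * γ ^ d * J (γ • x)) ρ₀ x1 x2 δ := by
  obtain ⟨f, r, hf, hfc, h0, h1⟩ := exists_F (d := d) (by omega)
  obtain ⟨bc, hbc0, hbc1, hbc2⟩ := exists_bc hf.1 hfc h0 h1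
  obtain ⟨s, hs, hsa⟩ : ∃ s : ℝ, 0 < s ∧ a / s = 1 / 2 :=
    ⟨2 * a, by positivity, by field_simp⟩
  have hsd : 0 < s ^ d := by positivity
  refine ⟨sc d s f, r / s ^ d, bc * s ^ d, ?_, by positivity, ?_, ?_, ?_⟩
  · refine IsF.scale hs ?_
    rw [hsa]
    exact hf
  · intro b hb
    refine concave_scale hs (hbc1 _ ?_)
    rwa [div_lt_iff₀ hsd]
  · intro b hb
    obtain ⟨x1, x2, hx⟩ := hbc2 (b / s ^ d) (by rwa [lt_div_iff₀ hsd])
    refine ⟨x1 / s ^ d, x2 / s ^ d, Coex.scale hs ?_⟩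
    rw [div_mul_cancel₀ _ hsd.ne', div_mul_cancel₀ _ hsd.ne']
    exact hx
  · intro J hJm hJc hJ0 hJb hJe hJs hJp
    obtain ⟨C0, hC0⟩ := hJb
    obtain ⟨R0, hR0⟩ := hJs
    obtain ⟨C, hC, hJC⟩ : ∃ C : ℝ, 0 < C ∧ ∀ x, J x ≤ C :=
      ⟨max C0 1, lt_max_of_lt_right one_pos, fun x => (hC0 x).trans (le_max_left _ _)⟩
    obtain ⟨R, hR, hJR⟩ : ∃ R : ℝ, 0 < R ∧ ∀ x, J x ≠ 0 → ∀ k, |x k| ≤ R :=
      ⟨max R0 1, lt_max_of_lt_right one_pos, fun x hx k => (hR0 x hx k).trans (le_max_left _ _)⟩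
    obtain ⟨hAd, hAc, hAi⟩ := norm_ad hJm hJc hJ0 hJe hC hR hJC hJR
    have hgr := ae_growth (hfc.continuousOn isOpen_Ioo)
    obtain ⟨κ, hκ, hκdef⟩ : ∃ κ : ℝ, 0 < κ ∧ κ = (∫ x, J x) / s ^ d := ⟨_, by positivity, rfl⟩
    have hq : Measure.QuasiMeasurePreserving (fun β : ℝ => κ * β) volume volume := by
      refine ⟨measurable_const_mul κ, ?_⟩
      rw [Real.map_volume_mul_left hκ.ne']
      exact Measure.smul_absolutelyContinuous
    have hgr2 := hq.ae hgr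
    filter_upwards [hgr2] with β hβg hβ x1 x2 hx δ hδ
    have hx' := Coex.unscale hs hx
    have hb : β * (∫ x, J x) / s ^ d = κ * β := by rw [hκdef]; ring
    rw [hb] at hx'
    obtain ⟨m, q, c, hc, g1, g2, g3⟩ := hβg _ _ hx'
    obtain ⟨y1, y2, y3, -⟩ := hx'
    obtain ⟨β', hβ', hβdef⟩ : ∃ β' : ℝ, 0 < β' ∧ β' = β * C * (R / s) ^ d := ⟨_, by positivity, rfl⟩
    have hAp : 0 < ∫ x, C⁻¹ * J (R • x) := by
      rw [hAi]
      positivity
    have hbb : β' * (∫ x, C⁻¹ * J (R • x)) = κ * β := by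
      rw [hAi, hβdef, hκdef, div_pow]
      field_simp
    rw [← hbb] at g1 g2 g3
    obtain ⟨γ0, hγ0, hmain⟩ := main1 d hd hAd hAc hAp hf hfc hβ' y1 y2 y3 hc g1 g2 g3
      (δ := δ * s ^ d) (by positivity)
    refine ⟨γ0 * R / s, by positivity, fun γ hγ hγ1 => ?_⟩
    refine TransitionNear.scale hs ?_
    rw [hsa]
    have hγ2 : γ * s / R < γ0 := by
      rw [lt_div_iff₀ hs] at hγ1
      rwa [div_lt_iff₀ hR]
    have h2 := hmain (γ * s / R) (by positivity) hγ2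
    have h3 : (fun x : Fin d → ℝ => β' * (γ * s / R) ^ d *
        ((fun x => C⁻¹ * J (R • x)) ((γ * s / R) • x))) =
        fun x => β * γ ^ d * J (γ • s • x) := by
      funext x
      simp only
      rw [smul_smul, smul_smul, mul_div_cancel₀ _ hR.ne', hβdef, div_pow, div_pow, mul_pow]
      field_simp
    rw [← h3]
    exact h2

end Pool.Agent.Vdw
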