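import Pool.Agent.Lib.MP_09cbbd_vw.Hs

/-!
# The free energy of hard spheres and finite boxes
-/

set_option autoImplicit false

namespace Pool.Agent.Vdw

open MeasureTheory Filter Topology Pool.Agent.StableGas Pool.Agent.SquareWellGas Pool.Agent.KacGas
  Pool.Agent.VdwGas

variable {d : ℕ}

theorem hs_U0 : Kac.Can.U0 (fun _ : Fin d → ℝ => (0 : ℝ)) 0 where
  meas := measurable_const
  nonneg _ := le_rfl
  le _ := le_rfl
  even _ := rfl

theorem hs_mono {s t : ℝ} (h : s ≤ t) (N : ℕ) :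
    Z d (1 / 2) (fun _ => 0) s N ≤ Z d (1 / 2) (fun _ => 0) t N := by
  rw [Kac.Can.Z_eq hs_U0, Kac.Can.Z_eq hs_U0]
  exact Kac.Can.zc_mono hs_U0 (Kac.Can.Box_mono h) (Kac.Can.volume_Box_ne _) N

theorem hs_pow {ℓ : ℝ} (hℓ : 0 < ℓ) (m n : ℕ) {s : ℝ} (hs : m * (ℓ + 1) - 1 ≤ s) :
    Z d (1 / 2) (fun _ => 0) ℓ n ^ (m ^ d) ≤ Z d (1 / 2) (fun _ => 0) s (m ^ d * n) := by
  refine le_trans ?_ (hs_mono hs _)
  have h := Kac.Can.can_super (d := d) (ℓ := ℓ + 1) hs_U0 (by linarith) 1 m m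
    (List.replicate (m ^ d) n) le_rfl (by omega) (by simp)
  rw [List.map_replicate, List.prod_replicate, List.sum_replicate, smul_eq_mul] at h
  rw [Kac.Can.Z_eq hs_U0, Kac.Can.Z_eq hs_U0]
  have e1 : ((1 : ℕ) : ℝ) * (ℓ + 1) - 1 = ℓ := by
    rw [Nat.cast_one]; ring
  rw [e1] at h
  exact h

/-- Exact upper bound for the partition function of a finite box. -/
theorem super_F (hd : 1 ≤ d) {f : ℝ → ℝ} {r : ℝ} (hf : IsF d (1 / 2) (fun _ => 0) f r) {ℓ : ℝ}
    (hℓ : 1 < ℓ) {n : ℕ} (hn : 1 ≤ n) (hZ : 0 < Z d (1 / 2) (fun _ => 0) ℓ n) :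
    (n : ℝ) / (ℓ + 2) ^ d ∈ Set.Ioo 0 r ∧
      Real.log (Z d (1 / 2) (fun _ => 0) ℓ n) ≤ (ℓ + 2) ^ d * f (n / (ℓ + 2) ^ d) := by
  have hn' : (0 : ℝ) < n := by exact_mod_cast hn
  have hd0 : d ≠ 0 := by omega
  have hlim : ∀ c : ℝ, 0 < c → Tendsto (fun j : ℕ => ((j : ℝ) + 1) * c) atTop atTop := by
    intro c hc
    have h1 : Tendsto (fun j : ℕ => (j : ℝ) + 1) atTop atTop :=
      tendsto_atTop_add_const_right _ _ tendsto_natCast_atTop_atTop
    exact h1.atTop_mul_const hc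
  have hrat : ∀ c : ℝ, 0 < c → ∀ j : ℕ, (((j + 1) ^ d * n : ℕ) : ℝ) / (((j : ℝ) + 1) * c) ^ d =
      n / c ^ d := by
    intro c hc j
    have h1 : (0 : ℝ) < (j : ℝ) + 1 := by positivity
    push_cast
    rw [mul_pow]
    field_simp
  have hpow : ∀ (j : ℕ) (s : ℝ), ((j : ℝ) + 1) * (ℓ + 1) - 1 ≤ s →
      Z d (1 / 2) (fun _ => 0) ℓ n ^ ((j + 1) ^ d) ≤
        Z d (1 / 2) (fun _ => 0) s ((j + 1) ^ d * n) := by
    intro j s hs
    refine hs_pow (by linarith) (j + 1) n ?_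
    push_cast
    exact hs
  have hr : (n : ℝ) / (ℓ + 1) ^ d ≤ r := by
    by_contra hcon
    push Not at hcon
    have h1 := (hf.2 (fun j => ((j : ℝ) + 1) * (ℓ + 1)) (fun j => (j + 1) ^ d * n)
      (n / (ℓ + 1) ^ d) (hlim _ (by linarith)) (by
        simp only [hrat (ℓ + 1) (by linarith)]
        exact tendsto_const_nhds)).2 hcon
    obtain ⟨j, hj⟩ := h1.exists
    have h2 := hpow j (((j : ℝ) + 1) * (ℓ + 1)) (by linarith)
    rw [hj] at h2
    exact absurd (pow_pos hZ ((j + 1) ^ d)) (not_lt.2 h2)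
  have hmem : (n : ℝ) / (ℓ + 2) ^ d ∈ Set.Ioo 0 r := by
    refine ⟨by positivity, lt_of_lt_of_le ?_ hr⟩
    apply div_lt_div_of_pos_left hn' (by positivity)
    exact pow_lt_pow_left₀ (by linarith) (by linarith) hd0
  refine ⟨hmem, ?_⟩
  have h1 := ((hf.2 (fun j => ((j : ℝ) + 1) * (ℓ + 2)) (fun j => (j + 1) ^ d * n)
      (n / (ℓ + 2) ^ d) (hlim _ (by linarith)) (by
        simp only [hrat (ℓ + 2) (by linarith)]
        exact tendsto_const_nhds)).1 hmem).2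
  have h2 : Real.log (Z d (1 / 2) (fun _ => 0) ℓ n) / (ℓ + 2) ^ d ≤ f (n / (ℓ + 2) ^ d) := by
    refine ge_of_tendsto h1 (Eventually.of_forall fun j => ?_)
    have h3 : (0 : ℝ) < (j : ℝ) + 1 := by positivity
    have h4 := hpow j (((j : ℝ) + 1) * (ℓ + 2)) (by nlinarith)
    have h5 := Real.log_le_log (pow_pos hZ _) h4
    rw [Real.log_pow] at h5
    have hℓ2 : (0 : ℝ) < ℓ + 2 := by linarith
    rw [mul_pow, div_le_div_iff₀ (by positivity) (by positivity)]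
    push_cast at h5
    calc Real.log (Z d (1 / 2) (fun _ => 0) ℓ n) * (((j : ℝ) + 1) ^ d * (ℓ + 2) ^ d)
        = (((j : ℝ) + 1) ^ d * Real.log (Z d (1 / 2) (fun _ => 0) ℓ n)) * (ℓ + 2) ^ d := by ring
      _ ≤ _ := mul_le_mul_of_nonneg_right h5 (by positivity)
  have hℓ2 : (0 : ℝ) < (ℓ + 2) ^ d := by
    have : (0 : ℝ) < ℓ + 2 := by linarith
    positivity
  rw [div_le_iff₀ hℓ2] at h2
  linarith

/-- Approximation by finite boxes. -/
theorem approx_F (hd : 1 ≤ d) {f : ℝ → ℝ} {r : ℝ} (hf : IsF d (1 / 2) (fun _ => 0) f r) {x : ℝ}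
    (hx : x ∈ Set.Ioo 0 r) {ε : ℝ} (hε : 0 < ε) : ∃ ℓ0 : ℝ, ∀ ℓ : ℝ, ℓ0 ≤ ℓ →
      ∃ n : ℕ, |(n : ℝ) / (ℓ + 2) ^ d - x| ≤ ε ∧ 0 < Z d (1 / 2) (fun _ => 0) (ℓ - 2) n ∧
        (ℓ + 2) ^ d * (f x - ε) ≤ Real.log (Z d (1 / 2) (fun _ => 0) (ℓ - 2) n) := by
  have hd0 : d ≠ 0 := by omega
  by_contra hcon
  push Not at hcon
  choose L hL1 hL2 using fun j : ℕ => hcon ((j : ℝ) + 3)
  have hLpos : ∀ j, 3 ≤ L j := fun j => by
    have := hL1 j
    have h2 : (0 : ℝ) ≤ j := Nat.cast_nonneg j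
    linarith
  have hLinf : Tendsto L atTop atTop := by
    refine tendsto_atTop_mono hL1 ?_
    exact tendsto_atTop_add_const_right _ _ tendsto_natCast_atTop_atTop
  have hL2inf : Tendsto (fun j => L j - 2) atTop atTop := by
    have := tendsto_atTop_add_const_right atTop (-2 : ℝ) hLinf
    simpa [sub_eq_add_neg] using this
  have hLp : Tendsto (fun j => L j + 2) atTop atTop := tendsto_atTop_add_const_right _ _ hLinf
  have hLpd : Tendsto (fun j => (L j + 2) ^ d) atTop atTop :=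
    (tendsto_pow_atTop hd0).comp hLp
  -- the ratio
  have hratio : Tendsto (fun j => (L j - 2) / (L j + 2)) atTop (𝓝 1) := by
    have h1 : Tendsto (fun j => 1 - 4 * (L j + 2)⁻¹) atTop (𝓝 (1 - 4 * 0)) :=
      tendsto_const_nhds.sub ((tendsto_inv_atTop_zero.comp hLp).const_mul 4)
    rw [mul_zero, sub_zero] at h1
    refine h1.congr fun j => ?_
    have h2 : L j + 2 ≠ 0 := by have := hLpos j; linarith
    field_simp
    ring
  have hratd : Tendsto (fun j => ((L j - 2) / (L j + 2)) ^ d) atTop (𝓝 1) := by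
    have := hratio.pow d
    rwa [one_pow] at this
  obtain ⟨N, hN⟩ : ∃ N : ℕ → ℕ, N = fun j => ⌊x * (L j + 2) ^ d⌋₊ := ⟨_, rfl⟩
  have hNlim : Tendsto (fun j => (N j : ℝ) / (L j + 2) ^ d) atTop (𝓝 x) := by
    have h1 : Tendsto (fun j => x - ((L j + 2) ^ d)⁻¹) atTop (𝓝 (x - 0)) :=
      tendsto_const_nhds.sub (tendsto_inv_atTop_zero.comp hLpd)
    rw [sub_zero] at h1
    refine tendsto_of_tendsto_of_tendsto_of_le_of_le h1 tendsto_const_nhds ?_ ?_
    · intro j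
      have h2 : (0 : ℝ) < (L j + 2) ^ d := by
        have := hLpos j
        have h3 : (0 : ℝ) < L j + 2 := by linarith
        positivity
      have h3 := Nat.lt_floor_add_one (x * (L j + 2) ^ d)
      change x - ((L j + 2) ^ d)⁻¹ ≤ (N j : ℝ) / (L j + 2) ^ d
      rw [le_div_iff₀ h2, sub_mul, inv_mul_cancel₀ h2.ne', hN]
      linarith
    · intro j
      have h2 : (0 : ℝ) < (L j + 2) ^ d := by
        have := hLpos j
        have h3 : (0 : ℝ) < L j + 2 := by linarith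
        positivity
      change (N j : ℝ) / (L j + 2) ^ d ≤ x
      rw [div_le_iff₀ h2, hN]
      exact Nat.floor_le (mul_nonneg hx.1.le h2.le)
  have hN2 : Tendsto (fun j => (N j : ℝ) / (L j - 2) ^ d) atTop (𝓝 x) := by
    have h1 := hNlim.div hratd one_ne_zero
    rw [div_one] at h1
    refine h1.congr fun j => ?_
    have h2 : L j + 2 ≠ 0 := by have := hLpos j; linarith
    have h3 : L j - 2 ≠ 0 := by have := hLpos j; linarith
    simp only [Pi.div_apply]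
    rw [div_pow]
    field_simp
  obtain ⟨h1, h2⟩ := (hf.2 (fun j => L j - 2) N x hL2inf hN2).1 hx
  have h3 : Tendsto (fun j => Real.log (Z d (1 / 2) (fun _ => 0) (L j - 2) (N j)) / (L j + 2) ^ d)
      atTop (𝓝 (f x)) := by
    have h4 := h2.mul hratd
    rw [mul_one] at h4
    refine h4.congr fun j => ?_
    have h5 : L j + 2 ≠ 0 := by have := hLpos j; linarith
    have h6 : L j - 2 ≠ 0 := by have := hLpos j; linarith
    rw [div_pow]
    field_simp
  have h4 : ∀ᶠ j in atTop, f x - ε <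
      Real.log (Z d (1 / 2) (fun _ => 0) (L j - 2) (N j)) / (L j + 2) ^ d :=
    h3.eventually (lt_mem_nhds (by linarith))
  have h5 : ∀ᶠ j in atTop, |(N j : ℝ) / (L j + 2) ^ d - x| < ε := by
    have := (Metric.tendsto_nhds.1 hNlim) ε hε
    simpa [Real.dist_eq] using this
  obtain ⟨j, hj1, hj2, hj3⟩ := (h1.and (h4.and h5)).exists
  have h6 := hL2 j (N j) hj3.le hj1
  have h7 : (0 : ℝ) < (L j + 2) ^ d := by
    have := hLpos j
    have h3 : (0 : ℝ) < L j + 2 := by linarith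
    positivity
  rw [lt_div_iff₀ h7] at hj2
  linarith

theorem hs_one {ℓ : ℝ} (hℓ : 1 ≤ ℓ) : 1 ≤ Z d (1 / 2) (fun _ => 0) ℓ 1 := by
  unfold Z
  have hS : {x : Fin 1 → Fin d → ℝ | (∀ i, x i ∈ Box d ℓ) ∧
      ∀ i j, i ≠ j → (2 * (1 / 2) : ℝ) ^ 2 ≤ ∑ k, (x i k - x j k) ^ 2} =
      Set.pi Set.univ fun _ => Box d ℓ := by
    ext x
    simp only [Set.mem_ofPred_eq, Set.mem_pi, Set.mem_univ, true_imp_iff]
    constructor
    · rintro ⟨h, _⟩
      exact h
    · intro h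
      exact ⟨h, fun i j hij => absurd (Subsingleton.elim i j) hij⟩
  rw [hS]
  simp only [Finset.sum_const_zero, Real.exp_zero, integral_const, smul_eq_mul, mul_one,
    Nat.factorial_one, Nat.cast_one, inv_one, one_mul]
  rw [measureReal_restrict_apply MeasurableSet.univ, Set.univ_inter, Measure.real, volume_pi_pi]
  simp only [Finset.univ_unique, Finset.prod_singleton]
  rw [Kac.Can.volume_Box, ENNReal.toReal_pow, ENNReal.toReal_ofReal (by linarith)]
  exact one_le_pow₀ hℓ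

/-- The free energy is nonnegative near zero. -/
theorem F_zero (hd : 1 ≤ d) {f : ℝ → ℝ} {r : ℝ} (hf : IsF d (1 / 2) (fun _ => 0) f r) :
    ∃ y : ℝ, 0 < y ∧ ∀ x ∈ Set.Ioo 0 y, 0 ≤ f x := by
  have hd0 : (d : ℝ) ≠ 0 := by
    have : d ≠ 0 := by omega
    exact_mod_cast this
  refine ⟨(1 / 3) ^ d, by positivity, ?_⟩
  rintro x ⟨hx1, hx2⟩
  obtain ⟨t, ht⟩ : ∃ t : ℝ, t = x ^ (-(1 / (d : ℝ))) := ⟨_, rfl⟩
  have htd : t ^ d = x⁻¹ := by
    rw [ht, ← Real.rpow_natCast, ← Real.rpow_mul hx1.le]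
    have : -(1 / (d : ℝ)) * d = -1 := by field_simp
    rw [this, Real.rpow_neg_one]
  have ht0 : 0 < t := by
    rw [ht]
    exact Real.rpow_pos_of_pos hx1 _
  have ht3 : 3 < t := by
    by_contra hcon
    push Not at hcon
    have h1 : t ^ d ≤ 3 ^ d := pow_le_pow_left₀ ht0.le hcon d
    rw [htd] at h1
    have h2 : (3 : ℝ) ^ d < x⁻¹ := by
      rw [lt_inv_comm₀ (by positivity) hx1]
      rw [one_div, inv_pow] at hx2
      exact hx2
    linarith
  have h1 := hs_one (d := d) (ℓ := t - 2) (by linarith)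
  have h2 := super_F hd hf (ℓ := t - 2) (by linarith) (n := 1) le_rfl (by linarith)
  rw [sub_add_cancel] at h2
  have h3 : ((1 : ℕ) : ℝ) / t ^ d = x := by
    rw [htd, Nat.cast_one, one_div, inv_inv]
  rw [h3] at h2
  have h4 := Real.log_nonneg h1
  have h5 : 0 ≤ t ^ d * f x := h4.trans h2.2
  have h6 : 0 < t ^ d := by positivity
  exact nonneg_of_mul_nonneg_right h5 h6

end Pool.Agent.Vdw
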