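import Mathlib

/-!
# Selection of a layer
-/

set_option autoImplicit false

namespace Pool.Agent.Vdw

/-- Selection of a term which is small compared with the sum of the previous ones. -/
theorem select {η ξ R : ℝ} (hη : 0 < η) (hξ : 0 < ξ) {m : ℕ}
    (hm : R < (1 + η) ^ m * ξ) (T : ℕ → ℝ) (hT : ∀ i, 0 ≤ T i) {X : ℝ} (hX : 0 ≤ X)
    (hsum : ∑ i ∈ Finset.range (2 * m + 4), T i ≤ R * X) :
    ∃ κ, 1 ≤ κ ∧ κ ≤ 2 * m + 3 ∧ T κ ≤ η * ∑ i ∈ Finset.range (κ - 1), T i + ξ * X := by
  by_contra hcon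
  push Not at hcon
  have hS0 : ∀ k, 0 ≤ ∑ i ∈ Finset.range k, T i := fun k => Finset.sum_nonneg fun i _ => hT i
  have key : ∀ j, j ≤ m → (1 + η) ^ j * ξ * X < ∑ i ∈ Finset.range (2 * j + 2), T i := by
    intro j
    induction j with
    | zero =>
      intro _
      have h1 := hcon 1 le_rfl (by omega)
      simp only [Nat.sub_self, Finset.range_zero, Finset.sum_empty, mul_zero, zero_add] at h1
      rw [Finset.sum_range_succ, Finset.sum_range_one, pow_zero, one_mul]
      have := hT 0
      linarith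
    | succ j ih =>
      intro hj
      have h1 := ih (by omega)
      have h2 := hcon (2 * j + 3) (by omega) (by omega)
      have e1 : 2 * j + 3 - 1 = 2 * j + 2 := by omega
      rw [e1] at h2
      have e2 : 2 * (j + 1) + 2 = 2 * j + 2 + 1 + 1 := by ring
      rw [e2, Finset.sum_range_succ, Finset.sum_range_succ]
      have h3 := hT (2 * j + 2)
      have h4 : (1 + η) ^ (j + 1) * ξ * X ≤ (1 + η) * ∑ i ∈ Finset.range (2 * j + 2), T i := by
        calc (1 + η) ^ (j + 1) * ξ * X = (1 + η) * ((1 + η) ^ j * ξ * X) := by ring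
          _ ≤ _ := mul_le_mul_of_nonneg_left h1.le (by linarith)
      have h5 : 0 ≤ ξ * X := by positivity
      have h6 : T (2 * j + 3) = T (2 * j + 2 + 1) := rfl
      rw [h6] at h2
      linarith
  have h1 := key m le_rfl
  have h2 : ∑ i ∈ Finset.range (2 * m + 2), T i ≤ ∑ i ∈ Finset.range (2 * m + 4), T i :=
    Finset.sum_le_sum_of_subset_of_nonneg (Finset.range_mono (by omega)) fun i _ _ => hT i
  have h3 : R * X ≤ (1 + η) ^ m * ξ * X := mul_le_mul_of_nonneg_right hm.le hX
  linarith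

end Pool.Agent.Vdw
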