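import Pool.Agent.Lib.MP_09cbbd_vw.Coer

/-!
# Small values of the functional
-/

set_option autoImplicit false

namespace Pool.Agent.Vdw

open Finset Pool.Agent.StableGas Pool.Agent.Kac
open Pool.Agent.SquareWell hiding Md cut

variable {d : ℕ}

theorem abs_le_sq {lam : ℝ} (hlam : 0 < lam) (y : ℝ) : |y| ≤ lam + y ^ 2 / (4 * lam) := by
  have h1 : 0 ≤ (|y| - 2 * lam) ^ 2 := sq_nonneg _
  have h2 : |y| ^ 2 = y ^ 2 := sq_abs y
  have h3 : lam + y ^ 2 / (4 * lam) - |y| = (|y| - 2 * lam) ^ 2 / (4 * lam) := by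
    rw [← h2]
    field_simp
    ring
  have h4 : 0 ≤ (|y| - 2 * lam) ^ 2 / (4 * lam) := div_nonneg h1 (by linarith)
  linarith

/-- Summation of the coercivity bound over blocks. -/
theorem mass_aux {P : Par} (hP : P.Ok) {δ C1 τ : ℝ} (hδ : 0 < δ) (hC1 : 0 < C1)
    (hτ : τ = δ ^ 2 / (C1 * (2 * ((P.m0 : ℝ) + 1) + 1) ^ d)) {k : ℕ} {S : Finset (Zd d)}
    {j : Zd d → ℝ} (hJ : Jok P k S j) {A : Finset (Zd d)} {x : Zd d → ℝ} {ρ : ℝ}
    (hen : en P S j (lift k A) (lift k A) x ≤ τ * (lift k A).card) {F : Finset (Zd d)}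
    (hF : F ⊆ A) (hb : ∀ p ∈ F, ∑ i ∈ blk k p, (x i - ρ) ^ 2 ≤
      C1 * en P S j (lift k A) (lift k (ball (P.m0 + 1) p ∩ A)) x) :
    ∑ p ∈ F, ∑ i ∈ blk k p, |x i - ρ| ≤ δ * (lift k A).card := by
  classical
  set W : ℝ := (2 * ((P.m0 : ℝ) + 1) + 1) ^ d with hW
  have hW0 : 0 < W := by positivity
  have hk0 : (0 : ℝ) ≤ (k : ℝ) ^ d := by positivity
  have hcard : ((lift k A).card : ℝ) = (k : ℝ) ^ d * A.card := by
    rw [card_lift]
    push_cast
    ring
  have h1 : ∑ p ∈ F, ∑ i ∈ blk k p, (x i - ρ) ^ 2 ≤ C1 * (W * (τ * (lift k A).card)) := by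
    have h2 := en_balls hP hJ A (lift k A) x F (P.m0 + 1)
      (fun p _ => lift_subset Finset.inter_subset_right)
    calc ∑ p ∈ F, ∑ i ∈ blk k p, (x i - ρ) ^ 2
        ≤ ∑ p ∈ F, C1 * en P S j (lift k A) (lift k (ball (P.m0 + 1) p ∩ A)) x :=
          Finset.sum_le_sum hb
      _ = C1 * ∑ p ∈ F, en P S j (lift k A) (lift k (ball (P.m0 + 1) p ∩ A)) x := by
          rw [Finset.mul_sum]
      _ ≤ C1 * (W * en P S j (lift k A) (lift k A) x) := by
          refine mul_le_mul_of_nonneg_left (h2.trans (le_of_eq ?_)) hC1.le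
          rw [hW]
          push_cast
          ring
      _ ≤ C1 * (W * (τ * (lift k A).card)) :=
          mul_le_mul_of_nonneg_left (mul_le_mul_of_nonneg_left hen hW0.le) hC1.le
  have h3 : C1 * (W * (τ * (lift k A).card)) = δ ^ 2 * (lift k A).card := by
    rw [hτ]
    field_simp
  have h4 : (F.card : ℝ) ≤ A.card := by exact_mod_cast Finset.card_le_card hF
  calc ∑ p ∈ F, ∑ i ∈ blk k p, |x i - ρ|
      ≤ ∑ p ∈ F, ∑ i ∈ blk k p, (δ / 2 + (x i - ρ) ^ 2 / (4 * (δ / 2))) :=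
        Finset.sum_le_sum fun p _ => Finset.sum_le_sum fun i _ => abs_le_sq (by linarith) _
    _ = δ / 2 * ((k : ℝ) ^ d * F.card) +
        (∑ p ∈ F, ∑ i ∈ blk k p, (x i - ρ) ^ 2) / (4 * (δ / 2)) := by
        have h5 : ∀ p ∈ F, ∑ i ∈ blk k p, (δ / 2 + (x i - ρ) ^ 2 / (4 * (δ / 2))) =
            δ / 2 * (k : ℝ) ^ d + (∑ i ∈ blk k p, (x i - ρ) ^ 2) / (4 * (δ / 2)) := by
          intro p _
          rw [Finset.sum_add_distrib, Finset.sum_const, card_blk, nsmul_eq_mul, Finset.sum_div]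
          push_cast
          ring
        rw [Finset.sum_congr rfl h5, Finset.sum_add_distrib, Finset.sum_const, nsmul_eq_mul,
          Finset.sum_div]
        ring
    _ ≤ δ / 2 * ((k : ℝ) ^ d * A.card) + (δ ^ 2 * (lift k A).card) / (4 * (δ / 2)) := by
        refine add_le_add ?_ ?_
        · exact mul_le_mul_of_nonneg_left (mul_le_mul_of_nonneg_left h4 hk0) (by linarith)
        · refine div_le_div_of_nonneg_right ?_ (by linarith)
          rw [← h3]
          exact h1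
    _ = δ * (lift k A).card := by
        rw [← hcard]
        field_simp
        ring

/-- Small functional: the density is close to the density of the phase on most cells. -/
theorem mass {P : Par} (hP : P.Ok) {z : ℝ} (hz : 0 < z) (hz2 : 16 * z ≤ (P.xb - P.xa) ^ 2)
    {δ : ℝ} (hδ : 0 < δ) :
    ∃ τ : ℝ, 0 < τ ∧ ∀ (k : ℕ) (S : Finset (Zd d)) (j : Zd d → ℝ), Jok P k S j →
      ∀ (A : Finset (Zd d)) (x : Zd d → ℝ), (∀ i, 0 ≤ x i) → (∀ i, x i ≤ P.R) →
      (∀ i, i ∉ lift k A → x i = 0) →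
      en P S j (lift k A) (lift k A) x ≤ τ * (lift k A).card →
      ∀ F : Finset (Zd d), ((∀ p ∈ F, Dq P z k A x p) →
        ∑ p ∈ F, ∑ i ∈ blk k p, |x i - P.xb| ≤ δ * (lift k A).card) ∧
      ((∀ p ∈ F, p ∈ A ∧ Vq P z k A x p) →
        ∑ p ∈ F, ∑ i ∈ blk k p, |x i - P.xa| ≤ δ * (lift k A).card) := by
  classical
  obtain ⟨C1, c2, hC1, _, hc⟩ := coer (d := d) hP hz hz2
  refine ⟨δ ^ 2 / (C1 * (2 * ((P.m0 : ℝ) + 1) + 1) ^ d), by positivity, ?_⟩
  intro k S j hJ A x hx0 hxR hxA hen F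
  have key := fun p => hc k S j hJ A x hx0 hxR hxA (lift k (ball (P.m0 + 1) p ∩ A))
    (lift_subset Finset.inter_subset_right) p (by
      intro q hq hqA i hi
      exact mem_lift.2 ⟨q, Finset.mem_inter.2 ⟨hq, hqA⟩, hi⟩)
  constructor
  · intro hF
    exact mass_aux hP hδ hC1 rfl hJ hen (fun p hp => (hF p hp).1)
      (fun p hp => (key p).2.2.1 (hF p hp))
  · intro hF
    exact mass_aux hP hδ hC1 rfl hJ hen (fun p hp => (hF p hp).1)
      (fun p hp => (key p).2.2.2 (hF p hp).1 (hF p hp).2)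

end Pool.Agent.Vdw
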