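import Pool.Agent.Lib.MP_09cbbd_vw.Up
import Pool.Agent.Lib.MP_09cbbd_kc.Cls

/-!
# The weight of the configurations of a given type
-/

set_option autoImplicit false

namespace Pool.Agent.Vdw

open MeasureTheory Finset Filter Topology Pool.Agent.StableGas Pool.Agent.Kac
open Pool.Agent.SquareWell hiding Md cut

variable {d : ℕ} {E : Type} [MeasurableSpace E]

/-- The constant in the error terms. -/
noncomputable def Par.C (P : Par) (d : ℕ) : ℝ := 16 * 3 ^ d * (1 + P.R) ^ 2 * (1 + P.T)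

/-- The cells of `Y` which interact with `O`. -/
noncomputable def lyr (S O Y : Finset (Zd d)) : Finset (Zd d) := by
  classical exact Y.filter fun i => ∃ v ∈ S, i + v ∈ O

namespace TypB

/-! ### Algebra -/

theorem mem_lyr {S O Y : Finset (Zd d)} {i : Zd d} :
    i ∈ lyr S O Y ↔ i ∈ Y ∧ ∃ v ∈ S, i + v ∈ O := by
  classical
  unfold lyr
  rw [mem_filter]

/-- Weighted sum over the sites with the partner in `Q`. -/
noncomputable def os (S : Finset (Zd d)) (j : Zd d → ℝ) (P Q : Finset (Zd d))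
    (f : Zd d → ℝ) : ℝ := ∑ v ∈ S, j v * ∑ i ∈ P.filter (fun i => i + v ∈ Q), f i

section alg

variable {S : Finset (Zd d)} {j : Zd d → ℝ}

theorem os_swap (hS : ∀ v ∈ S, -v ∈ S) (hj : ∀ v, j (-v) = j v) (P Q : Finset (Zd d))
    (f : Zd d → ℝ) : os S j P Q f = ∑ v ∈ S, j v * ∑ i ∈ Q.filter (fun i => i + v ∈ P), f (i + v) :=
  Alg.swap S P Q j hS hj f

theorem os_mono (hj : ∀ v, 0 ≤ j v) (P Q : Finset (Zd d)) {f g : Zd d → ℝ}
    (h : ∀ i ∈ P, f i ≤ g i) : os S j P Q f ≤ os S j P Q g := by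
  unfold os
  exact sum_le_sum fun v _ => mul_le_mul_of_nonneg_left
    (sum_le_sum fun i hi => h i (mem_filter.1 hi).1) (hj v)

theorem os_lyr (hj : ∀ v, 0 ≤ j v) (P O : Finset (Zd d)) {f : Zd d → ℝ} (hf : ∀ i, 0 ≤ f i) :
    os S j P O f ≤ (∑ v ∈ S, j v) * ∑ i ∈ lyr S O P, f i := by
  classical
  unfold os
  rw [sum_mul]
  refine sum_le_sum fun v hv => mul_le_mul_of_nonneg_left ?_ (hj v)
  refine sum_le_sum_of_subset_of_nonneg ?_ fun i _ _ => hf i
  intro i hi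
  rw [mem_filter] at hi
  exact mem_lyr.2 ⟨hi.1, v, hv, hi.2⟩

theorem os_card (hj : ∀ v, 0 ≤ j v) (P O : Finset (Zd d)) :
    os S j P O (fun _ => 1) ≤ (∑ v ∈ S, j v) * O.card := by
  classical
  unfold os
  rw [sum_mul]
  refine sum_le_sum fun v _ => mul_le_mul_of_nonneg_left ?_ (hj v)
  rw [sum_const, nsmul_eq_mul, mul_one]
  have : (P.filter fun i => i + v ∈ O).card ≤ O.card := by
    refine card_le_card_of_injOn (fun i => i + v) ?_ fun a _ b _ h => add_right_cancel h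
    intro i hi
    simp only [coe_filter, Set.mem_ofPred_eq] at hi
    exact hi.2
  exact_mod_cast this

/-- Pairs inside `O`. -/
theorem pairs_in (hS : ∀ v ∈ S, -v ∈ S) (hj : ∀ v, j (-v) = j v) (O : Finset (Zd d))
    (x : Zd d → ℝ) : 1 / 2 * ps S j O O (fun a b => x a * x b) =
      1 / 2 * os S j O O (fun i => x i ^ 2) -
        1 / 4 * ∑ v ∈ S, j v * ∑ i ∈ O.filter (fun i => i + v ∈ O), (x i - x (i + v)) ^ 2 := by
  have h1 := os_swap hS hj O O (fun i => x i ^ 2)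
  have h2 : 1 / 2 * ps S j O O (fun a b => x a * x b) =
      1 / 4 * os S j O O (fun i => x i ^ 2) +
      1 / 4 * (∑ v ∈ S, j v * ∑ i ∈ O.filter (fun i => i + v ∈ O), x (i + v) ^ 2) -
        1 / 4 * ∑ v ∈ S, j v * ∑ i ∈ O.filter (fun i => i + v ∈ O), (x i - x (i + v)) ^ 2 := by
    unfold ps os
    rw [mul_sum, mul_sum, mul_sum, mul_sum, ← sum_add_distrib, ← sum_sub_distrib]
    refine sum_congr rfl fun v _ => ?_
    have h3 : ∀ a b c e : ℝ, a = 1 / 2 * (b + c - e) →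
        1 / 2 * (j v * a) = 1 / 4 * (j v * b) + 1 / 4 * (j v * c) - 1 / 4 * (j v * e) := by
      rintro a b c e rfl
      ring
    apply h3
    rw [← sum_add_distrib, ← sum_sub_distrib, mul_sum]
    refine sum_congr rfl fun i _ => ?_
    ring
  rw [h2, ← h1]
  ring

/-- Pairs between `P` and `O`. -/
theorem pairs_out (hS : ∀ v ∈ S, -v ∈ S) (hj : ∀ v, j (-v) = j v) (hj0 : ∀ v, 0 ≤ j v)
    (P O : Finset (Zd d)) (x : Zd d → ℝ) (ρ : ℝ) :
    ps S j P O (fun a b => x a * x b) - ρ * os S j P O x + 1 / 2 * ρ ^ 2 * os S j P O (fun _ => 1) ≤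
      1 / 2 * os S j O P (fun i => x i ^ 2) +
        1 / 2 * ((∑ v ∈ S, j v) * ∑ i ∈ lyr S O P, (x i - ρ) ^ 2) := by
  have h1 := os_swap hS hj O P (fun i => x i ^ 2)
  have h2 := os_lyr hj0 P O (S := S) (f := fun i => (x i - ρ) ^ 2) fun i => sq_nonneg _
  have h3 : ps S j P O (fun a b => x a * x b) - ρ * os S j P O x +
      1 / 2 * ρ ^ 2 * os S j P O (fun _ => 1) ≤
      1 / 2 * (∑ v ∈ S, j v * ∑ i ∈ P.filter (fun i => i + v ∈ O), x (i + v) ^ 2) +
        1 / 2 * os S j P O (fun i => (x i - ρ) ^ 2) := by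
    unfold ps os
    rw [mul_sum, mul_sum, mul_sum, mul_sum, ← sum_sub_distrib, ← sum_add_distrib,
      ← sum_add_distrib]
    refine sum_le_sum fun v _ => ?_
    have h4 : ∀ a b c e f : ℝ, a - ρ * b + 1 / 2 * ρ ^ 2 * c ≤ 1 / 2 * e + 1 / 2 * f →
        j v * a - ρ * (j v * b) + 1 / 2 * ρ ^ 2 * (j v * c) ≤
          1 / 2 * (j v * e) + 1 / 2 * (j v * f) := by
      intro a b c e f h
      have := mul_le_mul_of_nonneg_left h (hj0 v)
      linarith
    apply h4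
    rw [mul_sum, mul_sum, mul_sum, mul_sum, ← sum_sub_distrib, ← sum_add_distrib,
      ← sum_add_distrib]
    refine sum_le_sum fun i _ => ?_
    nlinarith [sq_nonneg (x (i + v) - ρ - (x i - ρ))]
  rw [← h1] at h3
  linarith

/-- The square terms. -/
theorem squares (Y O W : Finset (Zd d)) (hYO : Disjoint Y O) (hYW : Disjoint Y W)
    (hOW : Disjoint O W) (f : Zd d → ℝ) :
    os S j O O f + os S j O Y f + os S j O W f +
      ∑ v ∈ S, j v * ∑ i ∈ O.filter (fun i => i + v ∉ Y ∪ O ∪ W), f i =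
      (∑ v ∈ S, j v) * ∑ i ∈ O, f i := by
  classical
  unfold os
  rw [← sum_add_distrib, ← sum_add_distrib, ← sum_add_distrib, sum_mul]
  refine sum_congr rfl fun v _ => ?_
  rw [← mul_add, ← mul_add, ← mul_add]
  congr 1
  rw [sum_filter, sum_filter, sum_filter, sum_filter, ← sum_add_distrib, ← sum_add_distrib,
    ← sum_add_distrib]
  refine sum_congr rfl fun i _ => ?_
  by_cases h1 : i + v ∈ O
  · have h2 : i + v ∉ Y := fun h => Finset.disjoint_left.1 hYO h h1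
    have h3 : i + v ∉ W := fun h => Finset.disjoint_left.1 hOW h1 h
    simp [h1, h2, h3]
  · by_cases h2 : i + v ∈ Y
    · have h3 : i + v ∉ W := fun h => Finset.disjoint_left.1 hYW h2 h
      simp [h1, h2, h3]
    · by_cases h3 : i + v ∈ W
      · simp [h1, h2, h3]
      · simp [h1, h2, h3]

/-- The energy of the pairs with one member in `O`. -/
theorem energy (P : Par) (hS : ∀ v ∈ S, -v ∈ S) (hj : ∀ v, j (-v) = j v) (hj0 : ∀ v, 0 ≤ j v)
    (hT : ∑ v ∈ S, j v ≤ P.T)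
    (Y O W : Finset (Zd d)) (hYO : Disjoint Y O) (hYW : Disjoint Y W) (hOW : Disjoint O W)
    (x : Zd d → ℝ) (ρa ρb : ℝ) :
    1 / 2 * ps S j O O (fun a b => x a * x b) +
      (ps S j Y O (fun a b => x a * x b) - ρb * os S j Y O x +
        1 / 2 * ρb ^ 2 * os S j Y O (fun _ => 1)) +
      (ps S j W O (fun a b => x a * x b) - ρa * os S j W O x +
        1 / 2 * ρa ^ 2 * os S j W O (fun _ => 1)) ≤
      1 / 2 * (∑ v ∈ S, j v) * ∑ i ∈ O, x i ^ 2 + P.c * ∑ i ∈ O, P.q (x i) -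
        (en P S j (Y ∪ O ∪ W) O x - P.T / 2 * (∑ i ∈ lyr S O Y, (x i - ρb) ^ 2 +
          ∑ i ∈ lyr S O W, (x i - ρa) ^ 2)) := by
  classical
  have h1 := pairs_in hS hj O x
  have h2 := pairs_out hS hj hj0 Y O x ρb
  have h3 := pairs_out hS hj hj0 W O x ρa
  have h4 := squares (S := S) (j := j) Y O W hYO hYW hOW fun i => x i ^ 2
  have h5 : en P S j (Y ∪ O ∪ W) O x = P.c * ∑ i ∈ O, P.q (x i) +
      1 / 4 * ∑ v ∈ S, j v * ∑ i ∈ O.filter (fun i => i + v ∈ O), (x i - x (i + v)) ^ 2 +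
      1 / 2 * ∑ v ∈ S, j v * ∑ i ∈ O.filter (fun i => i + v ∉ Y ∪ O ∪ W), x i ^ 2 := by
    unfold en
    rw [add_assoc]
    congr 1
    rw [mul_sum, mul_sum, mul_sum, ← sum_add_distrib]
    refine sum_congr rfl fun v _ => ?_
    have e1 : ∀ a b : ℝ, 1 / 4 * (j v * (a + 2 * b)) = 1 / 4 * (j v * a) + 1 / 2 * (j v * b) := by
      intro a b
      ring
    convert e1 _ _ using 6
  have h6 : (∑ v ∈ S, j v) * ∑ i ∈ lyr S O Y, (x i - ρb) ^ 2 ≤
      P.T * ∑ i ∈ lyr S O Y, (x i - ρb) ^ 2 :=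
    mul_le_mul_of_nonneg_right hT (sum_nonneg fun i _ => sq_nonneg _)
  have h7 : (∑ v ∈ S, j v) * ∑ i ∈ lyr S O W, (x i - ρa) ^ 2 ≤
      P.T * ∑ i ∈ lyr S O W, (x i - ρa) ^ 2 :=
    mul_le_mul_of_nonneg_right hT (sum_nonneg fun i _ => sq_nonneg _)
  rw [h5, h1]
  linarith

end alg

/-! ### Boundaries -/

theorem bd_Y (M : Md d E) {Y O : Finset (Zd d)} (hY : ∀ i ∈ Y, ∀ v ∈ M.S, i + v ∈ Y ∪ O) :
    (bd Y).card ≤ 3 ^ d * O.card := by
  classical
  have hsub : bd Y ⊆ O.biUnion Nb := by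
    intro i hi
    rw [mem_bd] at hi
    obtain ⟨hi, h⟩ := hi
    rw [Finset.not_subset] at h
    obtain ⟨j, hj, hjY⟩ := h
    rw [mem_biUnion]
    have hv : j - i ∈ M.S := M.Nb_S (by
      rw [mem_Nb] at hj ⊢
      intro k
      have := hj k
      simp only [Pi.zero_apply, Pi.sub_apply]
      omega)
    have h2 := hY i hi _ hv
    rw [add_sub_cancel, mem_union] at h2
    rcases h2 with h2 | h2
    · exact absurd h2 hjY
    · exact ⟨j, h2, Nb_symm hj⟩
  refine (card_le_card hsub).trans (card_biUnion_le.trans ?_)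
  rw [sum_congr rfl fun i _ => card_Nb i, sum_const, smul_eq_mul, mul_comm]

theorem bd_W (M : Md d E) {Y O W : Finset (Zd d)} (hYW : Disjoint Y W) (hOW : Disjoint O W)
    (hY : ∀ i ∈ Y, ∀ v ∈ M.S, i + v ∈ Y ∪ O) :
    (bd W).card ≤ 3 ^ d * O.card + (rb M.S (Y ∪ O ∪ W)).card := by
  classical
  have hsub : bd W ⊆ O.biUnion Nb ∪ rb M.S (Y ∪ O ∪ W) := by
    intro i hi
    rw [mem_bd] at hi
    obtain ⟨hi, h⟩ := hi
    rw [Finset.not_subset] at h
    obtain ⟨j, hj, hjW⟩ := h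
    have hv : j - i ∈ M.S := M.Nb_S (by
      rw [mem_Nb] at hj ⊢
      intro k
      have := hj k
      simp only [Pi.zero_apply, Pi.sub_apply]
      omega)
    rw [mem_union, mem_biUnion, Cls.mem_rb]
    by_cases hjA : j ∈ Y ∪ O ∪ W
    · left
      rw [mem_union, mem_union] at hjA
      rcases hjA with (hjA | hjA) | hjA
      · exfalso
        have h2 := hY j hjA _ (M.S_neg _ hv)
        have e : j + -(j - i) = i := by abel
        rw [e, mem_union] at h2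
        rcases h2 with h2 | h2
        · exact Finset.disjoint_left.1 hYW h2 hi
        · exact Finset.disjoint_left.1 hOW h2 hi
      · exact ⟨j, hjA, Nb_symm hj⟩
      · exact absurd hjA hjW
    · right
      refine ⟨mem_union_right _ hi, j - i, hv, ?_⟩
      rw [add_sub_cancel]
      exact hjA
  refine (card_le_card hsub).trans ((card_union_le _ _).trans (Nat.add_le_add_right
    (card_biUnion_le.trans ?_) _))
  rw [sum_congr rfl fun i _ => card_Nb i, sum_const, smul_eq_mul, mul_comm]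

theorem cut_Y (M : Md d E) {Y O : Finset (Zd d)} (hY : ∀ i ∈ Y, ∀ v ∈ M.S, i + v ∈ Y ∪ O) :
    cut M.S M.J Y ≤ os M.S M.J Y O (fun _ => 1) := by
  classical
  unfold Kac.cut os
  refine sum_le_sum fun v hv => mul_le_mul_of_nonneg_left ?_ (M.J_nonneg v)
  rw [sum_const, nsmul_eq_mul, mul_one]
  have : (Y.filter fun i => i + v ∉ Y).card ≤ (Y.filter fun i => i + v ∈ O).card := by
    refine card_le_card fun i hi => ?_
    rw [mem_filter] at hi ⊢
    have h2 := hY i hi.1 v hv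
    rw [mem_union] at h2
    exact ⟨hi.1, h2.resolve_left hi.2⟩
  exact_mod_cast this

theorem cut_W (M : Md d E) {Y O W : Finset (Zd d)} (hYW : Disjoint Y W) (hOW : Disjoint O W)
    (hY : ∀ i ∈ Y, ∀ v ∈ M.S, i + v ∈ Y ∪ O) :
    cut M.S M.J W ≤ os M.S M.J W O (fun _ => 1) + M.tot * (rb M.S (Y ∪ O ∪ W)).card := by
  classical
  unfold Kac.cut os
  rw [Md.tot, sum_mul, ← sum_add_distrib]
  refine sum_le_sum fun v hv => ?_
  rw [← mul_add]
  refine mul_le_mul_of_nonneg_left ?_ (M.J_nonneg v)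
  rw [sum_const, nsmul_eq_mul, mul_one]
  have : (W.filter fun i => i + v ∉ W).card ≤ (W.filter fun i => i + v ∈ O).card +
      (rb M.S (Y ∪ O ∪ W)).card := by
    refine (card_le_card ?_).trans (card_union_le _ _)
    intro i hi
    rw [mem_filter] at hi
    rw [mem_union, mem_filter, Cls.mem_rb]
    by_cases hjA : i + v ∈ Y ∪ O ∪ W
    · left
      rw [mem_union, mem_union] at hjA
      rcases hjA with (hjA | hjA) | hjA
      · exfalso
        have h2 := hY _ hjA _ (M.S_neg _ hv)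
        rw [add_neg_cancel_right, mem_union] at h2
        rcases h2 with h2 | h2
        · exact Finset.disjoint_left.1 hYW h2 hi.1
        · exact Finset.disjoint_left.1 hOW h2 hi.1
      · exact ⟨hi.1, hjA⟩
      · exact absurd hjA hi.2
    · right
      exact ⟨mem_union_right _ hi.1, v, hv, hjA⟩
  exact_mod_cast this

/-! ### Trimming -/

theorem n_tr_le (M : Md d E) (Y : Finset (Zd d)) (ω : Zd d → E) (i : Zd d) :
    M.n (M.tr Y ω i) ≤ M.n (ω i) := by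
  by_cases hi : i ∈ bd Y
  · rw [Typ.tr_bd M hi]
    exact M.n_c _
  · rw [Typ.tr_nbd M hi]

theorem n_le_tr (M : Md d E) (Y : Finset (Zd d)) (ω : Zd d → E) (i : Zd d) :
    M.n (ω i) ≤ M.n (M.tr Y ω i) + M.Ns := by
  by_cases hi : i ∈ bd Y
  · rw [Typ.tr_bd M hi]
    exact M.n_le_c _
  · rw [Typ.tr_nbd M hi]
    omega

theorem sum_n_le_tr (M : Md d E) (Y : Finset (Zd d)) (ω : Zd d → E) :
    ∑ i ∈ Y, (M.n (ω i) : ℝ) ≤ ∑ i ∈ Y, (M.n (M.tr Y ω i) : ℝ) + M.Ns * (bd Y).card := by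
  rw [← Typ.sum_eb Y, mul_sum, ← sum_add_distrib]
  refine sum_le_sum fun i _ => ?_
  unfold Typ.eb
  split_ifs with h
  · have := n_le_tr M Y ω i
    rw [mul_one]
    exact_mod_cast this
  · rw [Typ.tr_nbd M h]
    simp

theorem sum_tr_le_n (M : Md d E) (Y : Finset (Zd d)) (ω : Zd d → E) :
    ∑ i ∈ Y, (M.n (M.tr Y ω i) : ℝ) ≤ ∑ i ∈ Y, (M.n (ω i) : ℝ) :=
  sum_le_sum fun i _ => by exact_mod_cast n_tr_le M Y ω i

/-- Trimming, with a change of the chemical potential. -/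
theorem w_trim2 (M : Md d E) (μ ν : ℝ) (Y : Finset (Zd d)) (ω : Zd d → E) :
    M.w μ Y ω ≤ M.w ν Y (M.tr Y ω) * ex ((μ - ν) * ∑ i ∈ Y, (M.n (ω i) : ℝ) +
      (M.K * M.Ns * M.N * M.tot + |ν| * M.Ns) * (bd Y).card) := by
  have h1 := w_trim M (le_refl (0 : ℝ)) Y ω
  rw [Typ.w_shift M μ 0 Y ω, Typ.w_shift M ν 0 Y (M.tr Y ω), sub_zero, sub_zero]
  refine (mul_le_mul' h1 (le_refl _)).trans ?_
  rw [mul_assoc (M.w 0 Y (M.tr Y ω)), mul_assoc (M.w 0 Y (M.tr Y ω)), ← ex_add, ← ex_add]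
  refine mul_le_mul_right (ex_le_ex.2 ?_) _
  have h2 := sum_n_le_tr M Y ω
  have h3 := sum_tr_le_n M Y ω
  have h4 : ν * (∑ i ∈ Y, (M.n (ω i) : ℝ) - ∑ i ∈ Y, (M.n (M.tr Y ω i) : ℝ)) ≤
      |ν| * (M.Ns * (bd Y).card) := by
    refine (le_abs_self _).trans ?_
    rw [abs_mul]
    refine mul_le_mul_of_nonneg_left ?_ (abs_nonneg ν)
    rw [abs_le]
    constructor <;> linarith
  linarith

/-- The interaction with the outside. -/
theorem ou_ge (M : Md d E) {V bs μs Ps ε : ℝ} {k : ℕ} {P : Par}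
    (G : Good P M V bs μs Ps ε k) (X O : Finset (Zd d)) (hXO : Disjoint X O) (ω : Zd d → E) :
    os M.S M.J X O (fun i => (M.n (ω i) : ℝ)) ≤ M.ou X (M.tr X ω) +
      M.tot * (ε * M.N + M.Ns) * O.card := by
  classical
  have hN : (0 : ℝ) ≤ M.N := Nat.cast_nonneg _
  have hNs : (0 : ℝ) ≤ M.Ns := Nat.cast_nonneg _
  have hcard : ∀ v : Zd d, ((X.filter fun i => i + v ∈ O).card : ℝ) ≤ O.card := by
    intro v
    have : (X.filter fun i => i + v ∈ O).card ≤ O.card := by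
      refine card_le_card_of_injOn (fun i => i + v) ?_ fun a _ b _ h => add_right_cancel h
      intro i hi
      simp only [coe_filter, Set.mem_ofPred_eq] at hi
      exact hi.2
    exact_mod_cast this
  have h1 : os M.S M.J X O (fun i => (M.n (ω i) : ℝ)) ≤ M.ou X (M.tr X ω) +
      ∑ v ∈ M.S, (M.Jm v * M.Ns + (M.J v - M.Jm v) * M.N) * O.card := by
    unfold os Kac.Md.ou
    rw [← sum_add_distrib]
    refine sum_le_sum fun v _ => ?_
    have hJm := M.Jm_nonneg v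
    have hJ := sub_nonneg.2 (M.Jm_le v)
    have h2 : ∑ i ∈ X.filter (fun i => i + v ∈ O), (M.n (ω i) : ℝ) ≤
        ∑ i ∈ X.filter (fun i => i + v ∉ X), (M.n (M.tr X ω i) : ℝ) + M.Ns * O.card := by
      calc ∑ i ∈ X.filter (fun i => i + v ∈ O), (M.n (ω i) : ℝ)
          ≤ ∑ i ∈ X.filter (fun i => i + v ∈ O), ((M.n (M.tr X ω i) : ℝ) + M.Ns) :=
            sum_le_sum fun i _ => by exact_mod_cast n_le_tr M X ω i
        _ = ∑ i ∈ X.filter (fun i => i + v ∈ O), (M.n (M.tr X ω i) : ℝ) +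
            M.Ns * (X.filter fun i => i + v ∈ O).card := by
            rw [sum_add_distrib, sum_const, nsmul_eq_mul, mul_comm (M.Ns : ℝ)]
        _ ≤ _ := by
            refine add_le_add ?_ (mul_le_mul_of_nonneg_left (hcard v) hNs)
            refine sum_le_sum_of_subset_of_nonneg ?_ fun _ _ _ => Nat.cast_nonneg _
            intro i hi
            rw [mem_filter] at hi ⊢
            exact ⟨hi.1, fun h => Finset.disjoint_left.1 hXO h hi.2⟩
    have h3 : ∑ i ∈ X.filter (fun i => i + v ∈ O), (M.n (ω i) : ℝ) ≤ M.N * O.card := by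
      calc ∑ i ∈ X.filter (fun i => i + v ∈ O), (M.n (ω i) : ℝ)
          ≤ ∑ i ∈ X.filter (fun i => i + v ∈ O), (M.N : ℝ) :=
            sum_le_sum fun i _ => by exact_mod_cast M.n_le _
        _ = M.N * (X.filter fun i => i + v ∈ O).card := by
            rw [sum_const, nsmul_eq_mul, mul_comm]
        _ ≤ _ := mul_le_mul_of_nonneg_left (hcard v) hN
    have h4 := mul_le_mul_of_nonneg_left h2 hJm
    have h5 := mul_le_mul_of_nonneg_left h3 hJ
    have e1 : M.J v * ∑ i ∈ X.filter (fun i => i + v ∈ O), (M.n (ω i) : ℝ) =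
        M.Jm v * ∑ i ∈ X.filter (fun i => i + v ∈ O), (M.n (ω i) : ℝ) +
        (M.J v - M.Jm v) * ∑ i ∈ X.filter (fun i => i + v ∈ O), (M.n (ω i) : ℝ) := by ring
    rw [e1]
    linarith
  refine h1.trans (add_le_add_right ?_ _)
  rw [← sum_mul, sum_add_distrib, ← sum_mul, ← sum_mul, sum_sub_distrib]
  refine mul_le_mul_of_nonneg_right ?_ (Nat.cast_nonneg _)
  have h6 : ∑ v ∈ M.S, M.J v - ∑ v ∈ M.S, M.Jm v ≤ ε * M.tot := by
    have h7 := G.totm
    have h8 : ∑ v ∈ M.S, M.J v - ∑ v ∈ M.S, M.Jm v = M.tot - M.totm := rfl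
    rw [h8]
    linarith
  have h9 : ∑ v ∈ M.S, M.Jm v ≤ M.tot := M.totm_le_tot
  have h10 := mul_le_mul_of_nonneg_right h6 hN
  have h11 := mul_le_mul_of_nonneg_right h9 hNs
  linarith

/-! ### One configuration -/

/-- Interaction weights in units of `V`. -/
theorem ps_conv (M : Md d E) {V : ℝ} (hV : 0 < V) (A X Z : Finset (Zd d)) (hX : X ⊆ A) (hZ : Z ⊆ A)
    (ω : Zd d → E) : M.K * ps M.S M.J X Z (Typ.nn M ω) =
      V * ps M.S (jj M V) X Z (fun a b => den M V A ω a * den M V A ω b) := by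
  classical
  unfold ps
  rw [mul_sum, mul_sum]
  refine sum_congr rfl fun v _ => ?_
  have h1 : ∑ i ∈ X.filter (fun i => i + v ∈ Z), Typ.nn M ω i (i + v) =
      V ^ 2 * ∑ i ∈ X.filter (fun i => i + v ∈ Z), den M V A ω i * den M V A ω (i + v) := by
    rw [mul_sum]
    refine sum_congr rfl fun i hi => ?_
    rw [mem_filter] at hi
    unfold den Typ.nn
    rw [if_pos (hX hi.1), if_pos (hZ hi.2)]
    field_simp
  rw [h1, jj]
  ring

theorem os_conv (M : Md d E) {V : ℝ} (hV : 0 < V) (A X Z : Finset (Zd d)) (hX : X ⊆ A)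
    (ω : Zd d → E) : M.K * os M.S M.J X Z (fun i => (M.n (ω i) : ℝ)) =
      os M.S (jj M V) X Z (den M V A ω) := by
  classical
  unfold os
  rw [mul_sum]
  refine sum_congr rfl fun v _ => ?_
  have h1 : ∑ i ∈ X.filter (fun i => i + v ∈ Z), (M.n (ω i) : ℝ) =
      V * ∑ i ∈ X.filter (fun i => i + v ∈ Z), den M V A ω i := by
    rw [mul_sum]
    refine sum_congr rfl fun i hi => ?_
    rw [mem_filter] at hi
    unfold den
    rw [if_pos (hX hi.1)]
    field_simp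
  rw [h1, jj]
  ring

theorem os_conv1 (M : Md d E) {V : ℝ} (X Z : Finset (Zd d)) :
    M.K * V * os M.S M.J X Z (fun _ => 1) = os M.S (jj M V) X Z (fun _ => 1) := by
  classical
  unfold os
  rw [mul_sum]
  refine sum_congr rfl fun v _ => ?_
  rw [jj]
  ring

theorem sum_jj (M : Md d E) (V : ℝ) : ∑ v ∈ M.S, jj M V v = M.K * V * M.tot := by
  unfold jj
  rw [Md.tot, mul_sum]

theorem ps_YW (M : Md d E) {Y O W : Finset (Zd d)} (hYW : Disjoint Y W) (hOW : Disjoint O W)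
    (hY : ∀ i ∈ Y, ∀ v ∈ M.S, i + v ∈ Y ∪ O) (f : Zd d → Zd d → ℝ) : ps M.S M.J Y W f = 0 := by
  classical
  unfold ps
  refine sum_eq_zero fun v hv => ?_
  have : Y.filter (fun i => i + v ∈ W) = ∅ := by
    rw [Finset.filter_eq_empty_iff]
    intro i hi hw
    have h2 := hY i hi v hv
    rw [mem_union] at h2
    rcases h2 with h2 | h2
    · exact Finset.disjoint_left.1 hYW h2 hw
    · exact Finset.disjoint_left.1 hOW h2 hw
  rw [this, sum_empty, mul_zero]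

/-- Bound for one configuration. -/
theorem w_le2 {P : Par} {M : Md d E} {V bs μs Ps ε : ℝ} {k : ℕ} (hP : P.Ok)
    (G : Good P M V bs μs Ps ε k) {μ μa μb ρa ρb η : ℝ} (h1 : μa ≤ μ) (h2 : μ ≤ μb)
    (hηa : |μa - μs| ≤ η) (hηb : |μb - μs| ≤ η) (hρa0 : 0 ≤ ρa) (hρb0 : 0 ≤ ρb)
    (Y O W : Finset (Zd d)) (hYO : Disjoint Y O) (hYW : Disjoint Y W) (hOW : Disjoint O W)
    (hY : ∀ i ∈ Y, ∀ v ∈ M.S, i + v ∈ Y ∪ O) (mY mW Q : ℝ) (ω : Zd d → E)
    (c1 : mY ≤ ∑ i ∈ Y, (M.n (ω i) : ℝ)) (c2 : ∑ i ∈ W, (M.n (ω i) : ℝ) ≤ mW)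
    (c3 : Q ≤ en P M.S (jj M V) (Y ∪ O ∪ W) O (den M V (Y ∪ O ∪ W) ω) -
      P.T / 2 * (∑ i ∈ lyr M.S O Y, (den M V (Y ∪ O ∪ W) ω i - ρb) ^ 2 +
        ∑ i ∈ lyr M.S O W, (den M V (Y ∪ O ∪ W) ω i - ρa) ^ 2)) :
    M.w μ (Y ∪ O ∪ W) ω ≤ Typ.GF M μb (ρb * V) Y ω * (∏ i ∈ O, uo P M V μs Ps ε (ω i)) *
      Typ.GF M μa (ρa * V) W ω *
      ex (-(μb - μ) * mY + (μ - μa) * mW + V * (Ps + ε + η * P.R) * O.card - V * Q -
        1 / 2 * V * ρb ^ 2 * os M.S (jj M V) Y O (fun _ => 1) -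
        1 / 2 * V * ρa ^ 2 * os M.S (jj M V) W O (fun _ => 1) +
        (M.K * M.Ns * M.N * M.tot + |μb| * M.Ns) * (bd Y).card +
        (M.K * M.Ns * M.N * M.tot + |μa| * M.Ns) * (bd W).card +
        M.K * V * M.tot * (ρa + ρb) * (ε * M.N + M.Ns) * O.card) := by
  classical
  set A := Y ∪ O ∪ W with hA
  set x := den M V A ω with hx
  have hV := G.V_pos
  have hK := M.hK
  have hjok := G.jok hP
  have hYA : Y ⊆ A := fun i hi => mem_union_left _ (mem_union_left _ hi)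
  have hOA : O ⊆ A := fun i hi => mem_union_left _ (mem_union_right _ hi)
  have hWA : W ⊆ A := fun i hi => mem_union_right _ hi
  have hen := energy P hjok.S_neg hjok.neg hjok.nonneg hjok.tot_le Y O W hYO hYW hOW x ρa ρb
  rw [sum_jj] at hen
  -- the trimmed weights
  have w1 : M.w μ Y ω ≤ Typ.GF M μb (ρb * V) Y ω * ex (-(μb - μ) * mY +
      (M.K * M.Ns * M.N * M.tot + |μb| * M.Ns) * (bd Y).card -
      ρb * V * M.K * M.ou Y (M.tr Y ω)) := by
    refine (w_trim2 M μ μb Y ω).trans ?_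
    rw [Typ.GF, mul_assoc (M.w μb Y (M.tr Y ω)), ← ex_add]
    refine mul_le_mul_right (ex_le_ex.2 ?_) _
    have h3 := mul_le_mul_of_nonneg_left c1 (sub_nonneg.2 h2)
    linarith
  have w2 : M.w μ W ω ≤ Typ.GF M μa (ρa * V) W ω * ex ((μ - μa) * mW +
      (M.K * M.Ns * M.N * M.tot + |μa| * M.Ns) * (bd W).card -
      ρa * V * M.K * M.ou W (M.tr W ω)) := by
    refine (w_trim2 M μ μa W ω).trans ?_
    rw [Typ.GF, mul_assoc (M.w μa W (M.tr W ω)), ← ex_add]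
    refine mul_le_mul_right (ex_le_ex.2 ?_) _
    have h3 := mul_le_mul_of_nonneg_left c2 (sub_nonneg.2 h1)
    linarith
  -- the cells of `O`
  have hxO : ∀ i ∈ O, (M.n (ω i) : ℝ) = V * x i := by
    intro i hi
    rw [hx]
    unfold den
    rw [if_pos (hOA hi)]
    field_simp
  have w3 : ex (V * (∑ i ∈ O, ((μ - μs) * x i + (Ps + ε)) +
      ∑ i ∈ O, (μs * x i + M.K * V * M.tot / 2 * x i ^ 2 + P.c * P.q (x i) - (Ps + ε)))) =
      (∏ i ∈ O, uo P M V μs Ps ε (ω i)) * ex (V * ∑ i ∈ O, ((μ - μs) * x i + (Ps + ε))) := by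
    rw [mul_add, ex_add, mul_comm]
    congr 1
    rw [mul_sum, ← prod_ex]
    refine prod_congr rfl fun i hi => ?_
    unfold uo
    have : (M.n (ω i) : ℝ) / V = x i := by
      rw [hxO i hi]
      field_simp
    rw [this]
    congr 1
    ring
  have w4 : ∑ i ∈ O, ((μ - μs) * x i + (Ps + ε)) ≤ (Ps + ε + η * P.R) * O.card := by
    rw [mul_comm, ← nsmul_eq_mul]
    refine sum_le_card_nsmul _ _ _ fun i _ => ?_
    have k1 : μ - μs ≤ η := by
      have := (abs_le.1 hηb).2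
      linarith
    have k3 := den_nonneg G A ω i
    have k4 := den_le hP G A ω i
    have k5 : (μ - μs) * x i ≤ η * x i := mul_le_mul_of_nonneg_right k1 k3
    have k6 : 0 ≤ η := (abs_nonneg _).trans hηa
    have k7 : η * x i ≤ η * P.R := mul_le_mul_of_nonneg_left k4 k6
    linarith
  -- the exponent
  have hou1 := ou_ge M G Y O hYO ω
  have hou2 := ou_ge M G W O hOW.symm ω
  have p1 := ps_conv M hV A O O hOA hOA ω
  have p2 := ps_conv M hV A Y O hYA hOA ω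
  have p3 := ps_conv M hV A W O hWA hOA ω
  have p4 : ps M.S M.J O W (Typ.nn M ω) = ps M.S M.J W O (Typ.nn M ω) :=
    Typ.ps_symm M O W (Typ.nn_comm M ω)
  have p5 := ps_YW M hYW hOW hY (Typ.nn M ω)
  have o1 := os_conv M hV A Y O hYA ω
  have o2 := os_conv M hV A W O hWA ω
  have hsum : ∑ i ∈ O, (M.n (ω i) : ℝ) = V * ∑ i ∈ O, x i := by
    rw [mul_sum]
    exact sum_congr rfl hxO
  have hexp : (μ * ∑ i ∈ O, (M.n (ω i) : ℝ) + M.K * (1 / 2 * ps M.S M.J O O (Typ.nn M ω) +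
      ps M.S M.J Y O (Typ.nn M ω) + ps M.S M.J Y W (Typ.nn M ω) +
      ps M.S M.J O W (Typ.nn M ω))) - ρb * V * M.K * M.ou Y (M.tr Y ω) -
      ρa * V * M.K * M.ou W (M.tr W ω) ≤
      V * (∑ i ∈ O, ((μ - μs) * x i + (Ps + ε)) +
        ∑ i ∈ O, (μs * x i + M.K * V * M.tot / 2 * x i ^ 2 + P.c * P.q (x i) - (Ps + ε))) -
      V * Q - 1 / 2 * V * ρb ^ 2 * os M.S (jj M V) Y O (fun _ => 1) -
        1 / 2 * V * ρa ^ 2 * os M.S (jj M V) W O (fun _ => 1) +
      M.K * V * M.tot * (ρa + ρb) * (ε * M.N + M.Ns) * O.card := by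
    have q1 := mul_le_mul_of_nonneg_left hou1 (mul_nonneg (mul_nonneg hρb0 hV.le) hK.le)
    have q2 := mul_le_mul_of_nonneg_left hou2 (mul_nonneg (mul_nonneg hρa0 hV.le) hK.le)
    have q3 := mul_le_mul_of_nonneg_left hen hV.le
    have q4 := mul_le_mul_of_nonneg_left c3 hV.le
    have q5 : ∑ i ∈ O, ((μ - μs) * x i + (Ps + ε)) +
        ∑ i ∈ O, (μs * x i + M.K * V * M.tot / 2 * x i ^ 2 + P.c * P.q (x i) - (Ps + ε)) =
        μ * ∑ i ∈ O, x i + M.K * V * M.tot / 2 * ∑ i ∈ O, x i ^ 2 +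
          P.c * ∑ i ∈ O, P.q (x i) := by
      rw [← sum_add_distrib, mul_sum, mul_sum, mul_sum, ← sum_add_distrib, ← sum_add_distrib]
      refine sum_congr rfl fun i _ => ?_
      ring
    have e1 : ρb * V * M.K * os M.S M.J Y O (fun i => (M.n (ω i) : ℝ)) =
        V * (ρb * os M.S (jj M V) Y O x) := by
      rw [← o1]
      ring
    have e2 : ρa * V * M.K * os M.S M.J W O (fun i => (M.n (ω i) : ℝ)) =
        V * (ρa * os M.S (jj M V) W O x) := by
      rw [← o2]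
      ring
    have e3 : M.K * (1 / 2 * ps M.S M.J O O (Typ.nn M ω) + ps M.S M.J Y O (Typ.nn M ω) +
        ps M.S M.J Y W (Typ.nn M ω) + ps M.S M.J O W (Typ.nn M ω)) =
        V * (1 / 2 * ps M.S (jj M V) O O (fun a b => x a * x b) +
          ps M.S (jj M V) Y O (fun a b => x a * x b) +
          ps M.S (jj M V) W O (fun a b => x a * x b)) := by
      rw [p5, p4, mul_add, mul_add, mul_add, mul_add, mul_add, p2, p3, mul_zero, ← mul_assoc,
        mul_comm M.K (1 / 2 : ℝ), mul_assoc, p1]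
      ring
    rw [hsum, e3, q5]
    rw [e1] at q1
    rw [e2] at q2
    linarith
  refine (Typ.w_split M μ hYO hYW hOW ω).trans ?_
  refine (mul_le_mul' (mul_le_mul' w1 w2) (le_refl _)).trans ?_
  have e1 : ∀ a b c e f : ENNReal, a * b * (c * e) * f = a * c * (b * e * f) := by
    intro a b c e f; ring
  rw [e1, ← ex_add, ← ex_add]
  have e2 : ∀ a u c e : ENNReal, a * u * c * e = a * c * (u * e) := by
    intro a u c e; ring
  rw [e2]
  refine mul_le_mul_right ?_ _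
  have hL : ∀ s t u w : ℝ, s ≤ V * (∑ i ∈ O, ((μ - μs) * x i + (Ps + ε)) +
      ∑ i ∈ O, (μs * x i + M.K * V * M.tot / 2 * x i ^ 2 + P.c * P.q (x i) - (Ps + ε))) + t →
      V * ∑ i ∈ O, ((μ - μs) * x i + (Ps + ε)) + t ≤ w →
      ex s ≤ (∏ i ∈ O, uo P M V μs Ps ε (ω i)) * ex w := by
    intro s t u w hs hw
    refine (ex_le_ex.2 hs).trans ?_
    rw [ex_add, w3, mul_assoc, ← ex_add]
    exact mul_le_mul_right (ex_le_ex.2 hw) _
  refine hL _ (-(μb - μ) * mY + (μ - μa) * mW - V * Q -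
        1 / 2 * V * ρb ^ 2 * os M.S (jj M V) Y O (fun _ => 1) -
        1 / 2 * V * ρa ^ 2 * os M.S (jj M V) W O (fun _ => 1) +
        (M.K * M.Ns * M.N * M.tot + |μb| * M.Ns) * (bd Y).card +
        (M.K * M.Ns * M.N * M.tot + |μa| * M.Ns) * (bd W).card +
        M.K * V * M.tot * (ρa + ρb) * (ε * M.N + M.Ns) * O.card) 0 _ ?_ ?_
  · linarith
  · have := mul_le_mul_of_nonneg_left w4 hV.le
    linarith

theorem measurable_uo_prod (P : Par) (M : Md d E) (V μs Ps ε : ℝ) (O : Finset (Zd d)) :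
    Measurable fun ω : Zd d → E => ∏ i ∈ O, uo P M V μs Ps ε (ω i) :=
  Finset.measurable_prod _ fun i _ =>
    (measurable_uo P M V μs Ps ε).comp (measurable_pi_apply i)

/-- The sum of the error terms. -/
theorem err_le {P : Par} (hP : P.Ok) {V ε τ bs lg b ta tb kt rr uY uW bY bW nO nR ρa ρb D : ℝ}
    (hV : 0 < V) (hε0 : 0 < ε) (hε : ε ≤ 1) (hτ0 : 0 ≤ τ) (hτ : τ ≤ 1)
    (hρa0 : 0 ≤ ρa) (hρa : ρa ≤ P.R) (hρb0 : 0 ≤ ρb) (hρb : ρb ≤ P.R)
    (hbs : bs ≤ ε * V) (hlg : lg ≤ ε * V) (hb : b ≤ P.R * P.T * (ε * V)) (hta : ta ≤ ε * V)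
    (htb : tb ≤ ε * V) (hkt0 : 0 ≤ kt) (hkt : kt ≤ P.T) (hrr : rr ≤ (P.R + 1) * (ε * V))
    (huY : uY ≤ P.T * nO) (huW : uW ≤ P.T * nO) (hbY : bY ≤ D * nO)
    (hbW : bW ≤ D * nO + nR) (hD : 1 ≤ D) (hnO : 0 ≤ nO) (hnR : 0 ≤ nR)
    (hbY0 : 0 ≤ bY) (hbW0 : 0 ≤ bW) :
    bs * (bY + bW) + 1 / 2 * V * τ * (uY + uW) + 1 / 2 * V * (ρa ^ 2 + τ) * (P.T * nR) +
      nO * lg + V * ε * nO + (b + tb) * bY + (b + ta) * bW + kt * (ρa + ρb) * rr * nO ≤
      V * (16 * D * (1 + P.R) ^ 2 * (1 + P.T) * (ε + τ)) * nO +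
        V * (16 * D * (1 + P.R) ^ 2 * (1 + P.T)) * nR := by
  have hR : 0 ≤ P.R := hρa0.trans hρa
  have hT : 0 ≤ P.T := hP.T_pos.le
  have hεV : 0 ≤ ε * V := mul_nonneg hε0.le hV.le
  set R := P.R with hRd
  set T := P.T with hTd
  -- the terms with `bY`, `bW`
  have h1 : bs * (bY + bW) ≤ ε * V * (2 * D * nO + nR) := by
    refine (mul_le_mul_of_nonneg_right hbs (add_nonneg hbY0 hbW0)).trans ?_
    refine mul_le_mul_of_nonneg_left ?_ hεV
    linarith
  have h2 : (b + tb) * bY ≤ (R * T + 1) * (ε * V) * (D * nO) := by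
    refine (mul_le_mul_of_nonneg_right (show b + tb ≤ (R * T + 1) * (ε * V) by linarith)
      hbY0).trans ?_
    exact mul_le_mul_of_nonneg_left hbY (by positivity)
  have h3 : (b + ta) * bW ≤ (R * T + 1) * (ε * V) * (D * nO + nR) := by
    refine (mul_le_mul_of_nonneg_right (show b + ta ≤ (R * T + 1) * (ε * V) by linarith)
      hbW0).trans ?_
    exact mul_le_mul_of_nonneg_left hbW (by positivity)
  have h4 : 1 / 2 * V * τ * (uY + uW) ≤ V * τ * (T * nO) := by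
    have : uY + uW ≤ 2 * (T * nO) := by linarith
    have h5 := mul_le_mul_of_nonneg_left this (show 0 ≤ 1 / 2 * V * τ by positivity)
    linarith
  have h5 : 1 / 2 * V * (ρa ^ 2 + τ) * (T * nR) ≤ 1 / 2 * V * (R ^ 2 + 1) * (T * nR) := by
    have : ρa ^ 2 + τ ≤ R ^ 2 + 1 := add_le_add (pow_le_pow_left₀ hρa0 hρa 2) hτ
    have h6 := mul_le_mul_of_nonneg_left this (show 0 ≤ 1 / 2 * V * (T * nR) by positivity)
    linarith
  have h6 : nO * lg ≤ ε * V * nO := by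
    rw [mul_comm]
    exact mul_le_mul_of_nonneg_right hlg hnO
  have h7 : kt * (ρa + ρb) * rr * nO ≤ T * (2 * R) * ((R + 1) * (ε * V)) * nO := by
    refine mul_le_mul_of_nonneg_right ?_ hnO
    have k1 : kt * (ρa + ρb) ≤ T * (2 * R) := by
      have : ρa + ρb ≤ 2 * R := by linarith
      exact mul_le_mul hkt this (add_nonneg hρa0 hρb0) hT
    have k2 : 0 ≤ kt * (ρa + ρb) := mul_nonneg hkt0 (add_nonneg hρa0 hρb0)
    calc kt * (ρa + ρb) * rr ≤ kt * (ρa + ρb) * ((R + 1) * (ε * V)) :=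
          mul_le_mul_of_nonneg_left hrr k2
      _ ≤ _ := mul_le_mul_of_nonneg_right k1 (by positivity)
  -- summation
  have hA : ε * V * (2 * D * nO + nR) + V * τ * (T * nO) + 1 / 2 * V * (R ^ 2 + 1) * (T * nR) +
      ε * V * nO + V * ε * nO + (R * T + 1) * (ε * V) * (D * nO) +
      (R * T + 1) * (ε * V) * (D * nO + nR) + T * (2 * R) * ((R + 1) * (ε * V)) * nO =
      ε * V * nO * (2 * D + 2 + 2 * D * (R * T + 1) + 2 * T * R * (R + 1)) + V * τ * nO * T +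
      V * nR * (ε * (2 + R * T) + 1 / 2 * (R ^ 2 + 1) * T) := by ring
  have k1 : 2 * D + 2 + 2 * D * (R * T + 1) + 2 * T * R * (R + 1) ≤
      16 * D * (1 + R) ^ 2 * (1 + T) := by
    have q1 : 2 ≤ 2 * D := by linarith
    have q2 : 2 * T * R * (R + 1) ≤ D * (2 * T * R * (R + 1)) :=
      le_mul_of_one_le_left (by positivity) hD
    have q3 : 2 * D + 2 * D + 2 * D * (R * T + 1) + D * (2 * T * R * (R + 1)) ≤
        16 * D * (1 + R) ^ 2 * (1 + T) := by
      have e : 16 * D * (1 + R) ^ 2 * (1 + T) - (2 * D + 2 * D + 2 * D * (R * T + 1) +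
          D * (2 * T * R * (R + 1))) = D * (10 + 32 * R + 16 * R ^ 2 + 16 * T + 28 * R * T +
          14 * R ^ 2 * T) := by ring
      have : 0 ≤ D * (10 + 32 * R + 16 * R ^ 2 + 16 * T + 28 * R * T + 14 * R ^ 2 * T) := by
        have hD0 : 0 ≤ D := by linarith
        positivity
      linarith
    linarith
  have k2 : T ≤ 16 * D * (1 + R) ^ 2 * (1 + T) := by
    have e : 16 * D * (1 + R) ^ 2 * (1 + T) - T = (D - 1) * (16 * (1 + R) ^ 2 * (1 + T)) +
        (16 + 32 * R + 16 * R ^ 2 + 15 * T + 32 * R * T + 16 * R ^ 2 * T) := by ring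
    have : 0 ≤ (D - 1) * (16 * (1 + R) ^ 2 * (1 + T)) :=
      mul_nonneg (by linarith) (by positivity)
    have : 0 ≤ 16 + 32 * R + 16 * R ^ 2 + 15 * T + 32 * R * T + 16 * R ^ 2 * T := by positivity
    linarith
  have k3 : ε * (2 + R * T) + 1 / 2 * (R ^ 2 + 1) * T ≤ 16 * D * (1 + R) ^ 2 * (1 + T) := by
    have q1 : ε * (2 + R * T) ≤ 2 + R * T := mul_le_of_le_one_left (by positivity) hε
    have e : 16 * D * (1 + R) ^ 2 * (1 + T) - (2 + R * T + 1 / 2 * (R ^ 2 + 1) * T) =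
        (D - 1) * (16 * (1 + R) ^ 2 * (1 + T)) +
        (14 + 32 * R + 16 * R ^ 2 + 31 / 2 * T + 31 * R * T + 31 / 2 * R ^ 2 * T) := by ring
    have : 0 ≤ (D - 1) * (16 * (1 + R) ^ 2 * (1 + T)) :=
      mul_nonneg (by linarith) (by positivity)
    have : 0 ≤ 14 + 32 * R + 16 * R ^ 2 + 31 / 2 * T + 31 * R * T + 31 / 2 * R ^ 2 * T := by
      positivity
    linarith
  have m1 := mul_le_mul_of_nonneg_left k1 (show 0 ≤ ε * V * nO by positivity)
  have m2 := mul_le_mul_of_nonneg_left k2 (show 0 ≤ V * τ * nO by positivity)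
  have m3 := mul_le_mul_of_nonneg_left k3 (show 0 ≤ V * nR by positivity)
  linarith

end TypB

theorem type_bound2 {P : Par} {M : Md d E} {V bs μs Ps ε : ℝ} {k : ℕ} (hP : P.Ok)
    (G : Good P M V bs μs Ps ε k) {μ μa μb pa pb ρa ρb τ η : ℝ} (h1 : μa ≤ μ) (h2 : μ ≤ μb)
    (hη : η ≤ 1) (hηa : |μa - μs| ≤ η) (hηb : |μb - μs| ≤ η) (hρa0 : 0 ≤ ρa) (hρa : ρa ≤ P.R)
    (hρb0 : 0 ≤ ρb) (hρb : ρb ≤ P.R) (hτ0 : 0 ≤ τ) (hτ : τ ≤ 1)
    (Ga : Glue2 M V bs μa ρa τ pa) (Gb : Glue2 M V bs μb ρb τ pb)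
    (Y O W : Finset (Zd d)) (hYO : Disjoint Y O) (hYW : Disjoint Y W) (hOW : Disjoint O W)
    (hY : ∀ i ∈ Y, ∀ v ∈ M.S, i + v ∈ Y ∪ O)
    (Ω : Set (Zd d → E)) (hΩ : MeasurableSet Ω) (mY mW Q : ℝ)
    (c1 : ∀ ω ∈ Ω, mY ≤ ∑ i ∈ Y, (M.n (ω i) : ℝ))
    (c2 : ∀ ω ∈ Ω, ∑ i ∈ W, (M.n (ω i) : ℝ) ≤ mW)
    (c3 : ∀ ω ∈ Ω, Q ≤ en P M.S (jj M V) (Y ∪ O ∪ W) O (den M V (Y ∪ O ∪ W) ω) -
      P.T / 2 * (∑ i ∈ lyr M.S O Y, (den M V (Y ∪ O ∪ W) ω i - ρb) ^ 2 +
        ∑ i ∈ lyr M.S O W, (den M V (Y ∪ O ∪ W) ω i - ρa) ^ 2)) :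
    M.int (Y ∪ O ∪ W) (Ω.indicator (M.w μ (Y ∪ O ∪ W))) ≤
      ex (pb * Y.card + pa * W.card - (μb - μ) * mY + (μ - μa) * mW +
        V * (Ps + η * P.R) * O.card - V * Q + V * (P.C d * (ε + τ)) * O.card +
        V * P.C d * (rb M.S (Y ∪ O ∪ W)).card) := by
  classical
  have hV := G.V_pos
  have hK := M.hK
  have hjok := G.jok hP
  set C : ℝ := -(μb - μ) * mY + (μ - μa) * mW + V * (Ps + ε + η * P.R) * O.card - V * Q -
        1 / 2 * V * ρb ^ 2 * TypB.os M.S (jj M V) Y O (fun _ => 1) -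
        1 / 2 * V * ρa ^ 2 * TypB.os M.S (jj M V) W O (fun _ => 1) +
        (M.K * M.Ns * M.N * M.tot + |μb| * M.Ns) * (bd Y).card +
        (M.K * M.Ns * M.N * M.tot + |μa| * M.Ns) * (bd W).card +
        M.K * V * M.tot * (ρa + ρb) * (ε * M.N + M.Ns) * O.card with hC
  have i1 : M.int (Y ∪ O ∪ W) (Ω.indicator (M.w μ (Y ∪ O ∪ W))) ≤
      M.int (Y ∪ O ∪ W) (fun ω => Typ.GF M μb (ρb * V) Y ω *
        (∏ i ∈ O, uo P M V μs Ps ε (ω i)) * Typ.GF M μa (ρa * V) W ω * ex C) := by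
    refine Typ.int_mono M _ fun ω => ?_
    by_cases hω : ω ∈ Ω
    · rw [Set.indicator_of_mem hω]
      exact TypB.w_le2 hP G h1 h2 hηa hηb hρa0 hρb0 Y O W hYO hYW hOW hY mY mW Q ω (c1 ω hω)
        (c2 ω hω) (c3 ω hω)
    · rw [Set.indicator_of_notMem hω]
      exact zero_le
  refine i1.trans ?_
  have e1 := Typ.int_mul M (Finset.disjoint_union_left.2 ⟨hYW, hOW⟩)
    (F := fun ω => Typ.GF M μb (ρb * V) Y ω * ∏ i ∈ O, uo P M V μs Ps ε (ω i))
    (G := Typ.GF M μa (ρa * V) W)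
    ((Typ.measurable_GF M _ _ Y).mul (TypB.measurable_uo_prod P M V μs Ps ε O))
    (Typ.measurable_GF M _ _ W)
    (fun ω ω' h => by
      rw [Typ.GF_congr M _ _ Y fun i hi => h i (Finset.mem_union_left _ hi)]
      congr 1
      exact prod_congr rfl fun i hi => by rw [h i (Finset.mem_union_right _ hi)])
    (fun ω ω' h => Typ.GF_congr M _ _ W h)
  have e2 := Typ.int_mul M hYO (F := Typ.GF M μb (ρb * V) Y)
    (G := fun ω => ∏ i ∈ O, uo P M V μs Ps ε (ω i)) (Typ.measurable_GF M _ _ Y)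
    (TypB.measurable_uo_prod P M V μs Ps ε O)
    (fun ω ω' h => Typ.GF_congr M _ _ Y h)
    (fun ω ω' h => prod_congr rfl fun i hi => by rw [h i hi])
  rw [Typ.int_mul_const M _ (ex_ne_top C), e1, e2]
  refine (mul_le_mul' (mul_le_mul' (mul_le_mul' (Gb Y) (int_prod_uo G O)) (Ga W))
    (le_refl (ex C))).trans ?_
  rw [← ex_add, ← ex_add, ← ex_add, ex_le_ex, hC]
  -- the cuts
  have hcY : M.K / 2 * V ^ 2 * (ρb ^ 2 + τ) * cut M.S M.J Y ≤
      1 / 2 * V * (ρb ^ 2 + τ) * TypB.os M.S (jj M V) Y O (fun _ => 1) := by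
    rw [← TypB.os_conv1]
    have := mul_le_mul_of_nonneg_left (TypB.cut_Y M hY)
      (show 0 ≤ M.K / 2 * V ^ 2 * (ρb ^ 2 + τ) by positivity)
    refine this.trans (le_of_eq ?_)
    ring
  have hcW : M.K / 2 * V ^ 2 * (ρa ^ 2 + τ) * cut M.S M.J W ≤
      1 / 2 * V * (ρa ^ 2 + τ) * TypB.os M.S (jj M V) W O (fun _ => 1) +
      1 / 2 * V * (ρa ^ 2 + τ) * (P.T * (rb M.S (Y ∪ O ∪ W)).card) := by
    rw [← TypB.os_conv1]
    have k1 := mul_le_mul_of_nonneg_left (TypB.cut_W M hYW hOW hY)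
      (show 0 ≤ M.K / 2 * V ^ 2 * (ρa ^ 2 + τ) by positivity)
    have k2 := mul_le_mul_of_nonneg_left (mul_le_mul_of_nonneg_right G.tot_le
      (Nat.cast_nonneg (rb M.S (Y ∪ O ∪ W)).card))
      (show 0 ≤ 1 / 2 * V * (ρa ^ 2 + τ) by positivity)
    linarith
  have hNs0 : (0 : ℝ) ≤ M.Ns := Nat.cast_nonneg _
  have hNs : (M.Ns : ℝ) ≤ ε * V := by
    refine le_trans ?_ G.Ns_le
    have := mul_nonneg (abs_nonneg μs) hNs0
    linarith
  have hab : ∀ ν : ℝ, |ν - μs| ≤ η → |ν| * M.Ns ≤ ε * V := by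
    intro ν hν
    refine le_trans (mul_le_mul_of_nonneg_right ?_ hNs0) G.Ns_le
    have h3 : |ν| ≤ |μs| + |ν - μs| := by
      have := abs_add_le μs (ν - μs)
      rwa [add_sub_cancel] at this
    linarith
  have hεV : 0 ≤ ε * V := (mul_pos G.eps_pos hV).le
  have hR0 : 0 ≤ P.R := hρa0.trans hρa
  have hb : M.K * M.Ns * M.N * M.tot ≤ P.R * P.T * (ε * V) := by
    have k1 : M.K * M.tot * M.N ≤ P.R * P.T := by
      calc M.K * M.tot * M.N ≤ M.K * M.tot * (P.R * V) :=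
            mul_le_mul_of_nonneg_left G.N_le (mul_nonneg hK.le M.tot_nonneg)
        _ = P.R * (M.K * V * M.tot) := by ring
        _ ≤ P.R * P.T := mul_le_mul_of_nonneg_left G.tot_le hR0
    calc M.K * M.Ns * M.N * M.tot = (M.K * M.tot * M.N) * M.Ns := by ring
      _ ≤ (P.R * P.T) * (ε * V) :=
        mul_le_mul k1 hNs hNs0 (mul_nonneg hR0 hP.T_pos.le)
  have hrr : ε * M.N + M.Ns ≤ (P.R + 1) * (ε * V) := by
    have := mul_le_mul_of_nonneg_left G.N_le G.eps_pos.le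
    linarith
  have hu : ∀ X : Finset (Zd d), TypB.os M.S (jj M V) X O (fun _ => 1) ≤ P.T * O.card := by
    intro X
    refine (TypB.os_card hjok.nonneg X O).trans ?_
    exact mul_le_mul_of_nonneg_right hjok.tot_le (Nat.cast_nonneg _)
  have hbY : ((bd Y).card : ℝ) ≤ 3 ^ d * O.card := by exact_mod_cast TypB.bd_Y M hY
  have hbW : ((bd W).card : ℝ) ≤ 3 ^ d * O.card + (rb M.S (Y ∪ O ∪ W)).card := by
    exact_mod_cast TypB.bd_W M hYW hOW hY
  have hfin := TypB.err_le hP (τ := τ) (D := 3 ^ d) hV G.eps_pos G.eps_le hτ0 hτ hρa0 hρa hρb0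
    hρb G.bs_le G.log_le hb (hab μa hηa) (hab μb hηb)
    (show 0 ≤ M.K * V * M.tot from mul_nonneg (mul_nonneg hK.le hV.le) M.tot_nonneg) G.tot_le hrr
    (hu Y) (hu W) hbY hbW (one_le_pow₀ (by norm_num)) (Nat.cast_nonneg _) (Nat.cast_nonneg _)
    (Nat.cast_nonneg _) (Nat.cast_nonneg _)
  unfold Par.C
  linarith

end Pool.Agent.Vdw
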