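import Pool.Agent.Lib.MP_09cbbd_vw.ClsD
import Pool.Agent.Lib.MP_09cbbd_vw.Typ
import Pool.Agent.Lib.MP_09cbbd_vw.Mass

/-!
# The weight of a class of configurations
-/

set_option autoImplicit false

namespace Pool.Agent.Vdw

open MeasureTheory Finset Filter Topology Pool.Agent.StableGas Pool.Agent.Kac
open Pool.Agent.SquareWell hiding Md cut

variable {d : ℕ} {E : Type} [MeasurableSpace E]

namespace ClsA

theorem sum_lift (k : ℕ) (F : Finset (Zd d)) (f : Zd d → ℝ) :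
    ∑ i ∈ lift k F, f i = ∑ p ∈ F, ∑ i ∈ blk k p, f i := by
  classical
  unfold lift
  apply Finset.sum_biUnion
  intro p _ q _ hpq
  rw [Function.onFun, Finset.disjoint_left]
  intro i h1 h2
  exact hpq (blk_unique h1 h2)

/-- a block is not in both phases -/
theorem not_both {P : Par} {z : ℝ} (hz : 0 < z)
    (hz2 : 16 * z ≤ (P.xb - P.xa) ^ 2) {k : ℕ} (hk : 1 ≤ k) {A : Finset (Zd d)} {x : Zd d → ℝ}
    {p : Zd d} (h : Dq P z k A x p) : ¬ Vq P z k A x p := by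
  rintro (h1 | h1)
  · exact h1 h.1
  have h2 := h.2
  have h3 : ∑ _i ∈ blk k p, (P.xb - P.xa) ^ 2 ≤
      ∑ i ∈ blk k p, (2 * (x i - P.xa) ^ 2 + 2 * (x i - P.xb) ^ 2) := by
    apply Finset.sum_le_sum
    intro i _
    nlinarith [sq_nonneg ((x i - P.xa) + (x i - P.xb))]
  rw [Finset.sum_add_distrib, ← Finset.mul_sum, ← Finset.mul_sum, Finset.sum_const, card_blk,
    nsmul_eq_mul] at h3
  have h4 : (0 : ℝ) < (k : ℝ) ^ d := by
    have : (0 : ℝ) < k := by exact_mod_cast hk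
    positivity
  push_cast at h3
  have h5 : (k : ℝ) ^ d * (16 * z) ≤ (k : ℝ) ^ d * (P.xb - P.xa) ^ 2 :=
    mul_le_mul_of_nonneg_left hz2 h4.le
  have h6 : 0 < (k : ℝ) ^ d * z := mul_pos h4 hz
  linarith

theorem den_of {M : Md d E} {V : ℝ} (hV : 0 < V) {A : Finset (Zd d)} {ω : Zd d → E} {i : Zd d}
    (hi : i ∈ A) : (M.n (ω i) : ℝ) = V * den M V A ω i := by
  unfold den
  rw [if_pos hi]
  field_simp

theorem sum_n {M : Md d E} {V : ℝ} (hV : 0 < V) {k : ℕ} {A F : Finset (Zd d)} (hF : F ⊆ A)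
    (ω : Zd d → E) : ∑ i ∈ lift k F, (M.n (ω i) : ℝ) =
      V * ∑ p ∈ F, ∑ i ∈ blk k p, den M V (lift k A) ω i := by
  rw [← sum_lift, Finset.mul_sum]
  apply Finset.sum_congr rfl
  intro i hi
  exact den_of hV (lift_subset hF hi)

/-- lower bound for the number of particles -/
theorem mass_lower {P : Par} (hP : P.Ok) {z : ℝ} {k : ℕ} {A F : Finset (Zd d)} {x : Zd d → ℝ}
    (hx0 : ∀ i, 0 ≤ x i) {a c0 : ℝ}
    (h1 : ∀ G : Finset (Zd d), (∀ p ∈ G, Dq P z k A x p) →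
      ∑ p ∈ G, ∑ i ∈ blk k p, |x i - P.xb| ≤ a)
    (h2 : ∀ D' : Finset (Zd d), (∀ i, i ∈ D' ↔ Dq P z k A x i) → ((F \ D').card : ℝ) ≤ c0) :
    P.xb * ((lift k F).card : ℝ) - a - P.xb * (k : ℝ) ^ d * c0 ≤
      ∑ p ∈ F, ∑ i ∈ blk k p, x i := by
  classical
  set D' : Finset (Zd d) := A.filter (fun p => Dq P z k A x p) with hD'
  have hD : ∀ i, i ∈ D' ↔ Dq P z k A x i := by
    intro i
    rw [hD', Finset.mem_filter]
    exact ⟨fun h => h.2, fun h => ⟨h.1, h⟩⟩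
  have h3 := h2 D' hD
  set G : Finset (Zd d) := F ∩ D' with hG
  have h4 := h1 G (fun p hp => (hD p).1 (Finset.mem_inter.1 hp).2)
  have hxb : 0 ≤ P.xb := hP.xa_nonneg.trans hP.xa_lt.le
  have h5 : ∑ p ∈ G, ∑ i ∈ blk k p, (P.xb - |x i - P.xb|) ≤ ∑ p ∈ G, ∑ i ∈ blk k p, x i := by
    apply Finset.sum_le_sum
    intro p _
    apply Finset.sum_le_sum
    intro i _
    have := neg_abs_le (x i - P.xb)
    linarith
  have h6 : ∑ p ∈ G, ∑ i ∈ blk k p, x i ≤ ∑ p ∈ F, ∑ i ∈ blk k p, x i := by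
    apply Finset.sum_le_sum_of_subset_of_nonneg Finset.inter_subset_left
    intro p _ _
    exact Finset.sum_nonneg fun i _ => hx0 i
  have h7 : ∑ p ∈ G, ∑ i ∈ blk k p, (P.xb - |x i - P.xb|) =
      P.xb * (k : ℝ) ^ d * G.card - ∑ p ∈ G, ∑ i ∈ blk k p, |x i - P.xb| := by
    simp only [Finset.sum_sub_distrib, Finset.sum_const, card_blk, nsmul_eq_mul]
    push_cast
    ring
  have h8 : (F.card : ℝ) = G.card + (F \ D').card := by
    have := Finset.card_inter_add_card_sdiff F D'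
    rw [hG]
    exact_mod_cast this.symm
  have h9 : ((lift k F).card : ℝ) = (k : ℝ) ^ d * F.card := by
    rw [card_lift]
    push_cast
    ring
  have h10 : 0 ≤ P.xb * (k : ℝ) ^ d := by positivity
  have h11 := mul_le_mul_of_nonneg_left h3 h10
  rw [h9, h8]
  nlinarith

/-- upper bound for the number of particles -/
theorem mass_upper {P : Par} (hP : P.Ok) {z : ℝ} {k : ℕ} {A F : Finset (Zd d)} {x : Zd d → ℝ}
    (hxR : ∀ i, x i ≤ P.R) {a c0 : ℝ}
    (h1 : ∀ G : Finset (Zd d), (∀ p ∈ G, p ∈ A ∧ Vq P z k A x p) →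
      ∑ p ∈ G, ∑ i ∈ blk k p, |x i - P.xa| ≤ a)
    (h2 : ∀ V' : Finset (Zd d), (∀ i ∈ A, i ∈ V' ↔ Vq P z k A x i) → ((F \ V').card : ℝ) ≤ c0) :
    ∑ p ∈ F, ∑ i ∈ blk k p, x i ≤
      P.xa * ((lift k F).card : ℝ) + a + P.R * (k : ℝ) ^ d * c0 := by
  classical
  set V' : Finset (Zd d) := A.filter (fun p => Vq P z k A x p) with hV'
  have hV : ∀ i ∈ A, i ∈ V' ↔ Vq P z k A x i := by
    intro i hi
    rw [hV', Finset.mem_filter]
    exact ⟨fun h => h.2, fun h => ⟨hi, h⟩⟩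
  have h3 := h2 V' hV
  set G : Finset (Zd d) := F ∩ V' with hG
  have h4 := h1 G (fun p hp => by
    have := (Finset.mem_inter.1 hp).2
    rw [hV', Finset.mem_filter] at this
    exact this)
  have hR : 0 ≤ P.R := hP.xa_nonneg.trans (hP.xa_lt.le.trans hP.xb_le)
  have h5 : ∑ p ∈ G, ∑ i ∈ blk k p, x i ≤ ∑ p ∈ G, ∑ i ∈ blk k p, (P.xa + |x i - P.xa|) := by
    apply Finset.sum_le_sum
    intro p _
    apply Finset.sum_le_sum
    intro i _
    have := le_abs_self (x i - P.xa)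
    linarith
  have h7 : ∑ p ∈ G, ∑ i ∈ blk k p, (P.xa + |x i - P.xa|) =
      P.xa * (k : ℝ) ^ d * G.card + ∑ p ∈ G, ∑ i ∈ blk k p, |x i - P.xa| := by
    simp only [Finset.sum_add_distrib, Finset.sum_const, card_blk, nsmul_eq_mul]
    push_cast
    ring
  have h6 : ∑ p ∈ F, ∑ i ∈ blk k p, x i = ∑ p ∈ G, ∑ i ∈ blk k p, x i +
      ∑ p ∈ F \ V', ∑ i ∈ blk k p, x i := by
    rw [hG, Finset.sum_inter_add_sum_sdiff]
  have h6' : ∑ p ∈ F \ V', ∑ i ∈ blk k p, x i ≤ P.R * (k : ℝ) ^ d * (F \ V').card := by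
    calc ∑ p ∈ F \ V', ∑ i ∈ blk k p, x i ≤ ∑ p ∈ F \ V', ∑ _i ∈ blk k p, P.R := by
          apply Finset.sum_le_sum
          intro p _
          apply Finset.sum_le_sum
          intro i _
          exact hxR i
      _ = _ := by
          simp only [Finset.sum_const, card_blk, nsmul_eq_mul]
          push_cast
          ring
  have h8 : (G.card : ℝ) ≤ F.card := by
    exact_mod_cast Finset.card_le_card Finset.inter_subset_left
  have h9 : ((lift k F).card : ℝ) = (k : ℝ) ^ d * F.card := by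
    rw [card_lift]
    push_cast
    ring
  have h10 : 0 ≤ P.R * (k : ℝ) ^ d := by positivity
  have h11 := mul_le_mul_of_nonneg_left h3 h10
  have h12 : 0 ≤ P.xa * (k : ℝ) ^ d := mul_nonneg hP.xa_nonneg (by positivity)
  have h13 := mul_le_mul_of_nonneg_left h8 h12
  rw [h9, h6]
  nlinarith

/-- comparison of the layer terms -/
theorem lyr_le {P : Par} {k : ℕ} {S : Finset (Zd d)} {La DL OO YY WW : Finset (Zd d)}
    {x : Zd d → ℝ} {δ : ℝ}
    (hY : ∀ i ∈ lyr S OO YY, ∃ p ∈ La, p ∈ DL ∧ i ∈ blk k p)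
    (hW : ∀ i ∈ lyr S OO WW, ∃ p ∈ La, p ∉ DL ∧ i ∈ blk k p) :
    ∑ i ∈ lyr S OO YY, (x i - (P.xb - δ)) ^ 2 + ∑ i ∈ lyr S OO WW, (x i - (P.xa + δ)) ^ 2 ≤
      2 * (∑ p ∈ La, ∑ i ∈ blk k p, (x i - if p ∈ DL then P.xb else P.xa) ^ 2) +
        2 * δ ^ 2 * (k : ℝ) ^ d * La.card := by
  classical
  have h1 : ∑ i ∈ lyr S OO YY, (x i - (P.xb - δ)) ^ 2 ≤
      ∑ p ∈ La.filter (· ∈ DL), ∑ i ∈ blk k p, (x i - (P.xb - δ)) ^ 2 := by
    rw [← sum_lift]
    apply Finset.sum_le_sum_of_subset_of_nonneg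
    · intro i hi
      obtain ⟨p, hp, hpD, hip⟩ := hY i hi
      rw [mem_lift]
      exact ⟨p, Finset.mem_filter.2 ⟨hp, hpD⟩, hip⟩
    · intro i _ _
      positivity
  have h2 : ∑ i ∈ lyr S OO WW, (x i - (P.xa + δ)) ^ 2 ≤
      ∑ p ∈ La.filter (¬ · ∈ DL), ∑ i ∈ blk k p, (x i - (P.xa + δ)) ^ 2 := by
    rw [← sum_lift]
    apply Finset.sum_le_sum_of_subset_of_nonneg
    · intro i hi
      obtain ⟨p, hp, hpD, hip⟩ := hW i hi
      rw [mem_lift]
      exact ⟨p, Finset.mem_filter.2 ⟨hp, hpD⟩, hip⟩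
    · intro i _ _
      positivity
  have h3 : ∑ p ∈ La.filter (· ∈ DL), ∑ i ∈ blk k p, (x i - (P.xb - δ)) ^ 2 ≤
      ∑ p ∈ La.filter (· ∈ DL), ∑ i ∈ blk k p,
        (2 * (x i - if p ∈ DL then P.xb else P.xa) ^ 2 + 2 * δ ^ 2) := by
    apply Finset.sum_le_sum
    intro p hp
    apply Finset.sum_le_sum
    intro i _
    rw [if_pos (Finset.mem_filter.1 hp).2]
    nlinarith [sq_nonneg (x i - P.xb - δ)]
  have h4 : ∑ p ∈ La.filter (¬ · ∈ DL), ∑ i ∈ blk k p, (x i - (P.xa + δ)) ^ 2 ≤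
      ∑ p ∈ La.filter (¬ · ∈ DL), ∑ i ∈ blk k p,
        (2 * (x i - if p ∈ DL then P.xb else P.xa) ^ 2 + 2 * δ ^ 2) := by
    apply Finset.sum_le_sum
    intro p hp
    apply Finset.sum_le_sum
    intro i _
    rw [if_neg (Finset.mem_filter.1 hp).2]
    nlinarith [sq_nonneg (x i - P.xa + δ)]
  have h5 := Finset.sum_filter_add_sum_filter_not La (· ∈ DL) (fun p => ∑ i ∈ blk k p,
        (2 * (x i - if p ∈ DL then P.xb else P.xa) ^ 2 + 2 * δ ^ 2))
  have h6 : ∑ p ∈ La, ∑ i ∈ blk k p,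
        (2 * (x i - if p ∈ DL then P.xb else P.xa) ^ 2 + 2 * δ ^ 2) =
      2 * (∑ p ∈ La, ∑ i ∈ blk k p, (x i - if p ∈ DL then P.xb else P.xa) ^ 2) +
        2 * δ ^ 2 * (k : ℝ) ^ d * La.card := by
    simp only [Finset.sum_add_distrib, Finset.sum_const, card_blk, nsmul_eq_mul, Finset.mul_sum]
    push_cast
    ring
  linarith

theorem final_arith {V R μa μb η η' δ xa xb pa pb pm Ps ε C w c4 y o ww a kL q rb : ℝ}
    (hV : 0 ≤ V) (hR : 0 ≤ R) (hΔη : μb - μa ≤ 2 * η) (hη0 : 0 ≤ η)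
    (hη'η : η' ≤ η) (hδ : 0 ≤ δ) (hδ1 : δ ≤ 1)
    (hpa : pa ≤ pm - (μb - μa) / 2 * ((xa + δ) * V))
    (hpb : pb ≤ pm + (μb - μa) / 2 * ((xb - δ) * V))
    (hpm : V * (Ps - (R + 2) * η) ≤ pm)
    (hCε : C * ε ≤ c4 / 8) (hCδ : C * (δ * w) ≤ c4 / 8) (hηc : η * (2 * R + 3) ≤ c4 / 8)
    (hy0 : 0 ≤ y) (ho0 : 0 ≤ o) (hw0 : 0 ≤ ww) (hsum : a = y + o + ww)
    (hoL : o ≤ q * kL) (hc4 : 0 ≤ c4) :
    pb * y + pa * ww - (μb - (μa + μb) / 2) * (V * (xb * y - δ / 4 * a)) +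
          ((μa + μb) / 2 - μa) * (V * (xa * ww + δ / 4 * a)) +
          V * (Ps + η' * R) * o - V * (c4 / 2 * (q * kL)) +
        V * (C * (ε + δ * w)) * o + V * C * rb ≤
      pm * a - (μb - μa) / 4 * (δ * V) * a + V * C * rb - c4 / 8 * V * q * kL := by
  set Δ : ℝ := μb - μa with hΔ
  have k1 : μb - (μa + μb) / 2 = Δ / 2 := by rw [hΔ]; ring
  have k2 : (μa + μb) / 2 - μa = Δ / 2 := by rw [hΔ]; ring
  rw [k1, k2]
  have k3 : pb * y ≤ (pm + Δ / 2 * ((xb - δ) * V)) * y := mul_le_mul_of_nonneg_right hpb hy0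
  have k4 : pa * ww ≤ (pm - Δ / 2 * ((xa + δ) * V)) * ww := mul_le_mul_of_nonneg_right hpa hw0
  have k5 : V * (Ps + η' * R) * o ≤ (pm + V * ((2 * R + 2) * η)) * o := by
    apply mul_le_mul_of_nonneg_right _ ho0
    have h1 : η' * R ≤ η * R := mul_le_mul_of_nonneg_right hη'η hR
    have h2 := mul_le_mul_of_nonneg_left h1 hV
    linarith only [h2, hpm]
  have k6 : V * (C * (ε + δ * w)) * o ≤ V * (c4 / 4) * o := by
    apply mul_le_mul_of_nonneg_right _ ho0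
    apply mul_le_mul_of_nonneg_left _ hV
    linarith only [hCε, hCδ]
  have k7 : Δ / 2 * (V * (δ * o)) ≤ V * η * o := by
    have h1 : Δ / 2 * (V * (δ * o)) = (Δ / 2) * (δ * (V * o)) := by ring
    have hVo : 0 ≤ V * o := by positivity
    have h2 : δ * (V * o) ≤ V * o := by nlinarith only [hδ1, hVo]
    have h3 : (Δ / 2) * (δ * (V * o)) ≤ η * (V * o) :=
      mul_le_mul (by linarith only [hΔη]) h2 (by positivity) hη0
    linarith only [h1, h3]
  have k8 : V * (η * (2 * R + 3)) * o ≤ V * (c4 / 8) * o := by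
    apply mul_le_mul_of_nonneg_right _ ho0
    exact mul_le_mul_of_nonneg_left hηc hV
  have k9 : V * (3 * c4 / 8) * o ≤ V * (3 * c4 / 8) * (q * kL) :=
    mul_le_mul_of_nonneg_left hoL (by positivity)
  subst hsum
  linarith only [k3, k4, k5, k6, k7, k8, k9]

end ClsA

open ClsA

theorem class_bound2 (hd : 2 ≤ d) {P : Par} (hP : P.Ok) {z : ℝ} (hz : 0 < z)
    (hz2 : 16 * z ≤ (P.xb - P.xa) ^ 2) {m Mr : ℕ} (hm : 1 ≤ m)
    (hM : (m + 2) * (P.m0 + 2) ≤ Mr) {c4 : ℝ} (hc4 : 0 < c4) :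
    ∃ δ0 : ℝ, 0 < δ0 ∧ ∀ δ : ℝ, 0 < δ → δ ≤ δ0 → ∃ τ c0 η ε0 : ℝ,
      0 < τ ∧ 0 < c0 ∧ 0 < η ∧ η ≤ 1 ∧ 0 < ε0 ∧
      ∀ (E : Type) (_ : MeasurableSpace E) (M : Md d E) (V bs μs Ps ε : ℝ) (k : ℕ),
      Good P M V bs μs Ps ε k → ε ≤ ε0 → ∀ η' : ℝ, 0 < η' → η' ≤ η →
      ∀ μa μb pa pb pm : ℝ, μa < μb → |μa - μs| ≤ η' → |μb - μs| ≤ η' →
      Glue2 M V bs μa (P.xa + δ) (δ * (P.xb - P.xa + 1)) pa →
      Glue2 M V bs μb (P.xb - δ) (δ * (P.xb - P.xa + 1)) pb →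
      pa ≤ pm - (μb - μa) / 2 * ((P.xa + δ) * V) →
      pb ≤ pm + (μb - μa) / 2 * ((P.xb - δ) * V) →
      V * (Ps - (P.R + 2) * η) ≤ pm →
      ∀ (A : Finset (Zd d)) (s κ : ℕ) (L Y DL OL : Finset (Zd d)), 1 ≤ κ → κ ≤ m →
      M.int (lift k A) ((Class P M V z τ c0 c4 k Mr A s κ L Y DL OL).indicator
        (M.w ((μa + μb) / 2) (lift k A))) ≤
      ex (pm * (lift k A).card - (μb - μa) / 4 * (δ * V) * (lift k A).card +
        V * P.C d * (rb M.S (lift k A)).card - c4 / 8 * V * k ^ d * L.card) := by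
  classical
  have hxa := hP.xa_nonneg
  have hxab := hP.xa_lt
  have hxbR := hP.xb_le
  have hT := hP.T_pos
  have hR : 0 ≤ P.R := by linarith
  have hC : 0 < P.C d := by
    unfold Par.C
    positivity
  set w : ℝ := P.xb - P.xa + 1 with hw
  have hw1 : 1 ≤ w := by linarith
  obtain ⟨δ0, hδ0, e1, e2, e3, e4⟩ : ∃ δ0 : ℝ, 0 < δ0 ∧ δ0 ≤ P.xb - P.xa ∧ δ0 * w ≤ 1 ∧
      P.T * δ0 ^ 2 ≤ c4 / 2 ∧ P.C d * (δ0 * w) ≤ c4 / 8 := by
    refine ⟨min (min (P.xb - P.xa) (1 / w)) (min (min 1 (c4 / (2 * P.T))) (c4 / (8 * P.C d * w))),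
      ?_, ?_, ?_, ?_, ?_⟩
    · have : 0 < P.xb - P.xa := by linarith
      positivity
    · exact (min_le_left _ _).trans (min_le_left _ _)
    · have : min (min (P.xb - P.xa) (1 / w)) (min (min 1 (c4 / (2 * P.T)))
          (c4 / (8 * P.C d * w))) ≤ 1 / w := (min_le_left _ _).trans (min_le_right _ _)
      calc _ ≤ 1 / w * w := mul_le_mul_of_nonneg_right this (by linarith)
        _ = 1 := by field_simp
    · set t := min (min (P.xb - P.xa) (1 / w)) (min (min 1 (c4 / (2 * P.T)))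
          (c4 / (8 * P.C d * w))) with ht
      have h1 : t ≤ 1 := (min_le_right _ _).trans ((min_le_left _ _).trans (min_le_left _ _))
      have h2 : t ≤ c4 / (2 * P.T) :=
        (min_le_right _ _).trans ((min_le_left _ _).trans (min_le_right _ _))
      have h0 : 0 < t := by
        have : 0 < P.xb - P.xa := by linarith
        rw [ht]
        positivity
      have h3 : t ^ 2 ≤ t := by nlinarith
      have h4 : P.T * t ≤ c4 / 2 := by
        calc P.T * t ≤ P.T * (c4 / (2 * P.T)) := mul_le_mul_of_nonneg_left h2 hT.le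
          _ = c4 / 2 := by field_simp
      nlinarith
    · have : min (min (P.xb - P.xa) (1 / w)) (min (min 1 (c4 / (2 * P.T)))
          (c4 / (8 * P.C d * w))) ≤ c4 / (8 * P.C d * w) := (min_le_right _ _).trans (min_le_right _ _)
      calc _ ≤ P.C d * (c4 / (8 * P.C d * w) * w) := by
            apply mul_le_mul_of_nonneg_left _ hC.le
            exact mul_le_mul_of_nonneg_right this (by linarith)
        _ = c4 / 8 := by field_simp
  refine ⟨δ0, hδ0, ?_⟩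
  intro δ hδ hδ1
  have hδab : δ ≤ P.xb - P.xa := hδ1.trans e1
  have hδw0 : 0 ≤ δ * w := by positivity
  have hδw : δ * w ≤ 1 := (mul_le_mul_of_nonneg_right hδ1 (by linarith)).trans e2
  have hTδ : P.T * δ ^ 2 ≤ c4 / 2 := by
    refine le_trans ?_ e3
    apply mul_le_mul_of_nonneg_left _ hT.le
    exact pow_le_pow_left₀ hδ.le hδ1 2
  have hCδ : P.C d * (δ * w) ≤ c4 / 8 := by
    refine le_trans ?_ e4
    apply mul_le_mul_of_nonneg_left _ hC.le
    exact mul_le_mul_of_nonneg_right hδ1 (by linarith)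
  obtain ⟨τ, hτ, hmass⟩ := mass (d := d) hP hz hz2 (δ := δ / 8) (by positivity)
  set c0 : ℝ := δ / (8 * (P.R + 1)) with hc0
  have hc00 : 0 < c0 := by positivity
  have hRc0 : P.R * c0 ≤ δ / 8 := by
    rw [hc0]
    rw [mul_div_assoc', div_le_div_iff₀ (by positivity) (by norm_num)]
    nlinarith
  set η : ℝ := min 1 (c4 / (8 * (2 * P.R + 3))) with hη
  have hη0 : 0 < η := by positivity
  have hη1 : η ≤ 1 := min_le_left _ _
  have hηc : η * (2 * P.R + 3) ≤ c4 / 8 := by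
    calc η * (2 * P.R + 3) ≤ c4 / (8 * (2 * P.R + 3)) * (2 * P.R + 3) :=
          mul_le_mul_of_nonneg_right (min_le_right _ _) (by positivity)
      _ = c4 / 8 := by field_simp
  set ε0 : ℝ := c4 / (8 * P.C d) with hε0
  have hε00 : 0 < ε0 := by positivity
  refine ⟨τ, c0, η, ε0, hτ, hc00, hη0, hη1, hε00, ?_⟩
  intro E _ M V bs μs Ps ε k G hε η' hη' hη'η μa μb pa pb pm hab hμa hμb Ga Gb hpa hpb hpm
    A s κ L Y DL OL hκ1 hκm
  set Cl := Class P M V z τ c0 c4 k Mr A s κ L Y DL OL with hCl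
  rcases Set.eq_empty_or_nonempty Cl with he | ⟨ω0, hω0⟩
  · rw [he, Set.indicator_empty]
    have : M.int (lift k A) (fun _ => 0) = 0 := by
      unfold Kac.Md.int
      simp [lmarginal]
    rw [this]
    exact zero_le
  have hV := G.V_pos
  have hk := G.k_pos
  have hkR : (0 : ℝ) < (k : ℝ) ^ d := by
    have : (0 : ℝ) < k := by exact_mod_cast hk
    positivity
  have hJ := G.jok hP
  have hCε : P.C d * ε ≤ c4 / 8 := by
    calc P.C d * ε ≤ P.C d * ε0 := mul_le_mul_of_nonneg_left hε hC.le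
      _ = c4 / 8 := by rw [hε0]; field_simp
  -- the regions
  obtain ⟨hcut, hDL, hOL, -, -, -⟩ := hω0
  have hD0 : ∀ i, DD P M V z k A ω0 i → i ∈ A := fun i h => h.1
  have hV0 : ∀ i, i ∉ A → VC P M V z k A ω0 i := fun i h => Or.inl h
  have hDV0 : ∀ i, DD P M V z k A ω0 i → ¬ VC P M V z k A ω0 i := fun i h => not_both hz hz2 hk h
  have hs0 : 1 ≤ P.m0 + 2 := by omega
  have hr0 : (κ + 2) * (P.m0 + 2) ≤ Mr :=
    (Nat.mul_le_mul_right _ (by omega)).trans hM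
  set Lκ := Lk (P.m0 + 2) κ L DL OL with hLκ
  set Yκ := Yk (P.m0 + 2) κ L Y DL OL with hYκ
  set Wκ := Wk (P.m0 + 2) κ A L Y DL OL with hWκ
  have hYA : Yκ ⊆ A := Yk_sub hcut hD0 hV0 hDV0 hDL hOL hs0 hr0
  have hYL : Disjoint Yκ Lκ := Yk_disj hcut hD0 hV0 hDV0 hDL hOL hs0 hr0
  have hLκ1 : Lk (P.m0 + 2) (κ + 1) L DL OL ⊆ L := Lk_sub hcut hD0 hV0 hDV0 hDL hOL hs0 hr0
  have hWA : Wκ ⊆ A := by
    rw [hWκ]
    unfold Wk
    exact Finset.sdiff_subset
  have hLL : Lκ ⊆ L := by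
    refine Finset.Subset.trans ?_ hLκ1
    rw [hLκ]
    unfold Lk
    intro i hi
    rw [Finset.mem_biUnion] at hi ⊢
    obtain ⟨p, hp, hi⟩ := hi
    refine ⟨p, hp, ?_⟩
    rw [mem_ball] at hi ⊢
    intro l
    refine (hi l).trans ?_
    have : κ * (P.m0 + 2) ≤ (κ + 1) * (P.m0 + 2) := Nat.mul_le_mul_right _ (by omega)
    exact_mod_cast this
  have hunion : Yκ ∪ (Lκ ∩ A) ∪ Wκ = A := by
    ext p
    rw [hWκ]
    unfold Wk
    rw [← hYκ, ← hLκ]
    simp only [Finset.mem_union, Finset.mem_inter, Finset.mem_sdiff]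
    constructor
    · rintro ((h | h) | h)
      · exact hYA h
      · exact h.2
      · exact h.1
    · intro h
      by_cases h1 : p ∈ Yκ
      · exact Or.inl (Or.inl h1)
      · by_cases h2 : p ∈ Lκ
        · exact Or.inl (Or.inr ⟨h2, h⟩)
        · exact Or.inr ⟨h, by rintro (h3 | h3); exacts [h1 h3, h2 h3]⟩
  have hYW : Disjoint Yκ Wκ := by
    rw [Finset.disjoint_left]
    intro p h1 h2
    rw [hWκ] at h2
    unfold Wk at h2
    rw [← hYκ, Finset.mem_sdiff] at h2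
    exact h2.2 (Finset.mem_union_left _ h1)
  have hLW : Disjoint (Lκ ∩ A) Wκ := by
    rw [Finset.disjoint_left]
    intro p h1 h2
    rw [hWκ] at h2
    unfold Wk at h2
    rw [← hLκ, Finset.mem_sdiff] at h2
    exact h2.2 (Finset.mem_union_right _ (Finset.mem_inter.1 h1).1)
  have hYL' : Disjoint Yκ (Lκ ∩ A) := Finset.disjoint_of_subset_right Finset.inter_subset_left hYL
  have hU : lift k Yκ ∪ lift k (Lκ ∩ A) ∪ lift k Wκ = lift k A := by
    rw [← lift_union, ← lift_union, hunion]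
  -- near cells
  have hnear : ∀ (p q : Zd d) (i : Zd d) (v : Zd d), v ∈ M.S → i ∈ blk k p → i + v ∈ blk k q →
      near (P.m0 + 2) p q := by
    intro p q i v hv hp hq
    have h1 : near P.m0 p q := by
      apply near_blk hp hq
      intro l
      have := hJ.S_r v hv l
      simpa using this
    intro l
    refine (h1 l).trans ?_
    push_cast
    linarith
  set La : Finset (Zd d) := (Lk (P.m0 + 2) (κ + 1) L DL OL \ Lκ) ∩ A with hLa
  have hLaL : La ⊆ L := by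
    intro p hp
    rw [hLa, Finset.mem_inter, Finset.mem_sdiff] at hp
    exact hLκ1 hp.1.1
  have hY1 : ∀ i ∈ lift k Yκ, ∀ v ∈ M.S, i + v ∈ lift k Yκ ∪ lift k (Lκ ∩ A) := by
    intro i hi v hv
    obtain ⟨p, hp, hip⟩ := mem_lift.1 hi
    obtain ⟨q, hq⟩ := exists_blk hk (i + v)
    rcases Yk_near hcut hD0 hV0 hDV0 hDL hOL hs0 hr0 hp (hnear p q i v hv hip hq) with h | h
    · exact Finset.mem_union_left _ (mem_lift.2 ⟨q, h, hq⟩)
    · exact Finset.mem_union_right _ (mem_lift.2 ⟨q, Finset.mem_inter.2 h, hq⟩)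
  have hlY : ∀ i ∈ lyr M.S (lift k (Lκ ∩ A)) (lift k Yκ), ∃ p ∈ La, p ∈ DL ∧ i ∈ blk k p := by
    intro i hi
    unfold lyr at hi
    rw [Finset.mem_filter] at hi
    obtain ⟨hi1, v, hv, hiv⟩ := hi
    obtain ⟨p, hp, hip⟩ := mem_lift.1 hi1
    obtain ⟨q, hq, hiq⟩ := mem_lift.1 hiv
    have h := Yk_layer hcut hD0 hV0 hDV0 hDL hOL hs0 hr0 hp (Finset.mem_inter.1 hq).1
      (hnear p q i v hv hip hiq)
    exact ⟨p, h.1, h.2, hip⟩
  have hlW : ∀ i ∈ lyr M.S (lift k (Lκ ∩ A)) (lift k Wκ), ∃ p ∈ La, p ∉ DL ∧ i ∈ blk k p := by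
    intro i hi
    unfold lyr at hi
    rw [Finset.mem_filter] at hi
    obtain ⟨hi1, v, hv, hiv⟩ := hi
    obtain ⟨p, hp, hip⟩ := mem_lift.1 hi1
    obtain ⟨q, hq, hiq⟩ := mem_lift.1 hiv
    have h := Wk_layer hcut hD0 hV0 hDV0 hDL hOL hs0 hr0 hp (Finset.mem_inter.1 hq).1
      (hnear p q i v hv hip hiq)
    exact ⟨p, h.1, h.2, hip⟩
  -- the parameters
  set a : ℝ := ((lift k A).card : ℝ) with ha
  set y : ℝ := ((lift k Yκ).card : ℝ) with hy
  set o : ℝ := ((lift k (Lκ ∩ A)).card : ℝ) with ho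
  set ww : ℝ := ((lift k Wκ).card : ℝ) with hww
  have hsum : a = y + o + ww := by
    rw [ha, hy, ho, hww, ← hU, Finset.card_union_of_disjoint, Finset.card_union_of_disjoint]
    · push_cast; ring
    · exact disjoint_lift hYL'
    · rw [Finset.disjoint_union_left]
      exact ⟨disjoint_lift hYW, disjoint_lift hLW⟩
  have haA : a = (k : ℝ) ^ d * A.card := by
    rw [ha, card_lift]
    push_cast
    ring
  have hoL : o ≤ (k : ℝ) ^ d * L.card := by
    have h1 : o = (k : ℝ) ^ d * (Lκ ∩ A).card := by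
      rw [ho, card_lift]
      push_cast
      ring
    rw [h1]
    apply mul_le_mul_of_nonneg_left _ hkR.le
    exact_mod_cast Finset.card_le_card (Finset.inter_subset_left.trans hLL)
  have hy0 : 0 ≤ y := by positivity
  have ho0 : 0 ≤ o := by positivity
  have hw0 : 0 ≤ ww := by positivity
  have ha0 : 0 ≤ a := by positivity
  set Q : ℝ := c4 / 2 * ((k : ℝ) ^ d * L.card) with hQ
  set mY : ℝ := V * (P.xb * y - δ / 4 * a) with hmY
  set mW : ℝ := V * (P.xa * ww + δ / 4 * a) with hmW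
  have c1 : ∀ ω ∈ Cl, mY ≤ ∑ i ∈ lift k Yκ, (M.n (ω i) : ℝ) := by
    intro ω hω
    obtain ⟨hcut', hDL', hOL', hsm, hen, -⟩ := hω
    rw [sum_n hV hYA ω, hmY]
    apply mul_le_mul_of_nonneg_left _ hV.le
    have h1 := mass_lower (F := Yκ) hP (den_nonneg G (lift k A) ω) (a := δ / 8 * a)
      (c0 := c0 * A.card)
      (fun F hF => ((hmass k M.S (jj M V) hJ A (den M V (lift k A) ω)
        (den_nonneg G (lift k A) ω) (den_le hP G (lift k A) ω)
        (by intro i hi; unfold den; rw [if_neg hi]) hen F).1 hF))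
      (by
        intro D' hD'
        have h2 := hcut'.small D' (A.filter fun p => VC P M V z k A ω p) hD'
          (by intro i hi; rw [Finset.mem_filter]; exact ⟨fun h => h.2, fun h => ⟨hi, h⟩⟩)
        have h3 : (Yκ \ D').card ≤ (Y \ D').card := by
          apply Finset.card_le_card
          intro p hp
          rw [Finset.mem_sdiff] at hp ⊢
          refine ⟨?_, hp.2⟩
          exact Yk_bad hcut' (fun i h => h.1) (fun i h => Or.inl h)
            (fun i h => not_both hz hz2 hk h) hDL' hOL' hs0 hr0 hp.1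
            (fun h => hp.2 ((hD' p).2 h))
        refine le_trans ?_ hsm
        exact_mod_cast (h3.trans (Nat.le_add_right _ _)).trans h2)
    have h2 : P.xb * (k : ℝ) ^ d * (c0 * A.card) ≤ δ / 8 * a := by
      rw [haA]
      have h3 : P.xb * c0 ≤ δ / 8 := (mul_le_mul_of_nonneg_right hxbR hc00.le).trans hRc0
      have h4 : 0 ≤ (k : ℝ) ^ d * A.card := by positivity
      have h5 := mul_le_mul_of_nonneg_right h3 h4
      linarith
    linarith
  have c2 : ∀ ω ∈ Cl, ∑ i ∈ lift k Wκ, (M.n (ω i) : ℝ) ≤ mW := by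
    intro ω hω
    obtain ⟨hcut', hDL', hOL', hsm, hen, -⟩ := hω
    rw [sum_n hV hWA ω, hmW]
    apply mul_le_mul_of_nonneg_left _ hV.le
    have h1 := mass_upper (F := Wκ) hP (den_le hP G (lift k A) ω) (a := δ / 8 * a)
      (c0 := c0 * A.card)
      (fun F hF => ((hmass k M.S (jj M V) hJ A (den M V (lift k A) ω)
        (den_nonneg G (lift k A) ω) (den_le hP G (lift k A) ω)
        (by intro i hi; unfold den; rw [if_neg hi]) hen F).2 hF))
      (by
        intro V' hV'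
        have h2 := hcut'.small (A.filter fun p => DD P M V z k A ω p) V'
          (by intro i; rw [Finset.mem_filter]; exact ⟨fun h => h.2, fun h => ⟨h.1, h⟩⟩) hV'
        have h3 : (Wκ \ V').card ≤ ((A \ (Y ∪ L)) \ V').card := by
          apply Finset.card_le_card
          intro p hp
          rw [Finset.mem_sdiff] at hp
          rw [Finset.mem_sdiff]
          refine ⟨?_, hp.2⟩
          exact Wk_bad hcut' (fun i h => h.1) (fun i h => Or.inl h)
            (fun i h => not_both hz hz2 hk h) hDL' hOL' hs0 hr0 hp.1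
            (fun h => hp.2 ((hV' p (hWA hp.1)).2 h))
        refine le_trans ?_ hsm
        exact_mod_cast (h3.trans (Nat.le_add_left _ _)).trans h2)
    have h2 : P.R * (k : ℝ) ^ d * (c0 * A.card) ≤ δ / 8 * a := by
      rw [haA]
      have h4 : 0 ≤ (k : ℝ) ^ d * A.card := by positivity
      have h5 := mul_le_mul_of_nonneg_right hRc0 h4
      linarith
    linarith
  have c3 : ∀ ω ∈ Cl, Q ≤ en P M.S (jj M V) (lift k A) (lift k (Lκ ∩ A))
        (den M V (lift k A) ω) -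
      P.T / 2 * (∑ i ∈ lyr M.S (lift k (Lκ ∩ A)) (lift k Yκ),
          (den M V (lift k A) ω i - (P.xb - δ)) ^ 2 +
        ∑ i ∈ lyr M.S (lift k (Lκ ∩ A)) (lift k Wκ),
          (den M V (lift k A) ω i - (P.xa + δ)) ^ 2) := by
    intro ω hω
    have h1 := hω.2.2.2.2.2
    unfold QQ at h1
    have h2 := lyr_le (P := P) (δ := δ) (x := den M V (lift k A) ω) hlY hlW
    have h3 : (La.card : ℝ) ≤ L.card := by exact_mod_cast Finset.card_le_card hLaL
    have h4 : P.T / 2 * (∑ i ∈ lyr M.S (lift k (Lκ ∩ A)) (lift k Yκ),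
          (den M V (lift k A) ω i - (P.xb - δ)) ^ 2 +
        ∑ i ∈ lyr M.S (lift k (Lκ ∩ A)) (lift k Wκ),
          (den M V (lift k A) ω i - (P.xa + δ)) ^ 2) ≤
        P.T * (∑ p ∈ La, ∑ i ∈ blk k p,
          (den M V (lift k A) ω i - if p ∈ DL then P.xb else P.xa) ^ 2) +
          P.T * δ ^ 2 * ((k : ℝ) ^ d * La.card) := by
      refine (mul_le_mul_of_nonneg_left h2 (by positivity)).trans (le_of_eq ?_)
      ring
    have h5 : P.T * δ ^ 2 * ((k : ℝ) ^ d * La.card) ≤ c4 / 2 * ((k : ℝ) ^ d * L.card) := by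
      apply mul_le_mul hTδ _ (by positivity) (by positivity)
      exact mul_le_mul_of_nonneg_left h3 hkR.le
    rw [hQ]
    linarith
  have hty := type_bound2 (μ := (μa + μb) / 2) (η := η') (τ := δ * w) hP G (by linarith)
    (by linarith) (hη'η.trans hη1) hμa hμb (by linarith) (by linarith) (by linarith)
    (by linarith) hδw0 hδw Ga Gb (lift k Yκ) (lift k (Lκ ∩ A)) (lift k Wκ)
    (disjoint_lift hYL') (disjoint_lift hYW) (disjoint_lift hLW) hY1 Cl
    (measurableSet_Class P M V z τ c0 c4 k Mr A s κ L Y DL OL) mY mW Q c1 c2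
    (by rw [hU]; exact c3)
  rw [hU] at hty
  refine hty.trans (ex_le_ex.2 ?_)
  rw [← hy, ← ho, ← hww]
  have hΔη' : μb - μa ≤ 2 * η := by
    have h1 := (abs_le.1 hμa).1
    have h2 := (abs_le.1 hμb).2
    linarith only [h1, h2, hη'η]
  have hδab1 : δ ≤ 1 := by nlinarith only [hδw, hw1, hδ]
  have hkL : 0 ≤ (k : ℝ) ^ d * L.card := by positivity
  rw [hQ, hmY, hmW]
  exact final_arith hV.le hR hΔη' hη0.le hη'η hδ.le hδab1 hpa hpb hpm hCε hCδ hηc hy0 ho0 hw0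
    hsum hoL hc4.le

end Pool.Agent.Vdw
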