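import Pool.Agent.Lib.MP_09cbbd_vw.Blk

/-!
# Layers inside the contours
-/

set_option autoImplicit false
set_option linter.unusedSectionVars false
set_option linter.unusedVariables false

namespace Pool.Agent.Vdw

open Finset Pool.Agent.StableGas Pool.Agent.Kac
open Pool.Agent.SquareWell hiding Md cut

variable {d : ℕ}

/-- The blocks of `L` such that the blocks near are not all in the same phase. -/
noncomputable def Kc (s0 : ℕ) (L DL OL : Finset (Zd d)) : Finset (Zd d) := by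
  classical exact L.filter fun z => ball s0 z ⊆ L ∧ ¬ ball s0 z ⊆ DL ∧
    ∃ y ∈ ball s0 z, y ∈ DL ∨ y ∈ OL

/-- The neighbourhood of these blocks. -/
noncomputable def Lk (s0 κ : ℕ) (L DL OL : Finset (Zd d)) : Finset (Zd d) :=
  (Kc s0 L DL OL).biUnion (ball (κ * s0))

/-- The dense region outside. -/
noncomputable def Yk (s0 κ : ℕ) (L Y DL OL : Finset (Zd d)) : Finset (Zd d) :=
  Y ∪ ((L \ Lk s0 κ L DL OL) ∩ DL)

/-- The dilute region outside. -/
noncomputable def Wk (s0 κ : ℕ) (A L Y DL OL : Finset (Zd d)) : Finset (Zd d) :=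
  A \ (Yk s0 κ L Y DL OL ∪ Lk s0 κ L DL OL)

theorem ball_near_trans {s m t : ℕ} {x y z : Zd d} (h1 : near s x y) (h2 : near m y z)
    (h : s + m ≤ t) : near t x z := by
  intro k
  have a := h1 k
  have b := h2 k
  rw [abs_le] at a b ⊢
  have : (s : ℤ) + m ≤ t := by exact_mod_cast h
  constructor <;> omega

theorem lnear_symm {s : ℕ} {x y : Zd d} (h : near s x y) : near s y x := by
  intro k
  have a := h k
  rw [abs_le] at a ⊢
  constructor <;> omega

theorem lnear_self (s : ℕ) (x : Zd d) : near s x x := by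
  intro k
  simp

theorem ball_sub_comp {S : Finset (Zd d)} {z : Zd d} (m : ℕ)
    (h : ∀ w, near m z w → w ∈ S) : ∀ w, near m z w → w ∈ comp S z := by
  have hz : z ∈ S := h z (lnear_self m z)
  have key : ∀ n : ℕ, n ≤ m → ∀ w, near n z w → w ∈ comp S z := by
    intro n
    induction n with
    | zero =>
      intro _ w hw
      have : w = z := by
        funext k
        have a := hw k
        rw [abs_le] at a
        push_cast at a
        omega
      rw [this]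
      exact self_mem_comp hz
    | succ n ih =>
      intro hn w hw
      have h1 : near n z (fun k => w k - (w k - z k).sign) := by
        intro k
        have a := hw k
        rw [abs_le] at a ⊢
        push_cast at a
        dsimp only
        rcases lt_trichotomy (w k - z k) 0 with hh | hh | hh
        · rw [Int.sign_eq_neg_one_of_neg hh]
          constructor <;> omega
        · rw [hh, Int.sign_zero]
          constructor <;> omega
        · rw [Int.sign_eq_one_of_pos hh]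
          constructor <;> omega
      refine comp_closed (ih (by omega) _ h1) (h w (ball_near_trans hw (lnear_self 0 w) (by omega))) ?_
      rw [mem_Nb]
      intro k
      rcases lt_trichotomy (w k - z k) 0 with hh | hh | hh
      · simp only [Int.sign_eq_neg_one_of_neg hh]
        constructor <;> omega
      · simp only [hh, Int.sign_zero]
        constructor <;> omega
      · simp only [Int.sign_eq_one_of_pos hh]
        constructor <;> omega
  exact key m le_rfl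

section Lay

variable {r s : ℕ} {A : Finset (Zd d)} {D V : Zd d → Prop} {L Y DL OL : Finset (Zd d)}
  (hc : Cut r A D V s L Y) (hD : ∀ i, D i → i ∈ A) (hV : ∀ i, i ∉ A → V i)
  (hDV : ∀ i, D i → ¬ V i) (hDL : ∀ i, i ∈ DL ↔ i ∈ L ∧ D i)
  (hOL : ∀ i, i ∈ OL ↔ i ∈ L ∧ ¬ D i ∧ ¬ V i) {s0 κ : ℕ} (hs0 : 1 ≤ s0)
  (hr : (κ + 2) * s0 ≤ r)

include hc hD hV hDV hDL hOL hs0 hr

theorem lay_key {z j j' : Zd d} (hz : z ∈ L) (hj : near s0 z j) (hjD : ¬ D j)
    (hj' : near s0 z j') (hjV : ¬ V j') {m : ℕ} (hm : m + s0 ≤ r) : ball m z ⊆ L := by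
  have hbad : ∀ w, near m z w → w ∈ bad r A D V := by
    intro w hw
    rw [Topo.mem_bad hV]
    exact ⟨⟨j, ball_near_trans (lnear_symm hw) hj hm, hjD⟩,
      ⟨j', ball_near_trans (lnear_symm hw) hj' hm, hjV⟩⟩
  intro w hw
  rw [mem_ball] at hw
  have h1 := ball_sub_comp m hbad w hw
  have h2 := (hc.mem_L z).1 hz
  rw [hc.mem_L]
  refine ⟨hbad w hw, ?_⟩
  rw [comp_eq_of_mem h2.1 h1]
  exact h2.2

theorem lay_Kc {z j j' : Zd d} (hz : z ∈ L) (hj : near s0 z j) (hjD : ¬ D j)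
    (hj' : near s0 z j') (hjV : ¬ V j') : z ∈ Kc s0 L DL OL := by
  have hm : s0 + s0 ≤ r := by nlinarith [Nat.zero_le (κ * s0)]
  have hb := lay_key hc hD hV hDV hDL hOL hs0 hr hz hj hjD hj' hjV hm
  unfold Kc
  rw [mem_filter]
  refine ⟨hz, hb, ?_, ?_⟩
  · intro h
    exact hjD ((hDL j).1 (h (mem_ball.2 hj))).2
  · refine ⟨j', mem_ball.2 hj', ?_⟩
    have h1 := hb (mem_ball.2 hj')
    by_cases h : D j'
    · exact Or.inl ((hDL j').2 ⟨h1, h⟩)
    · exact Or.inr ((hOL j').2 ⟨h1, h, hjV⟩)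

theorem lay_Kc_inv {z : Zd d} (hz : z ∈ Kc s0 L DL OL) :
    z ∈ L ∧ ∃ j j', near s0 z j ∧ ¬ D j ∧ near s0 z j' ∧ ¬ V j' := by
  unfold Kc at hz
  rw [mem_filter] at hz
  obtain ⟨h1, h2, h3, y, hy, h4⟩ := hz
  refine ⟨h1, ?_⟩
  rw [Finset.not_subset] at h3
  obtain ⟨j, hj, hjD⟩ := h3
  refine ⟨j, y, mem_ball.1 hj, fun hD' => hjD ((hDL j).2 ⟨h2 hj, hD'⟩), mem_ball.1 hy, ?_⟩
  rcases h4 with h4 | h4
  · exact hDV y ((hDL y).1 h4).2
  · exact ((hOL y).1 h4).2.2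

theorem lay_ball_Kc {p : Zd d} (hp : p ∈ Kc s0 L DL OL) (m : ℕ) (hm : m + s0 ≤ r) :
    ball m p ⊆ L := by
  obtain ⟨h1, j, j', h2, h3, h4, h5⟩ := lay_Kc_inv hc hD hV hDV hDL hOL hs0 hr hp
  exact lay_key hc hD hV hDV hDL hOL hs0 hr h1 h2 h3 h4 h5 hm

theorem lay_Lk_sub : Lk s0 κ L DL OL ⊆ L := by
  intro w hw
  unfold Lk at hw
  rw [mem_biUnion] at hw
  obtain ⟨z, hz, hwz⟩ := hw
  exact lay_ball_Kc hc hD hV hDV hDL hOL hs0 hr hz (κ * s0) (by nlinarith) hwz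

/-- Outside the neighbourhood the blocks near are in one phase. -/
theorem lay_mono {p : Zd d} (hp : p ∈ L) (h : p ∉ Lk s0 κ L DL OL) :
    (∀ j, near s0 p j → D j) ∨ ∀ j, near s0 p j → V j := by
  by_contra hcon
  push Not at hcon
  obtain ⟨⟨j, hj, hjD⟩, j', hj', hjV⟩ := hcon
  have h1 := lay_Kc hc hD hV hDV hDL hOL hs0 hr hp hj hjD hj' hjV
  apply h
  unfold Lk
  rw [mem_biUnion]
  exact ⟨p, h1, mem_ball.2 (lnear_self _ p)⟩

theorem Lk_sub : Lk s0 (κ + 1) L DL OL ⊆ L := by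
  intro w hw
  unfold Lk at hw
  rw [mem_biUnion] at hw
  obtain ⟨z, hz, hwz⟩ := hw
  exact lay_ball_Kc hc hD hV hDV hDL hOL hs0 hr hz ((κ + 1) * s0) (by nlinarith) hwz

/-- The dense region touches only itself and the neighbourhood of the contours. -/
theorem Yk_near {p q : Zd d} (hp : p ∈ Yk s0 κ L Y DL OL) (hpq : near s0 p q) :
    q ∈ Yk s0 κ L Y DL OL ∨ (q ∈ Lk s0 κ L DL OL ∧ q ∈ A) := by
  have hsr : s0 ≤ r := by nlinarith [Nat.zero_le (κ * s0)]
  have hpq' : near r p q := ball_near_trans hpq (lnear_self 0 q) (by omega)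
  unfold Yk at hp ⊢
  rw [mem_union] at hp
  rw [mem_union]
  have hfin : D q → q ∈ L → (q ∈ Y ∨ q ∈ (L \ Lk s0 κ L DL OL) ∩ DL) ∨
      (q ∈ Lk s0 κ L DL OL ∧ q ∈ A) := by
    intro hDq hqL
    by_cases hq : q ∈ Lk s0 κ L DL OL
    · exact Or.inr ⟨hq, hD q hDq⟩
    · exact Or.inl (Or.inr (mem_inter.2 ⟨mem_sdiff.2 ⟨hqL, hq⟩, (hDL q).2 ⟨hqL, hDq⟩⟩))
  rcases hp with hp | hp
  · by_cases hqY : q ∈ Y
    · exact Or.inl (Or.inl hqY)
    · obtain ⟨-, h2, h3⟩ := hc.nearY p hp q hqY hpq'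
      exact hfin h2 h3
  · rw [mem_inter, mem_sdiff] at hp
    obtain ⟨⟨hpL, hpk⟩, hpD⟩ := hp
    have hDp : D p := ((hDL p).1 hpD).2
    have hDq : D q := by
      rcases lay_mono hc hD hV hDV hDL hOL hs0 hr hpL hpk with h | h
      · exact h q hpq
      · exact absurd (h p (lnear_self _ p)) (hDV p hDp)
    by_cases hqL : q ∈ L
    · exact hfin hDq hqL
    · by_cases hqY : q ∈ Y
      · exact Or.inl (Or.inl hqY)
      · exact absurd (hc.nearW q hqY hqL p (Or.inr hpL) (lnear_symm hpq')).1 (hDV q hDq)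

theorem Yk_sub : Yk s0 κ L Y DL OL ⊆ A := by
  intro p hp
  unfold Yk at hp
  rw [mem_union, mem_inter] at hp
  rcases hp with hp | hp
  · exact hc.Y_sub hp
  · exact hD p ((hDL p).1 hp.2).2

theorem Yk_disj : Disjoint (Yk s0 κ L Y DL OL) (Lk s0 κ L DL OL) := by
  rw [Finset.disjoint_left]
  intro p hp hp'
  have hpL := lay_Lk_sub hc hD hV hDV hDL hOL hs0 hr hp'
  unfold Yk at hp
  rw [mem_union, mem_inter, mem_sdiff] at hp
  rcases hp with hp | hp
  · exact Finset.disjoint_left.1 hc.Y_disj hp hpL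
  · exact hp.1.2 hp'

/-- The blocks of `L` outside the neighbourhood are in the phase prescribed by `DL`. -/
theorem lay_D {p : Zd d} (hp : p ∈ L) (h : p ∉ Lk s0 κ L DL OL) (hpD : p ∈ DL) : D p := by
  exact ((hDL p).1 hpD).2

theorem lay_V {p : Zd d} (hp : p ∈ L) (h : p ∉ Lk s0 κ L DL OL) (hpD : p ∉ DL) : V p := by
  rcases lay_mono hc hD hV hDV hDL hOL hs0 hr hp h with h1 | h1
  · exact absurd ((hDL p).2 ⟨hp, h1 p (lnear_self _ p)⟩) hpD
  · exact h1 p (lnear_self _ p)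

theorem Yk_bad {p : Zd d} (hp : p ∈ Yk s0 κ L Y DL OL) (h : ¬ D p) : p ∈ Y := by
  unfold Yk at hp
  rw [mem_union, mem_inter] at hp
  rcases hp with hp | hp
  · exact hp
  · exact absurd ((hDL p).1 hp.2).2 h

theorem Wk_bad {p : Zd d} (hp : p ∈ Wk s0 κ A L Y DL OL) (h : ¬ V p) : p ∈ A \ (Y ∪ L) := by
  unfold Wk at hp
  rw [mem_sdiff, mem_union, not_or] at hp
  obtain ⟨hpA, hpY, hpk⟩ := hp
  unfold Yk at hpY
  rw [mem_union, not_or, mem_inter, mem_sdiff] at hpY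
  rw [mem_sdiff, mem_union, not_or]
  refine ⟨hpA, hpY.1, fun hpL => h ?_⟩
  exact lay_V hc hD hV hDV hDL hOL hs0 hr hpL hpk fun hpD => hpY.2 ⟨⟨hpL, hpk⟩, hpD⟩

theorem lay_next {p q : Zd d} (hq : q ∈ Lk s0 κ L DL OL) (hpq : near s0 p q) :
    p ∈ Lk s0 (κ + 1) L DL OL := by
  unfold Lk at hq ⊢
  rw [mem_biUnion] at hq ⊢
  obtain ⟨z, hz, hqz⟩ := hq
  refine ⟨z, hz, mem_ball.2 ?_⟩
  exact ball_near_trans (mem_ball.1 hqz) (lnear_symm hpq) (by nlinarith)

/-- The blocks adjacent to the neighbourhood are in the next layer. -/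
theorem Yk_layer {p q : Zd d} (hp : p ∈ Yk s0 κ L Y DL OL) (hq : q ∈ Lk s0 κ L DL OL)
    (hpq : near s0 p q) : p ∈ (Lk s0 (κ + 1) L DL OL \ Lk s0 κ L DL OL) ∩ A ∧ p ∈ DL := by
  have h1 := lay_next hc hD hV hDV hDL hOL hs0 hr hq hpq
  have h2 := Finset.disjoint_left.1 (Yk_disj hc hD hV hDV hDL hOL hs0 hr) hp
  have h3 := Yk_sub hc hD hV hDV hDL hOL hs0 hr hp
  refine ⟨mem_inter.2 ⟨mem_sdiff.2 ⟨h1, h2⟩, h3⟩, ?_⟩
  have h4 := Lk_sub hc hD hV hDV hDL hOL hs0 hr h1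
  unfold Yk at hp
  rw [mem_union, mem_inter] at hp
  rcases hp with hp | hp
  · exact absurd h4 (Finset.disjoint_left.1 hc.Y_disj hp)
  · exact hp.2

theorem Wk_layer {p q : Zd d} (hp : p ∈ Wk s0 κ A L Y DL OL) (hq : q ∈ Lk s0 κ L DL OL)
    (hpq : near s0 p q) : p ∈ (Lk s0 (κ + 1) L DL OL \ Lk s0 κ L DL OL) ∩ A ∧ p ∉ DL := by
  have h1 := lay_next hc hD hV hDV hDL hOL hs0 hr hq hpq
  unfold Wk at hp
  rw [mem_sdiff, mem_union, not_or] at hp
  obtain ⟨hpA, hpY, hpk⟩ := hp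
  refine ⟨mem_inter.2 ⟨mem_sdiff.2 ⟨h1, hpk⟩, hpA⟩, fun hpD => hpY ?_⟩
  have h4 := Lk_sub hc hD hV hDV hDL hOL hs0 hr h1
  unfold Yk
  exact mem_union.2 (Or.inr (mem_inter.2 ⟨mem_sdiff.2 ⟨h4, hpk⟩, hpD⟩))

/-- The blocks with a jump or in no phase are in the core. -/
theorem mem_Kc_of {p : Zd d} (hp : p ∈ L)
    (h : (¬ D p ∧ ¬ V p) ∨ (D p ∧ ∃ q ∈ ball 1 p, V q)) : p ∈ Kc s0 L DL OL := by
  rcases h with ⟨h1, h2⟩ | ⟨h1, q, hq, hVq⟩
  · exact lay_Kc hc hD hV hDV hDL hOL hs0 hr hp (lnear_self _ p) h1 (lnear_self _ p) h2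
  · exact lay_Kc hc hD hV hDV hDL hOL hs0 hr hp
      (ball_near_trans (mem_ball.1 hq) (lnear_self 0 q) (by omega))
      (fun hDq => hDV q hDq hVq) (lnear_self _ p) (hDV p h1)

theorem ball_Kc {p : Zd d} (hp : p ∈ Kc s0 L DL OL) (m : ℕ) (hm : m + s0 ≤ r) :
    ball m p ⊆ L := by
  exact lay_ball_Kc hc hD hV hDV hDL hOL hs0 hr hp m hm

end Lay

end Pool.Agent.Vdw
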