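import Pool.Agent.Lib.MP_09cbbd_vw.Coer
import Pool.Agent.Lib.MP_09cbbd_vw.Lay
import Pool.Agent.Lib.MP_09cbbd_vw.Sel

/-!
# Selection of a layer: the energy of the contours
-/

set_option autoImplicit false

namespace Pool.Agent.Vdw

open Finset Pool.Agent.StableGas Pool.Agent.Kac
open Pool.Agent.SquareWell hiding Md cut

variable {d : ℕ}

/-- Energy of the neighbourhood `κ` of the contours, minus the fluctuations in the next layer. -/
noncomputable def QQ (P : Par) (S : Finset (Zd d)) (j : Zd d → ℝ) (k s0 κ : ℕ)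
    (A : Finset (Zd d)) (x : Zd d → ℝ) (L DL OL : Finset (Zd d)) : ℝ := by
  classical exact en P S j (lift k A) (lift k (Lk s0 κ L DL OL ∩ A)) x -
    P.T * ∑ p ∈ (Lk s0 (κ + 1) L DL OL \ Lk s0 κ L DL OL) ∩ A,
      ∑ i ∈ blk k p, (x i - if p ∈ DL then P.xb else P.xa) ^ 2

namespace Det

/-- Exponential against polynomial. -/
theorem exists_m {η : ℝ} (hη : 0 < η) (B : ℝ) (d s0 : ℕ) :
    ∃ m : ℕ, B * (2 * ((2 * m + 5) * s0 : ℕ) + 1 : ℝ) ^ d < (1 + η) ^ m := by
  have h1 := tendsto_pow_const_div_const_pow_of_one_lt d (r := 1 + η) (by linarith)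
  have h2 : (0 : ℝ) < 1 / ((|B| + 1) * (14 * s0 + 1) ^ d) := by positivity
  obtain ⟨m, hm1, hm⟩ := ((Filter.eventually_ge_atTop 1).and
    (h1.eventually_lt_const h2)).exists
  refine ⟨m, ?_⟩
  have hm1' : (1 : ℝ) ≤ m := by exact_mod_cast hm1
  have h3 : (0 : ℝ) < (1 + η) ^ m := by positivity
  rw [div_lt_div_iff₀ h3 (by positivity), one_mul] at hm
  refine lt_of_le_of_lt ?_ hm
  have h4 : (2 * ((2 * m + 5) * s0 : ℕ) + 1 : ℝ) ≤ (14 * s0 + 1) * m := by
    push_cast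
    have : (0 : ℝ) ≤ s0 := by positivity
    nlinarith
  have h5 : (2 * ((2 * m + 5) * s0 : ℕ) + 1 : ℝ) ^ d ≤ ((14 * s0 + 1) * m) ^ d :=
    pow_le_pow_left₀ (by positivity) h4 d
  calc B * (2 * ((2 * m + 5) * s0 : ℕ) + 1 : ℝ) ^ d
      ≤ (|B| + 1) * ((14 * s0 + 1) * m) ^ d :=
        mul_le_mul (by linarith [le_abs_self B]) h5 (by positivity) (by positivity)
    _ = (m : ℝ) ^ d * ((|B| + 1) * (14 * s0 + 1) ^ d) := by rw [mul_pow]; ring

theorem ball_trans {s t : ℕ} {p q z : Zd d} (h : p ∈ ball s z) (h' : q ∈ ball t p) :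
    q ∈ ball (s + t) z := by
  rw [mem_ball] at *
  intro l
  have h1 := h l
  have h2 := h' l
  rw [abs_le] at *
  push_cast
  omega

theorem ball_mono {s t : ℕ} (h : s ≤ t) {p q : Zd d} (hq : q ∈ ball s p) : q ∈ ball t p := by
  rw [mem_ball] at *
  intro l
  have h1 := hq l
  rw [abs_le] at *
  have : (s : ℤ) ≤ t := by exact_mod_cast h
  omega

theorem self_mem_ball (s : ℕ) (p : Zd d) : p ∈ ball s p := by
  rw [mem_ball]
  intro l
  rw [sub_self, abs_zero]
  positivity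

theorem Lk_mono {s0 κ κ' : ℕ} (h : κ ≤ κ') (L DL OL : Finset (Zd d)) :
    Lk s0 κ L DL OL ⊆ Lk s0 κ' L DL OL := by
  intro p hp
  unfold Lk at *
  rw [mem_biUnion] at *
  obtain ⟨z, hz, hp⟩ := hp
  exact ⟨z, hz, ball_mono (Nat.mul_le_mul_right _ h) hp⟩

theorem ball_Lk {s0 κ : ℕ} {L DL OL : Finset (Zd d)} {p q : Zd d}
    (hp : p ∈ Lk s0 κ L DL OL) (hq : q ∈ ball s0 p) : q ∈ Lk s0 (κ + 1) L DL OL := by
  unfold Lk at *
  rw [mem_biUnion] at *
  obtain ⟨z, hz, hp⟩ := hp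
  refine ⟨z, hz, ?_⟩
  have := ball_trans hp hq
  rwa [show κ * s0 + s0 = (κ + 1) * s0 by ring] at this

end Det

open Det

theorem det {P : Par} (hd : 2 ≤ d) (hP : P.Ok) {z : ℝ} (hz : 0 < z)
    (hz2 : 16 * z ≤ (P.xb - P.xa) ^ 2) :
    ∃ (m Mr : ℕ) (c4 : ℝ), 1 ≤ m ∧ 1 ≤ Mr ∧ (m + 2) * (P.m0 + 2) ≤ Mr ∧ 0 < c4 ∧
      ∀ (k : ℕ) (S : Finset (Zd d)) (j : Zd d → ℝ), Jok P k S j →
      ∀ (A : Finset (Zd d)) (x : Zd d → ℝ), (∀ i, 0 ≤ x i) → (∀ i, x i ≤ P.R) →
      (∀ i, i ∉ lift k A → x i = 0) → ∀ (s : ℕ) (L Y DL OL : Finset (Zd d)),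
      Cut Mr A (Dq P z k A x) (Vq P z k A x) s L Y →
      (∀ i, i ∈ DL ↔ i ∈ L ∧ Dq P z k A x i) →
      (∀ i, i ∈ OL ↔ i ∈ L ∧ ¬ Dq P z k A x i ∧ ¬ Vq P z k A x i) →
      ∃ κ, 1 ≤ κ ∧ κ ≤ m ∧
        c4 * (k : ℝ) ^ d * L.card ≤ QQ P S j k (P.m0 + 2) κ A x L DL OL := by
  classical
  obtain ⟨C1, c2, hC1, hc2, hcoer⟩ := coer (d := d) hP hz hz2
  have hT := hP.T_pos
  set s0 := P.m0 + 2 with hs0
  set C := C1 * (2 * s0 + 1 : ℝ) ^ d with hC
  have hCpos : 0 < C := by positivity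
  set η := 1 / (4 * P.T * C) with hη
  have hηpos : 0 < η := by positivity
  set a := c2 / (2 * s0 + 1 : ℝ) ^ d with ha
  have hapos : 0 < a := by positivity
  obtain ⟨ms, hms⟩ := exists_m hηpos (P.R ^ 2 * (4 * P.T) / a) d s0
  set m := 2 * ms + 3 with hm
  set r := (m + 2) * s0 with hr
  have hr5 : r = (2 * ms + 5) * s0 := by rw [hr, hm]
  set b := (2 * (r : ℝ) + 1) ^ d with hb
  have hbpos : 0 < b := by positivity
  set c' := a / b with hc'
  have hc'pos : 0 < c' := by positivity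
  set ξ := c' / (4 * P.T) with hξ
  have hξpos : 0 < ξ := by positivity
  have hR2 : P.R ^ 2 < (1 + η) ^ ms * ξ := by
    have h1 : P.R ^ 2 * (4 * P.T) / a * b < (1 + η) ^ ms := by
      rw [hb, hr5]
      exact hms
    have h2 : P.R ^ 2 = P.R ^ 2 * (4 * P.T) / a * b * ξ := by
      rw [hξ, hc']
      field_simp
    rw [h2]
    exact mul_lt_mul_of_pos_right h1 hξpos
  refine ⟨m, r, c' / 2, by omega, ?_, le_rfl, by positivity, ?_⟩
  · rw [hr]
    exact Nat.one_le_iff_ne_zero.2 (by positivity)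
  intro k S j hJ A x hx0 hxR hxA s L Y DL OL hcut hDL hOL
  have hk1 := hJ.k_pos
  have hkd : (0 : ℝ) < (k : ℝ) ^ d := by
    have : (0 : ℝ) < k := by exact_mod_cast hk1
    positivity
  have hDA : ∀ i, Dq P z k A x i → i ∈ A := fun i h => h.1
  have hVA : ∀ i, i ∉ A → Vq P z k A x i := fun i h => Or.inl h
  have hDV : ∀ i, Dq P z k A x i → ¬ Vq P z k A x i := by
    rintro i ⟨hiA, h1⟩ h2
    rcases h2 with h2 | h2
    · exact h2 hiA
    · have h3 : ∑ l ∈ blk k i, (P.xb - P.xa) ^ 2 ≤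
          ∑ l ∈ blk k i, (2 * (x l - P.xb) ^ 2 + 2 * (x l - P.xa) ^ 2) := by
        refine sum_le_sum fun l _ => ?_
        nlinarith [sq_nonneg (x l - P.xb + (x l - P.xa))]
      rw [sum_const, card_blk, nsmul_eq_mul, sum_add_distrib, ← mul_sum, ← mul_sum] at h3
      push_cast at h3
      have h4 : 0 < P.xb - P.xa := by linarith [hP.xa_lt]
      have h5 : 0 < (k : ℝ) ^ d * (P.xb - P.xa) ^ 2 := by positivity
      have h6 : z * (k : ℝ) ^ d * 16 ≤ (k : ℝ) ^ d * (P.xb - P.xa) ^ 2 := by nlinarith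
      linarith
  -- the layers
  set Lx : ℕ → Finset (Zd d) := fun i => Lk s0 i L DL OL with hLx
  set lay : ℕ → Finset (Zd d) := fun i => (Lx (i + 1) \ Lx i) ∩ A with hlay
  set t : Zd d → ℝ := fun p => ∑ i ∈ blk k p, (x i - if p ∈ DL then P.xb else P.xa) ^ 2 with ht
  have ht0 : ∀ p, 0 ≤ t p := fun p => sum_nonneg fun i _ => sq_nonneg _
  set Ti : ℕ → ℝ := fun i => ∑ p ∈ lay i, t p with hTi
  have hTi0 : ∀ i, 0 ≤ Ti i := fun i => sum_nonneg fun p _ => ht0 p
  have hdisj : ∀ i i', i ≠ i' → Disjoint (lay i) (lay i') := by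
    have key : ∀ i i', i < i' → Disjoint (lay i) (lay i') := by
      intro i i' h
      rw [disjoint_left]
      intro p hp hp'
      rw [hlay] at hp hp'
      simp only [mem_inter, mem_sdiff] at hp hp'
      exact hp'.1.2 (Lk_mono (by omega) _ _ _ hp.1.1)
    intro i i' h
    rcases lt_or_gt_of_ne h with h | h
    · exact key i i' h
    · exact (key i' i h).symm
  have hsubL : ∀ i, i ≤ m → Lx (i + 1) ⊆ L := by
    intro i hi
    refine Lk_sub hcut hDA hVA hDV hDL hOL (by omega) (κ := i) ?_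
    exact Nat.mul_le_mul_right _ (by omega)
  have htR : ∀ p ∈ A, t p ≤ P.R ^ 2 * (k : ℝ) ^ d := by
    intro p _
    have h1 : ∀ i ∈ blk k p, (x i - if p ∈ DL then P.xb else P.xa) ^ 2 ≤ P.R ^ 2 := by
      intro i _
      have h2 := hx0 i
      have h3 := hxR i
      have h4 := hP.xa_nonneg
      have h5 := hP.xa_lt
      have h6 := hP.xb_le
      split_ifs
      · exact sq_le_sq' (by linarith) (by linarith)
      · exact sq_le_sq' (by linarith) (by linarith)
    refine (sum_le_sum h1).trans ?_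
    rw [sum_const, card_blk, nsmul_eq_mul]
    push_cast
    rw [mul_comm]
  have hsum : ∑ i ∈ range (2 * ms + 4), Ti i ≤ P.R ^ 2 * ((k : ℝ) ^ d * L.card) := by
    rw [hTi]
    simp only
    rw [← sum_biUnion (fun i _ i' _ h => hdisj i i' h)]
    calc ∑ p ∈ (range (2 * ms + 4)).biUnion lay, t p
        ≤ ∑ p ∈ (range (2 * ms + 4)).biUnion lay, P.R ^ 2 * (k : ℝ) ^ d := by
          refine sum_le_sum fun p hp => htR p ?_
          rw [mem_biUnion] at hp
          obtain ⟨i, _, hp⟩ := hp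
          rw [hlay] at hp
          exact (mem_inter.1 hp).2
      _ = ((range (2 * ms + 4)).biUnion lay).card * (P.R ^ 2 * (k : ℝ) ^ d) := by
          rw [sum_const, nsmul_eq_mul]
      _ ≤ L.card * (P.R ^ 2 * (k : ℝ) ^ d) := by
          refine mul_le_mul_of_nonneg_right ?_ (by positivity)
          exact_mod_cast card_le_card (by
            intro p hp
            rw [mem_biUnion] at hp
            obtain ⟨i, hi, hp⟩ := hp
            rw [mem_range] at hi
            rw [hlay] at hp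
            exact hsubL i (by omega) (mem_sdiff.1 (mem_inter.1 hp).1).1)
      _ = P.R ^ 2 * ((k : ℝ) ^ d * L.card) := by ring
  obtain ⟨κ, hκ1, hκm, hκ⟩ := select hηpos hξpos hR2 Ti hTi0
    (X := (k : ℝ) ^ d * L.card) (by positivity) hsum
  refine ⟨κ, hκ1, by omega, ?_⟩
  set E := en P S j (lift k A) (lift k (Lx κ ∩ A)) x with hE
  -- the previous layers
  have hO : ∀ p : Zd d, (∀ q ∈ ball s0 p, q ∈ Lx κ) →
      lift k (ball s0 p ∩ A) ⊆ lift k (Lx κ ∩ A) := by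
    intro p hp
    refine lift_subset fun q hq => ?_
    rw [mem_inter] at hq ⊢
    exact ⟨hp q hq.1, hq.2⟩
  have hOA : ∀ p : Zd d, lift k (ball s0 p ∩ A) ⊆ lift k A :=
    fun p => lift_subset inter_subset_right
  have hOb : ∀ p : Zd d, ∀ q ∈ ball (P.m0 + 1) p, q ∈ A → blk k q ⊆ lift k (ball s0 p ∩ A) := by
    intro p q hq hqA i hi
    rw [mem_lift]
    exact ⟨q, mem_inter.2 ⟨ball_mono (by omega) hq, hqA⟩, hi⟩
  have hprev : ∑ i ∈ range (κ - 1), Ti i ≤ C * E := by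
    rw [hTi]
    simp only
    rw [← sum_biUnion (fun i _ i' _ h => hdisj i i' h)]
    set F := (range (κ - 1)).biUnion lay with hF
    have hFm : ∀ p ∈ F, ∃ i, i + 1 ≤ κ - 1 ∧ p ∈ Lx (i + 1) ∧ p ∉ Lx i ∧ p ∈ A := by
      intro p hp
      rw [hF, mem_biUnion] at hp
      obtain ⟨i, hi, hp⟩ := hp
      rw [mem_range] at hi
      rw [hlay] at hp
      simp only [mem_inter, mem_sdiff] at hp
      exact ⟨i, by omega, hp.1.1, hp.1.2, hp.2⟩
    have h1 : ∀ p ∈ F, t p ≤ C1 * en P S j (lift k A) (lift k (ball s0 p ∩ A)) x := by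
      intro p hp
      obtain ⟨i, hi, hp1, hp2, hpA⟩ := hFm p hp
      have hpL := hsubL i (by omega) hp1
      have hri : (i + 2) * s0 ≤ r := Nat.mul_le_mul_right _ (by omega)
      obtain ⟨-, -, h3, h4⟩ := hcoer k S j hJ A x hx0 hxR hxA _ (hOA p) p (hOb p)
      rw [ht]
      simp only
      by_cases hpD : p ∈ DL
      · simp only [if_pos hpD]
        exact h3 (lay_D hcut hDA hVA hDV hDL hOL (by omega) hri hpL hp2 hpD)
      · simp only [if_neg hpD]
        exact h4 hpA (lay_V hcut hDA hVA hDV hDL hOL (by omega) hri hpL hp2 hpD)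
    have h2 : ∀ p ∈ F, lift k (ball s0 p ∩ A) ⊆ lift k (Lx κ ∩ A) := by
      intro p hp
      obtain ⟨i, hi, hp1, hp2, hpA⟩ := hFm p hp
      refine hO p fun q hq => Lk_mono ?_ _ _ _ (ball_Lk hp1 hq)
      omega
    calc ∑ p ∈ F, t p ≤ ∑ p ∈ F, C1 * en P S j (lift k A) (lift k (ball s0 p ∩ A)) x :=
          sum_le_sum h1
      _ = C1 * ∑ p ∈ F, en P S j (lift k A) (lift k (ball s0 p ∩ A)) x := by rw [mul_sum]
      _ ≤ C1 * ((2 * s0 + 1) ^ d * E) :=
          mul_le_mul_of_nonneg_left (en_balls hP hJ A _ x F s0 h2) hC1.le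
      _ = C * E := by rw [hC]; ring
  -- the core
  have hcore : c' * (k : ℝ) ^ d * L.card ≤ E := by
    set D' := A.filter fun i => Dq P z k A x i with hD'
    set V' := (fatr r A).filter fun i => Vq P z k A x i with hV'
    have hsize := hcut.size D' V' (fun i => by
      rw [hD', mem_filter]
      exact ⟨fun h => h.2, fun h => ⟨h.1, h⟩⟩) (fun i hi => by
      rw [hV', mem_filter]
      exact ⟨fun h => h.2, fun h => ⟨hi, h⟩⟩)
    set G := ((L ∩ D').filter fun i => ∃ j ∈ Nb i, j ∈ L ∧ j ∈ V') ∪ ((L \ D') \ V') with hG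
    have hLfat : ∀ i ∈ L, i ∈ fatr r A := by
      intro i hi
      have h1 := ((hcut.mem_L i).1 hi).1
      unfold bad at h1
      exact (mem_filter.1 h1).1
    have hGcard : (L.card : ℝ) ≤ b * G.card := by
      have h1 : ((L ∩ D').filter fun i => ∃ j ∈ Nb i, j ∈ L ∧ j ∈ V').card +
          ((L \ D') \ V').card = G.card := by
        rw [hG, card_union_of_disjoint]
        rw [disjoint_left]
        intro p hp hp'
        rw [mem_filter, mem_inter] at hp
        rw [mem_sdiff, mem_sdiff] at hp'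
        exact hp'.1.2 hp.1.2
      rw [h1] at hsize
      have h2 : (L.card : ℝ) ≤ (((2 * r + 1) ^ d * G.card : ℕ) : ℝ) := by exact_mod_cast hsize
      rw [hb]
      push_cast at h2
      exact h2
    have hGp : ∀ p ∈ G, (p ∈ L ∧ p ∈ A) ∧ ((¬ Dq P z k A x p ∧ ¬ Vq P z k A x p) ∨
        (Dq P z k A x p ∧ ∃ q ∈ ball 1 p, Vq P z k A x q)) := by
      intro p hp
      rw [hG, mem_union] at hp
      rcases hp with hp | hp
      · rw [mem_filter, mem_inter, hD', mem_filter] at hp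
        obtain ⟨⟨h1, h2, h3⟩, q, h4, h5, h6⟩ := hp
        rw [hV', mem_filter] at h6
        refine ⟨⟨h1, h2⟩, Or.inr ⟨h3, q, ?_, h6.2⟩⟩
        rw [mem_ball]
        intro l
        rw [mem_Nb] at h4
        have := h4 l
        rw [abs_le]
        push_cast
        omega
      · rw [mem_sdiff, mem_sdiff] at hp
        obtain ⟨⟨h1, h2⟩, h3⟩ := hp
        have hnV : ¬ Vq P z k A x p := fun h => h3 (by
          rw [hV', mem_filter]
          exact ⟨hLfat p h1, h⟩)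
        have hpA : p ∈ A := by
          by_contra h
          exact hnV (hVA p h)
        have hnD : ¬ Dq P z k A x p := fun h => h2 (by
          rw [hD', mem_filter]
          exact ⟨hpA, h⟩)
        exact ⟨⟨h1, hpA⟩, Or.inl ⟨hnD, hnV⟩⟩
    have hGK : ∀ p ∈ G, ∀ q ∈ ball s0 p, q ∈ Lx κ := by
      intro p hp q hq
      obtain ⟨⟨hpL, hpA⟩, h1⟩ := hGp p hp
      have hK : p ∈ Kc s0 L DL OL := mem_Kc_of hcut hDA hVA hDV hDL hOL (by omega) (κ := 0)
        (by rw [hr]; exact Nat.mul_le_mul_right _ (by omega)) hpL h1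
      rw [hLx]
      simp only
      unfold Lk
      rw [mem_biUnion]
      exact ⟨p, hK, ball_mono (Nat.le_mul_of_pos_left _ (by omega)) hq⟩
    have h1 : ∀ p ∈ G, c2 * (k : ℝ) ^ d ≤
        en P S j (lift k A) (lift k (ball s0 p ∩ A)) x := by
      intro p hp
      obtain ⟨⟨hpL, hpA⟩, h1⟩ := hGp p hp
      obtain ⟨h2, h3, -, -⟩ := hcoer k S j hJ A x hx0 hxR hxA _ (hOA p) p (hOb p)
      rcases h1 with h1 | ⟨h1, q, hq, h4⟩
      · exact h2 hpA h1.1 h1.2
      · exact h3 q hq h1 h4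
    have h2 := en_balls hP hJ A _ x G s0 (fun p hp => hO p (hGK p hp))
    have h3 : (G.card : ℝ) * (c2 * (k : ℝ) ^ d) ≤ (2 * s0 + 1 : ℝ) ^ d * E := by
      refine le_trans ?_ h2
      rw [← nsmul_eq_mul, ← sum_const]
      exact sum_le_sum h1
    have h4 : (0 : ℝ) < (2 * s0 + 1 : ℝ) ^ d := by positivity
    calc c' * (k : ℝ) ^ d * L.card ≤ c' * (k : ℝ) ^ d * (b * G.card) :=
          mul_le_mul_of_nonneg_left hGcard (by positivity)
      _ = (G.card : ℝ) * (c2 * (k : ℝ) ^ d) / (2 * s0 + 1 : ℝ) ^ d := by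
          rw [hc', ha]
          field_simp
      _ ≤ E := by
          rw [div_le_iff₀ h4]
          linarith
  have hQ : QQ P S j k s0 κ A x L DL OL = E - P.T * Ti κ := rfl
  rw [hQ]
  have h1 : P.T * Ti κ ≤ P.T * (η * (C * E) + ξ * ((k : ℝ) ^ d * L.card)) := by
    refine mul_le_mul_of_nonneg_left (hκ.trans ?_) hT.le
    linarith [mul_le_mul_of_nonneg_left hprev hηpos.le]
  have h2 : P.T * (η * (C * E) + ξ * ((k : ℝ) ^ d * L.card)) =
      E / 4 + c' * (k : ℝ) ^ d * L.card / 4 := by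
    rw [hη, hξ]
    field_simp
  linarith

end Pool.Agent.Vdw
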