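import Pool.Agent.Lib.MP_09cbbd_vw.Defs

/-!
# Blocks: elementary facts
-/

set_option autoImplicit false

namespace Pool.Agent.Vdw

open Finset Pool.Agent.StableGas Pool.Agent.Kac
open Pool.Agent.SquareWell hiding Md cut

variable {d : ℕ}

theorem mem_blk {k : ℕ} {p i : Zd d} :
    i ∈ blk k p ↔ ∀ l, (k : ℤ) * p l ≤ i l ∧ i l < k * p l + k := by
  simp [blk, Fintype.mem_piFinset]

theorem card_blk (k : ℕ) (p : Zd d) : (blk k p).card = k ^ d := by
  unfold blk
  rw [Fintype.card_piFinset]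
  simp

theorem mem_ball {s : ℕ} {p i : Zd d} : i ∈ ball s p ↔ near s p i := by
  unfold ball near
  rw [Fintype.mem_piFinset]
  refine forall_congr' fun l => ?_
  rw [mem_Icc, abs_le]
  constructor <;> rintro ⟨h1, h2⟩ <;> constructor <;> omega

theorem card_ball (s : ℕ) (p : Zd d) : (ball s p).card = (2 * s + 1) ^ d := by
  unfold ball
  rw [Fintype.card_piFinset]
  have h : ∀ l : Fin d, (Icc (p l - s) (p l + s)).card = 2 * s + 1 := by
    intro l
    rw [Int.card_Icc]
    omega
  simp [h]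

theorem mem_lift {k : ℕ} {A : Finset (Zd d)} {i : Zd d} :
    i ∈ lift k A ↔ ∃ p ∈ A, i ∈ blk k p := by
  simp [lift]

/-- Every cell is in exactly one block. -/
theorem exists_blk {k : ℕ} (hk : 1 ≤ k) (i : Zd d) : ∃ p, i ∈ blk k p := by
  refine ⟨fun l => i l / k, mem_blk.2 fun l => ⟨?_, ?_⟩⟩
  · exact Int.mul_ediv_self_le (by omega)
  · have h := Int.lt_ediv_add_one_mul_self (i l) (b := (k : ℤ)) (by omega)
    show i l < (k : ℤ) * (i l / k) + k
    linarith [mul_comm (k : ℤ) (i l / k), add_mul (i l / (k : ℤ)) 1 (k : ℤ)]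

theorem blk_unique {k : ℕ} {p q i : Zd d} (hp : i ∈ blk k p) (hq : i ∈ blk k q) : p = q := by
  rw [mem_blk] at hp hq
  funext l
  obtain ⟨h1, h2⟩ := hp l
  obtain ⟨h3, h4⟩ := hq l
  have hk : (0 : ℤ) ≤ k := by positivity
  apply le_antisymm
  · by_contra h
    push Not at h
    have h5 : (k : ℤ) * (q l + 1) ≤ k * p l := mul_le_mul_of_nonneg_left h hk
    linarith
  · by_contra h
    push Not at h
    have h5 : (k : ℤ) * (p l + 1) ≤ k * q l := mul_le_mul_of_nonneg_left h hk
    linarith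

theorem card_lift (k : ℕ) (A : Finset (Zd d)) : (lift k A).card = k ^ d * A.card := by
  unfold lift
  rw [card_biUnion]
  · simp [card_blk, mul_comm]
  · intro p _ q _ hpq
    show Disjoint (blk k p) (blk k q)
    rw [disjoint_left]
    intro i hp hq
    exact hpq (blk_unique hp hq)

theorem mem_lift_iff {k : ℕ} {A : Finset (Zd d)} {i p : Zd d} (hp : i ∈ blk k p) :
    i ∈ lift k A ↔ p ∈ A := by
  rw [mem_lift]
  constructor
  · rintro ⟨q, hq, hiq⟩
    rwa [blk_unique hp hiq]
  · intro h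
    exact ⟨p, h, hp⟩

theorem lift_subset {k : ℕ} {A B : Finset (Zd d)} (h : A ⊆ B) : lift k A ⊆ lift k B :=
  biUnion_subset_biUnion_of_subset_left _ h

theorem lift_union (k : ℕ) (A B : Finset (Zd d)) : lift k (A ∪ B) = lift k A ∪ lift k B := by
  ext i
  simp only [mem_union, mem_lift, or_and_right, exists_or]

theorem disjoint_lift {k : ℕ} {A B : Finset (Zd d)} (h : Disjoint A B) :
    Disjoint (lift k A) (lift k B) := by
  rw [disjoint_left] at h ⊢
  intro i hi hi'
  obtain ⟨p, hp, hip⟩ := mem_lift.1 hi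
  exact h hp ((mem_lift_iff hip).1 hi')

/-- Cells at distance at most `m k` are in blocks at distance at most `m`. -/
theorem near_blk {k m : ℕ} {p q i j : Zd d} (hp : i ∈ blk k p) (hq : j ∈ blk k q)
    (h : ∀ l, |j l - i l| ≤ m * k) : near m p q := by
  rw [mem_blk] at hp hq
  intro l
  obtain ⟨h1, h2⟩ := hp l
  obtain ⟨h3, h4⟩ := hq l
  have h0 := abs_le.1 (h l)
  have hk : (0 : ℤ) ≤ k := by positivity
  rw [abs_le]
  constructor
  · by_contra h5
    push Not at h5
    have h6 : (k : ℤ) * (q l + (m + 1)) ≤ k * p l := mul_le_mul_of_nonneg_left (by linarith) hk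
    nlinarith
  · by_contra h5
    push Not at h5
    have h6 : (k : ℤ) * (p l + (m + 1)) ≤ k * q l := mul_le_mul_of_nonneg_left (by linarith) hk
    nlinarith

theorem dist_blk {k : ℕ} {p q i j : Zd d} (hp : i ∈ blk k p) (hq : j ∈ blk k q)
    (h : near 1 p q) (l : Fin d) : |j l - i l| ≤ 2 * k := by
  rw [mem_blk] at hp hq
  obtain ⟨h1, h2⟩ := hp l
  obtain ⟨h3, h4⟩ := hq l
  have h0 := abs_le.1 (h l)
  have hk : (0 : ℤ) ≤ k := by positivity
  have h5 : (k : ℤ) * q l ≤ k * (p l + 1) :=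
    mul_le_mul_of_nonneg_left (by push_cast at h0; linarith) hk
  have h6 : (k : ℤ) * p l ≤ k * (q l + 1) :=
    mul_le_mul_of_nonneg_left (by push_cast at h0; linarith) hk
  rw [abs_le]
  constructor <;> linarith

/-- The box of cells is the union of the blocks of a box. -/
theorem lift_bx (k n : ℕ) : lift k (SquareWell.bx d n) = SquareWell.bx d (k * n) := by
  ext i
  rw [mem_lift]
  simp only [SquareWell.bx, Fintype.mem_piFinset, mem_Ico]
  constructor
  · rintro ⟨p, hp, hi⟩ l
    rw [mem_blk] at hi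
    obtain ⟨h1, h2⟩ := hi l
    obtain ⟨h3, h4⟩ := hp l
    have hk : (0 : ℤ) ≤ k := by positivity
    constructor
    · nlinarith
    · have h5 : (k : ℤ) * (p l + 1) ≤ k * n := mul_le_mul_of_nonneg_left (by linarith) hk
      push_cast
      linarith
  · intro h
    have hk : ∀ l : Fin d, 0 < (k : ℤ) := by
      intro l
      obtain ⟨h1, h2⟩ := h l
      by_contra h3
      have h4 : (k : ℤ) = 0 := by omega
      push_cast at h2
      rw [h4, zero_mul] at h2
      omega
    refine ⟨fun l => i l / k, fun l => ⟨?_, ?_⟩, mem_blk.2 fun l => ⟨?_, ?_⟩⟩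
    · exact Int.ediv_nonneg (h l).1 (hk l).le
    · refine Int.ediv_lt_of_lt_mul (hk l) ?_
      have := (h l).2
      push_cast at this
      linarith [mul_comm (k : ℤ) (n : ℤ)]
    · exact Int.mul_ediv_self_le (hk l).ne'
    · have h1 := Int.lt_ediv_add_one_mul_self (i l) (hk l)
      show i l < (k : ℤ) * (i l / k) + k
      linarith [mul_comm (k : ℤ) (i l / k), add_mul (i l / (k : ℤ)) 1 (k : ℤ)]

end Pool.Agent.Vdw
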