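import Pool.Agent.Lib.MP_09cbbd_vw.Up

/-!
# Bounds for the pressure
-/

set_option autoImplicit false

namespace Pool.Agent.Vdw

open MeasureTheory Finset Filter Topology Pool.Agent.StableGas Pool.Agent.Kac
open Pool.Agent.SquareWell hiding Md cut

variable {d : ℕ} {E : Type} [MeasurableSpace E]

section

variable {P : Par} {M : Md d E} {V bs μs Ps ε : ℝ} {k : ℕ}

theorem Prs.q_nonneg' (P : Par) (x : ℝ) : 0 ≤ P.q x := le_min (sq_nonneg _) (sq_nonneg _)

/-- The functional is at least the local part. -/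
theorem Prs.local_le_en (hP : P.Ok) (G : Good P M V bs μs Ps ε k) (A : Finset (Zd d))
    (x : Zd d → ℝ) : P.c * ∑ i ∈ A, P.q (x i) ≤ en P M.S (jj M V) A A x := by
  classical
  unfold en
  have hJ := G.jok hP
  have h2 : 0 ≤ ∑ v ∈ M.S, jj M V v *
    (∑ i ∈ A.filter (fun i => i + v ∈ A), (x i - x (i + v)) ^ 2 +
      2 * ∑ i ∈ A.filter (fun i => i + v ∉ A), x i ^ 2) := by
    refine Finset.sum_nonneg fun v _ => mul_nonneg (hJ.nonneg v) ?_
    exact add_nonneg (Finset.sum_nonneg fun i _ => sq_nonneg _)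
      (mul_nonneg zero_le_two (Finset.sum_nonneg fun i _ => sq_nonneg _))
  linarith

theorem Prs.point_le (hP : P.Ok) (t x : ℝ) :
    t * x - P.c * P.q x ≤ max (t * P.xa) (t * P.xb) + t ^ 2 / (4 * P.c) := by
  have hc := hP.c_pos
  have key : ∀ y : ℝ, t * x - P.c * (x - y) ^ 2 ≤ t * y + t ^ 2 / (4 * P.c) := by
    intro y
    have h1 : t ^ 2 / (4 * P.c) = P.c * (t / (2 * P.c)) ^ 2 := by
      field_simp
      ring
    have h2 : t = 2 * P.c * (t / (2 * P.c)) := by
      field_simp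
    rw [h1]
    obtain ⟨s, hs⟩ : ∃ s, s = t / (2 * P.c) := ⟨_, rfl⟩
    rw [← hs] at h2 ⊢
    rw [h2]
    nlinarith [mul_nonneg hc.le (sq_nonneg (x - y - s))]
  unfold Par.q
  rcases min_choice ((x - P.xa) ^ 2) ((x - P.xb) ^ 2) with h | h
  · rw [h]
    exact (key P.xa).trans (add_le_add (le_max_left _ _) le_rfl)
  · rw [h]
    exact (key P.xb).trans (add_le_add (le_max_right _ _) le_rfl)

/-- Integration of a bound by the a priori weights. -/
theorem Prs.int_le (G : Good P M V bs μs Ps ε k) (A : Finset (Zd d)) (C : ℝ)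
    (f : (Zd d → E) → ENNReal)
    (h : ∀ ω, f ω ≤ ex C * ∏ i ∈ A, uo P M V μs Ps ε (ω i)) :
    M.int A f ≤ ex (C + A.card * (ε * V)) := by
  have hm : Measurable fun ω : Zd d → E => ∏ i ∈ A, uo P M V μs Ps ε (ω i) :=
    Finset.measurable_prod _ fun i _ => (measurable_uo P M V μs Ps ε).comp (measurable_pi_apply i)
  calc M.int A f ≤ M.int A (fun ω => ex C * ∏ i ∈ A, uo P M V μs Ps ε (ω i)) :=
        Pool.Agent.Kac.Pres.int_mono M A h
    _ = ex C * M.int A (fun ω => ∏ i ∈ A, uo P M V μs Ps ε (ω i)) :=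
        Pool.Agent.Kac.Pres.int_const_mul M A hm _
    _ ≤ ex C * ex (A.card * Real.log (M.N + 1)) := mul_le_mul' le_rfl (int_prod_uo G A)
    _ ≤ _ := by
        rw [← ex_add, ex_le_ex]
        have h1 : (A.card : ℝ) * Real.log (M.N + 1) ≤ A.card * (ε * V) :=
          mul_le_mul_of_nonneg_left G.log_le (Nat.cast_nonneg _)
        linarith

/-- Upper bound for the partition function. -/
theorem xi_up (hP : P.Ok) (G : Good P M V bs μs Ps ε k) (μ : ℝ) (A : Finset (Zd d)) :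
    M.xi μ A ≤ ex (V * A.card * (Ps + 2 * ε + max ((μ - μs) * P.xa) ((μ - μs) * P.xb) +
      (μ - μs) ^ 2 / (4 * P.c))) := by
  obtain ⟨m, hm⟩ : ∃ m, m = max ((μ - μs) * P.xa) ((μ - μs) * P.xb) +
      (μ - μs) ^ 2 / (4 * P.c) := ⟨_, rfl⟩
  have h1 : ∀ ω, M.w μ A ω ≤ ex (V * (A.card * (Ps + ε + m))) *
      ∏ i ∈ A, uo P M V μs Ps ε (ω i) := by
    intro ω
    refine (w_le_en hP G μ A ω).trans (mul_le_mul' (ex_le_ex.2 ?_) le_rfl)
    refine mul_le_mul_of_nonneg_left ?_ G.V_pos.le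
    have h2 := Prs.local_le_en hP G A (den M V A ω)
    rw [mul_sum] at h2
    have h3 : ∑ i ∈ A, (Ps + ε + (μ - μs) * den M V A ω i) - ∑ i ∈ A, P.c * P.q (den M V A ω i) ≤
        ∑ _i ∈ A, (Ps + ε + m) := by
      rw [← sum_sub_distrib]
      refine sum_le_sum fun i _ => ?_
      have h4 := Prs.point_le hP (μ - μs) (den M V A ω i)
      rw [← hm] at h4
      linarith
    rw [sum_const, nsmul_eq_mul] at h3
    linarith
  refine (Prs.int_le G A _ _ h1).trans (ex_le_ex.2 (le_of_eq ?_))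
  rw [add_assoc (Ps + 2 * ε), ← hm]
  ring

/-- Configurations with a large value of the functional. -/
theorem cc_up (hP : P.Ok) (G : Good P M V bs μs Ps ε k) (μ τ : ℝ) (A : Finset (Zd d)) :
    M.int A ({ω | τ * A.card < en P M.S (jj M V) A A (den M V A ω)}.indicator (M.w μ A)) ≤
      ex (V * A.card * (Ps + 2 * ε + |μ - μs| * P.R - τ)) := by
  classical
  have h1 : ∀ ω, ({ω | τ * A.card < en P M.S (jj M V) A A (den M V A ω)}.indicator (M.w μ A)) ω ≤
      ex (V * (A.card * (Ps + ε + |μ - μs| * P.R - τ))) *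
      ∏ i ∈ A, uo P M V μs Ps ε (ω i) := by
    intro ω
    rw [Set.indicator_apply]
    split_ifs with hω
    · refine (w_le_en hP G μ A ω).trans (mul_le_mul' (ex_le_ex.2 ?_) le_rfl)
      refine mul_le_mul_of_nonneg_left ?_ G.V_pos.le
      have h3 : ∑ i ∈ A, (Ps + ε + (μ - μs) * den M V A ω i) ≤
          ∑ _i ∈ A, (Ps + ε + |μ - μs| * P.R) := by
        refine sum_le_sum fun i _ => ?_
        have h4 : (μ - μs) * den M V A ω i ≤ |μ - μs| * P.R :=
          (mul_le_mul_of_nonneg_right (le_abs_self _) (den_nonneg G A ω i)).trans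
            (mul_le_mul_of_nonneg_left (den_le hP G A ω i) (abs_nonneg _))
        linarith
      rw [sum_const, nsmul_eq_mul] at h3
      have h5 : τ * A.card < en P M.S (jj M V) A A (den M V A ω) := hω
      nlinarith
    · exact zero_le
  refine (Prs.int_le G A _ _ h1).trans (ex_le_ex.2 (le_of_eq ?_))
  ring

/-- Bounds for the pressure. -/
theorem p_up (hd : 1 ≤ d) (hP : P.Ok) (G : Good P M V bs μs Ps ε k) {p : ℝ → ℝ} (hp : M.IsP p)
    (μ : ℝ) : p μ ≤ V * (Ps + 2 * ε + max ((μ - μs) * P.xa) ((μ - μs) * P.xb) +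
      (μ - μs) ^ 2 / (4 * P.c)) := by
  refine le_of_tendsto (hp μ) ?_
  filter_upwards [eventually_ge_atTop 1] with L hL
  have hL' : (0 : ℝ) < L := by exact_mod_cast hL
  rw [div_le_iff₀ (by positivity)]
  have h1 := Pool.Agent.Kac.Pres.log_xi_le M μ _ (xi_up hP G μ (bx d L))
  rw [Pool.Agent.Kac.Pres.card_bx] at h1
  push_cast at h1
  refine h1.trans (le_of_eq ?_)
  ring

theorem p_lo (hd : 1 ≤ d) (hP : P.Ok) (G : Good P M V bs μs Ps ε k) {p : ℝ → ℝ} (hp : M.IsP p)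
    (μ : ℝ) (hμ : |μ - μs| ≤ 1) {y : ℝ} (hy : y = P.xa ∨ y = P.xb) :
    V * (Ps + (μ - μs) * y - (2 + P.T * (P.R + 1) ^ 2) * ε) ≤ p μ := by
  obtain ⟨B, n, hB, h1, hny, hlo⟩ := G.lo y hy
  have hV := G.V_pos
  have hε := G.eps_pos
  have h2 := Pool.Agent.Kac.Md.IsP.ge hd hp B hB n (-(V * (Ps - ε - μs * (n / V) -
    M.K * V * M.tot / 2 * (n / V) ^ 2))) h1 (by rw [neg_neg]; exact hlo) μ
  refine le_trans ?_ h2
  obtain ⟨a, ha⟩ : ∃ a : ℝ, a = n / V := ⟨_, rfl⟩
  have hna : (n : ℝ) = V * a := by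
    rw [ha, mul_div_cancel₀ _ hV.ne']
  have hB0 : B.Nonempty := by
    by_contra h0
    rw [Set.not_nonempty_iff_eq_empty] at h0
    rw [h0, measure_empty] at hlo
    exact absurd hlo (not_le.2 (ex_pos _))
  obtain ⟨x, hx⟩ := hB0
  have hnN : (n : ℝ) ≤ M.N := by
    have h3 := M.n_le x
    rw [(h1 x hx).2] at h3
    exact_mod_cast h3
  have ha0 : 0 ≤ a := by
    rw [ha]
    positivity
  have haR : a ≤ P.R := by
    rw [ha, div_le_iff₀ hV]
    exact hnN.trans G.N_le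
  rw [← ha] at hny ⊢
  rw [hna]
  have hT := hP.T_pos
  have hR : 0 ≤ P.R := ha0.trans haR
  have h4 : (μ - μs) * y - ε ≤ (μ - μs) * a := by
    have h5 : |(μ - μs) * (a - y)| ≤ 1 * ε := by
      rw [abs_mul]
      exact mul_le_mul hμ hny (abs_nonneg _) zero_le_one
    have h6 := (abs_le.1 h5).1
    linarith
  have h7 : M.K * V * (M.tot - M.totm) ≤ P.T * ε := by
    have h8 := G.totm
    have h9 : M.tot - M.totm ≤ ε * M.tot := by linarith
    have h10 : 0 ≤ M.K * V := mul_nonneg M.hK.le hV.le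
    calc M.K * V * (M.tot - M.totm) ≤ M.K * V * (ε * M.tot) := mul_le_mul_of_nonneg_left h9 h10
      _ = (M.K * V * M.tot) * ε := by ring
      _ ≤ P.T * ε := mul_le_mul_of_nonneg_right G.tot_le hε.le
  have h11 : a ^ 2 ≤ (P.R + 1) ^ 2 := pow_le_pow_left₀ ha0 (by linarith) 2
  have h12 : M.K * V * (M.tot - M.totm) / 2 * a ^ 2 ≤ P.T * (P.R + 1) ^ 2 * ε := by
    have h13 : M.K * V * (M.tot - M.totm) / 2 * a ^ 2 ≤ P.T * ε * (P.R + 1) ^ 2 := by
      refine mul_le_mul ?_ h11 (sq_nonneg _) (by positivity)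
      have : 0 ≤ P.T * ε := by positivity
      linarith
    linarith
  have h14 : μ * (V * a) + M.K / 2 * M.totm * (V * a) ^ 2 -
      -(V * (Ps - ε - μs * a - M.K * V * M.tot / 2 * a ^ 2)) =
      V * (Ps + (μ - μs) * a - ε - M.K * V * (M.tot - M.totm) / 2 * a ^ 2) := by ring
  rw [h14]
  refine mul_le_mul_of_nonneg_left ?_ hV.le
  nlinarith

end

end Pool.Agent.Vdw
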