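import Pool.Agent.Lib.MP_09cbbd_vw.Sum
import Pool.Agent.Lib.MP_09cbbd_vw.Cls
import Pool.Agent.Lib.MP_09cbbd_vw.Prs

/-!
# No gap between the two chemical potentials
-/

set_option autoImplicit false

namespace Pool.Agent.Vdw

open MeasureTheory Finset Filter Topology Pool.Agent.StableGas Pool.Agent.Kac
open Pool.Agent.SquareWell hiding Md cut

variable {d : ℕ}

/-- An upper bound for the partition functions of large cubes of blocks bounds the pressure. -/
theorem le_of_xi_bound {E : Type} [MeasurableSpace E] (hd1 : 1 ≤ d) {M : Md d E} {p : ℝ → ℝ}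
    (hp : M.IsP p) {μ M0 C' Cst : ℝ} {k : ℕ} (hk : 1 ≤ k) (hC : 1 ≤ Cst)
    (h : ∀ᶠ n : ℕ in atTop, M.xi μ (SquareWell.bx d (k * n)) ≤ ENNReal.ofReal
      (Cst * Real.exp (M0 * ((k * n : ℕ) : ℝ) ^ d +
        C' * (rb M.S (SquareWell.bx d (k * n))).card))) : p μ ≤ M0 := by
  classical
  have hup : ∀ᶠ n : ℕ in atTop,
      Real.log (M.xi μ (SquareWell.bx d (k * n))).toReal / ((k * n : ℕ) : ℝ) ^ d ≤
      Real.log Cst / ((k * n : ℕ) : ℝ) ^ d + M0 +
        C' * (((rb M.S (SquareWell.bx d (k * n))).card : ℝ) / ((k * n : ℕ) : ℝ) ^ d) := by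
    filter_upwards [h, eventually_ge_atTop 1] with n hn hn1
    have hkn : 1 ≤ k * n := Nat.mul_pos hk hn1
    have hn0 : (0 : ℝ) < ((k * n : ℕ) : ℝ) := by exact_mod_cast hkn
    have hnd : (0 : ℝ) < ((k * n : ℕ) : ℝ) ^ d := pow_pos hn0 d
    have h7 : (M.xi μ (SquareWell.bx d (k * n))).toReal ≤ Cst *
        Real.exp (M0 * ((k * n : ℕ) : ℝ) ^ d + C' * (rb M.S (SquareWell.bx d (k * n))).card) :=
      ENNReal.toReal_le_of_le_ofReal (by positivity) hn
    have h8 : 0 < (M.xi μ (SquareWell.bx d (k * n))).toReal := by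
      refine ENNReal.toReal_pos ?_ (xi_ne_top M μ _)
      have := one_le_xi M μ (SquareWell.bx d (k * n))
      intro h
      rw [h] at this
      simp at this
    have h9 : Real.log (M.xi μ (SquareWell.bx d (k * n))).toReal ≤ Real.log Cst +
        (M0 * ((k * n : ℕ) : ℝ) ^ d + C' * (rb M.S (SquareWell.bx d (k * n))).card) := by
      refine (Real.log_le_log h8 h7).trans (le_of_eq ?_)
      rw [Real.log_mul (by positivity) (Real.exp_pos _).ne', Real.log_exp]
    refine (div_le_div_of_nonneg_right h9 hnd.le).trans (le_of_eq ?_)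
    field_simp
    ring
  have hkn : Tendsto (fun n : ℕ => k * n) atTop atTop := by
    refine tendsto_atTop_mono (fun n => ?_) tendsto_id
    exact Nat.le_mul_of_pos_left n hk
  have hlim : Tendsto (fun n : ℕ => Real.log Cst / ((k * n : ℕ) : ℝ) ^ d + M0 +
      C' * (((rb M.S (SquareWell.bx d (k * n))).card : ℝ) / ((k * n : ℕ) : ℝ) ^ d)) atTop
      (𝓝 (0 + M0 + C' * 0)) := by
    refine Tendsto.add (Tendsto.add ?_ tendsto_const_nhds) ?_
    · refine Tendsto.const_div_atTop ?_ _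
      exact ((tendsto_pow_atTop (by omega)).comp tendsto_natCast_atTop_atTop).comp hkn
    · exact ((Asm.tendsto_rb M.S_r).comp hkn).const_mul C'
  have hfinal := le_of_tendsto_of_tendsto ((hp μ).comp hkn) hlim hup
  rwa [zero_add, mul_zero, add_zero] at hfinal

theorem Par.C_nonneg {P : Par} (hP : P.Ok) (d : ℕ) : 0 ≤ P.C d := by
  have h1 := hP.xa_nonneg
  have h2 := hP.xa_lt
  have h3 := hP.xb_le
  have h4 := hP.T_pos
  have h5 : 0 ≤ P.R := by linarith
  unfold Par.C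
  positivity

/-- Main estimate: there are no two different chemical potentials with the densities near the two
densities of the mean field coexistence. -/
theorem no_gap (hd : 2 ≤ d) {P : Par} (hP : P.Ok) :
    ∃ δ0 : ℝ, 0 < δ0 ∧ ∀ δ : ℝ, 0 < δ → δ ≤ δ0 → ∃ η0 : ℝ, 0 < η0 ∧
      ∀ η : ℝ, 0 < η → η ≤ η0 → ∃ ε0 : ℝ, 0 < ε0 ∧
      ∀ (E : Type) (_ : MeasurableSpace E) (M : Md d E) (V bs μs Ps ε : ℝ) (k : ℕ),
      Good P M V bs μs Ps ε k → ε ≤ ε0 → ∀ p : ℝ → ℝ, M.IsP p → ∀ μa μb : ℝ, μa < μb →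
      |μa - μs| ≤ η → |μb - μs| ≤ η →
      Sub p μa ((P.xa + δ) * V) → Sub p μb ((P.xb - δ) * V) →
      Glue2 M V bs μa (P.xa + δ) (δ * (P.xb - P.xa + 1)) (p μa) →
      Glue2 M V bs μb (P.xb - δ) (δ * (P.xb - P.xa + 1)) (p μb) → False := by
  classical
  have hd1 : 1 ≤ d := by omega
  have hxab := hP.xa_lt
  have hxa := hP.xa_nonneg
  have hxb := hP.xb_le
  have hR : 0 ≤ P.R := by linarith
  have hT := hP.T_pos
  obtain ⟨z, hz, hz2⟩ : ∃ z : ℝ, 0 < z ∧ 16 * z ≤ (P.xb - P.xa) ^ 2 := by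
    have h1 : 0 < P.xb - P.xa := by linarith
    exact ⟨(P.xb - P.xa) ^ 2 / 16, by positivity, by linarith⟩
  obtain ⟨m, Mr, c4, hm, hMr, hM, hc4, hdet⟩ := det hd hP hz hz2
  obtain ⟨δ0, hδ0, hcls⟩ := class_bound2 hd hP hz hz2 hm hM hc4
  refine ⟨δ0, hδ0, fun δ hδ hδ' => ?_⟩
  obtain ⟨τ, c0, η1, ε1, hτ, hc0, hη1, hη1', hε1, hcls2⟩ := hcls δ hδ hδ'
  obtain ⟨τ0, hent⟩ := entropy2 (d := d) hd hc0
  refine ⟨min η1 (τ / (8 * (P.R + 1))), lt_min hη1 (by positivity), fun η hη hη' => ?_⟩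
  obtain ⟨KK, hKK⟩ : ∃ KK, KK = 2 + P.T * (P.R + 1) ^ 2 := ⟨_, rfl⟩
  have hKK0 : 0 < KK := by rw [hKK]; positivity
  refine ⟨min (min ε1 (τ / (8 * (KK + 2)))) (min (2 * η1 / KK) (c4 / (8 * (|τ0| + 1)))),
    lt_min (lt_min hε1 (by positivity)) (lt_min (by positivity) (by positivity)), ?_⟩
  intro E _ M V bs μs Ps ε k G hε p hp μa μb hab ha hb Sa Sb Ga Gb
  have hηa : η ≤ η1 := hη'.trans (min_le_left _ _)
  have hηb : η * P.R ≤ τ / 8 := by
    have h1 : η ≤ τ / (8 * (P.R + 1)) := hη'.trans (min_le_right _ _)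
    rw [le_div_iff₀ (by positivity)] at h1
    have h2 : η * (8 * (P.R + 1)) = 8 * (η * P.R) + 8 * η := by ring
    linarith
  have hεa : ε ≤ ε1 := hε.trans ((min_le_left _ _).trans (min_le_left _ _))
  have hεb : (KK + 2) * ε ≤ τ / 8 := by
    have h1 : ε ≤ τ / (8 * (KK + 2)) := hε.trans ((min_le_left _ _).trans (min_le_right _ _))
    rw [le_div_iff₀ (by positivity)] at h1
    linarith
  have hεc : KK * ε ≤ 2 * η1 := by
    have h1 : ε ≤ 2 * η1 / KK := hε.trans ((min_le_right _ _).trans (min_le_left _ _))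
    rw [le_div_iff₀ (by positivity)] at h1
    linarith
  have hεd : ε * (8 * (|τ0| + 1)) ≤ c4 := by
    have h1 : ε ≤ c4 / (8 * (|τ0| + 1)) := hε.trans ((min_le_right _ _).trans (min_le_right _ _))
    rwa [le_div_iff₀ (by positivity)] at h1
  have hV := G.V_pos
  have hεV := G.one_le
  have hk := G.k_pos
  have hkd : (1 : ℝ) ≤ (k : ℝ) ^ d := one_le_pow₀ (by exact_mod_cast hk)
  have hΔ : 0 < μb - μa := by linarith
  set μ : ℝ := (μa + μb) / 2 with hμ
  set pm : ℝ := max (p μa + (μb - μa) / 2 * ((P.xa + δ) * V))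
    (p μb - (μb - μa) / 2 * ((P.xb - δ) * V)) with hpm
  have hpm1' : p μa + (μb - μa) / 2 * ((P.xa + δ) * V) ≤ pm := le_max_left _ _
  have hpm2' : p μb - (μb - μa) / 2 * ((P.xb - δ) * V) ≤ pm := le_max_right _ _
  have hpm1 : p μa ≤ pm - (μb - μa) / 2 * ((P.xa + δ) * V) := by linarith
  have hpm2 : p μb ≤ pm + (μb - μa) / 2 * ((P.xb - δ) * V) := by linarith
  have hlow : pm ≤ p μ := by
    refine max_le ?_ ?_
    · have h1 := Sa μ
      have e1 : (μ - μa) * ((P.xa + δ) * V) = (μb - μa) / 2 * ((P.xa + δ) * V) := by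
        rw [hμ]; ring
      linarith
    · have h1 := Sb μ
      have e1 : (μ - μb) * ((P.xb - δ) * V) = -((μb - μa) / 2 * ((P.xb - δ) * V)) := by
        rw [hμ]; ring
      linarith
  have hηle : η ≤ 1 := hηa.trans hη1'
  have hpm3 : V * (Ps - η * P.R - KK * ε) ≤ pm := by
    have h1 := p_lo hd1 hP G hp μa (ha.trans hηle) (y := P.xa) (Or.inl rfl)
    rw [← hKK] at h1
    have h2 : 0 ≤ (μb - μa) / 2 * ((P.xa + δ) * V) := by positivity
    have h3 : -(η * P.R) ≤ (μa - μs) * P.xa := by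
      have h4 := (abs_le.1 ha).1
      have h5 := mul_le_mul_of_nonneg_right h4 hxa
      rw [neg_mul] at h5
      have h6 : η * P.xa ≤ η * P.R := mul_le_mul_of_nonneg_left (by linarith) hη.le
      linarith
    have h4 : V * (Ps - η * P.R - KK * ε) ≤ V * (Ps + (μa - μs) * P.xa - KK * ε) :=
      mul_le_mul_of_nonneg_left (by linarith) hV.le
    linarith
  have hpm4 : V * (Ps - (P.R + 2) * η1) ≤ pm := by
    refine le_trans (mul_le_mul_of_nonneg_left ?_ hV.le) hpm3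
    have h1 : η * P.R ≤ η1 * P.R := mul_le_mul_of_nonneg_right hηa hR
    linarith
  have hμs : |μ - μs| ≤ η := by
    rw [abs_le] at ha hb ⊢
    rw [hμ]
    constructor <;> linarith
  -- the parameters
  obtain ⟨τ', hτ'⟩ : ∃ τ', τ' = c4 / 8 * V * (k : ℝ) ^ d := ⟨_, rfl⟩
  have hττ : τ0 ≤ τ' := by
    have h1 : 8 * (|τ0| + 1) ≤ c4 * V := by
      have h2 : ε * V * (8 * (|τ0| + 1)) ≤ c4 * V := by
        have := mul_le_mul_of_nonneg_right hεd hV.le
        linarith
      have h3 : 1 * (8 * (|τ0| + 1)) ≤ ε * V * (8 * (|τ0| + 1)) :=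
        mul_le_mul_of_nonneg_right hεV (by positivity)
      linarith
    have h4 : τ0 ≤ c4 / 8 * V := by
      have := le_abs_self τ0
      linarith
    have h5 : c4 / 8 * V * 1 ≤ c4 / 8 * V * (k : ℝ) ^ d :=
      mul_le_mul_of_nonneg_left hkd (by positivity)
    rw [hτ']
    linarith
  obtain ⟨ζ, hζ⟩ : ∃ ζ, ζ = (μb - μa) * (δ * V) * (k : ℝ) ^ d / 16 := ⟨_, rfl⟩
  have hζ0 : 0 < ζ := by rw [hζ]; positivity
  obtain ⟨hent1, hent2⟩ := hent τ' hττ
  obtain ⟨s0, hs0, hent3⟩ := hent2 ζ hζ0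
  obtain ⟨M0, hM0⟩ : ∃ M0, M0 = max (pm - V * τ / 2) (pm - (μb - μa) * (δ * V) / 8) := ⟨_, rfl⟩
  have hM1 : pm - V * τ / 2 ≤ M0 := by rw [hM0]; exact le_max_left _ _
  have hM2 : pm - (μb - μa) * (δ * V) / 8 ≤ M0 := by rw [hM0]; exact le_max_right _ _
  have hM3 : M0 < pm := by
    rw [hM0]
    refine max_lt ?_ ?_
    · have : 0 < V * τ / 2 := by positivity
      linarith
    · have : 0 < (μb - μa) * (δ * V) / 8 := by positivity
      linarith
  obtain ⟨C', hC'⟩ : ∃ C', C' = V * P.C d := ⟨_, rfl⟩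
  have hC'0 : 0 ≤ C' := by rw [hC']; exact mul_nonneg hV.le (Par.C_nonneg hP d)
  have hmain : p μ ≤ M0 := by
    refine le_of_xi_bound hd1 hp (C' := C') (Cst := 1 + m * (s0 + 1)) hk
      (by have : (0 : ℝ) ≤ m * (s0 + 1) := by positivity
          linarith) ?_
    filter_upwards [Asm.eventually_fatr (d := d) Mr] with n hn
    set A : Finset (Zd d) := SquareWell.bx d n with hA
    have hlift : lift k A = SquareWell.bx d (k * n) := lift_bx k n
    have hcard : ((lift k A).card : ℝ) = ((k * n : ℕ) : ℝ) ^ d := by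
      rw [hlift]; exact Asm.card_bx' (k * n)
    have hcard2 : ((lift k A).card : ℝ) = (k : ℝ) ^ d * A.card := by
      rw [card_lift]; push_cast; ring
    rw [← hlift, ← hcard]
    have hAc : (0 : ℝ) ≤ A.card := Nat.cast_nonneg _
    have hLc : (0 : ℝ) ≤ (lift k A).card := Nat.cast_nonneg _
    obtain ⟨rr, hrr⟩ : ∃ rr : ℝ, rr = (rb M.S (lift k A)).card := ⟨_, rfl⟩
    have hrr0 : 0 ≤ rr := by rw [hrr]; exact Nat.cast_nonneg _
    rw [← hrr]
    obtain ⟨LL, hLL⟩ : ∃ LL : ℝ, LL = (lift k A).card := ⟨_, rfl⟩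
    obtain ⟨X, hX⟩ : ∃ X, X = pm * LL - (μb - μa) / 4 * (δ * V) * LL + C' * rr := ⟨_, rfl⟩
    have hsum := sum_classes2 hd hP hz hz2 hMr hdet G (τ := τ) hc0 μ A (NConn_bx hd 0 n) s0 hs0
      (fun _ L => ex (X - τ' * L.card)) (fun s κ L Y DL OL hκ1 hκ2 => by
        have h1 := hcls2 E _ M V bs μs Ps ε k G hεa η hη hηa μa μb (p μa) (p μb) pm hab ha hb Ga
          Gb hpm1 hpm2 hpm4 A s κ L Y DL OL hκ1 hκ2
        rw [← hrr, ← hLL, ← hC', ← hτ', ← hX] at h1
        exact h1)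
    have hcc := cc_up hP G μ τ (lift k A)
    simp only [Asm.sum_T] at hsum
    have h2 : ∑ s ∈ Finset.Ico 1 s0, ex X * ENNReal.ofReal (∑ L ∈ (Fam (fatr Mr A) s).filter
        (fun L => c0 * A.card ≤ 2 * s ^ 3 * num L s), (4 * Real.exp (-τ')) ^ L.card) ≤
        ∑ s ∈ Finset.Ico 1 s0, ex X := by
      refine sum_le_sum fun s hs => ?_
      have h3 := hent1 s (Finset.mem_Ico.1 hs).1 (fatr Mr A) A.card hn
      calc ex X * ENNReal.ofReal _ ≤ ex X * 1 := by
            apply mul_le_mul_right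
            exact ENNReal.ofReal_le_one.2 h3
        _ = ex X := mul_one _
    rw [sum_const, Nat.card_Ico, nsmul_eq_mul] at h2
    have h4 := hent3 (fatr Mr A)
    have h5 : ζ * (fatr Mr A).card ≤ 2 * ζ * A.card := by
      have h7 : ((fatr Mr A).card : ℝ) ≤ 2 * A.card := by exact_mod_cast hn
      have h8 := mul_le_mul_of_nonneg_left h7 hζ0.le
      have h9 : ζ * (2 * (A.card : ℝ)) = 2 * ζ * A.card := by ring
      linarith
    have h6 : ex X * ENNReal.ofReal (∑ L ∈ Fam (fatr Mr A) s0, (4 * Real.exp (-τ')) ^ L.card) ≤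
        ex (X + 2 * ζ * A.card) := by
      rw [ex_add X (2 * ζ * A.card)]
      apply mul_le_mul_right
      unfold ex
      apply ENNReal.ofReal_le_ofReal
      exact h4.trans (Real.exp_le_exp.2 h5)
    obtain ⟨Q, hQ⟩ : ∃ Q, Q = M0 * LL + C' * rr := ⟨_, rfl⟩
    have hLL0 : 0 ≤ LL := by rw [hLL]; exact hLc
    have hCr : 0 ≤ C' * rr := mul_nonneg hC'0 hrr0
    have hXQ : X + 2 * ζ * A.card ≤ Q := by
      have e1 : X + 2 * ζ * A.card = (pm - (μb - μa) * (δ * V) / 8) * LL + C' * rr := by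
        rw [hX, hζ, hLL, hcard2]; ring
      rw [e1, hQ]
      have := mul_le_mul_of_nonneg_right hM2 hLL0
      linarith
    have hXQ' : X ≤ Q := by
      have : 0 ≤ 2 * ζ * A.card := by positivity
      linarith
    have hcc2 : V * (lift k A).card * (Ps + 2 * ε + |μ - μs| * P.R - τ) ≤ Q := by
      rw [← hLL, hQ]
      have g1 : V * (Ps + 2 * ε + |μ - μs| * P.R - τ) ≤ pm - V * τ / 2 := by
        have g2 : |μ - μs| * P.R ≤ η * P.R := mul_le_mul_of_nonneg_right hμs hR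
        have g3 : V * (Ps + 2 * ε + |μ - μs| * P.R - τ) ≤
            V * (Ps - η * P.R - KK * ε - τ / 2) :=
          mul_le_mul_of_nonneg_left (by linarith) hV.le
        linarith
      have g4 := mul_le_mul_of_nonneg_right (g1.trans hM1) hLL0
      linarith
    rw [← hLL, ← hQ]
    have e1 : ENNReal.ofReal ((1 + m * (s0 + 1)) * Real.exp Q) =
        ex Q + m * (s0 * ex Q + ex Q) := by
      unfold ex
      rw [add_mul, one_mul, ENNReal.ofReal_add (Real.exp_pos _).le (by positivity),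
        mul_assoc, ENNReal.ofReal_mul (by positivity), ENNReal.ofReal_natCast, add_mul, one_mul,
        ENNReal.ofReal_add (by positivity) (Real.exp_pos _).le,
        ENNReal.ofReal_mul (by positivity), ENNReal.ofReal_natCast]
    rw [e1]
    refine hsum.trans (add_le_add ?_ ?_)
    · exact hcc.trans (ex_le_ex.2 hcc2)
    · apply mul_le_mul_right
      refine add_le_add ?_ ?_
      · refine h2.trans ?_
        refine mul_le_mul' ?_ (ex_le_ex.2 hXQ')
        exact_mod_cast Nat.sub_le s0 1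
      · exact h6.trans (ex_le_ex.2 hXQ)
  linarith

end Pool.Agent.Vdw
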