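import Pool.Agent.Lib.MP_09cbbd_vw.Up
import Pool.Agent.Lib.MP_09cbbd_vw.Det

/-!
# Classes of configurations
-/

set_option autoImplicit false

namespace Pool.Agent.Vdw

open MeasureTheory Finset Filter Topology Pool.Agent.StableGas Pool.Agent.Kac
open Pool.Agent.SquareWell hiding Md cut

variable {d : ℕ} {E : Type} [MeasurableSpace E]

/-- The blocks in the dense phase. -/
def DD (P : Par) (M : Md d E) (V z : ℝ) (k : ℕ) (A : Finset (Zd d)) (ω : Zd d → E) :
    Zd d → Prop := Dq P z k A (den M V (lift k A) ω)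

/-- The blocks in the dilute phase. -/
def VC (P : Par) (M : Md d E) (V z : ℝ) (k : ℕ) (A : Finset (Zd d)) (ω : Zd d → E) :
    Zd d → Prop := Vq P z k A (den M V (lift k A) ω)

/-- A class of configurations in the blocks of `A`. The functional is at most `τ` per cell, `L` is
the union of the large contours, `Y` the dense region outside, `DL` and `OL` are the blocks of `L`
in the dense phase and in no phase, the small contours fill a fraction at most `c0`, and the layer
`κ` is good. -/
def Class (P : Par) (M : Md d E) (V z τ c0 c4 : ℝ) (k Mr : ℕ) (A : Finset (Zd d)) (s κ : ℕ)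
    (L Y DL OL : Finset (Zd d)) : Set (Zd d → E) :=
  {ω | Cut Mr A (DD P M V z k A ω) (VC P M V z k A ω) s L Y ∧
    (∀ i, i ∈ DL ↔ i ∈ L ∧ DD P M V z k A ω i) ∧
    (∀ i, i ∈ OL ↔ i ∈ L ∧ ¬ DD P M V z k A ω i ∧ ¬ VC P M V z k A ω i) ∧
    ((∑ G ∈ ((bad Mr A (DD P M V z k A ω) (VC P M V z k A ω)).image
      (comp (bad Mr A (DD P M V z k A ω) (VC P M V z k A ω)))).filter
        (fun G => (fill G).card < s), (fill G).card : ℕ) : ℝ) ≤ c0 * A.card ∧
    en P M.S (jj M V) (lift k A) (lift k A) (den M V (lift k A) ω) ≤ τ * (lift k A).card ∧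
    c4 * (k : ℝ) ^ d * L.card ≤
      QQ P M.S (jj M V) k (P.m0 + 2) κ A (den M V (lift k A) ω) L DL OL}

theorem measurableSet_Class (P : Par) (M : Md d E) (V z τ c0 c4 : ℝ) (k Mr : ℕ)
    (A : Finset (Zd d)) (s κ : ℕ) (L Y DL OL : Finset (Zd d)) :
    MeasurableSet (Class P M V z τ c0 c4 k Mr A s κ L Y DL OL) := by
  refine measurableSet_of_n M (lift k A) _ fun ω ω' h => ?_
  have hden : den M V (lift k A) ω = den M V (lift k A) ω' := by
    funext i
    unfold den
    by_cases hi : i ∈ lift k A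
    · rw [if_pos hi, if_pos hi, h i hi]
    · rw [if_neg hi, if_neg hi]
  have hD : DD P M V z k A ω = DD P M V z k A ω' := by
    unfold DD
    rw [hden]
  have hV : VC P M V z k A ω = VC P M V z k A ω' := by
    unfold VC
    rw [hden]
  unfold Class
  rw [Set.mem_ofPred_eq, Set.mem_ofPred_eq, hden, hD, hV]


end Pool.Agent.Vdw
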