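import Pool.Agent.Lib.MP_09cbbd_vw.Over

/-!
# Coercivity of the mean field functional on blocks
-/

set_option autoImplicit false

namespace Pool.Agent.Vdw

open Finset Pool.Agent.StableGas Pool.Agent.Kac
open Pool.Agent.SquareWell hiding Md cut

variable {d : ℕ}

namespace Coer

/-- A sum over an injective image of a function supported in `O`. -/
theorem sum_le_supp {α β : Type} [DecidableEq β] (Q : Finset α) (O : Finset β) (g : α → β)
    (hg : Function.Injective g) (f : β → ℝ) (h0 : ∀ b, 0 ≤ f b) (hf : ∀ b, b ∉ O → f b = 0) :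
    ∑ i ∈ Q, f (g i) ≤ ∑ i ∈ O, f i := by
  rw [← Finset.sum_image (s := Q) (g := g) (f := f) fun _ _ _ _ h => hg h]
  have h1 : ∑ b ∈ Q.image g, f b = ∑ b ∈ (Q.image g).filter (fun b => b ∈ O), f b := by
    rw [Finset.sum_filter]
    refine Finset.sum_congr rfl fun b _ => ?_
    split_ifs with h
    · rfl
    · exact hf b h
  rw [h1]
  refine Finset.sum_le_sum_of_subset_of_nonneg ?_ fun b _ _ => h0 b
  intro b hb
  exact (mem_filter.1 hb).2

/-- The terms of the functional at the distance `u`. -/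
theorem line_le {k : ℕ} {S : Finset (Zd d)} {P : Par} (hJ : ∀ v ∈ S, ∀ l, |v l| ≤ P.m0 * k)
    {A O Q : Finset (Zd d)} {x : Zd d → ℝ}
    (hx : ∀ i, i ∉ lift k A → x i = 0) {p : Zd d} (hk : 1 ≤ k)
    (hO : ∀ q ∈ ball (P.m0 + 1) p, q ∈ A → blk k q ⊆ O)
    (hQ : ∀ i ∈ Q, ∃ q, near 1 p q ∧ i ∈ blk k q) {u : Zd d} (hu : u ∈ S) :
    ∑ i ∈ Q, (x i - x (i + u)) ^ 2 ≤
      ∑ i ∈ O.filter (fun i => i + u ∈ O), (x i - x (i + u)) ^ 2 +
      ∑ i ∈ O.filter (fun i => i + u ∉ lift k A), x i ^ 2 +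
      ∑ i ∈ O.filter (fun i => i + -u ∉ lift k A), x i ^ 2 := by
  classical
  rw [Finset.sum_filter, Finset.sum_filter, Finset.sum_filter]
  set f1 : Zd d → ℝ := fun i => if i ∈ O ∧ i + u ∈ O then (x i - x (i + u)) ^ 2 else 0 with hf1
  set f2 : Zd d → ℝ := fun i => if i ∈ O ∧ i + u ∉ lift k A then x i ^ 2 else 0 with hf2
  set f3 : Zd d → ℝ := fun i => if i ∈ O ∧ i + -u ∉ lift k A then x i ^ 2 else 0 with hf3
  have a1 : ∑ i ∈ Q, f1 i ≤ ∑ i ∈ O, f1 i :=
    sum_le_supp Q O id Function.injective_id f1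
      (fun b => by rw [hf1]; simp only; split_ifs <;> positivity)
      (fun b hb => by rw [hf1]; simp only; rw [if_neg fun h => hb h.1])
  have a2 : ∑ i ∈ Q, f2 i ≤ ∑ i ∈ O, f2 i :=
    sum_le_supp Q O id Function.injective_id f2
      (fun b => by rw [hf2]; simp only; split_ifs <;> positivity)
      (fun b hb => by rw [hf2]; simp only; rw [if_neg fun h => hb h.1])
  have a3 : ∑ i ∈ Q, f3 (i + u) ≤ ∑ i ∈ O, f3 i :=
    sum_le_supp Q O (fun i => i + u) (add_left_injective u) f3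
      (fun b => by rw [hf3]; simp only; split_ifs <;> positivity)
      (fun b hb => by rw [hf3]; simp only; rw [if_neg fun h => hb h.1])
  have b1 : ∑ i ∈ O, f1 i = ∑ i ∈ O, (if i + u ∈ O then (x i - x (i + u)) ^ 2 else 0) :=
    Finset.sum_congr rfl fun i hi => by rw [hf1]; simp only [hi, true_and]
  have b2 : ∑ i ∈ O, f2 i = ∑ i ∈ O, (if i + u ∉ lift k A then x i ^ 2 else 0) :=
    Finset.sum_congr rfl fun i hi => by rw [hf2]; simp only [hi, true_and]
  have b3 : ∑ i ∈ O, f3 i = ∑ i ∈ O, (if i + -u ∉ lift k A then x i ^ 2 else 0) :=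
    Finset.sum_congr rfl fun i hi => by rw [hf3]; simp only [hi, true_and]
  rw [← b1, ← b2, ← b3]
  refine le_trans ?_ (add_le_add (add_le_add a1 a2) a3)
  rw [← Finset.sum_add_distrib, ← Finset.sum_add_distrib]
  refine Finset.sum_le_sum fun i hi => ?_
  obtain ⟨q, hpq, hiq⟩ := hQ i hi
  obtain ⟨q', hq'⟩ := exists_blk hk (i + u)
  have hqq' : near P.m0 q q' := near_blk hiq hq' fun l => by
    have : (i + u) l - i l = u l := by simp
    rw [this]
    exact hJ u hu l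
  have hq1 : q ∈ ball (P.m0 + 1) p := by
    rw [mem_ball]
    intro l
    have := hpq l
    push_cast at this ⊢
    omega
  have hq2 : q' ∈ ball (P.m0 + 1) p := by
    rw [mem_ball]
    intro l
    have h1 := abs_le.1 (hpq l)
    have h2 := abs_le.1 (hqq' l)
    push_cast at h1 h2 ⊢
    rw [abs_le]
    omega
  have c1 : i ∈ lift k A → i ∈ O := fun h => hO q hq1 ((mem_lift_iff hiq).1 h) hiq
  have c2 : i + u ∈ lift k A → i + u ∈ O := fun h => hO q' hq2 ((mem_lift_iff hq').1 h) hq'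
  have e1 : i + u + -u = i := by rw [add_neg_cancel_right]
  rw [hf1, hf2, hf3]
  simp only [e1]
  by_cases h1 : i ∈ lift k A
  · have h1' := c1 h1
    by_cases h2 : i + u ∈ lift k A
    · have h2' := c2 h2
      rw [if_pos ⟨h1', h2'⟩, if_neg fun h => h.2 h2, if_neg fun h => h.2 h1]
      simp
    · rw [if_pos (⟨h1', h2⟩ : i ∈ O ∧ i + u ∉ lift k A), hx _ h2]
      have : 0 ≤ (if i ∈ O ∧ i + u ∈ O then (x i - 0) ^ 2 else 0) := by
        split_ifs <;> positivity
      have h3 : 0 ≤ (if i + u ∈ O ∧ i ∉ lift k A then (0 : ℝ) ^ 2 else 0) := by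
        split_ifs <;> simp
      linarith [sq_nonneg (x i), sub_zero (x i), this, h3,
        (show (x i - 0) ^ 2 = x i ^ 2 by rw [sub_zero])]
  · rw [hx _ h1]
    by_cases h2 : i + u ∈ lift k A
    · have h2' := c2 h2
      rw [if_pos (⟨h2', h1⟩ : i + u ∈ O ∧ i ∉ lift k A)]
      have : 0 ≤ (if i ∈ O ∧ i + u ∈ O then (0 - x (i + u)) ^ 2 else 0) := by
        split_ifs <;> positivity
      have h3 : 0 ≤ (if i ∈ O ∧ i + u ∉ lift k A then (0 : ℝ) ^ 2 else 0) := by
        split_ifs <;> simp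
      linarith [(show (0 - x (i + u)) ^ 2 = x (i + u) ^ 2 by ring)]
    · rw [hx _ h2]
      simp

theorem q_nonneg (P : Par) (x : ℝ) : 0 ≤ P.q x := le_min (sq_nonneg _) (sq_nonneg _)

/-- The gradients near the block `p`. -/
theorem grad_le {P : Par} (hP : P.Ok) {k : ℕ} {S : Finset (Zd d)} {j : Zd d → ℝ}
    (hJ : Jok P k S j) {A O Q : Finset (Zd d)} {x : Zd d → ℝ}
    (hx : ∀ i, i ∉ lift k A → x i = 0) {p : Zd d}
    (hO : ∀ q ∈ ball (P.m0 + 1) p, q ∈ A → blk k q ⊆ O)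
    (hQ : ∀ i ∈ Q, ∃ q, near 1 p q ∧ i ∈ blk k q) :
    ∑ i ∈ Q, ∑ u ∈ S, j u * (x i - x (i + u)) ^ 2 ≤ 4 * en P S j (lift k A) O x := by
  classical
  set B1 : Zd d → ℝ := fun u => ∑ i ∈ O.filter (fun i => i + u ∈ O), (x i - x (i + u)) ^ 2 with hB1
  set B2 : Zd d → ℝ := fun u => ∑ i ∈ O.filter (fun i => i + u ∉ lift k A), x i ^ 2 with hB2
  have h1 : ∑ i ∈ Q, ∑ u ∈ S, j u * (x i - x (i + u)) ^ 2 ≤
      ∑ u ∈ S, j u * (B1 u + B2 u + B2 (-u)) := by
    rw [Finset.sum_comm]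
    refine Finset.sum_le_sum fun u hu => ?_
    rw [← Finset.mul_sum]
    exact mul_le_mul_of_nonneg_left (line_le hJ.S_r hx hJ.k_pos hO hQ hu) (hJ.nonneg u)
  have h2 : ∑ u ∈ S, j u * B2 (-u) = ∑ u ∈ S, j u * B2 u := by
    refine Finset.sum_nbij' (fun u => -u) (fun u => -u) (fun u hu => hJ.S_neg u hu)
      (fun u hu => hJ.S_neg u hu) (fun u _ => neg_neg u) (fun u _ => neg_neg u) ?_
    intro u _
    rw [hJ.neg]
  have h3 : ∑ u ∈ S, j u * (B1 u + B2 u + B2 (-u)) = ∑ u ∈ S, j u * (B1 u + 2 * B2 u) := by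
    have e1 : ∀ u, j u * (B1 u + B2 u + B2 (-u)) = j u * (B1 u + B2 u) + j u * B2 (-u) :=
      fun u => by ring
    have e2 : ∀ u, j u * (B1 u + 2 * B2 u) = j u * (B1 u + B2 u) + j u * B2 u :=
      fun u => by ring
    simp only [e1, e2]
    rw [Finset.sum_add_distrib, Finset.sum_add_distrib, h2]
  rw [h3] at h1
  refine h1.trans ?_
  have h4 : 0 ≤ ∑ i ∈ O, P.q (x i) := Finset.sum_nonneg fun i _ => q_nonneg P _
  have h5 : en P S j (lift k A) O x = P.c * ∑ i ∈ O, P.q (x i) +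
      1 / 4 * ∑ u ∈ S, j u * (B1 u + 2 * B2 u) := by
    unfold en
    rw [hB1, hB2]
  rw [h5]
  have := hP.c_pos
  nlinarith [mul_nonneg hP.c_pos.le h4]

/-- The potential term. -/
theorem pot_le {P : Par} {k : ℕ} {S : Finset (Zd d)} {j : Zd d → ℝ}
    (hJ : Jok P k S j) (A O : Finset (Zd d)) (x : Zd d → ℝ) :
    P.c * ∑ i ∈ O, P.q (x i) ≤ en P S j (lift k A) O x := by
  classical
  unfold en
  refine le_add_of_nonneg_right (mul_nonneg (by norm_num) (Finset.sum_nonneg fun u _ =>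
    mul_nonneg (hJ.nonneg u) (add_nonneg (Finset.sum_nonneg fun i _ => sq_nonneg _)
      (mul_nonneg (by norm_num) (Finset.sum_nonneg fun i _ => sq_nonneg _)))))

/-- The first half of the chaining. -/
theorem half_le {P : Par} {k : ℕ} {S : Finset (Zd d)} {j : Zd d → ℝ}
    (hJ : Jok P k S j) (Q : Finset (Zd d)) (x : Zd d → ℝ) :
    ∑ i ∈ Q, ∑ l ∈ Q, ∑ u ∈ S.filter (fun u => l - i - u ∈ S),
      j u * j (l - i - u) * (x i - x (i + u)) ^ 2 ≤
      P.T * ∑ i ∈ Q, ∑ u ∈ S, j u * (x i - x (i + u)) ^ 2 := by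
  classical
  rw [Finset.mul_sum]
  refine Finset.sum_le_sum fun i _ => ?_
  have h1 : ∀ l ∈ Q, ∑ u ∈ S.filter (fun u => l - i - u ∈ S),
      j u * j (l - i - u) * (x i - x (i + u)) ^ 2 =
      ∑ u ∈ S, j u * (x i - x (i + u)) ^ 2 * (if l - i - u ∈ S then j (l - i - u) else 0) := by
    intro l _
    rw [Finset.sum_filter]
    refine Finset.sum_congr rfl fun u _ => ?_
    split_ifs <;> ring
  rw [Finset.sum_congr rfl h1, Finset.sum_comm, Finset.mul_sum]
  refine Finset.sum_le_sum fun u _ => ?_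
  rw [← Finset.mul_sum, mul_comm]
  refine mul_le_mul_of_nonneg_right ?_ (mul_nonneg (hJ.nonneg u) (sq_nonneg _))
  refine le_trans (sum_le_supp Q S (fun l => l - i - u) ?_ (fun v => if v ∈ S then j v else 0)
    (fun v => by split_ifs; exacts [hJ.nonneg v, le_rfl]) (fun v hv => if_neg hv)) ?_
  · intro a b hab
    simpa using hab
  · refine le_trans (le_of_eq (Finset.sum_congr rfl fun v hv => if_pos hv)) hJ.tot_le

/-- All pairs at small distance. -/
theorem pairs_le {P : Par} {k : ℕ} {S : Finset (Zd d)} {j : Zd d → ℝ}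
    (hJ : Jok P k S j) (Q : Finset (Zd d)) (hQ : ∀ i ∈ Q, ∀ l ∈ Q, ∀ c, |l c - i c| ≤ 2 * (k : ℤ))
    (x : Zd d → ℝ) :
    P.θ * ∑ i ∈ Q, ∑ l ∈ Q, (x i - x l) ^ 2 ≤
      4 * P.T * (k : ℝ) ^ d * ∑ i ∈ Q, ∑ u ∈ S, j u * (x i - x (i + u)) ^ 2 := by
  classical
  have h1 : P.θ * ∑ i ∈ Q, ∑ l ∈ Q, (x i - x l) ^ 2 ≤
      ∑ i ∈ Q, ∑ l ∈ Q, (k : ℝ) ^ d * ∑ u ∈ S.filter (fun u => l - i - u ∈ S),
        (2 * (j u * j (l - i - u) * (x i - x (i + u)) ^ 2) +
        2 * (j u * j (l - i - u) * (x (i + u) - x l) ^ 2)) := by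
    rw [Finset.mul_sum]
    refine Finset.sum_le_sum fun i hi => ?_
    rw [Finset.mul_sum]
    refine Finset.sum_le_sum fun l hl => ?_
    have h2 := hJ.coer (l - i) (fun c => hQ i hi l hl c)
    refine (mul_le_mul_of_nonneg_right h2 (sq_nonneg _)).trans ?_
    rw [mul_assoc, Finset.sum_mul]
    refine mul_le_mul_of_nonneg_left (Finset.sum_le_sum fun u _ => ?_) (by positivity)
    have h3 : 0 ≤ j u * j (l - i - u) := mul_nonneg (hJ.nonneg _) (hJ.nonneg _)
    have h4 : (x i - x l) ^ 2 ≤ 2 * (x i - x (i + u)) ^ 2 + 2 * (x (i + u) - x l) ^ 2 := by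
      nlinarith [sq_nonneg ((x i - x (i + u)) - (x (i + u) - x l))]
    nlinarith [mul_le_mul_of_nonneg_left h4 h3]
  refine h1.trans ?_
  have hA := half_le hJ Q x
  have hB : ∑ i ∈ Q, ∑ l ∈ Q, ∑ u ∈ S.filter (fun u => l - i - u ∈ S),
      j u * j (l - i - u) * (x (i + u) - x l) ^ 2 =
      ∑ i ∈ Q, ∑ l ∈ Q, ∑ u ∈ S.filter (fun u => l - i - u ∈ S),
      j u * j (l - i - u) * (x i - x (i + u)) ^ 2 := by
    rw [Finset.sum_comm]
    refine Finset.sum_congr rfl fun l _ => Finset.sum_congr rfl fun i _ => ?_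
    refine Finset.sum_nbij' (fun u => i + u - l) (fun u => l + u - i) ?_ ?_ ?_ ?_ ?_
    · intro u hu
      rw [mem_filter] at hu ⊢
      have e1 : i + u - l = -(l - i - u) := by abel
      have e2 : i - l - (i + u - l) = -u := by abel
      rw [e2]
      refine ⟨?_, hJ.S_neg u hu.1⟩
      rw [e1]
      exact hJ.S_neg _ hu.2
    · intro u hu
      rw [mem_filter] at hu ⊢
      have e1 : l + u - i = -(i - l - u) := by abel
      have e2 : l - i - (l + u - i) = -u := by abel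
      rw [e2]
      refine ⟨?_, hJ.S_neg u hu.1⟩
      rw [e1]
      exact hJ.S_neg _ hu.2
    · intro u _
      abel
    · intro u _
      abel
    · intro u _
      have e1 : i + u - l = -(l - i - u) := by abel
      have e2 : i - l - (i + u - l) = -u := by abel
      have e3 : l + (i + u - l) = i + u := by abel
      rw [e2, e3, e1, hJ.neg, hJ.neg]
      ring
  have hC : ∑ i ∈ Q, ∑ l ∈ Q, (k : ℝ) ^ d * ∑ u ∈ S.filter (fun u => l - i - u ∈ S),
        (2 * (j u * j (l - i - u) * (x i - x (i + u)) ^ 2) +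
        2 * (j u * j (l - i - u) * (x (i + u) - x l) ^ 2)) =
      (k : ℝ) ^ d * (2 * (∑ i ∈ Q, ∑ l ∈ Q, ∑ u ∈ S.filter (fun u => l - i - u ∈ S),
        j u * j (l - i - u) * (x i - x (i + u)) ^ 2) +
        2 * (∑ i ∈ Q, ∑ l ∈ Q, ∑ u ∈ S.filter (fun u => l - i - u ∈ S),
        j u * j (l - i - u) * (x (i + u) - x l) ^ 2)) := by
    simp only [Finset.mul_sum, Finset.sum_add_distrib, mul_add]
  rw [hC, hB]
  have hk : (0 : ℝ) ≤ (k : ℝ) ^ d := by positivity
  nlinarith [mul_le_mul_of_nonneg_left hA hk]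

/-- The constant of the estimate of the number of the pairs in different phases. -/
noncomputable def C0 (P : Par) : ℝ := 64 * P.T / P.θ + 16 / P.c

/-- Pairs in different phases. -/
theorem fg_le {P : Par} (hP : P.Ok) {k : ℕ} {S : Finset (Zd d)} {j : Zd d → ℝ}
    (hJ : Jok P k S j) {A O Q : Finset (Zd d)} {x : Zd d → ℝ}
    (hx : ∀ i, i ∉ lift k A → x i = 0) {p : Zd d}
    (hO : ∀ q ∈ ball (P.m0 + 1) p, q ∈ A → blk k q ⊆ O)
    (hQ : ∀ i ∈ Q, ∃ q, near 1 p q ∧ i ∈ blk k q)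
    (hQ2 : ∀ i ∈ Q, ∀ l ∈ Q, ∀ c, |l c - i c| ≤ 2 * (k : ℤ)) (hQc : Q.card ≤ 2 * k ^ d)
    {F G : Finset (Zd d)} (hF : F ⊆ Q) (hG : G ⊆ Q) (hF2 : ∀ i ∈ F, x i < (P.xa + P.xb) / 2)
    (hG2 : ∀ i ∈ G, (P.xa + P.xb) / 2 ≤ x i) :
    (P.xb - P.xa) ^ 2 * ((F.card : ℝ) * G.card) ≤
      C0 P * (k : ℝ) ^ d * en P S j (lift k A) O x := by
  classical
  have ha := hP.xa_nonneg
  have hab := hP.xa_lt
  set E := en P S j (lift k A) O x with hE
  have hgrad := grad_le hP hJ hx hO hQ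
  have hpairs := pairs_le hJ Q hQ2 x
  have hpot := pot_le hJ A O x
  set qt : Zd d → ℝ := fun i => if i ∈ lift k A then P.q (x i) else 0 with hqt
  have hqt0 : ∀ i, 0 ≤ qt i := fun i => by
    rw [hqt]; simp only; split_ifs; exacts [q_nonneg P _, le_rfl]
  -- the sum of the potentials over `Q`
  have hsumq : ∑ i ∈ Q, qt i ≤ ∑ i ∈ O, P.q (x i) := by
    have h1 : ∀ i ∈ Q, qt i = if i ∈ O then (if i ∈ lift k A then P.q (x i) else 0) else 0 := by
      intro i hi
      rw [hqt]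
      simp only
      by_cases h : i ∈ lift k A
      · obtain ⟨q, hq, hiq⟩ := hQ i hi
        have hq1 : q ∈ ball (P.m0 + 1) p := by
          rw [mem_ball]
          intro l
          have := hq l
          push_cast at this ⊢
          omega
        rw [if_pos h, if_pos (hO q hq1 ((mem_lift_iff hiq).1 h) hiq)]
      · rw [if_neg h]
        simp
    rw [Finset.sum_congr rfl h1]
    refine (sum_le_supp Q O id Function.injective_id
      (fun i => if i ∈ O then (if i ∈ lift k A then P.q (x i) else 0) else 0) ?_ ?_).trans ?_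
    · intro i
      split_ifs
      exacts [q_nonneg P _, le_rfl, le_rfl]
    · intro i hi
      rw [if_neg hi]
    · refine Finset.sum_le_sum fun i hi => ?_
      rw [if_pos hi]
      split_ifs
      exacts [le_rfl, q_nonneg P _]
  have hpt : ∀ i ∈ F, ∀ l ∈ G, (P.xb - P.xa) ^ 2 ≤ 4 * ((x i - x l) ^ 2 + qt i + qt l) := by
    intro i hi l hl
    have h1 := hF2 i hi
    have h2 := hG2 l hl
    have hl : l ∈ lift k A := by
      by_contra h
      rw [hx l h] at h2
      linarith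
    have hql : qt l = (x l - P.xb) ^ 2 := by
      rw [hqt]
      simp only
      rw [if_pos hl]
      unfold Par.q
      refine min_eq_right ?_
      nlinarith
    rw [hql]
    by_cases h : i ∈ lift k A
    · have hqi : qt i = (x i - P.xa) ^ 2 := by
        rw [hqt]
        simp only
        rw [if_pos h]
        unfold Par.q
        refine min_eq_left ?_
        nlinarith
      rw [hqi]
      nlinarith [sq_nonneg ((P.xb - x l) - (x l - x i)), sq_nonneg ((P.xb - x l) - (x i - P.xa)),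
        sq_nonneg ((x l - x i) - (x i - P.xa)), sq_nonneg (x l - x i), sq_nonneg (x i - P.xa),
        sq_nonneg (x l - P.xb)]
    · have hqi : qt i = 0 := by
        rw [hqt]
        simp only
        rw [if_neg h]
      rw [hqi, hx i h]
      have h3 : (P.xb - P.xa) ^ 2 ≤ P.xb ^ 2 := by nlinarith
      nlinarith [sq_nonneg ((P.xb - x l) - x l), sq_nonneg (x l), sq_nonneg (x l - P.xb)]
  have hsum : (P.xb - P.xa) ^ 2 * ((F.card : ℝ) * G.card) ≤
      ∑ i ∈ F, ∑ l ∈ G, 4 * ((x i - x l) ^ 2 + qt i + qt l) := by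
    have h1 : (P.xb - P.xa) ^ 2 * ((F.card : ℝ) * G.card) =
        ∑ _i ∈ F, ∑ _l ∈ G, (P.xb - P.xa) ^ 2 := by
      rw [Finset.sum_const, Finset.sum_const, nsmul_eq_mul, nsmul_eq_mul]
      ring
    rw [h1]
    exact Finset.sum_le_sum fun i hi => Finset.sum_le_sum fun l hl => hpt i hi l hl
  have hbig : ∑ i ∈ F, ∑ l ∈ G, 4 * ((x i - x l) ^ 2 + qt i + qt l) ≤
      4 * (∑ i ∈ Q, ∑ l ∈ Q, (x i - x l) ^ 2) + 8 * (Q.card * ∑ i ∈ Q, qt i) := by
    have h1 : ∑ i ∈ F, ∑ l ∈ G, 4 * ((x i - x l) ^ 2 + qt i + qt l) ≤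
        ∑ i ∈ Q, ∑ l ∈ Q, 4 * ((x i - x l) ^ 2 + qt i + qt l) := by
      have h0 : ∀ i l, 0 ≤ 4 * ((x i - x l) ^ 2 + qt i + qt l) := fun i l => by
        have := hqt0 i
        have := hqt0 l
        positivity
      refine (Finset.sum_le_sum_of_subset_of_nonneg hF fun i _ _ =>
        Finset.sum_nonneg fun l _ => h0 i l).trans (Finset.sum_le_sum fun i _ => ?_)
      exact Finset.sum_le_sum_of_subset_of_nonneg hG fun l _ _ => h0 i l
    refine h1.trans (le_of_eq ?_)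
    have h2 : ∀ i l, 4 * ((x i - x l) ^ 2 + qt i + qt l) = 4 * (x i - x l) ^ 2 + 4 * qt i +
        4 * qt l := fun i l => by ring
    simp only [h2, Finset.sum_add_distrib, ← Finset.mul_sum, Finset.sum_const, nsmul_eq_mul]
    ring
  have hQc' : (Q.card : ℝ) ≤ 2 * (k : ℝ) ^ d := by exact_mod_cast hQc
  have hq0 : 0 ≤ ∑ i ∈ Q, qt i := Finset.sum_nonneg fun i _ => hqt0 i
  have hk : (0 : ℝ) ≤ (k : ℝ) ^ d := by positivity
  have hE1 : ∑ i ∈ Q, qt i ≤ E / P.c := by
    rw [le_div_iff₀ hP.c_pos]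
    nlinarith [hP.c_pos]
  have hE2 : ∑ i ∈ Q, ∑ l ∈ Q, (x i - x l) ^ 2 ≤ 16 * P.T * (k : ℝ) ^ d * E / P.θ := by
    rw [le_div_iff₀ hP.θ_pos]
    have h1 : 4 * P.T * (k : ℝ) ^ d * ∑ i ∈ Q, ∑ u ∈ S, j u * (x i - x (i + u)) ^ 2 ≤
        4 * P.T * (k : ℝ) ^ d * (4 * E) :=
      mul_le_mul_of_nonneg_left hgrad (by have := hP.T_pos; positivity)
    nlinarith
  have hfin : (Q.card : ℝ) * ∑ i ∈ Q, qt i ≤ 2 * (k : ℝ) ^ d * (E / P.c) :=
    mul_le_mul hQc' hE1 hq0 (by positivity)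
  calc (P.xb - P.xa) ^ 2 * ((F.card : ℝ) * G.card) ≤
      4 * (16 * P.T * (k : ℝ) ^ d * E / P.θ) + 8 * (2 * (k : ℝ) ^ d * (E / P.c)) := by
        linarith [hsum.trans hbig]
    _ = C0 P * (k : ℝ) ^ d * E := by
        unfold C0
        have := hP.c_pos
        have := hP.θ_pos
        field_simp
        ring

theorem C0_pos {P : Par} (hP : P.Ok) : 0 < C0 P := by
  have := hP.c_pos
  have := hP.θ_pos
  have := hP.T_pos
  unfold C0
  positivity

theorem near_self (p : Zd d) (m : ℕ) : near m p p := by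
  intro l
  simp

theorem near_comm {m : ℕ} {p q : Zd d} (h : near m p q) : near m q p := by
  intro l
  rw [abs_sub_comm]
  exact h l

open Classical in
/-- The cells of the block with low density. -/
noncomputable def lowc (P : Par) (k : ℕ) (x : Zd d → ℝ) (p : Zd d) : Finset (Zd d) :=
  (blk k p).filter fun i => x i < (P.xa + P.xb) / 2

open Classical in
/-- The cells of the block with high density. -/
noncomputable def highc (P : Par) (k : ℕ) (x : Zd d → ℝ) (p : Zd d) : Finset (Zd d) :=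
  (blk k p).filter fun i => ¬ x i < (P.xa + P.xb) / 2

theorem card_add (P : Par) (k : ℕ) (x : Zd d → ℝ) (p : Zd d) :
    ((lowc P k x p).card : ℝ) + (highc P k x p).card = (k : ℝ) ^ d := by
  classical
  unfold lowc highc
  rw [← Nat.cast_add, Finset.card_filter_add_card_filter_not, card_blk, Nat.cast_pow]

theorem low_small {P : Par} (hP : P.Ok) {z : ℝ} (hz2 : 16 * z ≤ (P.xb - P.xa) ^ 2) {k : ℕ}
    {x : Zd d → ℝ} {p : Zd d} (h : ∑ i ∈ blk k p, (x i - P.xb) ^ 2 ≤ z * (k : ℝ) ^ d) :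
    ((lowc P k x p).card : ℝ) ≤ (k : ℝ) ^ d / 4 := by
  classical
  have hab := hP.xa_lt
  have hD : 0 < (P.xb - P.xa) ^ 2 := by have := sub_pos.2 hab; positivity
  have hk : (0 : ℝ) ≤ (k : ℝ) ^ d := by positivity
  have h1 : ((lowc P k x p).card : ℝ) * ((P.xb - P.xa) ^ 2 / 4) ≤
      ∑ i ∈ blk k p, (x i - P.xb) ^ 2 := by
    rw [← nsmul_eq_mul, ← Finset.sum_const]
    refine le_trans (Finset.sum_le_sum fun i hi => ?_)
      (Finset.sum_le_sum_of_subset_of_nonneg (Finset.filter_subset _ _) fun i _ _ => sq_nonneg _)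
    have h2 := (mem_filter.1 hi).2
    nlinarith
  have h3 : ((lowc P k x p).card : ℝ) * ((P.xb - P.xa) ^ 2 / 4) ≤
      (k : ℝ) ^ d / 4 * ((P.xb - P.xa) ^ 2 / 4) := by nlinarith
  exact le_of_mul_le_mul_right h3 (by positivity)

theorem high_small {P : Par} (hP : P.Ok) {z : ℝ} (hz2 : 16 * z ≤ (P.xb - P.xa) ^ 2) {k : ℕ}
    {x : Zd d → ℝ} {p : Zd d} (h : ∑ i ∈ blk k p, (x i - P.xa) ^ 2 ≤ z * (k : ℝ) ^ d) :
    ((highc P k x p).card : ℝ) ≤ (k : ℝ) ^ d / 4 := by
  classical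
  have hab := hP.xa_lt
  have hD : 0 < (P.xb - P.xa) ^ 2 := by have := sub_pos.2 hab; positivity
  have hk : (0 : ℝ) ≤ (k : ℝ) ^ d := by positivity
  have h1 : ((highc P k x p).card : ℝ) * ((P.xb - P.xa) ^ 2 / 4) ≤
      ∑ i ∈ blk k p, (x i - P.xa) ^ 2 := by
    rw [← nsmul_eq_mul, ← Finset.sum_const]
    refine le_trans (Finset.sum_le_sum fun i hi => ?_)
      (Finset.sum_le_sum_of_subset_of_nonneg (Finset.filter_subset _ _) fun i _ _ => sq_nonneg _)
    have h2 := not_lt.1 (mem_filter.1 hi).2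
    nlinarith
  have h3 : ((highc P k x p).card : ℝ) * ((P.xb - P.xa) ^ 2 / 4) ≤
      (k : ℝ) ^ d / 4 * ((P.xb - P.xa) ^ 2 / 4) := by nlinarith
  exact le_of_mul_le_mul_right h3 (by positivity)

/-- The deviation from the dense phase. -/
theorem sum_b_le {P : Par} (hP : P.Ok) {k : ℕ} {x : Zd d → ℝ} (h0 : ∀ i, 0 ≤ x i)
    (hR : ∀ i, x i ≤ P.R) (p : Zd d) : ∑ i ∈ blk k p, (x i - P.xb) ^ 2 ≤
      ∑ i ∈ blk k p, P.q (x i) + P.R ^ 2 * (lowc P k x p).card := by
  classical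
  have ha := hP.xa_nonneg
  have hab := hP.xa_lt
  have hb := hP.xb_le
  have h1 : P.R ^ 2 * ((lowc P k x p).card : ℝ) =
      ∑ i ∈ blk k p, if x i < (P.xa + P.xb) / 2 then P.R ^ 2 else 0 := by
    rw [← Finset.sum_filter, Finset.sum_const, nsmul_eq_mul, mul_comm]
    rfl
  rw [h1, ← Finset.sum_add_distrib]
  refine Finset.sum_le_sum fun i _ => ?_
  have h2 := h0 i
  have h3 := hR i
  split_ifs with h
  · have := q_nonneg P (x i)
    nlinarith
  · have e : P.q (x i) = (x i - P.xb) ^ 2 := by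
      unfold Par.q
      refine min_eq_right ?_
      nlinarith
    rw [e, add_zero]

/-- The deviation from the dilute phase. -/
theorem sum_a_le {P : Par} (hP : P.Ok) {k : ℕ} {x : Zd d → ℝ} (h0 : ∀ i, 0 ≤ x i)
    (hR : ∀ i, x i ≤ P.R) (p : Zd d) : ∑ i ∈ blk k p, (x i - P.xa) ^ 2 ≤
      ∑ i ∈ blk k p, P.q (x i) + P.R ^ 2 * (highc P k x p).card := by
  classical
  have ha := hP.xa_nonneg
  have hab := hP.xa_lt
  have hb := hP.xb_le
  have h1 : P.R ^ 2 * ((highc P k x p).card : ℝ) =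
      ∑ i ∈ blk k p, if ¬ x i < (P.xa + P.xb) / 2 then P.R ^ 2 else 0 := by
    rw [← Finset.sum_filter, Finset.sum_const, nsmul_eq_mul, mul_comm]
    rfl
  rw [h1, ← Finset.sum_add_distrib]
  refine Finset.sum_le_sum fun i _ => ?_
  have h2 := h0 i
  have h3 := hR i
  split_ifs with h
  · have e : P.q (x i) = (x i - P.xa) ^ 2 := by
      unfold Par.q
      refine min_eq_left ?_
      nlinarith
    rw [e, add_zero]
  · have := q_nonneg P (x i)
    nlinarith

end Coer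

open Coer in
/-- The functional controls the distance to the phases. -/
theorem coer {P : Par} (hP : P.Ok) {z : ℝ} (hz : 0 < z) (hz2 : 16 * z ≤ (P.xb - P.xa) ^ 2) :
    ∃ C1 c2 : ℝ, 0 < C1 ∧ 0 < c2 ∧ ∀ (k : ℕ) (S : Finset (Zd d)) (j : Zd d → ℝ), Jok P k S j →
      ∀ (A : Finset (Zd d)) (x : Zd d → ℝ), (∀ i, 0 ≤ x i) → (∀ i, x i ≤ P.R) →
      (∀ i, i ∉ lift k A → x i = 0) → ∀ O : Finset (Zd d), O ⊆ lift k A → ∀ p : Zd d,
      (∀ q ∈ ball (P.m0 + 1) p, q ∈ A → blk k q ⊆ O) →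
      (p ∈ A → ¬ Dq P z k A x p → ¬ Vq P z k A x p → c2 * k ^ d ≤ en P S j (lift k A) O x) ∧
      (∀ q ∈ ball 1 p, Dq P z k A x p → Vq P z k A x q →
        c2 * k ^ d ≤ en P S j (lift k A) O x) ∧
      (Dq P z k A x p → ∑ i ∈ blk k p, (x i - P.xb) ^ 2 ≤ C1 * en P S j (lift k A) O x) ∧
      (p ∈ A → Vq P z k A x p →
        ∑ i ∈ blk k p, (x i - P.xa) ^ 2 ≤ C1 * en P S j (lift k A) O x) := by
  classical
  have ha := hP.xa_nonneg
  have hab := hP.xa_lt
  have hc := hP.c_pos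
  have hD : 0 < (P.xb - P.xa) ^ 2 := by have := sub_pos.2 hab; positivity
  have hC0 := C0_pos hP
  set D := (P.xb - P.xa) ^ 2 with hDdef
  set C' : ℝ := 2 * C0 P / D with hC'
  have hC'0 : 0 < C' := by positivity
  have hC1 : 0 < 1 / P.c + P.R ^ 2 * C' := by positivity
  refine ⟨1 / P.c + P.R ^ 2 * C', min (z / (1 / P.c + P.R ^ 2 * C')) (9 / 16 * D / C0 P), hC1,
    lt_min (by positivity) (by positivity), ?_⟩
  intro k S j hJ A x hx0 hxR hx O hOA p hO
  set E := en P S j (lift k A) O x with hE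
  have hkd : (0 : ℝ) < (k : ℝ) ^ d := by
    have : (0 : ℝ) < k := by exact_mod_cast hJ.k_pos
    positivity
  have hpot := pot_le hJ A O x
  rw [← hE] at hpot
  have hE0 : 0 ≤ E := le_trans (mul_nonneg hc.le (Finset.sum_nonneg fun i _ => q_nonneg P _)) hpot
  -- one block
  have hbase : D * (((lowc P k x p).card : ℝ) * (highc P k x p).card) ≤
      C0 P * (k : ℝ) ^ d * E := by
    refine fg_le hP hJ hx hO (Q := blk k p) (fun i hi => ⟨p, near_self p 1, hi⟩)
      (fun i hi l hl c => dist_blk hi hl (near_self p 1) c) ?_ (Finset.filter_subset _ _)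
      (Finset.filter_subset _ _) (fun i hi => (mem_filter.1 hi).2)
      (fun i hi => not_lt.1 (mem_filter.1 hi).2)
    rw [card_blk]
    omega
  have hcard := card_add P k x p
  have hsumq : p ∈ A → ∑ i ∈ blk k p, P.q (x i) ≤ 1 / P.c * E := by
    intro hpA
    have hpb : p ∈ ball (P.m0 + 1) p := mem_ball.2 (near_self p _)
    have h1 : ∑ i ∈ blk k p, P.q (x i) ≤ ∑ i ∈ O, P.q (x i) :=
      Finset.sum_le_sum_of_subset_of_nonneg (hO p hpb hpA) fun i _ _ => q_nonneg P _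
    rw [div_mul_eq_mul_div, one_mul, le_div_iff₀ hc]
    nlinarith
  have hlow : (k : ℝ) ^ d / 2 ≤ (highc P k x p).card →
      ((lowc P k x p).card : ℝ) ≤ C' * E := by
    intro h
    rw [hC', div_mul_eq_mul_div, le_div_iff₀ hD]
    have h1 : ((lowc P k x p).card : ℝ) * ((k : ℝ) ^ d / 2) ≤
      ((lowc P k x p).card : ℝ) * (highc P k x p).card :=
      mul_le_mul_of_nonneg_left h (Nat.cast_nonneg _)
    have h2 : D * (((lowc P k x p).card : ℝ) * ((k : ℝ) ^ d / 2)) ≤ C0 P * (k : ℝ) ^ d * E :=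
      (mul_le_mul_of_nonneg_left h1 hD.le).trans hbase
    have h3 : (k : ℝ) ^ d * ((lowc P k x p).card * D) ≤ (k : ℝ) ^ d * (2 * C0 P * E) := by
      nlinarith
    exact le_of_mul_le_mul_left h3 hkd
  have hhigh : (k : ℝ) ^ d / 2 ≤ (lowc P k x p).card →
      ((highc P k x p).card : ℝ) ≤ C' * E := by
    intro h
    rw [hC', div_mul_eq_mul_div, le_div_iff₀ hD]
    have h1 : ((k : ℝ) ^ d / 2) * ((highc P k x p).card : ℝ) ≤
      ((lowc P k x p).card : ℝ) * (highc P k x p).card :=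
      mul_le_mul_of_nonneg_right h (Nat.cast_nonneg _)
    have h2 : D * (((k : ℝ) ^ d / 2) * ((highc P k x p).card : ℝ)) ≤ C0 P * (k : ℝ) ^ d * E :=
      (mul_le_mul_of_nonneg_left h1 hD.le).trans hbase
    have h3 : (k : ℝ) ^ d * ((highc P k x p).card * D) ≤ (k : ℝ) ^ d * (2 * C0 P * E) := by
      nlinarith
    exact le_of_mul_le_mul_left h3 hkd
  have hR2 : 0 ≤ P.R ^ 2 := sq_nonneg _
  have hb := sum_b_le hP (k := k) hx0 hxR p
  have hA := sum_a_le hP (k := k) hx0 hxR p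
  have hbE : p ∈ A → ((lowc P k x p).card : ℝ) ≤ C' * E →
      ∑ i ∈ blk k p, (x i - P.xb) ^ 2 ≤ (1 / P.c + P.R ^ 2 * C') * E := by
    intro hpA h
    have := hsumq hpA
    nlinarith [mul_le_mul_of_nonneg_left h hR2]
  have haE : p ∈ A → ((highc P k x p).card : ℝ) ≤ C' * E →
      ∑ i ∈ blk k p, (x i - P.xa) ^ 2 ≤ (1 / P.c + P.R ^ 2 * C') * E := by
    intro hpA h
    have := hsumq hpA
    nlinarith [mul_le_mul_of_nonneg_left h hR2]
  refine ⟨?_, ?_, ?_, ?_⟩
  · intro hpA hnD hnV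
    have h1 : z * (k : ℝ) ^ d < ∑ i ∈ blk k p, (x i - P.xb) ^ 2 :=
      not_le.1 fun h => hnD ⟨hpA, h⟩
    have h2 : z * (k : ℝ) ^ d < ∑ i ∈ blk k p, (x i - P.xa) ^ 2 :=
      not_le.1 fun h => hnV (Or.inr h)
    have h3 : z * (k : ℝ) ^ d ≤ (1 / P.c + P.R ^ 2 * C') * E := by
      rcases le_total ((lowc P k x p).card : ℝ) (highc P k x p).card with h | h
      · exact (h1.trans_le (hbE hpA (hlow (by linarith)))).le
      · exact (h2.trans_le (haE hpA (hhigh (by linarith)))).le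
    refine (mul_le_mul_of_nonneg_right (min_le_left _ _) hkd.le).trans ?_
    rw [div_mul_eq_mul_div, div_le_iff₀ hC1]
    linarith
  · intro q hq hDp hVq
    have hq' := mem_ball.1 hq
    have h1 := low_small hP hz2 hDp.2
    have h2 : ((highc P k x q).card : ℝ) ≤ (k : ℝ) ^ d / 4 := by
      rcases hVq with h | h
      · have : highc P k x q = ∅ := by
          rw [Finset.eq_empty_iff_forall_notMem]
          intro i hi
          have hi2 := mem_filter.1 hi
          rw [hx i fun h' => h ((mem_lift_iff hi2.1).1 h')] at hi2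
          exact hi2.2 (by linarith)
        rw [this, Finset.card_empty, Nat.cast_zero]
        positivity
      · exact high_small hP hz2 h
    have h3 := card_add P k x q
    have h4 : D * (((lowc P k x q).card : ℝ) * (highc P k x p).card) ≤
        C0 P * (k : ℝ) ^ d * E := by
      refine fg_le hP hJ hx hO (Q := blk k p ∪ blk k q) ?_ ?_ ?_
        ((Finset.filter_subset _ _).trans Finset.subset_union_right)
        ((Finset.filter_subset _ _).trans Finset.subset_union_left)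
        (fun i hi => (mem_filter.1 hi).2) (fun i hi => not_lt.1 (mem_filter.1 hi).2)
      · intro i hi
        rcases mem_union.1 hi with h | h
        · exact ⟨p, near_self p 1, h⟩
        · exact ⟨q, hq', h⟩
      · intro i hi l hl c
        rcases mem_union.1 hi with h | h <;> rcases mem_union.1 hl with h' | h'
        · exact dist_blk h h' (near_self p 1) c
        · exact dist_blk h h' hq' c
        · exact dist_blk h h' (near_comm hq') c
        · exact dist_blk h h' (near_self q 1) c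
      · refine (Finset.card_union_le _ _).trans ?_
        rw [card_blk, card_blk]
        omega
    have h5 : 3 / 4 * (k : ℝ) ^ d ≤ (lowc P k x q).card := by linarith
    have h6 : 3 / 4 * (k : ℝ) ^ d ≤ (highc P k x p).card := by linarith
    have h7 : (3 / 4 * (k : ℝ) ^ d) * (3 / 4 * (k : ℝ) ^ d) ≤
        ((lowc P k x q).card : ℝ) * (highc P k x p).card :=
      mul_le_mul h5 h6 (by positivity) (Nat.cast_nonneg _)
    have h8 : (k : ℝ) ^ d * (9 / 16 * D * (k : ℝ) ^ d) ≤ (k : ℝ) ^ d * (C0 P * E) := by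
      have := mul_le_mul_of_nonneg_left h7 hD.le
      nlinarith
    have h9 := le_of_mul_le_mul_left h8 hkd
    refine (mul_le_mul_of_nonneg_right (min_le_right _ _) hkd.le).trans ?_
    rw [div_mul_eq_mul_div, div_le_iff₀ hC0]
    linarith
  · intro hDp
    have h1 := low_small hP hz2 hDp.2
    exact hbE hDp.1 (hlow (by linarith))
  · intro hpA hVp
    have h1 : ∑ i ∈ blk k p, (x i - P.xa) ^ 2 ≤ z * (k : ℝ) ^ d := by
      rcases hVp with h | h
      · exact absurd hpA h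
      · exact h
    have h2 := high_small hP hz2 h1
    exact haE hpA (hhigh (by linarith))

end Pool.Agent.Vdw
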