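import Pool.Agent.Lib.MP_09cbbd_kc.Defs
import Pool.Agent.Lib.MP_09cbbd_sw.Topo

/-!
# Kac interactions near the mean field limit: the setting on the lattice
-/

set_option autoImplicit false

namespace Pool.Agent.Vdw

open MeasureTheory Finset Filter Topology Pool.Agent.StableGas Pool.Agent.Kac
open Pool.Agent.SquareWell hiding Md cut

variable {d : ℕ}

/-- The two coexisting densities `xa < xb`, the maximal density `R`, the curvature `c` of the mean
field free energy at the two densities, a bound `T` for the strength of the interaction, a lower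
bound `θ` for its square on small distances, and its range `m0` in blocks. -/
structure Par where
  xa : ℝ
  xb : ℝ
  R : ℝ
  c : ℝ
  T : ℝ
  θ : ℝ
  m0 : ℕ

structure Par.Ok (P : Par) : Prop where
  xa_nonneg : 0 ≤ P.xa
  xa_lt : P.xa < P.xb
  xb_le : P.xb ≤ P.R
  c_pos : 0 < P.c
  T_pos : 0 < P.T
  θ_pos : 0 < P.θ
  m0_pos : 1 ≤ P.m0

/-- Squared distance to the two coexisting densities. -/
noncomputable def Par.q (P : Par) (x : ℝ) : ℝ := min ((x - P.xa) ^ 2) ((x - P.xb) ^ 2)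

/-- The block `p` of side `k`. -/
noncomputable def blk (k : ℕ) (p : Zd d) : Finset (Zd d) :=
  Fintype.piFinset fun l => Finset.Ico ((k : ℤ) * p l) (k * p l + k)

/-- The union of the blocks in `A`. -/
noncomputable def lift (k : ℕ) (A : Finset (Zd d)) : Finset (Zd d) := A.biUnion (blk k)

/-- The cube of radius `s` around `p`. -/
noncomputable def ball (s : ℕ) (p : Zd d) : Finset (Zd d) :=
  Fintype.piFinset fun l => Finset.Icc (p l - s) (p l + s)

/-- Excess free energy of the density profile `x` in `O ⊆ A`, the cells outside `A` being empty. -/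
noncomputable def en (P : Par) (S : Finset (Zd d)) (j : Zd d → ℝ) (A O : Finset (Zd d))
    (x : Zd d → ℝ) : ℝ := by
  classical exact P.c * ∑ i ∈ O, P.q (x i) + 1 / 4 * ∑ v ∈ S, j v *
    (∑ i ∈ O.filter (fun i => i + v ∈ O), (x i - x (i + v)) ^ 2 +
      2 * ∑ i ∈ O.filter (fun i => i + v ∉ A), x i ^ 2)

/-- The interaction, as used in the coercivity estimates. -/
structure Jok (P : Par) (k : ℕ) (S : Finset (Zd d)) (j : Zd d → ℝ) : Prop where
  k_pos : 1 ≤ k
  S_neg : ∀ v ∈ S, -v ∈ S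
  S_r : ∀ v ∈ S, ∀ l, |v l| ≤ P.m0 * k
  nonneg : ∀ v, 0 ≤ j v
  neg : ∀ v, j (-v) = j v
  tot_le : ∑ v ∈ S, j v ≤ P.T
  coer : ∀ v : Zd d, (∀ l, |v l| ≤ 2 * k) →
    P.θ ≤ (k : ℝ) ^ d * ∑ u ∈ S.filter (fun u => v - u ∈ S), j u * j (v - u)

/-- The block `p` is in the dense phase. -/
def Dq (P : Par) (z : ℝ) (k : ℕ) (A : Finset (Zd d)) (x : Zd d → ℝ) (p : Zd d) : Prop :=
  p ∈ A ∧ ∑ i ∈ blk k p, (x i - P.xb) ^ 2 ≤ z * (k : ℝ) ^ d

/-- The block `p` is in the dilute phase, or outside. -/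
def Vq (P : Par) (z : ℝ) (k : ℕ) (A : Finset (Zd d)) (x : Zd d → ℝ) (p : Zd d) : Prop :=
  p ∉ A ∨ ∑ i ∈ blk k p, (x i - P.xa) ^ 2 ≤ z * (k : ℝ) ^ d

variable {E : Type} [MeasurableSpace E]

/-- Strength of the interaction in units of the volume `V` of a cell. -/
noncomputable def jj (M : Md d E) (V : ℝ) (v : Zd d) : ℝ := M.K * V * M.J v

/-- Density profile in `A`. -/
noncomputable def den (M : Md d E) (V : ℝ) (A : Finset (Zd d)) (ω : Zd d → E) : Zd d → ℝ := by
  classical exact fun i => if i ∈ A then (M.n (ω i) : ℝ) / V else 0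

/-- The cells satisfy the mean field description up to `ε`: `V` is the volume of a cell, `bs` the
cost of the removal of the particles near the faces, `μs` and `Ps` are the chemical potential and
the pressure of the mean field coexistence. -/
structure Good (P : Par) (M : Md d E) (V bs μs Ps ε : ℝ) (k : ℕ) : Prop where
  eps_pos : 0 < ε
  eps_le : ε ≤ 1
  V_pos : 0 < V
  one_le : 1 ≤ ε * V
  k_pos : 1 ≤ k
  N_le : (M.N : ℝ) ≤ P.R * V
  Ns_le : (|μs| + 1) * M.Ns ≤ ε * V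
  bs_nonneg : 0 ≤ bs
  bs_le : bs ≤ ε * V
  log_le : Real.log (M.N + 1) ≤ ε * V
  r_le : M.r ≤ P.m0 * k
  tot_le : M.K * V * M.tot ≤ P.T
  totm : (1 - ε) * M.tot ≤ M.totm
  coer : ∀ v : Zd d, (∀ l, |v l| ≤ 2 * k) →
    P.θ ≤ (k : ℝ) ^ d * ∑ u ∈ M.S.filter (fun u => v - u ∈ M.S), jj M V u * jj M V (v - u)
  push : ∀ F : E → ENNReal, Measurable F →
    ∫⁻ x, F (M.c x) ∂M.π ≤ ex bs * ∫⁻ x in {x | M.c x = x}, F x ∂M.π
  up : ∀ n : ℕ, M.π {x | M.n x = n} ≤ ex (V * (Ps + ε - μs * (n / V) -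
    M.K * V * M.tot / 2 * (n / V) ^ 2 - P.c * P.q (n / V)))
  lo : ∀ y : ℝ, (y = P.xa ∨ y = P.xb) → ∃ (B : Set E) (n : ℕ), MeasurableSet B ∧
    (∀ x ∈ B, M.c x = x ∧ M.n x = n) ∧ |(n : ℝ) / V - y| ≤ ε ∧
    ex (V * (Ps - ε - μs * (n / V) - M.K * V * M.tot / 2 * (n / V) ^ 2)) ≤ M.π B

/-- The gluing inequality at the chemical potential `μ`, with density `ρ` (in units of `V`),
fluctuation `τ` and pressure `p`. -/
def Glue2 (M : Md d E) (V bs μ ρ τ p : ℝ) : Prop :=
  ∀ Y : Finset (Zd d), M.int Y (fun ω => M.w μ Y (M.tr Y ω) *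
      ex (ρ * V * M.K * M.ou Y (M.tr Y ω))) ≤
    ex (bs * (bd Y).card + Y.card * p + M.K / 2 * V ^ 2 * (ρ ^ 2 + τ) * cut M.S M.J Y)

/-- The a priori weight of a cell. -/
noncomputable def uo (P : Par) (M : Md d E) (V μs Ps ε : ℝ) (e : E) : ENNReal :=
  ex (-(V * (Ps + ε - μs * (M.n e / V) - M.K * V * M.tot / 2 * (M.n e / V) ^ 2 -
    P.c * P.q (M.n e / V))))

/-- `s` is a slope of the convex function `p` at `μ`. -/
def Sub (p : ℝ → ℝ) (μ s : ℝ) : Prop := ∀ x, p μ + (x - μ) * s ≤ p x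

end Pool.Agent.Vdw
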