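import Pool.Agent.Lib.MP_09cbbd_kc.Geo

/-!
# The weights of a pair interaction: limits
-/

set_option autoImplicit false

namespace Pool.Agent.Vdw

open MeasureTheory Finset Filter Topology Pool.Agent.StableGas Pool.Agent.Kac
open Pool.Agent.SquareWell hiding Md cut

variable {d : ℕ}

namespace GeoJ

open Kac.GeoB Kac.Geo

/-- A function on the cells. -/
noncomputable def Gc (c : Zd d → ℝ) (B : ℕ) (x : Fin d → ℝ) : ℝ :=
  ∑ v ∈ SB d B, ({x | fl B x = v} : Set (Fin d → ℝ)).indicator (fun _ => c v) x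

theorem Gc_eq (c : Zd d → ℝ) (B : ℕ) (x : Fin d → ℝ) :
    Gc c B x = if fl B x ∈ SB d B then c (fl B x) else 0 := by
  unfold Gc
  rw [← Finset.sum_ite_eq (SB d B) (fl B x) fun v => c v]
  refine sum_congr rfl fun v _ => ?_
  by_cases h : fl B x = v
  · have h' : x ∈ ({x | fl B x = v} : Set (Fin d → ℝ)) := h
    rw [Set.indicator_of_mem h', if_pos h]
  · have h' : x ∉ ({x | fl B x = v} : Set (Fin d → ℝ)) := h
    rw [Set.indicator_of_notMem h', if_neg h]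

theorem integrable_ind (c : ℝ) {B : ℕ} (hB : 1 ≤ B) (v : Zd d) :
    Integrable (({x | fl B x = v} : Set (Fin d → ℝ)).indicator (fun _ => c)) := by
  refine (integrable_indicator_iff (measurableSet_cell hB v)).2 (integrableOn_const ?_)
  rw [volume_cell hB]
  exact ENNReal.ofReal_ne_top

theorem integrable_Gc (c : Zd d → ℝ) {B : ℕ} (hB : 1 ≤ B) : Integrable (Gc c B) := by
  unfold Gc
  exact integrable_finsetSum _ fun v _ => integrable_ind (c v) hB v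

theorem integral_Gc (c : Zd d → ℝ) {B : ℕ} (hB : 1 ≤ B) :
    ∫ x, Gc c B x = (∑ v ∈ SB d B, c v) / (B : ℝ) ^ d := by
  unfold Gc
  rw [integral_finsetSum _ fun v _ => integrable_ind (c v) hB v, sum_div]
  refine sum_congr rfl fun v _ => ?_
  rw [integral_indicator_const _ (measurableSet_cell hB v), Measure.real, volume_cell hB,
    ENNReal.toReal_ofReal (by positivity), smul_eq_mul]
  ring

theorem mem_Dif_fl {B : ℕ} (x : Fin d → ℝ) : x ∈ Dif B (fl B x) := by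
  intro k
  have h1 := Int.floor_le ((B : ℝ) * x k)
  have h2 := Int.lt_floor_add_one ((B : ℝ) * x k)
  change |(B : ℝ) * x k - (⌊(B : ℝ) * x k⌋ : ℤ)| < 1
  rw [abs_lt]
  constructor <;> linarith

theorem le_JU {J : (Fin d → ℝ) → ℝ} (hJ : Ad J) {B : ℕ} {v : Zd d} {x : Fin d → ℝ}
    (hx : x ∈ Dif B v) : J x ≤ JU J B v := by
  refine le_csSup ⟨1, ?_⟩ ⟨x, hx, rfl⟩
  rintro _ ⟨y, _, rfl⟩
  exact hJ.le_one y

theorem JL_le {J : (Fin d → ℝ) → ℝ} (hJ : Ad J) {B : ℕ} {v : Zd d} {x : Fin d → ℝ}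
    (hx : x ∈ Dif B v) : JL J B v ≤ J x := by
  by_cases hv : v = 0
  · unfold JL
    rw [if_pos hv]
    exact hJ.nonneg x
  · unfold JL
    rw [if_neg hv]
    refine csInf_le ⟨0, ?_⟩ ⟨x, hx, rfl⟩
    rintro _ ⟨y, _, rfl⟩
    exact hJ.nonneg y

theorem fl_mem {J : (Fin d → ℝ) → ℝ} (hJ : Ad J) {B : ℕ} {x : Fin d → ℝ} (hx : J x ≠ 0) :
    fl B x ∈ SB d B := by
  unfold SB
  rw [Fintype.mem_piFinset]
  intro k
  have h := abs_le.1 (hJ.supp x hx k)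
  have hB : (0 : ℝ) ≤ B := Nat.cast_nonneg B
  rw [mem_Icc]
  constructor
  · change -(B : ℤ) ≤ ⌊(B : ℝ) * x k⌋
    rw [Int.le_floor]
    push_cast
    nlinarith [h.1]
  · have h1 : (B : ℝ) * x k ≤ B := by nlinarith [h.2]
    have h2 := Int.floor_le ((B : ℝ) * x k)
    have h3 : ((⌊(B : ℝ) * x k⌋ : ℤ) : ℝ) ≤ ((B : ℤ) : ℝ) := by
      push_cast
      linarith
    exact_mod_cast h3

theorem le_Gc {J : (Fin d → ℝ) → ℝ} (hJ : Ad J) (B : ℕ) (x : Fin d → ℝ) :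
    J x ≤ Gc (JU J B) B x := by
  rw [Gc_eq]
  split_ifs with h
  · exact le_JU hJ (mem_Dif_fl x)
  · by_contra hcon
    push Not at hcon
    exact h (fl_mem hJ hcon.ne')

theorem Gc_le {J : (Fin d → ℝ) → ℝ} (hJ : Ad J) (B : ℕ) (x : Fin d → ℝ) :
    Gc (JL J B) B x ≤ J x := by
  rw [Gc_eq]
  split_ifs with h
  · exact JL_le hJ (mem_Dif_fl x)
  · exact hJ.nonneg x

theorem integrable {J : (Fin d → ℝ) → ℝ} (hJ : Ad J) : Integrable J := by
  refine (integrable_Gc (JU J 1) le_rfl).mono' hJ.meas.aestronglyMeasurable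
    (Eventually.of_forall fun x => ?_)
  rw [Real.norm_of_nonneg (hJ.nonneg x)]
  exact le_Gc hJ 1 x

theorem int_le {J : (Fin d → ℝ) → ℝ} (hJ : Ad J) {B : ℕ} (hB : 1 ≤ B) :
    ∫ x, J x ≤ (∑ v ∈ SB d B, JU J B v) / (B : ℝ) ^ d := by
  rw [← integral_Gc _ hB]
  exact integral_mono (integrable hJ) (integrable_Gc _ hB) fun x => le_Gc hJ B x

theorem le_int {J : (Fin d → ℝ) → ℝ} (hJ : Ad J) {B : ℕ} (hB : 1 ≤ B) :
    (∑ v ∈ SB d B, JL J B v) / (B : ℝ) ^ d ≤ ∫ x, J x := by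
  rw [← integral_Gc _ hB]
  exact integral_mono (integrable_Gc _ hB) (integrable hJ) fun x => Gc_le hJ B x

theorem neg_mem_SB {B : ℕ} {v : Zd d} (h : v ∈ SB d B) : -v ∈ SB d B := by
  unfold SB at h ⊢
  rw [Fintype.mem_piFinset] at h ⊢
  intro k
  have h1 := mem_Icc.1 (h k)
  rw [Pi.neg_apply, mem_Icc]
  constructor <;> linarith [h1.1, h1.2]

theorem JU_neg {J : (Fin d → ℝ) → ℝ} (hJ : Ad J) (B : ℕ) (v : Zd d) :
    JU J B (-v) = JU J B v := by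
  have h : ∀ w : Zd d, J '' Dif B w ⊆ J '' Dif B (-w) := by
    rintro w _ ⟨x, hx, rfl⟩
    refine ⟨-x, fun k => ?_, hJ.even x⟩
    rw [Pi.neg_apply, Pi.neg_apply]
    have h1 := hx k
    rw [← abs_neg] at h1
    convert h1 using 2
    push_cast
    ring
  unfold JU
  congr 1
  refine Set.Subset.antisymm ?_ (h v)
  have h1 := h (-v)
  rwa [neg_neg] at h1

end GeoJ

open GeoJ

/-- Sums of the weights and of their convolution. -/
theorem exists_geo (hd : 1 ≤ d) {J : (Fin d → ℝ) → ℝ} (hJ : Ad J) (hc : ∀ᵐ x, ContinuousAt J x)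
    (hp : 0 < ∫ x, J x) : ∃ (m0 : ℕ) (θ : ℝ), 1 ≤ m0 ∧ 0 < θ ∧ ∀ ε : ℝ, 0 < ε →
      ∃ k : ℕ, 1 ≤ k ∧ 1 ≤ ∑ v ∈ SB d (m0 * k), JU J (m0 * k) v ∧
        (1 - ε) * ∑ v ∈ SB d (m0 * k), JU J (m0 * k) v ≤ ∑ v ∈ SB d (m0 * k), JL J (m0 * k) v ∧
        |(∑ v ∈ SB d (m0 * k), JU J (m0 * k) v) / ((m0 * k : ℕ) : ℝ) ^ d - ∫ x, J x| ≤ ε ∧
        ∀ v : Zd d, (∀ l, |v l| ≤ 2 * k) → θ * ((m0 * k : ℕ) : ℝ) ^ d ≤
          ∑ u ∈ (SB d (m0 * k)).filter (fun u => v - u ∈ SB d (m0 * k)),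
            JU J (m0 * k) u * JU J (m0 * k) (v - u) := by
  classical
  obtain ⟨θ, s, x0, B1, hθ, hs, hlow⟩ := low_large hd hJ hc hp
  obtain ⟨m0, hm0⟩ := exists_nat_gt (4 / s)
  have hm1 : (0 : ℝ) < m0 := lt_trans (by positivity) hm0
  have hm2 : 1 ≤ m0 := by
    rw [Nat.one_le_iff_ne_zero]
    rintro rfl
    simp at hm1
  have hms : 4 ≤ m0 * s := by
    rw [div_lt_iff₀ hs] at hm0
    exact hm0.le
  refine ⟨m0, θ * θ * (s / 2) ^ d, hm2, by positivity, fun ε hε => ?_⟩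
  obtain ⟨ε', hε', he1, he2⟩ : ∃ ε' : ℝ, 0 < ε' ∧ ε' ≤ ε ∧ ε' ≤ ε * ∫ x, J x :=
    ⟨min ε (ε * ∫ x, J x), lt_min hε (mul_pos hε hp), min_le_left _ _, min_le_right _ _⟩
  obtain ⟨B3, hosc⟩ := osc_small hd hJ hc hε'
  obtain ⟨B4, hB4⟩ := exists_nat_gt (1 / ∫ x, J x)
  obtain ⟨B5, hB5⟩ := exists_nat_gt (2 / s)
  obtain ⟨k, hk⟩ : ∃ k : ℕ, k = 1 + B1 + B3 + B4 + B5 := ⟨_, rfl⟩
  obtain ⟨B, hB⟩ : ∃ B : ℕ, B = m0 * k := ⟨_, rfl⟩
  have hkB : k ≤ B := by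
    rw [hB]
    exact Nat.le_mul_of_pos_left k hm2
  have hB1 : 1 ≤ B := by omega
  have hBr : (1 : ℝ) ≤ B := by exact_mod_cast hB1
  have hBpow : (B : ℝ) ≤ (B : ℝ) ^ d := le_self_pow₀ hBr (by omega)
  have hBpos : (0 : ℝ) < (B : ℝ) ^ d := by positivity
  have hosc' := hosc B (by omega)
  have hlow' := hlow B (by omega)
  have h1 := int_le hJ hB1
  have h2 := le_int hJ hB1
  rw [sum_sub_distrib] at hosc'
  rw [le_div_iff₀ hBpos] at h1
  rw [div_le_iff₀ hBpos] at h2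
  refine ⟨k, by omega, ?_⟩
  rw [← hB]
  refine ⟨?_, ?_, ?_, ?_⟩
  · refine le_trans ?_ h1
    have h3 : (B4 : ℝ) ≤ B := by exact_mod_cast (by omega : B4 ≤ B)
    rw [div_lt_iff₀ hp] at hB4
    have h4 : (B4 : ℝ) * ∫ x, J x ≤ (B : ℝ) ^ d * ∫ x, J x :=
      mul_le_mul_of_nonneg_right (h3.trans hBpow) hp.le
    linarith
  · have h3 : ε' * (B : ℝ) ^ d ≤ ε * ∑ v ∈ SB d B, JU J B v := by
      calc ε' * (B : ℝ) ^ d ≤ (ε * ∫ x, J x) * (B : ℝ) ^ d :=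
            mul_le_mul_of_nonneg_right he2 hBpos.le
        _ = ε * ((∫ x, J x) * (B : ℝ) ^ d) := by ring
        _ ≤ _ := mul_le_mul_of_nonneg_left h1 hε.le
    rw [sub_mul, one_mul]
    linarith
  · rw [abs_le]
    constructor
    · have h3 : ∫ x, J x ≤ (∑ v ∈ SB d B, JU J B v) / (B : ℝ) ^ d := by
        rwa [le_div_iff₀ hBpos]
      linarith
    · have h3 : (∑ v ∈ SB d B, JU J B v) / (B : ℝ) ^ d ≤ ε + ∫ x, J x := by
        rw [div_le_iff₀ hBpos, add_mul]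
        have h4 : ε' * (B : ℝ) ^ d ≤ ε * (B : ℝ) ^ d :=
          mul_le_mul_of_nonneg_right he1 hBpos.le
        linarith
      linarith
  · intro v hv
    have hB5' : (B5 : ℝ) ≤ B := by exact_mod_cast (by omega : B5 ≤ B)
    have h7 : 1 ≤ s * B / 2 := by
      rw [div_lt_iff₀ hs] at hB5
      nlinarith
    have h8 := Kac.Geo.card_W (d := d) (fun l => B * x0 l) (r := s * B / 2) h7
    have hvs : ∀ l, |(v l : ℝ)| ≤ s * B / 2 := by
      intro l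
      have h3 : |(v l : ℝ)| ≤ 2 * k := by exact_mod_cast hv l
      have h4 : (B : ℝ) = m0 * k := by rw [hB]; push_cast; ring
      have h5 : (0 : ℝ) ≤ k := Nat.cast_nonneg k
      rw [h4]
      nlinarith
    have h9 : ∀ u ∈ Kac.Geo.W (d := d) (fun l => B * x0 l) (s * B / 2),
        u ∈ (SB d B).filter (fun u => v - u ∈ SB d B) ∧
          θ * θ ≤ JU J B u * JU J B (v - u) := by
      intro u hu
      have hnear := Kac.Geo.mem_W hu
      have h10 := hlow' u fun l => (hnear l).trans (by linarith)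
      have h11 := hlow' (u - v) fun l => by
        have h12 := abs_le.1 (hnear l)
        have h13 := abs_le.1 (hvs l)
        rw [Pi.sub_apply, abs_le]
        push_cast
        constructor <;> linarith [h12.1, h12.2, h13.1, h13.2]
      have h14 : v - u = -(u - v) := by abel
      have h15 := h10.2.trans (Kac.Geo.JL_le_JU hJ hB1 u)
      have h16 := h11.2.trans (Kac.Geo.JL_le_JU hJ hB1 (u - v))
      rw [mem_filter, h14, JU_neg hJ]
      exact ⟨⟨h10.1, neg_mem_SB h11.1⟩, mul_le_mul h15 h16 hθ.le (hθ.le.trans h15)⟩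
    have e : (s * B / 2) ^ d = (s / 2) ^ d * (B : ℝ) ^ d := by rw [← mul_pow]; ring
    calc θ * θ * (s / 2) ^ d * (B : ℝ) ^ d = θ * θ * (s * B / 2) ^ d := by rw [e]; ring
      _ ≤ θ * θ * ((Kac.Geo.W (d := d) (fun l => B * x0 l) (s * B / 2)).card : ℝ) :=
          mul_le_mul_of_nonneg_left h8 (by positivity)
      _ = ∑ _u ∈ Kac.Geo.W (d := d) (fun l => B * x0 l) (s * B / 2), θ * θ := by
          rw [sum_const, nsmul_eq_mul, mul_comm]
      _ ≤ ∑ u ∈ Kac.Geo.W (d := d) (fun l => B * x0 l) (s * B / 2),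
            JU J B u * JU J B (v - u) := sum_le_sum fun u hu => (h9 u hu).2
      _ ≤ _ := sum_le_sum_of_subset_of_nonneg (fun u hu => (h9 u hu).1) fun u _ _ =>
          mul_nonneg (Kac.Geo.JU_nonneg hJ B u) (Kac.Geo.JU_nonneg hJ B _)

end Pool.Agent.Vdw
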