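import Pool.Agent.Lib.MP_09cbbd_vw.Mod
import Pool.Agent.Lib.MP_09cbbd_vw.HsS
import Pool.Agent.Lib.MP_09cbbd_vw.GeoJ
import Pool.Agent.Lib.MP_09cbbd_vw.Defs
import Pool.Agent.Lib.MP_09cbbd_sw.Pack

/-!
# The gas on cells satisfies the mean field assumptions
-/

set_option autoImplicit false

namespace Pool.Agent.Vdw

open MeasureTheory Finset Filter Topology Pool.Agent.StableGas Pool.Agent.SquareWellGas
  Pool.Agent.KacGas Pool.Agent.Kac Pool.Agent.VdwGas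
open Pool.Agent.SquareWell hiding Md cut

variable {d : ℕ} {J : (Fin d → ℝ) → ℝ}

namespace GoodA

theorem Z_zero (a : ℝ) (u : (Fin d → ℝ) → ℝ) (ℓ : ℝ) : Z d a u ℓ 0 = 1 := by
  unfold Z
  have h : {x : Fin 0 → Fin d → ℝ | (∀ i, x i ∈ Box d ℓ) ∧
      ∀ i j, i ≠ j → (2 * a) ^ 2 ≤ ∑ k, (x i k - x j k) ^ 2} = Set.univ := by
    ext x
    simp
  rw [h, Measure.restrict_univ, Measure.volume_pi_eq_dirac (fun i => i.elim0)]
  simp

theorem Z_nonneg (a : ℝ) (u : (Fin d → ℝ) → ℝ) (ℓ : ℝ) (N : ℕ) : 0 ≤ Z d a u ℓ N := by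
  unfold Z
  refine mul_nonneg (by positivity) ?_
  exact integral_nonneg fun x => (Real.exp_pos _).le

/-- Facts on the volumes of the cells. -/
theorem vol_facts (hd : 1 ≤ d) {ε C : ℝ} (hε : 0 < ε) : ∃ ℓ0 : ℝ, 2 < ℓ0 ∧ ∀ ℓ : ℝ, ℓ0 ≤ ℓ →
    C ≤ (ℓ + 2) ^ d ∧ ((ℓ + 2) / ℓ) ^ d ≤ 1 + ε ∧ ℓ ^ d - (ℓ - 2) ^ d ≤ ε * ℓ ^ d := by
  have h1 : Tendsto (fun ℓ : ℝ => (ℓ + 2) ^ d) atTop atTop :=
    (tendsto_pow_atTop (by omega)).comp (tendsto_atTop_add_const_right _ _ tendsto_id)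
  have h0 : Tendsto (fun ℓ : ℝ => 2 / ℓ) atTop (𝓝 0) := tendsto_const_nhds.div_atTop tendsto_id
  have h2 : Tendsto (fun ℓ : ℝ => ((ℓ + 2) / ℓ) ^ d) atTop (𝓝 1) := by
    have h3 : Tendsto (fun ℓ : ℝ => (1 + 2 / ℓ) ^ d) atTop (𝓝 ((1 + 0) ^ d)) :=
      (tendsto_const_nhds.add h0).pow d
    rw [add_zero, one_pow] at h3
    refine h3.congr' ?_
    filter_upwards [eventually_gt_atTop 0] with ℓ hℓ
    rw [add_div, div_self hℓ.ne']
  have h4 : Tendsto (fun ℓ : ℝ => ((ℓ - 2) / ℓ) ^ d) atTop (𝓝 1) := by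
    have h3 : Tendsto (fun ℓ : ℝ => (1 - 2 / ℓ) ^ d) atTop (𝓝 ((1 - 0) ^ d)) :=
      (tendsto_const_nhds.sub h0).pow d
    rw [sub_zero, one_pow] at h3
    refine h3.congr' ?_
    filter_upwards [eventually_gt_atTop 0] with ℓ hℓ
    rw [sub_div, div_self hℓ.ne']
  have h5 : ∀ᶠ ℓ : ℝ in atTop, 2 < ℓ ∧ C ≤ (ℓ + 2) ^ d ∧ ((ℓ + 2) / ℓ) ^ d ≤ 1 + ε ∧
      ℓ ^ d - (ℓ - 2) ^ d ≤ ε * ℓ ^ d := by
    filter_upwards [eventually_gt_atTop 2, h1.eventually_ge_atTop C,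
      h2.eventually_le_const (show (1 : ℝ) < 1 + ε by linarith),
      h4.eventually_const_le (show 1 - ε < (1 : ℝ) by linarith)] with ℓ g1 g2 g3 g4
    refine ⟨g1, g2, g3, ?_⟩
    have g5 : 0 < ℓ := by linarith
    rw [div_pow, le_div_iff₀ (by positivity)] at g4
    linarith
  obtain ⟨ℓ0, h6⟩ := eventually_atTop.1 h5
  exact ⟨ℓ0, (h6 ℓ0 le_rfl).1, fun ℓ hℓ => (h6 ℓ hℓ).2⟩

/-- Upper bound for the number of particles in a cell. -/
theorem mx_le_vol (hd : 1 ≤ d) {ℓ : ℝ} (hℓ : 0 ≤ ℓ) :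
    (mx (Box d ℓ) : ℝ) ≤ (d + 1) ^ d * (ℓ + 2) ^ d := by
  refine (PackC.mx_le hd hℓ).trans ?_
  rw [← mul_pow]
  have h1 : (0 : ℝ) ≤ d := Nat.cast_nonneg d
  exact pow_le_pow_left₀ (by positivity) (by nlinarith) _

/-- The mean field upper bound. -/
theorem up_calc {V q ε m a A c x mn F r : ℝ} (hV : 0 ≤ V) (hF : F + A / 2 * x ^ 2 ≤ m * x + q - c * mn)
    (hx : 0 ≤ x) (hxr : x ≤ r) (ha : |a - A| * r ^ 2 ≤ ε) :
    V * F ≤ V * (q + ε - -m * x - a / 2 * x ^ 2 - c * mn) := by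
  refine mul_le_mul_of_nonneg_left ?_ hV
  have h1 : (a - A) * x ^ 2 ≤ |a - A| * r ^ 2 :=
    mul_le_mul (le_abs_self _) (pow_le_pow_left₀ hx hxr 2) (sq_nonneg _) (abs_nonneg _)
  have h2 : 0 ≤ |a - A| * r ^ 2 := mul_nonneg (abs_nonneg _) (sq_nonneg _)
  linarith

/-- The mean field lower bound. -/
theorem lo_calc {V q ε e m a A x y F r : ℝ} (hV : 0 ≤ V) (hF : F + A / 2 * y ^ 2 = m * y + q)
    (hy : 0 ≤ y) (hyr : y ≤ r) (hx : 0 ≤ x) (hxy : |x - y| ≤ e) (he1 : e ≤ 1) (hA : 0 ≤ A)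
    (ha : |a - A| * (r + 1) ^ 2 ≤ ε) (he : e * (|m| + A * (2 * r + 1) + 1) ≤ ε / 2) :
    V * (q - ε - -m * x - a / 2 * x ^ 2) ≤ V * (F - e) := by
  refine mul_le_mul_of_nonneg_left ?_ hV
  have hx1 : x ≤ r + 1 := by linarith [(abs_le.1 hxy).2]
  have he0 : 0 ≤ e := (abs_nonneg _).trans hxy
  have h1 : -(a - A) * x ^ 2 ≤ |a - A| * (r + 1) ^ 2 :=
    mul_le_mul (neg_le_abs _) (pow_le_pow_left₀ hx hx1 2) (sq_nonneg _) (abs_nonneg _)
  have h2 : m * (x - y) ≤ |m| * e := by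
    calc m * (x - y) ≤ |m * (x - y)| := le_abs_self _
      _ = |m| * |x - y| := abs_mul _ _
      _ ≤ |m| * e := mul_le_mul_of_nonneg_left hxy (abs_nonneg _)
  have h3 : y ^ 2 - x ^ 2 ≤ e * (2 * r + 1) := by
    calc y ^ 2 - x ^ 2 = -(x - y) * (y + x) := by ring
      _ ≤ |x - y| * (y + x) := mul_le_mul_of_nonneg_right (neg_le_abs _) (by linarith)
      _ ≤ e * (2 * r + 1) := mul_le_mul hxy (by linarith) (by linarith) he0
  have h4 := mul_le_mul_of_nonneg_left h3 hA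
  have h5 : 0 ≤ A * (e * (2 * r + 1)) := mul_nonneg hA (mul_nonneg he0 (by linarith))
  have h6 : q - ε - -m * x - a / 2 * x ^ 2 = F - e + (m * (x - y) + A * (y ^ 2 - x ^ 2) / 2 +
      -(a - A) * x ^ 2 / 2 + e - ε) := by
    linear_combination -hF
  have h7 : e * (|m| + A * (2 * r + 1) + 1) = |m| * e + A * (e * (2 * r + 1)) + e := by ring
  rw [h6]
  linarith

/-- The chemical potential is not important at density zero. -/
theorem zero_calc {q ε m a c V x1 x2 : ℝ} (hε : 0 < ε) (hq : c * x1 ^ 2 ≤ q) (h1 : 0 < x1)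
    (h12 : x1 < x2) (hV : 0 < V) : 0 ≤ V * (q + ε - -m * (((0 : ℕ) : ℝ) / V) -
      a / 2 * (((0 : ℕ) : ℝ) / V) ^ 2 - c * min ((((0 : ℕ) : ℝ) / V - x1) ^ 2)
        ((((0 : ℕ) : ℝ) / V - x2) ^ 2)) := by
  refine mul_nonneg hV.le ?_
  have h3 : min ((((0 : ℕ) : ℝ) / V - x1) ^ 2) ((((0 : ℕ) : ℝ) / V - x2) ^ 2) = x1 ^ 2 := by
    simp only [Nat.cast_zero, zero_div, zero_sub, neg_sq]
    exact min_eq_left (pow_le_pow_left₀ h1.le h12.le 2)
  rw [h3]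
  simp only [Nat.cast_zero, zero_div]
  linarith

theorem log_calc {ε C V N : ℝ} (hε : 0 < ε) (hV : 0 < V) (hN0 : 0 ≤ N) (hN : N ≤ C * V)
    (hC : 2 * C / ε ^ 2 ≤ V) : Real.log (N + 1) ≤ ε * V := by
  have g1 : N + 1 ≤ Real.exp (ε * V) := by
    have g2 := Real.quadratic_le_exp_of_nonneg (show 0 ≤ ε * V by positivity)
    rw [div_le_iff₀ (by positivity)] at hC
    have g4 : C * V ≤ (ε * V) ^ 2 / 2 := by
      have g5 := mul_le_mul_of_nonneg_right hC hV.le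
      linarith
    linarith [mul_pos hε hV]
  calc Real.log (N + 1) ≤ Real.log (Real.exp (ε * V)) :=
        Real.log_le_log (by positivity) g1
    _ = ε * V := Real.log_exp _

theorem tot_calc {K V β W B tot I e : ℝ} (hβ : 0 < β) (hI : 0 < I) (he : 0 ≤ e) (he1 : e ≤ 1)
    (hW1 : 1 ≤ W) (hW : W ≤ 1 + e) (hB : 0 < B) (hKV : K * V = β * W / B) (htot : 0 ≤ tot)
    (h : |tot / B - I| ≤ e) : |K * V * tot - β * I| ≤ e * (β * (I + 2)) := by
  have g1 : K * V * tot - β * I = β * ((W - 1) * (tot / B) + (tot / B - I)) := by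
    rw [hKV]
    ring
  have g2 : 0 ≤ tot / B := by positivity
  have g3 : tot / B ≤ I + 1 := by linarith [(abs_le.1 h).2]
  rw [g1, abs_mul, abs_of_pos hβ]
  have g4 : |(W - 1) * (tot / B) + (tot / B - I)| ≤ e * (I + 1) + e := by
    refine (abs_add_le _ _).trans (add_le_add ?_ h)
    rw [abs_of_nonneg (mul_nonneg (by linarith) g2)]
    exact mul_le_mul (by linarith) g3 g2 he
  calc β * |(W - 1) * (tot / B) + (tot / B - I)| ≤
      β * (e * (I + 1) + e) := mul_le_mul_of_nonneg_left g4 hβ.le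
    _ = e * (β * (I + 2)) := by ring

theorem coer_calc {d : ℕ} {β θ W S : ℝ} {m0 k : ℕ} (hm : 1 ≤ m0) (hk : 1 ≤ k) (hβ : 0 < β)
    (hθ : 0 < θ) (hW : 1 ≤ W) (hS : θ * ((m0 * k : ℕ) : ℝ) ^ d ≤ S) :
    β ^ 2 * θ / (m0 : ℝ) ^ d ≤ (k : ℝ) ^ d * ((β * W / ((m0 * k : ℕ) : ℝ) ^ d) ^ 2 * S) := by
  have hm' : (0 : ℝ) < m0 := by exact_mod_cast hm
  have hk' : (0 : ℝ) < k := by exact_mod_cast hk
  have hB' : (0 : ℝ) < ((m0 * k : ℕ) : ℝ) := by push_cast; positivity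
  have g3 : (β / ((m0 * k : ℕ) : ℝ) ^ d) ^ 2 ≤ (β * W / ((m0 * k : ℕ) : ℝ) ^ d) ^ 2 := by
    refine pow_le_pow_left₀ (by positivity) ?_ 2
    exact div_le_div_of_nonneg_right (le_mul_of_one_le_right hβ.le hW) (by positivity)
  have g4 : 0 ≤ θ * ((m0 * k : ℕ) : ℝ) ^ d := by positivity
  calc β ^ 2 * θ / (m0 : ℝ) ^ d = (k : ℝ) ^ d * ((β / ((m0 * k : ℕ) : ℝ) ^ d) ^ 2 *
        (θ * ((m0 * k : ℕ) : ℝ) ^ d)) := by
        push_cast
        rw [mul_pow]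
        field_simp
    _ ≤ _ := mul_le_mul_of_nonneg_left (mul_le_mul g3 hS g4 (sq_nonneg _)) (by positivity)

end GoodA

open GoodA in
/-- The model of `Mod` is good for large cells. -/
theorem exists_good (hd : 1 ≤ d) (hJ : Ad J) (hc : ∀ᵐ x, ContinuousAt J x) (hp : 0 < ∫ x, J x)
    {f : ℝ → ℝ} {r : ℝ} (hf : IsF d (1 / 2) (fun _ => 0) f r)
    (hfc : ConcaveOn ℝ (Set.Ioo 0 r) f) {β : ℝ} (hβ : 0 < β)
    {x1 x2 m q c : ℝ} (h1 : 0 < x1) (h12 : x1 < x2) (h2 : x2 < r) (hc0 : 0 < c)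
    (hup : ∀ x ∈ Set.Ioo 0 r, f x + β * (∫ x, J x) / 2 * x ^ 2 ≤
      m * x + q - c * min ((x - x1) ^ 2) ((x - x2) ^ 2))
    (he1 : f x1 + β * (∫ x, J x) / 2 * x1 ^ 2 = m * x1 + q)
    (he2 : f x2 + β * (∫ x, J x) / 2 * x2 ^ 2 = m * x2 + q) :
    ∃ P : Par, P.Ok ∧ P.xa = x1 ∧ P.xb = x2 ∧ ∀ ε : ℝ, 0 < ε → ε ≤ 1 →
      ∃ (k B : ℕ) (ℓ0 : ℝ), 1 ≤ B ∧
      2 < ℓ0 ∧ ∀ ℓ : ℝ, ℓ0 ≤ ℓ → ∃ (E : Type) (_ : MeasurableSpace E) (M : Md d E) (bs : ℝ),
        Good P M ((ℓ + 2) ^ d) bs (-m) q ε k ∧ ∀ (μ : ℝ) (L : ℕ), M.xi μ (SquareWell.bx d L) =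
          ∑' n : ℕ, ex (μ * n) * ENNReal.ofReal
            (Z d (1 / 2) (uu J (β / (B * ℓ) ^ d) (B * ℓ)) (L * ℓ) n) := by
  classical
  obtain ⟨m0, θ, hm0, hθ, hgeo⟩ := exists_geo hd hJ hc hp
  set I : ℝ := ∫ x, J x
  have hm0' : (0 : ℝ) < m0 := by exact_mod_cast hm0
  have hR : (0 : ℝ) < (d + 1) ^ d := by positivity
  have hr : 0 < r := by linarith
  obtain ⟨y0, hy0, hf0⟩ := F_zero hd hf
  -- the value at zero
  have hq0 : c * x1 ^ 2 ≤ q := by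
    have hlim : Tendsto (fun x : ℝ => m * x + q - c * min ((x - x1) ^ 2) ((x - x2) ^ 2) -
        β * I / 2 * x ^ 2) (𝓝[>] 0) (𝓝 (m * 0 + q - c * min ((0 - x1) ^ 2) ((0 - x2) ^ 2) -
          β * I / 2 * 0 ^ 2)) := by
      refine Tendsto.mono_left ?_ nhdsWithin_le_nhds
      exact Continuous.tendsto (by fun_prop) 0
    have hge : ∀ᶠ x : ℝ in 𝓝[>] 0, 0 ≤ m * x + q - c * min ((x - x1) ^ 2) ((x - x2) ^ 2) -
        β * I / 2 * x ^ 2 := by
      have hmem : Set.Ioo (0 : ℝ) (min y0 r) ∈ 𝓝[>] (0 : ℝ) :=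
        Ioo_mem_nhdsGT (lt_min hy0 hr)
      filter_upwards [hmem] with x hx
      have g1 := hf0 x ⟨hx.1, hx.2.trans_le (min_le_left _ _)⟩
      have g2 := hup x ⟨hx.1, hx.2.trans_le (min_le_right _ _)⟩
      linarith
    have h3 := ge_of_tendsto hlim hge
    have h4 : min ((0 - x1) ^ 2) ((0 - x2) ^ 2) = x1 ^ 2 := by
      rw [zero_sub, zero_sub, neg_sq, neg_sq]
      exact min_eq_left (pow_le_pow_left₀ h1.le h12.le 2)
    rw [h4] at h3
    linarith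
  refine ⟨⟨x1, x2, x2 + (d + 1) ^ d, c, 2 * β * (I + 1), β ^ 2 * θ / (m0 : ℝ) ^ d, m0⟩,
    ⟨h1.le, h12, by simp only; linarith, hc0, by simp only; positivity,
      by simp only; positivity, hm0⟩, rfl, rfl, fun ε hε hε1 => ?_⟩
  -- small parameters
  set e1 : ℝ := min (min ε 1) (ε / (β * (I + 2) * (r + 1) ^ 2)) with he1d
  have hK1 : 0 < β * (I + 2) * (r + 1) ^ 2 := by positivity
  have he1p : 0 < e1 := lt_min (lt_min hε one_pos) (div_pos hε hK1)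
  have he1ε : e1 ≤ ε := (min_le_left _ _).trans (min_le_left _ _)
  have he11 : e1 ≤ 1 := (min_le_left _ _).trans (min_le_right _ _)
  have he1K : e1 * (β * (I + 2) * (r + 1) ^ 2) ≤ ε := by
    have : e1 ≤ ε / (β * (I + 2) * (r + 1) ^ 2) := min_le_right _ _
    rwa [le_div_iff₀ hK1] at this
  set e2 : ℝ := min (min ε 1) (ε / (2 * (|m| + β * I * (2 * r + 1) + 1))) with he2d
  have hK2 : 0 < |m| + β * I * (2 * r + 1) + 1 := by positivity
  have he2p : 0 < e2 := lt_min (lt_min hε one_pos) (by positivity)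
  have he2ε : e2 ≤ ε := (min_le_left _ _).trans (min_le_left _ _)
  have he21 : e2 ≤ 1 := (min_le_left _ _).trans (min_le_right _ _)
  have he2K : e2 * (|m| + β * I * (2 * r + 1) + 1) ≤ ε / 2 := by
    have : e2 ≤ ε / (2 * (|m| + β * I * (2 * r + 1) + 1)) := min_le_right _ _
    rw [le_div_iff₀ (by positivity)] at this
    linarith
  obtain ⟨k, hk, hs1, hs2, hs3, hs4⟩ := hgeo e1 he1p
  have hk' : (0 : ℝ) < k := by exact_mod_cast hk
  have hB : 1 ≤ m0 * k := Nat.mul_pos hm0 hk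
  have hB' : (0 : ℝ) < ((m0 * k : ℕ) : ℝ) := by exact_mod_cast hB
  set tot : ℝ := ∑ v ∈ SB d (m0 * k), JU J (m0 * k) v with htot
  have htot0 : 0 ≤ tot := by linarith
  obtain ⟨ℓa, ha2, hla⟩ := vol_facts hd (ε := e1) (C := max (1 / ε) (2 * (d + 1) ^ d / ε ^ 2)) he1p
  obtain ⟨ℓb, hb2, hlb⟩ := mx_strip hd (ε := ε / ((|m| + 1) * (d + 1) ^ d)) (by positivity)
  obtain ⟨ℓc, hlc⟩ := approx_F hd hf (x := x1) ⟨h1, h12.trans h2⟩ he2p
  obtain ⟨ℓe, hle⟩ := approx_F hd hf (x := x2) ⟨h1.trans h12, h2⟩ he2p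
  refine ⟨k, m0 * k, max (max ℓa ℓb) (max ℓc ℓe), hB,
    lt_of_lt_of_le ha2 ((le_max_left _ _).trans (le_max_left _ _)), fun ℓ hℓ => ?_⟩
  have hℓa : ℓa ≤ ℓ := ((le_max_left _ _).trans (le_max_left _ _)).trans hℓ
  have hℓb : ℓb ≤ ℓ := ((le_max_right _ _).trans (le_max_left _ _)).trans hℓ
  have hℓc : ℓc ≤ ℓ := ((le_max_left _ _).trans (le_max_right _ _)).trans hℓ
  have hℓe : ℓe ≤ ℓ := ((le_max_right _ _).trans (le_max_right _ _)).trans hℓ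
  have hℓ2 : 2 < ℓ := ha2.trans_le hℓa
  have hℓ0 : 0 < ℓ := by linarith
  obtain ⟨hv1, hv2, hv3⟩ := hla ℓ hℓa
  set V : ℝ := (ℓ + 2) ^ d with hV
  have hV0 : 0 < V := by positivity
  have hKp : 0 < β / (((m0 * k : ℕ) : ℝ) * ℓ) ^ d := by positivity
  obtain ⟨E, mE, M, hMS, hMJ, hMJm, hMr, hMN, hMNs, hMK, hpush, hMu, hMl, hxi⟩ :=
    exists_model2 hJ hB hs1 hℓ2 hKp
  have hMtot : M.tot = tot := by
    rw [Md.tot, hMS, hMJ]
  -- the factor
  set W : ℝ := ((ℓ + 2) / ℓ) ^ d with hW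
  have hW1 : 1 ≤ W := one_le_pow₀ (by rw [le_div_iff₀ hℓ0]; linarith)
  have hKV : M.K * V = β * W / ((m0 * k : ℕ) : ℝ) ^ d := by
    rw [hMK, hV, hW, mul_pow, div_pow]
    field_simp
  have hA : |M.K * V * M.tot - β * I| ≤ e1 * (β * (I + 2)) :=
    tot_calc hβ hp he1p.le he11 hW1 hv2 (by positivity) hKV (by rw [hMtot]; exact htot0)
      (by rw [hMtot]; exact hs3)
  have hN : (M.N : ℝ) ≤ (d + 1) ^ d * V := by
    rw [hMN]
    exact mx_le_vol hd hℓ0.le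
  have hVε : 1 ≤ ε * V := by
    have := (le_max_left _ _).trans hv1
    rw [div_le_iff₀ hε] at this
    linarith
  refine ⟨E, mE, M, ℓ ^ d - (ℓ - 2) ^ d, ?_, fun μ L => ?_⟩
  swap
  · rw [hxi]
  constructor
  · exact hε
  · exact hε1
  · exact hV0
  · exact hVε
  · exact hk
  · refine hN.trans (mul_le_mul_of_nonneg_right ?_ hV0.le)
    simp only
    linarith
  · rw [hMNs]
    have g1 := hlb ℓ hℓb
    have g2 := mx_le_vol (d := d) hd hℓ0.le
    rw [abs_neg]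
    calc (|m| + 1) * (mx (Box d ℓ \ Cor d ℓ) : ℝ) ≤
        (|m| + 1) * (ε / ((|m| + 1) * (d + 1) ^ d) * ((d + 1) ^ d * V)) :=
          mul_le_mul_of_nonneg_left (g1.trans (mul_le_mul_of_nonneg_left g2 (by positivity)))
            (by positivity)
      _ = ε * V := by field_simp
  · have : (ℓ - 2) ^ d ≤ ℓ ^ d := pow_le_pow_left₀ (by linarith) (by linarith) _
    linarith
  · refine hv3.trans ?_
    have g1 : ℓ ^ d ≤ V := pow_le_pow_left₀ hℓ0.le (by linarith) _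
    exact mul_le_mul he1ε g1 (by positivity) hε.le
  · exact log_calc hε hV0 (Nat.cast_nonneg _) hN ((le_max_right _ _).trans hv1)
  · rw [hMr]
  · have g1 := (abs_le.1 hA).2
    have g2 : e1 * (β * (I + 2)) ≤ 1 * (β * (I + 2)) :=
      mul_le_mul_of_nonneg_right he11 (by positivity)
    simp only
    linarith
  · have g1 : M.totm = ∑ v ∈ SB d (m0 * k), JL J (m0 * k) v := by
      rw [Md.totm, hMS, hMJm]
    rw [g1, hMtot]
    refine le_trans ?_ hs2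
    exact mul_le_mul_of_nonneg_right (by linarith) htot0
  · intro v hv
    have g1 := hs4 v hv
    have g2 : ∑ u ∈ M.S.filter (fun u => v - u ∈ M.S), jj M V u * jj M V (v - u) =
        (M.K * V) ^ 2 * ∑ u ∈ (SB d (m0 * k)).filter (fun u => v - u ∈ SB d (m0 * k)),
            JU J (m0 * k) u * JU J (m0 * k) (v - u) := by
      rw [mul_sum, hMS]
      refine sum_congr rfl fun u _ => ?_
      unfold jj
      rw [hMJ]
      ring
    rw [g2, hKV]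
    exact coer_calc hm0 hk hβ hθ hW1 g1
  · exact hpush
  · intro n
    have hM1 := hMu n
    rcases Nat.eq_zero_or_pos n with hn | hn
    · subst hn
      refine hM1.trans ?_
      rw [Z_zero]
      unfold ex
      refine ENNReal.ofReal_le_ofReal (Real.one_le_exp ?_)
      exact zero_calc hε hq0 h1 h12 hV0
    · rcases (Z_nonneg (d := d) (1 / 2) (fun _ => 0) ℓ n).eq_or_lt with hz | hz
      · refine hM1.trans ?_
        rw [← hz, ENNReal.ofReal_zero]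
        exact bot_le
      · obtain ⟨g1, g2⟩ := super_F hd hf (by linarith : 1 < ℓ) hn hz
        refine hM1.trans ?_
        unfold ex
        refine ENNReal.ofReal_le_ofReal ?_
        rw [← Real.exp_log hz]
        refine Real.exp_le_exp.2 (g2.trans ?_)
        have g3 := hup _ g1
        unfold Par.q
        refine up_calc hV0.le (r := r) g3 g1.1.le g1.2.le ?_
        have g4 : r ^ 2 ≤ (r + 1) ^ 2 := pow_le_pow_left₀ hr.le (by linarith) 2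
        calc |M.K * V * M.tot - β * I| * r ^ 2 ≤ e1 * (β * (I + 2)) * (r + 1) ^ 2 :=
              mul_le_mul hA g4 (by positivity) (by positivity)
          _ = e1 * (β * (I + 2) * (r + 1) ^ 2) := by ring
          _ ≤ ε := he1K
  · intro y hy
    have hy' : (0 < y ∧ y ≤ r) ∧ f y + β * I / 2 * y ^ 2 = m * y + q ∧
        ∃ n : ℕ, |(n : ℝ) / V - y| ≤ e2 ∧ 0 < Z d (1 / 2) (fun _ => 0) (ℓ - 2) n ∧
        V * (f y - e2) ≤ Real.log (Z d (1 / 2) (fun _ => 0) (ℓ - 2) n) := by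
      rcases hy with hy | hy
      · simp only at hy
        subst hy
        exact ⟨⟨h1, by linarith⟩, he1, hlc ℓ hℓc⟩
      · simp only at hy
        subst hy
        exact ⟨⟨by linarith, h2.le⟩, he2, hle ℓ hℓe⟩
    obtain ⟨hyr, hyf, n, hn1, hn2, hn3⟩ := hy'
    refine ⟨{x | M.c x = x ∧ M.n x = n}, n, ?_, fun x hx => hx, hn1.trans he2ε, ?_⟩
    · exact M.measurableSet_core.inter (M.measurable_n (measurableSet_singleton n))
    · refine le_trans ?_ (hMl n)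
      unfold ex
      refine ENNReal.ofReal_le_ofReal ?_
      rw [← Real.exp_log hn2]
      refine Real.exp_le_exp.2 (le_trans ?_ hn3)
      refine lo_calc hV0.le hyf hyr.1.le hyr.2 (by positivity) hn1 he21 (by positivity) ?_ he2K
      calc |M.K * V * M.tot - β * I| * (r + 1) ^ 2 ≤ e1 * (β * (I + 2)) * (r + 1) ^ 2 :=
            mul_le_mul_of_nonneg_right hA (by positivity)
        _ = e1 * (β * (I + 2) * (r + 1) ^ 2) := by ring
        _ ≤ ε := he1K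

end Pool.Agent.Vdw
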