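import Pool.Agent.Lib.MP_09cbbd_vw.Hs

/-!
# From a kink of the pressure to the transition, with the location of the transition
-/

set_option autoImplicit false

namespace Pool.Agent.Vdw

open MeasureTheory Finset Filter Topology Pool.Agent.StableGas Pool.Agent.SquareWellGas
  Pool.Agent.KacGas Pool.Agent.Kac Pool.Agent.VdwGas
open Pool.Agent.SquareWell hiding Md cut

namespace KinkN

section Coexist

open Set Pool.Agent.ConfinedGas Pool.Agent.StableGas.Th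

variable {d : ℕ} {Z : ℕ → ℕ → ℝ} {C B : ℝ} (T : Th d Z C B)

include T

/-- The affine piece, with bounds for its ends. -/
theorem affine_piece2 (w γ p Mx n1 n2 : ℝ) (hγ : 0 < γ)
    (hpu : ∀ L N : ℕ, 1 ≤ L → 0 < Z L N → Real.log (Z L N) + w * N ≤ p * (L : ℝ) ^ d)
    (hseq : ∀ n : ℕ, ∃ x y : ℝ, 0 ≤ x ∧ x + γ ≤ y ∧ y ≤ Mx ∧ x ≤ n1 + 1 / ((n : ℝ) + 1) ∧
      n2 - 1 / ((n : ℝ) + 1) ≤ y ∧
      (∃ L2 N2 : ℕ, 1 ≤ L2 ∧ 0 < Z L2 N2 ∧ y * (L2 : ℝ) ^ d ≤ N2) ∧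
      ∀ ρ : ℝ, x ≤ ρ → ρ < y → ∀ ε' : ℝ, 0 < ε' → ∀ᶠ L : ℕ in atTop,
        0 < Z L ⌊ρ * (L : ℝ) ^ d⌋₊ ∧
        (-w * ρ + (p - p / (n + 2)) - ε') * (L : ℝ) ^ d ≤
          Real.log (Z L ⌊ρ * (L : ℝ) ^ d⌋₊)) :
    ∃ X Y : ℝ, 0 ≤ X ∧ X < Y ∧ Y ≤ rz d Z ∧ X ≤ n1 ∧ n2 ≤ Y ∧
      ∀ ρ : ℝ, X < ρ → ρ < Y → ff d Z ρ = -w * ρ + p := by
  choose x y hx0 hxy hyM hxn hyn hyZ hline using hseq
  have hcomp : IsCompact ((Icc (0 : ℝ) (Mx)) ×ˢ
      (Icc (0 : ℝ) (Mx))) := isCompact_Icc.prod isCompact_Icc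
  obtain ⟨z, hz, φ, hφ, hφlim⟩ := hcomp.tendsto_subseq (x := fun n => (x n, y n)) (fun n => by
    refine ⟨⟨hx0 n, ?_⟩, ?_, hyM n⟩
    · have := hxy n; have := hyM n; simp only; linarith
    · have := hxy n; have := hx0 n; simp only; linarith)
  obtain ⟨X, Y⟩ := z
  have hX : Tendsto (fun n => x (φ n)) atTop (𝓝 X) :=
    (continuous_fst.tendsto _).comp hφlim
  have hY : Tendsto (fun n => y (φ n)) atTop (𝓝 Y) :=
    (continuous_snd.tendsto _).comp hφlim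
  have hXY : X + γ ≤ Y :=
    le_of_tendsto_of_tendsto' (hX.add_const _) hY fun n => hxy (φ n)
  have hX0 : 0 ≤ X := ge_of_tendsto' hX fun n => hx0 (φ n)
  have hYr : Y ≤ rz d Z := by
    refine le_of_tendsto' hY fun n => ?_
    obtain ⟨L2, N2, h1, h2, h3⟩ := hyZ (φ n)
    have hL' : (0 : ℝ) < L2 := by exact_mod_cast h1
    have h4 := Pool.Agent.StableGas.Th.le_rz T h1 h2
    exact le_of_mul_le_mul_right (h3.trans h4) (by positivity)
  have hlim0 : Tendsto (fun n : ℕ => 1 / ((φ n : ℝ) + 1)) atTop (𝓝 0) :=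
    (tendsto_one_div_add_atTop_nhds_zero_nat (𝕜 := ℝ)).comp hφ.tendsto_atTop
  have hXn : X ≤ n1 := by
    have h := hlim0.const_add n1
    rw [add_zero] at h
    exact le_of_tendsto_of_tendsto' hX h fun n => hxn (φ n)
  have hYn : n2 ≤ Y := by
    have h := hlim0.const_sub n2
    rw [sub_zero] at h
    exact le_of_tendsto_of_tendsto' h hY fun n => hyn (φ n)
  refine ⟨X, Y, hX0, by linarith, hYr, hXn, hYn, ?_⟩
  intro ρ h1 h2
  have hρ0 : 0 ≤ ρ := by linarith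
  have hρr : ρ < rz d Z := by linarith
  apply le_antisymm
  · exact Pool.Agent.StableGas.Th.ff_le T hρ0 hρr hpu
  · obtain ⟨h3, h4⟩ := Pool.Agent.StableGas.Th.lim T hρ0 hρr
    refine le_of_forall_pos_sub_le fun η hη => ?_
    have e1 : ∀ᶠ n : ℕ in atTop, p / ((φ n : ℝ) + 2) < η / 2 := by
      have h5 : Tendsto (fun n : ℕ => p / ((φ n : ℝ) + 2)) atTop (𝓝 0) := by
        have h6 : Tendsto (fun n : ℕ => ((φ n : ℝ) + 2)) atTop atTop :=
          tendsto_atTop_add_const_right _ _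
            (tendsto_natCast_atTop_atTop.comp hφ.tendsto_atTop)
        exact h6.const_div_atTop p
      exact h5.eventually_lt_const (by positivity)
    obtain ⟨n, hn1, hn2, hn3⟩ :=
      ((hX.eventually_lt_const h1).and ((hY.eventually_const_lt h2).and e1)).exists
    have h5 := hline (φ n) ρ hn1.le hn2 (η / 2) (by positivity)
    refine ge_of_tendsto h4 ?_
    filter_upwards [h5, eventually_ge_atTop 1] with L hL hL1
    have hL' : (0 : ℝ) < L := by exact_mod_cast hL1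
    have hLd : (0 : ℝ) < (L : ℝ) ^ d := by positivity
    rw [le_div_iff₀ hLd]
    have h7 : (-w * ρ + p - η) * (L : ℝ) ^ d ≤
        (-w * ρ + (p - p / ((φ n : ℝ) + 2)) - η / 2) * (L : ℝ) ^ d := by
      refine mul_le_mul_of_nonneg_right ?_ hLd.le
      linarith
    linarith [hL.2]

/-- One-sided bounds for the pressure give a coexistence interval. -/
theorem coexist2 {v : ℝ} (hv : 0 < v)
    (hins : ∀ L N K : ℕ, 1 ≤ L → (∀ n, 0 < Z L n → n ≤ K) → N ≤ K →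
      ((N : ℝ) + 1) * Z L (N + 1) ≤ v * ((K : ℝ) - N) * Z L N)
    (w n1 n2 : ℝ) (hn : n1 < n2)
    (hp : ∃ L N : ℕ, 1 ≤ L ∧ 0 < Z L N ∧ 0 < Real.log (Z L N) + w * N)
    (hplus : ∀ h : ℝ, 0 < h → h ≤ 1 → ∃ A : ℕ → ℝ, (∀ L, 0 < A L) ∧
      Tendsto (fun L : ℕ => Real.log (A L) / (L : ℝ) ^ d) atTop (𝓝 0) ∧
      ∀ L : ℕ, 1 ≤ L → ∃ N' : ℕ, ∀ N : ℕ,
      Z L N * Real.exp (w * N) * Real.exp (h * n2 * ((L : ℝ) + 4) ^ d) ≤
        A L * (Z (L + 5) N' * Real.exp ((w + h) * N')))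
    (hminus : ∀ h : ℝ, 0 < h → h ≤ 1 → ∃ A : ℕ → ℝ, (∀ L, 0 < A L) ∧
      Tendsto (fun L : ℕ => Real.log (A L) / (L : ℝ) ^ d) atTop (𝓝 0) ∧
      ∀ L : ℕ, 1 ≤ L → ∃ N' : ℕ, ∀ N : ℕ,
      Z L N * Real.exp (w * N) * Real.exp (-(h * n1) * ((L : ℝ) + 4) ^ d) ≤
        A L * (Z (L + 5) N' * Real.exp ((w - h) * N'))) :
    ∃ ρ₁ ρ₂ b : ℝ, 0 < ρ₁ ∧ ρ₁ < ρ₂ ∧ ρ₂ < rz d Z ∧ ρ₁ ≤ n1 ∧ n2 ≤ ρ₂ ∧
      (∀ L N : ℕ, 1 ≤ L → 0 < Z L N → Real.log (Z L N) + w * N ≤ b * (L : ℝ) ^ d) ∧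
      (∀ ρ ∈ Ioo 0 (rz d Z), ff d Z ρ ≤ -w * ρ + b ∧
        (ff d Z ρ = -w * ρ + b ↔ ρ ∈ Icc ρ₁ ρ₂)) ∧
      ¬ AnalyticAt ℝ (ff d Z) ρ₁ ∧ ¬ AnalyticAt ℝ (ff d Z) ρ₂ := by
  have hC := T.hC
  have hub := T.ub
  obtain ⟨p, hp0, hpu, hpl⟩ := Pool.Agent.ConfinedGas.exists_p Z hC hub w hp
  obtain ⟨Mx, hMx⟩ : ∃ Mx : ℝ, Mx = C * Real.exp (w + 2) := ⟨_, rfl⟩
  have hMx0 : 0 < Mx := by rw [hMx]; positivity
  have haff := affine_piece2 T w ((n2 - n1) / 2) p Mx n1 n2 (by linarith) hpu fun n => by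
    obtain ⟨ε, hε⟩ : ∃ ε : ℝ, ε = p / (n + 2) := ⟨_, rfl⟩
    have hε0 : 0 < ε := by rw [hε]; positivity
    rw [← hε]
    obtain ⟨W, hW⟩ : ∃ W : ℝ, W = Mx + |n1| + |n2| + 1 := ⟨_, rfl⟩
    have hW1 : 1 ≤ W := by
      rw [hW]
      have := abs_nonneg n1
      have := abs_nonneg n2
      linarith
    obtain ⟨h, hh⟩ : ∃ h : ℝ, h = min (min (1 / ((n : ℝ) + 1)) ((n2 - n1) / 4))
        (min (ε / W) (p / (2 * W))) := ⟨_, rfl⟩
    have hh0 : 0 < h := by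
      rw [hh]
      have : 0 < n2 - n1 := by linarith
      positivity
    have hhn : h ≤ 1 / ((n : ℝ) + 1) := by
      rw [hh]; exact (min_le_left _ _).trans (min_le_left _ _)
    have hh1 : h ≤ 1 := by
      refine hhn.trans ?_
      rw [div_le_one (by positivity)]
      have : (0 : ℝ) ≤ n := n.cast_nonneg
      linarith
    have hh2 : h ≤ (n2 - n1) / 4 := by rw [hh]; exact (min_le_left _ _).trans (min_le_right _ _)
    have hh3 : h * W ≤ ε := by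
      have : h ≤ ε / W := by rw [hh]; exact (min_le_right _ _).trans (min_le_left _ _)
      rwa [le_div_iff₀ (by linarith)] at this
    have hh4 : h * W ≤ p / 2 := by
      have : h ≤ p / (2 * W) := by rw [hh]; exact (min_le_right _ _).trans (min_le_right _ _)
      rw [le_div_iff₀ (by linarith)] at this
      linarith
    have hn2 : -(h * |n2|) ≤ h * n2 := by
      have := mul_le_mul_of_nonneg_left (neg_abs_le n2) hh0.le
      linarith
    have hn1 : h * n1 ≤ h * |n1| := mul_le_mul_of_nonneg_left (le_abs_self n1) hh0.le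
    have hWe : h * W = h * Mx + h * |n1| + h * |n2| + h := by rw [hW]; ring
    have p1 : 0 ≤ h * |n1| := by positivity
    have p2 : 0 ≤ h * |n2| := by positivity
    have p3 : 0 < h * Mx := by positivity
    have hhsq : h ^ 2 ≤ h := by nlinarith
    obtain ⟨A2, hA2, hA20, hA2H⟩ := hplus h hh0 hh1
    obtain ⟨A1, hA1, hA10, hA1H⟩ := hminus h hh0 hh1
    obtain ⟨L2, N2, hL2, hZ2, hN2⟩ := far_point Z T.hd T.sup w (w + h) p (h * n2) hp0 hpl A2 hA2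
      hA20 hA2H (h ^ 2) (by positivity)
    obtain ⟨L1, N1, hL1, hZ1, hN1⟩ := far_point Z T.hd T.sup w (w - h) p (-(h * n1)) hp0 hpl A1
      hA1 hA10 hA1H (h ^ 2) (by positivity)
    have hL1' : (0 : ℝ) < L1 := by exact_mod_cast hL1
    have hL2' : (0 : ℝ) < L2 := by exact_mod_cast hL2
    have hV1 : (0 : ℝ) < (L1 : ℝ) ^ d := by positivity
    have hV2 : (0 : ℝ) < (L2 : ℝ) ^ d := by positivity
    have hu1 := hpu L1 N1 hL1 hZ1
    have hu2 := hpu L2 N2 hL2 hZ2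
    -- bound for the second density
    have hb : (N2 : ℝ) ≤ Mx * (L2 : ℝ) ^ d := by
      have g1 := log_add_le Z hC hub (w + h + 1) L2 N2 hZ2
      have g2 : 0 ≤ (p + h * n2 - h ^ 2) * (L2 : ℝ) ^ d := by
        refine mul_nonneg ?_ hV2.le
        linarith
      have g3 : C * Real.exp (w + h + 1) * (L2 : ℝ) ^ d ≤ Mx * (L2 : ℝ) ^ d := by
        rw [hMx]
        have : Real.exp (w + h + 1) ≤ Real.exp (w + 2) := Real.exp_le_exp.2 (by linarith)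
        gcongr
      have g4 : Real.log (Z L2 N2) + (w + h + 1) * N2 =
          (Real.log (Z L2 N2) + (w + h) * N2) + N2 := by ring
      linarith
    have hy2 : (n2 - h) * (L2 : ℝ) ^ d ≤ N2 := by
      have g1 : h * ((n2 - h) * (L2 : ℝ) ^ d) ≤ h * N2 := by
        have : (p + h * n2 - h ^ 2) * (L2 : ℝ) ^ d ≤ p * (L2 : ℝ) ^ d + h * N2 := by linarith
        linarith
      exact le_of_mul_le_mul_left g1 hh0
    have hx1 : (N1 : ℝ) ≤ (n1 + h) * (L1 : ℝ) ^ d := by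
      have g1 : h * N1 ≤ h * ((n1 + h) * (L1 : ℝ) ^ d) := by
        have : (p + -(h * n1) - h ^ 2) * (L1 : ℝ) ^ d ≤ p * (L1 : ℝ) ^ d - h * N1 := by linarith
        linarith
      exact le_of_mul_le_mul_left g1 hh0
    have e2 : -w * N2 + (p - ε) * (L2 : ℝ) ^ d ≤ Real.log (Z L2 N2) := by
      have g1 : h * N2 ≤ h * (Mx * (L2 : ℝ) ^ d) := mul_le_mul_of_nonneg_left hb hh0.le
      have g2 : (p - ε) * (L2 : ℝ) ^ d ≤ (p + h * n2 - h ^ 2 - h * Mx) * (L2 : ℝ) ^ d := by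
        refine mul_le_mul_of_nonneg_right ?_ hV2.le
        linarith
      linarith
    have e1 : -w * N1 + (p - ε) * (L1 : ℝ) ^ d ≤ Real.log (Z L1 N1) := by
      have g1 : 0 ≤ h * (N1 : ℝ) := by positivity
      have g2 : (p - ε) * (L1 : ℝ) ^ d ≤ (p + -(h * n1) - h ^ 2) * (L1 : ℝ) ^ d := by
        refine mul_le_mul_of_nonneg_right ?_ hV1.le
        linarith
      linarith
    refine ⟨N1 / (L1 : ℝ) ^ d, N2 / (L2 : ℝ) ^ d, by positivity, ?_, ?_, ?_, ?_,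
      ⟨L2, N2, hL2, hZ2, by rw [div_mul_cancel₀ _ hV2.ne']⟩, ?_⟩
    · have g1 : (N1 : ℝ) / (L1 : ℝ) ^ d ≤ n1 + h := by rwa [div_le_iff₀ hV1]
      have g2 : n2 - h ≤ (N2 : ℝ) / (L2 : ℝ) ^ d := by rwa [le_div_iff₀ hV2]
      linarith
    · rwa [div_le_iff₀ hV2]
    · have g1 : (N1 : ℝ) / (L1 : ℝ) ^ d ≤ n1 + h := by rwa [div_le_iff₀ hV1]
      linarith
    · have g2 : n2 - h ≤ (N2 : ℝ) / (L2 : ℝ) ^ d := by rwa [le_div_iff₀ hV2]
      linarith
    · intro ρ h1 h2 ε' hε'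
      refine lower_line2 Z T.hd T.sup T.her ρ (-w) (p - ε) L1 N1 L2 N2 hL1 hL2 hZ1 hZ2 e1 e2 ?_ ?_
        ε' hε'
      · rwa [div_le_iff₀ hV1] at h1
      · rwa [lt_div_iff₀ hV2] at h2
  obtain ⟨X, Y, hX, hXY, hY, hXn, hYn, hXYa⟩ := haff
  obtain ⟨ρ₁, ρ₂, h1, h2, h3, h4, h5, h6⟩ := Pool.Agent.StableGas.Th.contact T hv hins hp0 hpu hX hXY hY hXYa
  have hin : ∀ ρ : ℝ, X < ρ → ρ < Y → ρ₁ ≤ ρ ∧ ρ ≤ ρ₂ := by
    intro ρ g1 g2
    exact (h4 ρ ⟨by linarith, by linarith⟩).2.1 (hXYa ρ g1 g2)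
  refine ⟨ρ₁, ρ₂, p, h1, h2, h3, ?_, ?_, hpu, h4, h5, h6⟩
  · refine le_trans ?_ hXn
    by_contra hcon
    push Not at hcon
    have g1 : X < (X + min ρ₁ Y) / 2 := by
      have := lt_min hcon hXY
      linarith
    have g2 : (X + min ρ₁ Y) / 2 < Y := by
      have := min_le_right ρ₁ Y
      linarith
    have g3 := (hin _ g1 g2).1
    have g4 := min_le_left ρ₁ Y
    linarith
  · refine hYn.trans ?_
    by_contra hcon
    push Not at hcon
    have g1 : X < (Y + max ρ₂ X) / 2 := by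
      have := le_max_right ρ₂ X
      linarith
    have g2 : (Y + max ρ₂ X) / 2 < Y := by
      have := max_lt hcon hXY
      linarith
    have g3 := (hin _ g1 g2).2
    have g4 := le_max_left ρ₂ X
    linarith

end Coexist

variable {d : ℕ}

/-- The limit along real side lengths. -/
theorem lim_of {J : (Fin d → ℝ) → ℝ} (hJ : Ad J) {C B ℓ R K : ℝ} (hK : 0 ≤ K) (hℓ : 1 < ℓ)
    (T : Th d (Zt d ℓ (uu J K R)) C B) (u : ℕ → ℝ) (N : ℕ → ℕ) (ρ : ℝ)
    (hu : Tendsto u atTop atTop) (hN : Tendsto (fun j => (N j : ℝ) / u j ^ d) atTop (𝓝 ρ)) :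
    (ρ ∈ Set.Ioo 0 (Th.rz d (Zt d ℓ (uu J K R))) →
      (∀ᶠ j in atTop, 0 < Z d (1 / 2) (uu J K R) (u j * ℓ) (N j)) ∧
      Tendsto (fun j => Real.log (Z d (1 / 2) (uu J K R) (u j * ℓ) (N j)) / u j ^ d) atTop
        (𝓝 (Th.ff d (Zt d ℓ (uu J K R)) ρ))) ∧
    (Th.rz d (Zt d ℓ (uu J K R)) < ρ →
      ∀ᶠ j in atTop, Z d (1 / 2) (uu J K R) (u j * ℓ) (N j) = 0) := by
  have hℓ0 : 0 < ℓ := by linarith
  obtain ⟨t, ht⟩ : ∃ t : ℕ → ℝ, t = fun j => u j - 1 + 1 / ℓ := ⟨_, rfl⟩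
  have htu : Tendsto t atTop atTop := by
    rw [ht]
    exact tendsto_atTop_add_const_right _ _ (tendsto_atTop_add_const_right _ _ hu)
  have hratio : Tendsto (fun j => t j / u j) atTop (𝓝 1) := by
    have g1 : Tendsto (fun j => 1 + (-1 + 1 / ℓ) / u j) atTop (𝓝 (1 + 0)) :=
      (hu.const_div_atTop _).const_add 1
    rw [add_zero] at g1
    refine g1.congr' ?_
    filter_upwards [hu.eventually_gt_atTop 0] with j hj
    rw [ht]
    field_simp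
    ring
  have hratio' : Tendsto (fun j => (t j / u j) ^ d) atTop (𝓝 1) := by
    have := hratio.pow d
    rwa [one_pow] at this
  have hNt : Tendsto (fun j => (N j : ℝ) / t j ^ d) atTop (𝓝 ρ) := by
    have g1 := hN.div hratio' one_ne_zero
    rw [div_one] at g1
    refine g1.congr' ?_
    filter_upwards [hu.eventually_gt_atTop 0, htu.eventually_gt_atTop 0] with j hj hj'
    simp only [Pi.div_apply]
    rw [div_pow]
    field_simp
  have hZr : ∀ j, Z d (1 / 2) (uu J K R) (u j * ℓ) (N j) =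
      (fun (t : ℝ) (N : ℕ) => Z d (1 / 2) (uu J K R) ((t + 1) * ℓ - 1) N) (t j) (N j) := by
    intro j
    simp only
    congr 1
    rw [ht]
    field_simp
    ring
  have hr1 : ∀ t : ℝ, 0 ≤ t → ∀ N, Zt d ℓ (uu J K R) (⌊t⌋₊ + 1) N ≤
      (fun (t : ℝ) (N : ℕ) => Z d (1 / 2) (uu J K R) ((t + 1) * ℓ - 1) N) t N := by
    intro t ht N
    refine Z_mono hJ hK ?_ N
    have := Nat.floor_le ht
    push_cast
    have : ((⌊t⌋₊ : ℝ) + 1) * ℓ ≤ (t + 1) * ℓ := mul_le_mul_of_nonneg_right (by linarith) hℓ0.le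
    linarith
  have hr2 : ∀ t : ℝ, 0 ≤ t → ∀ N,
      (fun (t : ℝ) (N : ℕ) => Z d (1 / 2) (uu J K R) ((t + 1) * ℓ - 1) N) t N ≤
        Zt d ℓ (uu J K R) (⌊t⌋₊ + 2) N := by
    intro t _ N
    refine Z_mono hJ hK ?_ N
    have := (Nat.lt_floor_add_one t).le
    push_cast
    have : (t + 1) * ℓ ≤ ((⌊t⌋₊ : ℝ) + 2) * ℓ := mul_le_mul_of_nonneg_right (by linarith) hℓ0.le
    linarith
  constructor
  · rintro ⟨g0, g1⟩
    obtain ⟨g2, g3⟩ := Th.seq T hr1 hr2 htu hNt g0 g1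
    refine ⟨?_, ?_⟩
    · filter_upwards [g2] with j hj
      rw [hZr]
      exact hj
    · have g4 := g3.mul hratio'
      rw [mul_one] at g4
      refine g4.congr' ?_
      filter_upwards [hu.eventually_gt_atTop 0, htu.eventually_gt_atTop 0] with j hj hj'
      rw [hZr, div_pow]
      field_simp
  · intro g
    have g1 := Th.seq_zero T (fun t N => Kink.Z_nonneg d (1 / 2) _ _ N) hr2 htu hNt g
    filter_upwards [g1] with j hj
    rw [hZr]
    exact hj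

/-- The free energy per volume at the scale of the hard spheres. -/
theorem isF_of {J : (Fin d → ℝ) → ℝ} (hJ : Ad J) {C B ℓ R K : ℝ} (hK : 0 ≤ K) (hℓ : 1 < ℓ)
    (T : Th d (Zt d ℓ (uu J K R)) C B) (hrz : 0 < Th.rz d (Zt d ℓ (uu J K R))) :
    IsF d (1 / 2) (uu J K R) (fun ρ => Th.ff d (Zt d ℓ (uu J K R)) (ρ * ℓ ^ d) / ℓ ^ d)
      (Th.rz d (Zt d ℓ (uu J K R)) / ℓ ^ d) := by
  have hℓ0 : 0 < ℓ := by linarith
  have hsd : 0 < ℓ ^ d := by positivity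
  refine ⟨by positivity, fun l N ρ hl hN => ?_⟩
  have hu : Tendsto (fun j => l j / ℓ) atTop atTop := hl.atTop_div_const hℓ0
  have hNu : Tendsto (fun j => (N j : ℝ) / (l j / ℓ) ^ d) atTop (𝓝 (ρ * ℓ ^ d)) := by
    refine (hN.mul_const (ℓ ^ d)).congr fun j => ?_
    rw [div_pow, div_div_eq_mul_div]
    ring
  obtain ⟨g1, g2⟩ := lim_of hJ hK hℓ T _ N _ hu hNu
  simp only [div_mul_cancel₀ _ hℓ0.ne'] at g1 g2
  constructor
  · rintro ⟨hρ0, hρ1⟩
    rw [lt_div_iff₀ hsd] at hρ1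
    obtain ⟨g3, g4⟩ := g1 ⟨mul_pos hρ0 hsd, hρ1⟩
    refine ⟨g3, (g4.div_const (ℓ ^ d)).congr' ?_⟩
    filter_upwards [hl.eventually_gt_atTop 0] with j hj
    rw [div_pow]
    field_simp
  · intro hρ
    rw [div_lt_iff₀ hsd] at hρ
    exact g2 hρ

/-- Comparison of the maximal densities. -/
theorem rho_le (hd : 1 ≤ d) {u v : (Fin d → ℝ) → ℝ} {f g : ℝ → ℝ} {r s : ℝ}
    (hf : IsF d (1 / 2) u f r) (hg : IsF d (1 / 2) v g s)
    (h : ∀ (l : ℝ) (N : ℕ), 0 < Z d (1 / 2) u l N → 0 < Z d (1 / 2) v l N) : r ≤ s := by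
  by_contra hcon
  push Not at hcon
  obtain ⟨ρ, h1, h2⟩ := exists_between hcon
  have hρ0 : 0 < ρ := hg.1.trans h1
  have hl : Tendsto (fun j : ℕ => (j : ℝ)) atTop atTop := tendsto_natCast_atTop_atTop
  have hN : Tendsto (fun j : ℕ => ((⌊ρ * (j : ℝ) ^ d⌋₊ : ℕ) : ℝ) / (j : ℝ) ^ d) atTop (𝓝 ρ) :=
    (tendsto_nat_floor_mul_div_atTop hρ0.le).comp (Pool.Agent.ConfinedGas.tendsto_vol (d := d) hd)
  have h3 := ((hf.2 _ _ ρ hl hN).1 ⟨hρ0, h2⟩).1
  have h4 := (hg.2 _ _ ρ hl hN).2 h1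
  obtain ⟨j, h5, h6⟩ := (h3.and h4).exists
  have h7 := h _ _ h5
  rw [h6] at h7
  exact lt_irrefl _ h7

end KinkN

open KinkN

variable {d : ℕ} {J : (Fin d → ℝ) → ℝ}

/-- A kink of the pressure gives a transition, with bounds for the densities. -/
theorem transition_near_of_kink (hd : 1 ≤ d) (hJ : Ad J) {ℓ R K : ℝ} (hℓ : 2 < ℓ) (hR : 0 < R)
    (hK : 0 ≤ K) {p : ℝ → ℝ} (hp : ConvexOn ℝ Set.univ p)
    (hlim : ∀ μ : ℝ, Tendsto (fun L : ℕ => Real.log (∑' n : ℕ, ex (μ * n) *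
      ENNReal.ofReal (Z d (1 / 2) (uu J K R) (L * ℓ) n)).toReal / (L : ℝ) ^ d) atTop (𝓝 (p μ)))
    {f : ℝ → ℝ} {r : ℝ} (hf : IsF d (1 / 2) (fun _ => 0) f r)
    {w n1 n2 m1 m2 : ℝ} (hn : n1 < n2)
    (h1 : ∀ h : ℝ, 0 < h → p w + h * n2 ≤ p (w + h))
    (h2 : ∀ h : ℝ, 0 < h → p w - h * n1 ≤ p (w - h))
    (h3 : ∃ h : ℝ, 0 < h ∧ p (w + h) ≤ p w + h * m2)
    (h4 : ∃ h : ℝ, 0 < h ∧ p (w - h) ≤ p w - h * m1) :
    ∃ (g : ℝ → ℝ) (ρ₁ ρ₂ c b : ℝ), IsF d (1 / 2) (uu J K R) g r ∧ 0 < ρ₁ ∧ ρ₁ < ρ₂ ∧ ρ₂ < r ∧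
      m1 / ℓ ^ d ≤ ρ₁ ∧ ρ₁ ≤ n1 / ℓ ^ d ∧ n2 / ℓ ^ d ≤ ρ₂ ∧ ρ₂ ≤ m2 / ℓ ^ d ∧
      (∀ ρ ∈ Set.Ioo 0 r, g ρ ≤ c * ρ + b ∧ (g ρ = c * ρ + b ↔ ρ ∈ Set.Icc ρ₁ ρ₂)) ∧
      ¬ AnalyticAt ℝ g ρ₁ ∧ ¬ AnalyticAt ℝ g ρ₂ := by
  classical
  have hℓ0 : 0 < ℓ := by linarith
  have hℓ1 : 1 < ℓ := by linarith
  obtain ⟨C, B, T⟩ := exists_th hd hJ hℓ1 hR hK
  obtain ⟨v, hv, hins⟩ := insert_le hd hJ hℓ1 hR hK
  -- elementary facts
  have hup : ∀ L n : ℕ, Z d (1 / 2) (uu J K R) (L * ℓ) n ≤ Zt d ℓ (uu J K R) (L + 1) n := by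
    intro L n
    refine Z_mono hJ hK ?_ n
    push_cast
    linarith
  have hlo : ∀ L n : ℕ, Zt d ℓ (uu J K R) L n ≤ Z d (1 / 2) (uu J K R) (L * ℓ) n := by
    intro L n
    exact Z_mono hJ hK (by linarith) n
  have hB0 : 0 ≤ B := by
    have h1 := T.fin 1 0 le_rfl (by rw [T.zero]; exact one_pos)
    simpa using h1
  have hZ0 : ∀ L n : ℕ, 0 ≤ Z d (1 / 2) (uu J K R) (L * ℓ) n := fun L n => Kink.Z_nonneg d _ _ _ n
  obtain ⟨Q, hQ⟩ : ∃ Q : ℕ → ℕ, Q = fun L : ℕ => ⌊B * ((L : ℝ) + 1) ^ d⌋₊ := ⟨_, rfl⟩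
  have hzero : ∀ L n : ℕ, n ∉ Finset.range (Q L + 1) → Z d (1 / 2) (uu J K R) (L * ℓ) n = 0 := by
    intro L n hn
    rw [Finset.mem_range, not_lt] at hn
    by_contra hcon
    have h1 : 0 < Zt d ℓ (uu J K R) (L + 1) n :=
      lt_of_lt_of_le (lt_of_le_of_ne (hZ0 L n) (Ne.symm hcon)) (hup L n)
    have h2 := T.fin (L + 1) n (by omega) h1
    push_cast at h2
    have h3 : n ≤ ⌊B * ((L : ℝ) + 1) ^ d⌋₊ := Nat.le_floor h2
    have h4 : Q L = ⌊B * ((L : ℝ) + 1) ^ d⌋₊ := by rw [hQ]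
    omega
  -- the partition functions
  obtain ⟨S, hS⟩ : ∃ S : ℝ → ℕ → ℝ, S = fun (μ : ℝ) (L : ℕ) => ∑ n ∈ Finset.range (Q L + 1),
    Real.exp (μ * n) * Z d (1 / 2) (uu J K R) (L * ℓ) n := ⟨_, rfl⟩
  have hSeq : ∀ (μ : ℝ) (L : ℕ), (∑' n : ℕ, ex (μ * n) *
      ENNReal.ofReal (Z d (1 / 2) (uu J K R) (L * ℓ) n)).toReal = S μ L := by
    intro μ L
    rw [tsum_eq_sum (s := Finset.range (Q L + 1)) (fun n hn => by
      rw [hzero L n hn, ENNReal.ofReal_zero, mul_zero]), ENNReal.toReal_sum (fun n _ =>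
      ENNReal.mul_ne_top (ex_ne_top _) ENNReal.ofReal_ne_top), hS]
    refine Finset.sum_congr rfl fun n _ => ?_
    rw [ENNReal.toReal_mul, ex_toReal, ENNReal.toReal_ofReal (hZ0 L n)]
  have hlim' : ∀ μ : ℝ, Tendsto (fun L : ℕ => Real.log (S μ L) / (L : ℝ) ^ d) atTop
      (𝓝 (p μ)) := by
    intro μ
    refine (hlim μ).congr fun L => ?_
    rw [hSeq]
  have hterm0 : ∀ (μ : ℝ) (L n : ℕ), 0 ≤ Real.exp (μ * n) * Z d (1 / 2) (uu J K R) (L * ℓ) n :=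
    fun μ L n => mul_nonneg (Real.exp_pos _).le (hZ0 L n)
  have hSterm : ∀ (μ : ℝ) (L n : ℕ), Real.exp (μ * n) * Z d (1 / 2) (uu J K R) (L * ℓ) n ≤ S μ L := by
    intro μ L n
    rw [hS]
    by_cases hn : n ∈ Finset.range (Q L + 1)
    · exact Finset.single_le_sum
        (f := fun n : ℕ => Real.exp (μ * n) * Z d (1 / 2) (uu J K R) (L * ℓ) n)
        (fun n _ => hterm0 μ L n) hn
    · rw [hzero L n hn, mul_zero]
      exact Finset.sum_nonneg fun n _ => hterm0 μ L n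
  have hSpos : ∀ μ L, 0 < S μ L := by
    intro μ L
    have h1 := hSterm μ L 0
    have h2 : 1 ≤ Z d (1 / 2) (uu J K R) (L * ℓ) 0 := by
      have := hlo L 0
      rwa [T.zero] at this
    have h3 : Real.exp (μ * (0 : ℕ)) = 1 := by simp
    rw [h3, one_mul] at h1
    linarith
  have hSmax : ∀ (μ : ℝ) (L : ℕ), ∃ N' : ℕ, S μ L ≤ (B * ((L : ℝ) + 1) ^ d + 1) *
      (Real.exp (μ * N') * Z d (1 / 2) (uu J K R) (L * ℓ) N') := by
    intro μ L
    obtain ⟨N', _, hN'⟩ := Finset.exists_max_image (Finset.range (Q L + 1))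
      (fun n : ℕ => Real.exp (μ * n) * Z d (1 / 2) (uu J K R) (L * ℓ) n)
      ⟨0, Finset.mem_range.2 (Nat.succ_pos _)⟩
    refine ⟨N', ?_⟩
    have h1 := Finset.sum_le_card_nsmul (Finset.range (Q L + 1))
      (fun n : ℕ => Real.exp (μ * n) * Z d (1 / 2) (uu J K R) (L * ℓ) n) _ hN'
    rw [Finset.card_range, nsmul_eq_mul] at h1
    rw [hS]
    refine h1.trans (mul_le_mul_of_nonneg_right ?_ (hterm0 μ L N'))
    push_cast
    have h2 : (Q L : ℝ) ≤ B * ((L : ℝ) + 1) ^ d := by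
      rw [hQ]
      exact Nat.floor_le (by positivity)
    linarith
  -- the upper bound
  have hpoint : ∀ L N : ℕ, 1 ≤ L → Zt d ℓ (uu J K R) L N * Real.exp (w * N) ≤
      Real.exp (p w * (L : ℝ) ^ d) := by
    intro L N hL
    rcases (T.nonneg L N).eq_or_lt with h0 | h0
    · rw [← h0, zero_mul]; exact (Real.exp_pos _).le
    have hL' : (0 : ℝ) < L := by exact_mod_cast hL
    have hLd : (0 : ℝ) < (L : ℝ) ^ d := by positivity
    have key : (Real.log (Zt d ℓ (uu J K R) L N) + w * N) / (L : ℝ) ^ d ≤ p w := by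
      have hk : Tendsto (fun k : ℕ => k * L) atTop atTop :=
        tendsto_id.atTop_mul_const' (by omega)
      refine ge_of_tendsto ((hlim' w).comp hk) ?_
      filter_upwards [eventually_ge_atTop 1] with k hk1
      have hk' : (0 : ℝ) < k := by exact_mod_cast hk1
      simp only [Function.comp]
      have h4 := T.sup L k (k * L) (List.replicate (k ^ d) N) hL le_rfl
        (by rw [List.length_replicate])
      rw [List.map_replicate, List.prod_replicate, List.sum_replicate, smul_eq_mul] at h4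
      have h5 := h4.trans (hlo (k * L) (k ^ d * N))
      have h6 := hSterm w (k * L) (k ^ d * N)
      have h7 : Real.exp (w * ((k ^ d * N : ℕ) : ℝ)) * Zt d ℓ (uu J K R) L N ^ k ^ d ≤ S w (k * L) :=
        (mul_le_mul_of_nonneg_left h5 (Real.exp_pos _).le).trans h6
      have h8 := Real.log_le_log (by positivity) h7
      rw [Real.log_mul (Real.exp_pos _).ne' (pow_pos h0 _).ne', Real.log_exp,
        Real.log_pow] at h8
      rw [div_le_div_iff₀ hLd (by positivity)]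
      push_cast at h8 ⊢
      have h9 : (Real.log (Zt d ℓ (uu J K R) L N) + w * N) * ((k : ℝ) * L) ^ d =
          (w * ((k : ℝ) ^ d * N) + (k : ℝ) ^ d * Real.log (Zt d ℓ (uu J K R) L N)) * (L : ℝ) ^ d := by
        rw [mul_pow]; ring
      rw [h9]
      exact mul_le_mul_of_nonneg_right h8 hLd.le
    rw [div_le_iff₀ hLd] at key
    have h10 : Zt d ℓ (uu J K R) L N * Real.exp (w * N) =
        Real.exp (Real.log (Zt d ℓ (uu J K R) L N) + w * N) := by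
      rw [Real.exp_add, Real.exp_log h0]
    rw [h10]
    exact Real.exp_le_exp.2 key
  -- the one-sided estimates
  have hgen : ∀ (g b : ℝ), p w + b ≤ p g → ∃ A : ℕ → ℝ, (∀ L, 0 < A L) ∧
      Tendsto (fun L : ℕ => Real.log (A L) / (L : ℝ) ^ d) atTop (𝓝 0) ∧
      ∀ L : ℕ, 1 ≤ L → ∃ N' : ℕ, ∀ N : ℕ,
      Zt d ℓ (uu J K R) L N * Real.exp (w * N) * Real.exp (b * ((L : ℝ) + 4) ^ d) ≤
        A L * (Zt d ℓ (uu J K R) (L + 5) N' * Real.exp (g * N')) := by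
    intro g b hgb
    obtain ⟨A, hA1, hA2, hA3⟩ := Kink.amp hd (S := S g) (hSpos g) (q := p g) (p := p w) (b := b)
      (B := B * 6 ^ d) (by positivity) (hlim' g) hgb
    refine ⟨A, hA1, hA2, fun L hL => ?_⟩
    obtain ⟨N', hN'⟩ := hSmax g (L + 4)
    refine ⟨N', fun N => ?_⟩
    have hL' : (1 : ℝ) ≤ L := by exact_mod_cast hL
    have e1 : B * (((L + 4 : ℕ) : ℝ) + 1) ^ d + 1 ≤ B * 6 ^ d * (L : ℝ) ^ d + 1 := by
      have e2 : (((L + 4 : ℕ) : ℝ) + 1) ^ d ≤ (6 * (L : ℝ)) ^ d := by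
        push_cast
        refine pow_le_pow_left₀ (by positivity) (by linarith) d
      rw [mul_pow] at e2
      have e3 := mul_le_mul_of_nonneg_left e2 hB0
      linarith
    have e4 := mul_le_mul_of_nonneg_right e1 (hterm0 g (L + 4) N')
    have e5 : Real.exp (g * N') * Z d (1 / 2) (uu J K R) ((L + 4 : ℕ) * ℓ) N' ≤
        Zt d ℓ (uu J K R) (L + 5) N' * Real.exp (g * N') := by
      rw [mul_comm]
      exact mul_le_mul_of_nonneg_right (hup (L + 4) N') (Real.exp_pos _).le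
    have e6 : 0 < B * 6 ^ d * (L : ℝ) ^ d + 1 := by positivity
    have e7 : S g (L + 4) ≤ (B * 6 ^ d * (L : ℝ) ^ d + 1) *
        (Zt d ℓ (uu J K R) (L + 5) N' * Real.exp (g * N')) :=
      (hN'.trans e4).trans (mul_le_mul_of_nonneg_left e5 e6.le)
    have e8 := (hA3 L).trans (mul_le_mul_of_nonneg_left e7 (hA1 L).le)
    have e9 := mul_le_mul_of_nonneg_right (hpoint L N hL)
      (Real.exp_pos (b * ((L : ℝ) + 4) ^ d)).le
    refine e9.trans ?_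
    refine le_of_mul_le_mul_right ?_ e6
    refine e8.trans (le_of_eq ?_)
    ring
  have hbase : ∃ L N : ℕ, 1 ≤ L ∧ 0 < Zt d ℓ (uu J K R) L N ∧
      0 < Real.log (Zt d ℓ (uu J K R) L N) + w * N := by
    obtain ⟨L, hL⟩ := exists_nat_gt (Real.exp (-w) + 1)
    have h1 : (1 : ℝ) < L := by
      have := Real.exp_pos (-w)
      linarith
    have hL1 : 1 ≤ L := by exact_mod_cast h1.le
    refine ⟨L, 1, hL1, ?_⟩
    have h2 : Real.exp (-w) < L * ℓ - 1 := by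
      have : (L : ℝ) * 2 ≤ L * ℓ := mul_le_mul_of_nonneg_left hℓ.le (by linarith)
      linarith
    have h3 : (1 : ℝ) < L * ℓ - 1 := by
      have : (L : ℝ) * 2 ≤ L * ℓ := mul_le_mul_of_nonneg_left hℓ.le (by linarith)
      linarith
    have h4 : Zt d ℓ (uu J K R) L 1 = (L * ℓ - 1) ^ d := by
      unfold Zt
      exact Kink.Z_one (by linarith)
    have h5 : L * ℓ - 1 ≤ Zt d ℓ (uu J K R) L 1 := by
      rw [h4]
      exact le_self_pow₀ h3.le (by omega)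
    refine ⟨by linarith, ?_⟩
    have h6 := Real.log_lt_log (Real.exp_pos _) (lt_of_lt_of_le h2 h5)
    rw [Real.log_exp] at h6
    push_cast
    linarith
  obtain ⟨ρ₁, ρ₂, b, c1, c2, c3, k1, k2, hub, c4, c5, c6⟩ := coexist2 T hv hins w n1 n2 hn hbase
    (fun h hh0 _ => hgen (w + h) (h * n2) (h1 h hh0))
    (fun h hh0 _ => by
      have h7 : p w + -(h * n1) ≤ p (w - h) := by
        have := h2 h hh0
        linarith
      obtain ⟨A, hA1, hA2, hA3⟩ := hgen (w - h) (-(h * n1)) h7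
      exact ⟨A, hA1, hA2, hA3⟩)
  have hinf := Pool.Agent.ConfinedGas.tendsto_vol (d := d) hd
  -- the pressure is at least the Legendre transform
  have hleg : ∀ ρ ∈ Set.Ioo 0 (Th.rz d (Zt d ℓ (uu J K R))), ∀ μ : ℝ,
      Th.ff d (Zt d ℓ (uu J K R)) ρ + μ * ρ ≤ p μ := by
    intro ρ hρ μ
    obtain ⟨g1, g2⟩ := Th.lim T hρ.1.le hρ.2
    have hfl : Tendsto (fun L : ℕ => ((⌊ρ * (L : ℝ) ^ d⌋₊ : ℕ) : ℝ) / (L : ℝ) ^ d)
        atTop (𝓝 ρ) := (tendsto_nat_floor_mul_div_atTop hρ.1.le).comp hinf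
    refine le_of_tendsto_of_tendsto (g2.add (hfl.const_mul μ)) (hlim' μ) ?_
    filter_upwards [g1, eventually_ge_atTop 1] with L hL hL1
    have hL' : (0 : ℝ) < L := by exact_mod_cast hL1
    have hLd : (0 : ℝ) < (L : ℝ) ^ d := by positivity
    have g3 := hSterm μ L ⌊ρ * (L : ℝ) ^ d⌋₊
    have g4 : Real.exp (μ * ⌊ρ * (L : ℝ) ^ d⌋₊) * Zt d ℓ (uu J K R) L ⌊ρ * (L : ℝ) ^ d⌋₊ ≤ S μ L :=
      (mul_le_mul_of_nonneg_left (hlo L _) (Real.exp_pos _).le).trans g3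
    have g5 := Real.log_le_log (by positivity) g4
    rw [Real.log_mul (Real.exp_pos _).ne' hL.ne', Real.log_exp] at g5
    have g6 : Real.log (Zt d ℓ (uu J K R) L ⌊ρ * (L : ℝ) ^ d⌋₊) / (L : ℝ) ^ d +
        μ * ((⌊ρ * (L : ℝ) ^ d⌋₊ : ℝ) / (L : ℝ) ^ d) =
        (μ * ⌊ρ * (L : ℝ) ^ d⌋₊ + Real.log (Zt d ℓ (uu J K R) L ⌊ρ * (L : ℝ) ^ d⌋₊)) /
          (L : ℝ) ^ d := by
      field_simp
      ring
    rw [g6]
    exact div_le_div_of_nonneg_right g5 hLd.le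
  -- the maximum
  have hpb : p w ≤ b := by
    have hlim1 : Tendsto (fun L : ℕ => Real.log ((B * ((L : ℝ) + 1) ^ d + 1) *
        Real.exp (b * ((L : ℝ) + 1) ^ d)) / (L : ℝ) ^ d) atTop (𝓝 b) := by
      have h4 := Pool.Agent.StableGas.tendsto_shift d 1
      have h5 : Tendsto (fun L : ℕ => Real.log (B * ((L : ℝ) + 1) ^ d + 1) / (L : ℝ) ^ d) atTop
          (𝓝 0) := by
        have h6 := (Kink.log_affine_div hd (B + 1) 1 (by linarith) one_pos).comp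
          (tendsto_add_atTop_nat 1)
        have h7 := h6.mul h4
        rw [zero_mul] at h7
        refine squeeze_zero' ?_ ?_ h7
        · filter_upwards with L
          have : 0 ≤ Real.log (B * ((L : ℝ) + 1) ^ d + 1) := by
            refine Real.log_nonneg ?_
            have : 0 ≤ B * ((L : ℝ) + 1) ^ d := by positivity
            linarith
          positivity
        · filter_upwards [eventually_ge_atTop 1] with L hL
          have hL' : (0 : ℝ) < L := by exact_mod_cast hL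
          have h8 : Real.log (B * ((L : ℝ) + 1) ^ d + 1) ≤
              Real.log ((B + 1) * ((L + 1 : ℕ) : ℝ) ^ d + 1) := by
            refine Real.log_le_log (by positivity) ?_
            push_cast
            have : B * ((L : ℝ) + 1) ^ d ≤ (B + 1) * ((L : ℝ) + 1) ^ d :=
              mul_le_mul_of_nonneg_right (by linarith) (by positivity)
            linarith
          have h9 := div_le_div_of_nonneg_right h8 (show (0 : ℝ) ≤ (L : ℝ) ^ d by positivity)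
          refine h9.trans (le_of_eq ?_)
          simp only [Function.comp]
          push_cast
          field_simp
      have h6 := h5.add (h4.const_mul b)
      rw [mul_one, zero_add] at h6
      refine h6.congr' ?_
      filter_upwards [eventually_ge_atTop 1] with L hL
      have hL' : (0 : ℝ) < L := by exact_mod_cast hL
      rw [Real.log_mul (by positivity) (Real.exp_pos _).ne', Real.log_exp]
      push_cast
      field_simp
    refine le_of_tendsto_of_tendsto (hlim' w) hlim1 ?_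
    filter_upwards [eventually_ge_atTop 1] with L hL
    have hLd : (0 : ℝ) ≤ (L : ℝ) ^ d := by positivity
    refine div_le_div_of_nonneg_right (Real.log_le_log (hSpos w L) ?_) hLd
    obtain ⟨N', hN'⟩ := hSmax w L
    refine hN'.trans (mul_le_mul_of_nonneg_left ?_ (by positivity))
    rcases (hZ0 L N').eq_or_lt with h0 | h0
    · rw [← h0, mul_zero]
      exact (Real.exp_pos _).le
    have g1 : 0 < Zt d ℓ (uu J K R) (L + 1) N' := lt_of_lt_of_le h0 (hup L N')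
    have g2 := hub (L + 1) N' (by omega) g1
    push_cast at g2
    calc Real.exp (w * N') * Z d (1 / 2) (uu J K R) (L * ℓ) N'
        ≤ Real.exp (w * N') * Zt d ℓ (uu J K R) (L + 1) N' :=
          mul_le_mul_of_nonneg_left (hup L N') (Real.exp_pos _).le
      _ = Real.exp (Real.log (Zt d ℓ (uu J K R) (L + 1) N') + w * N') := by
          rw [Real.exp_add, Real.exp_log g1]
          ring
      _ ≤ _ := Real.exp_le_exp.2 g2
  have hmem1 : ρ₁ ∈ Set.Ioo 0 (Th.rz d (Zt d ℓ (uu J K R))) := ⟨c1, c2.trans c3⟩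
  have hmem2 : ρ₂ ∈ Set.Ioo 0 (Th.rz d (Zt d ℓ (uu J K R))) := ⟨c1.trans c2, c3⟩
  have e1 := (c4 ρ₁ hmem1).2.2 ⟨le_rfl, c2.le⟩
  have e2 := (c4 ρ₂ hmem2).2.2 ⟨c2.le, le_rfl⟩
  have k3 : m1 ≤ ρ₁ := by
    obtain ⟨h, hh, hle⟩ := h4
    have g1 := hleg ρ₁ hmem1 (w - h)
    have g2 : h * m1 ≤ h * ρ₁ := by
      rw [e1] at g1
      linarith
    exact le_of_mul_le_mul_left g2 hh
  have k4 : ρ₂ ≤ m2 := by
    obtain ⟨h, hh, hle⟩ := h3
    have g1 := hleg ρ₂ hmem2 (w + h)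
    have g2 : h * ρ₂ ≤ h * m2 := by
      rw [e2] at g1
      linarith
    exact le_of_mul_le_mul_left g2 hh
  -- real side lengths and the scale
  have hsd : 0 < ℓ ^ d := by positivity
  have hF := isF_of hJ hK hℓ1 T (hmem1.1.trans hmem1.2)
  have hr : r = Th.rz d (Zt d ℓ (uu J K R)) / ℓ ^ d := by
    have hm : Measurable (uu J K R) := (hJ.meas.comp (measurable_const_smul R⁻¹)).const_mul K
    have hb : ∀ x, |uu J K R x| ≤ K := by
      intro x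
      have hU := Can.uu_U0 (R := R) hJ hK
      rw [abs_of_nonneg (hU.nonneg x)]
      exact hU.le x
    have hz : ∀ x : Fin d → ℝ, |(fun _ : Fin d → ℝ => (0 : ℝ)) x| ≤ 0 := fun x => by simp
    refine le_antisymm (rho_le hd hf hF fun l N hp => ?_) (rho_le hd hF hf fun l N hp => ?_)
    · exact (Z_pos_iff measurable_const hm hz hb l N).1 hp
    · exact (Z_pos_iff measurable_const hm hz hb l N).2 hp
  rw [hr]
  refine ⟨_, ρ₁ / ℓ ^ d, ρ₂ / ℓ ^ d, -w, b / ℓ ^ d, hF, by positivity, ?_, ?_, ?_, ?_, ?_, ?_, ?_,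
    fun hh => c5 ?_, fun hh => c6 ?_⟩
  · gcongr
  · gcongr
  · gcongr
  · gcongr
  · gcongr
  · gcongr
  · rintro ρ ⟨hρ0, hρ1⟩
    rw [lt_div_iff₀ hsd] at hρ1
    obtain ⟨g1, g2⟩ := c4 (ρ * ℓ ^ d) ⟨mul_pos hρ0 hsd, hρ1⟩
    have e1 : -w * ρ + b / ℓ ^ d = (-w * (ρ * ℓ ^ d) + b) / ℓ ^ d := by
      field_simp
    have e2 : ρ ∈ Set.Icc (ρ₁ / ℓ ^ d) (ρ₂ / ℓ ^ d) ↔ ρ * ℓ ^ d ∈ Set.Icc ρ₁ ρ₂ := by
      rw [Set.mem_Icc, Set.mem_Icc, div_le_iff₀ hsd, le_div_iff₀ hsd]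
    rw [e1, e2, ← g2, div_le_div_iff_of_pos_right hsd, div_left_inj' hsd.ne']
    exact ⟨g1, Iff.rfl⟩
  · exact Kink.analytic_scale (κ := 0) hsd (by simpa using hh)
  · exact Kink.analytic_scale (κ := 0) hsd (by simpa using hh)

end Pool.Agent.Vdw
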