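import Pool.Agent.Lib.MP_09cbbd_vw.KinkP
import Pool.Agent.Lib.MP_09cbbd_vw.Good
import Pool.Agent.Lib.MP_09cbbd_vw.Kink

/-!
# The transition for normalised interactions
-/

set_option autoImplicit false

namespace Pool.Agent.Vdw

open MeasureTheory Finset Filter Topology Pool.Agent.StableGas Pool.Agent.SquareWellGas
  Pool.Agent.KacGas Pool.Agent.Kac Pool.Agent.VdwGas
open Pool.Agent.SquareWell hiding Md cut

/-- The cells are eventually only a little smaller than the cells with margins. -/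
theorem exists_side (d : ℕ) {η : ℝ} (hη : 0 < η) :
    ∃ t : ℝ, 0 < t ∧ ∀ ℓ : ℝ, t ≤ ℓ → (ℓ + 2) ^ d ≤ (1 + η) * ℓ ^ d := by
  have h1 : Tendsto (fun ℓ : ℝ => (1 + 2 / ℓ) ^ d) atTop (𝓝 ((1 + 0) ^ d)) := by
    refine Tendsto.pow (tendsto_const_nhds.add ?_) d
    exact tendsto_const_nhds.div_atTop tendsto_id
  rw [add_zero, one_pow] at h1
  have h2 : ∀ᶠ ℓ : ℝ in atTop, (1 + 2 / ℓ) ^ d < 1 + η :=
    h1.eventually_lt_const (by linarith)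
  obtain ⟨t, ht⟩ := (h2.and (eventually_gt_atTop (0 : ℝ))).exists_forall_of_atTop
  refine ⟨max t 1, by positivity, fun ℓ hℓ => ?_⟩
  obtain ⟨h3, h4⟩ := ht ℓ ((le_max_left _ _).trans hℓ)
  have h5 : ℓ + 2 = (1 + 2 / ℓ) * ℓ := by field_simp
  rw [h5, mul_pow]
  exact mul_le_mul_of_nonneg_right h3.le (by positivity)

/-- Normalised interactions, spheres of diameter one. -/
theorem main1 (d : ℕ) (hd : 2 ≤ d) {J : (Fin d → ℝ) → ℝ} (hJ : Ad J)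
    (hc : ∀ᵐ x, ContinuousAt J x) (hp : 0 < ∫ x, J x) {f : ℝ → ℝ} {r : ℝ}
    (hf : IsF d (1 / 2) (fun _ => 0) f r) (hfc : ConcaveOn ℝ (Set.Ioo 0 r) f) {β : ℝ}
    (hβ : 0 < β) {x1 x2 m q c : ℝ} (h1 : 0 < x1) (h12 : x1 < x2) (h2 : x2 < r) (hc0 : 0 < c)
    (hup : ∀ x ∈ Set.Ioo 0 r, f x + β * (∫ x, J x) / 2 * x ^ 2 ≤
      m * x + q - c * min ((x - x1) ^ 2) ((x - x2) ^ 2))
    (he1 : f x1 + β * (∫ x, J x) / 2 * x1 ^ 2 = m * x1 + q)
    (he2 : f x2 + β * (∫ x, J x) / 2 * x2 ^ 2 = m * x2 + q) {δ : ℝ} (hδ : 0 < δ) :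
    ∃ γ0 : ℝ, 0 < γ0 ∧ ∀ γ : ℝ, 0 < γ → γ < γ0 →
      TransitionNear d (1 / 2) (fun x => β * γ ^ d * J (γ • x)) r x1 x2 δ := by
  have hd1 : 1 ≤ d := by omega
  obtain ⟨P, hP, hPa, hPb, hgood⟩ :=
    exists_good hd1 hJ hc hp hf hfc hβ h1 h12 h2 hc0 hup he1 he2
  obtain ⟨δ', hδ'0, hδ'1, hδ'2, hδ'3⟩ : ∃ δ' : ℝ, 0 < δ' ∧ δ' ≤ δ / 2 ∧ δ' ≤ x1 ∧
      δ' ≤ (x2 - x1) / 4 := by
    have h12' : 0 < (x2 - x1) / 4 := by linarith
    refine ⟨min (δ / 2) (min x1 ((x2 - x1) / 4)), ?_, min_le_left _ _,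
      (min_le_right _ _).trans (min_le_left _ _), (min_le_right _ _).trans (min_le_right _ _)⟩
    exact lt_min (by linarith) (lt_min h1 h12')
  have hx2 : 0 < x2 := h1.trans h12
  obtain ⟨η, hη, hη1⟩ : ∃ η : ℝ, 0 < η ∧ (x2 + δ') * η ≤ δ / 2 := by
    refine ⟨δ / 2 / (x2 + δ'), by positivity, ?_⟩
    rw [mul_div_cancel₀ _ (by positivity)]
  obtain ⟨t, ht, hside⟩ := exists_side d hη
  obtain ⟨ε0, hε0, hkink⟩ := kink hd hP hδ'0
  obtain ⟨k, B, ℓ0, hB, hℓ0, hmod⟩ := hgood (min ε0 1) (lt_min hε0 one_pos) (min_le_right _ _)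
  have hB0 : (0 : ℝ) < B := by exact_mod_cast hB
  have hM0 : 0 < max ℓ0 t := lt_max_of_lt_left (by linarith)
  refine ⟨1 / (B * max ℓ0 t), by positivity, fun γ hγ hγ0 => ?_⟩
  set ℓ : ℝ := 1 / (B * γ) with hℓdef
  have hℓ : max ℓ0 t ≤ ℓ := by
    rw [hℓdef, le_div_iff₀ (by positivity)]
    rw [lt_div_iff₀ (by positivity)] at hγ0
    calc max ℓ0 t * (B * γ) = γ * (B * max ℓ0 t) := by ring
      _ ≤ 1 := hγ0.le
  have hℓ1 : ℓ0 ≤ ℓ := (le_max_left _ _).trans hℓ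
  have hℓt : t ≤ ℓ := (le_max_right _ _).trans hℓ
  have hℓ2 : 2 < ℓ := hℓ0.trans_le hℓ1
  have hℓpos : 0 < ℓ := by linarith
  obtain ⟨E, mE, M, bs, hM, hxi⟩ := hmod ℓ hℓ1
  obtain ⟨p, hpM⟩ := exists_p M hd1
  obtain ⟨w, hw1, hw2, hw3, hw4⟩ := hkink E mE M _ _ _ _ _ _ hM (min_le_left _ _) p hpM
  rw [hPb] at hw1 hw3
  rw [hPa] at hw2 hw4
  have hV : (0 : ℝ) < (ℓ + 2) ^ d := by positivity
  have hℓd : (0 : ℝ) < ℓ ^ d := by positivity
  have hBℓ : (B * ℓ : ℝ)⁻¹ = γ := by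
    rw [hℓdef]
    field_simp
  have hR : 0 < (B * ℓ : ℝ) := by positivity
  have hlt : (x1 + δ') * (ℓ + 2) ^ d < (x2 - δ') * (ℓ + 2) ^ d :=
    mul_lt_mul_of_pos_right (by linarith) hV
  obtain ⟨g, ρ₁, ρ₂, c', b, hg, g1, g2, g3, g4, g5, g6, g7, g8, g9, g10⟩ :=
    transition_near_of_kink hd1 hJ hℓ2 hR (K := β / (B * ℓ) ^ d) (by positivity)
      (hpM.convex hd1) (fun μ => by
        have h3 := hpM μ
        simp only [hxi] at h3
        exact h3) hf hlt hw1 hw2 hw3 hw4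
  have hu : uu J (β / (B * ℓ) ^ d) (B * ℓ) = fun x => β * γ ^ d * J (γ • x) := by
    funext x
    unfold uu
    rw [hBℓ, div_eq_mul_inv, ← inv_pow, hBℓ]
  rw [hu] at hg
  have hVlo : ℓ ^ d ≤ (ℓ + 2) ^ d := by gcongr; linarith
  have hVup := hside ℓ hℓt
  refine ⟨g, ρ₁, ρ₂, c', b, hg, g1, g2, g3, ?_, ?_, g8, g9, g10⟩
  · rw [abs_le]
    constructor
    · have h3 : x1 - δ' ≤ ρ₁ := by
        refine le_trans ?_ g4
        rw [le_div_iff₀ hℓd]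
        exact mul_le_mul_of_nonneg_left hVlo (by linarith)
      linarith
    · have h3 : ρ₁ ≤ (x1 + δ') * (1 + η) := by
        refine g5.trans ?_
        rw [div_le_iff₀ hℓd, mul_assoc]
        exact mul_le_mul_of_nonneg_left hVup (by linarith)
      have h4 : (x1 + δ') * η ≤ (x2 + δ') * η := mul_le_mul_of_nonneg_right (by linarith) hη.le
      linarith
  · rw [abs_le]
    constructor
    · have h3 : x2 - δ' ≤ ρ₂ := by
        refine le_trans ?_ g6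
        rw [le_div_iff₀ hℓd]
        exact mul_le_mul_of_nonneg_left hVlo (by linarith)
      linarith
    · have h3 : ρ₂ ≤ (x2 + δ') * (1 + η) := by
        refine g7.trans ?_
        rw [div_le_iff₀ hℓd, mul_assoc]
        exact mul_le_mul_of_nonneg_left hVup (by linarith)
      linarith

end Pool.Agent.Vdw
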