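import Pool.Agent.Lib.MP_09cbbd_vw.Rig
import Pool.Agent.Lib.MP_09cbbd_vw.Prs

/-!
# Choice of the chemical potential on the torus
-/

set_option autoImplicit false

namespace Pool.Agent.Vdw

open MeasureTheory Finset Filter Topology Pool.Agent.StableGas Pool.Agent.Kac
open Pool.Agent.SquareWell hiding Md cut

variable {d : ℕ} {E : Type} [MeasurableSpace E]

namespace Mu

/-- Reals: the mean at the two ends. -/
theorem ends {P : Par} {M : Md d E} {V bs μs Ps ε : ℝ} {k : ℕ} (hd : 1 ≤ d) (hP : P.Ok)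
    (G : Good P M V bs μs Ps ε k) {p : ℝ → ℝ} (hp : M.IsP p) {η δ : ℝ} (hη : 0 < η) (hη1 : η ≤ 1)
    (hε : (6 + P.T * (P.R + 1) ^ 2) * ε < η * δ) :
    ∀ᶠ L : ℕ in atTop, m1 M L (μs - η) < (P.xa + δ) * V ∧ (P.xb - δ) * V < m1 M L (μs + η) ∧
      V * (2 * L + 1 : ℝ) ^ d * (Ps - (3 + P.T * (P.R + 1) ^ 2) * ε) ≤
        Real.log (M.ZT L μs).toReal := by
  have hV := G.V_pos
  have hε0 := G.eps_pos
  set C : ℝ := 2 + P.T * (P.R + 1) ^ 2 with hC
  have hxa : |μs - η - μs| ≤ 1 := by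
    rw [show μs - η - μs = -η by ring, abs_neg, abs_of_pos hη]; exact hη1
  have hxb : |μs + η - μs| ≤ 1 := by
    rw [show μs + η - μs = η by ring, abs_of_pos hη]; exact hη1
  have u0 := p_up hd hP G hp μs
  rw [sub_self, zero_mul, zero_mul, max_self] at u0
  have u0' : p μs ≤ V * (Ps + 2 * ε) := by
    refine u0.trans (le_of_eq ?_)
    ring
  have la := p_lo hd hP G hp (μs - η) hxa (Or.inl rfl)
  have lb := p_lo hd hP G hp (μs + η) hxb (Or.inr rfl)
  have l0 := p_lo hd hP G hp μs (by rw [sub_self, abs_zero]; exact zero_le_one) (y := P.xa)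
    (Or.inl rfl)
  have e1 : μs - η - μs = -η := by ring
  have e2 : μs + η - μs = η := by ring
  rw [e1] at la
  rw [e2] at lb
  rw [sub_self] at l0
  have hεV : 0 < ε * V := mul_pos hε0 hV
  have ta := (hp.torus hd (μs - η)).eventually_const_lt
    (show p (μs - η) - ε * V < p (μs - η) by linarith)
  have tb := (hp.torus hd (μs + η)).eventually_const_lt
    (show p (μs + η) - ε * V < p (μs + η) by linarith)
  have t0 := (hp.torus hd μs).eventually_lt_const (show p μs < p μs + ε * V by linarith)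
  have t1 := (hp.torus hd μs).eventually_const_lt (show p μs - ε * V < p μs by linarith)
  filter_upwards [ta, tb, t0, t1] with L ha hb h0 h1
  have hs : (0 : ℝ) < (2 * L + 1 : ℝ) ^ d := by positivity
  have ga := ZT_tangent M L (μs - η) μs
  have gb := ZT_tangent M L (μs + η) μs
  have e3 : μs - (μs - η) = η := by ring
  have e4 : μs - (μs + η) = -η := by ring
  rw [e3] at ga
  rw [e4] at gb
  generalize (2 * L + 1 : ℝ) ^ d = s at *
  rw [lt_div_iff₀ hs] at ha hb h1
  rw [div_lt_iff₀ hs] at h0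
  generalize Real.log (M.ZT L μs).toReal = z0 at *
  generalize Real.log (M.ZT L (μs - η)).toReal = za at *
  generalize Real.log (M.ZT L (μs + η)).toReal = zb at *
  have hεη : (C + 4) * ε < η * δ := by
    have : C + 4 = 6 + P.T * (P.R + 1) ^ 2 := by rw [hC]; ring
    rw [this]; exact hε
  refine ⟨?_, ?_, ?_⟩
  · -- lower end
    have k1 : η * m1 M L (μs - η) * s < (η * ((P.xa + δ) * V)) * s := by
      have k2 : (p μs + ε * V) - (p (μs - η) - ε * V) ≤ V * (η * P.xa + (C + 4) * ε) := by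
        linarith
      have k3 : V * (η * P.xa + (C + 4) * ε) < V * (η * P.xa + η * δ) :=
        mul_lt_mul_of_pos_left (by linarith) hV
      have k4 : ((p μs + ε * V) - (p (μs - η) - ε * V)) * s < V * (η * P.xa + η * δ) * s :=
        mul_lt_mul_of_pos_right (k2.trans_lt k3) hs
      have k5 : V * (η * P.xa + η * δ) * s = (η * ((P.xa + δ) * V)) * s := by ring
      linarith
    have k6 := lt_of_mul_lt_mul_right k1 hs.le
    exact lt_of_mul_lt_mul_left k6 hη.le
  · have k1 : (η * ((P.xb - δ) * V)) * s < η * m1 M L (μs + η) * s := by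
      have k2 : V * (η * P.xb - (C + 4) * ε) ≤ (p (μs + η) - ε * V) - (p μs + ε * V) := by
        linarith
      have k3 : V * (η * P.xb - η * δ) < V * (η * P.xb - (C + 4) * ε) :=
        mul_lt_mul_of_pos_left (by linarith) hV
      have k4 : V * (η * P.xb - η * δ) * s < ((p (μs + η) - ε * V) - (p μs + ε * V)) * s :=
        mul_lt_mul_of_pos_right (k3.trans_le k2) hs
      have k5 : V * (η * P.xb - η * δ) * s = (η * ((P.xb - δ) * V)) * s := by ring
      linarith
    have k6 := lt_of_mul_lt_mul_right k1 hs.le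
    exact lt_of_mul_lt_mul_left k6 hη.le
  · have k1 : V * (Ps - (C + 1) * ε) ≤ p μs - ε * V := by linarith
    have k2 : V * (Ps - (C + 1) * ε) * s ≤ (p μs - ε * V) * s := mul_le_mul_of_nonneg_right k1 hs.le
    have k3 : V * s * (Ps - (3 + P.T * (P.R + 1) ^ 2) * ε) = V * (Ps - (C + 1) * ε) * s := by
      rw [hC]; ring
    rw [k3]
    linarith

theorem m1_nonneg (M : Md d E) (L : ℕ) (μ : ℝ) : 0 ≤ m1 M L μ := by
  unfold m1
  exact div_nonneg (integral_nonneg fun ω => sum_nonneg fun i _ => Nat.cast_nonneg _)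
    (by positivity)

theorem m1_le_N (M : Md d E) (L : ℕ) (μ : ℝ) : m1 M L μ ≤ M.N := by
  have : IsProbabilityMeasure (PT M L μ) := prob_PT M L μ
  unfold m1
  rw [div_le_iff₀ (by positivity)]
  have h1 : ∫ ω : Tor d L → E, ∑ i, (M.n (ω i) : ℝ) ∂PT M L μ ≤
      ∫ _ : Tor d L → E, (M.N : ℝ) * (2 * L + 1 : ℝ) ^ d ∂PT M L μ := by
    refine integral_mono (Rig.int_sum M μ (f := fun x => x) measurable_id (C := M.N) fun x => ?_)
      (integrable_const _) fun ω => ?_
    · rw [abs_of_nonneg (Nat.cast_nonneg _)]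
      exact_mod_cast M.n_le x
    · calc ∑ i, (M.n (ω i) : ℝ) ≤ ∑ _i : Tor d L, (M.N : ℝ) :=
            sum_le_sum fun i _ => by exact_mod_cast M.n_le (ω i)
        _ = _ := by rw [sum_const, card_univ, nsmul_eq_mul, Rig.card_T, mul_comm]
  refine h1.trans (le_of_eq ?_)
  rw [integral_const, probReal_univ, one_smul]

end Mu

/-- Choice of the chemical potential of the torus with a given density. -/
theorem exists_mu (hd : 1 ≤ d) {P : Par} (hP : P.Ok) {δ : ℝ} (hδ : 0 < δ)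
    (hδ2 : 2 * δ < P.xb - P.xa) :
    ∃ η0 : ℝ, 0 < η0 ∧ ∀ η : ℝ, 0 < η → η ≤ η0 → ∃ ε0 : ℝ, 0 < ε0 ∧
      ∀ (E : Type) (_ : MeasurableSpace E) (M : Md d E) (V bs μs Ps ε : ℝ) (k : ℕ),
      Good P M V bs μs Ps ε k → ε ≤ ε0 → ∀ p : ℝ → ℝ, M.IsP p →
      ∀ ρ : ℝ, (ρ = P.xa + δ ∨ ρ = P.xb - δ) → ∀ᶠ L : ℕ in atTop, ∃ μ : ℝ, |μ - μs| ≤ η ∧
        m1 M L μ = ρ * V ∧ m2 M L μ ≤ V ^ 2 * (ρ ^ 2 + δ * (P.xb - P.xa + 1)) := by
  have hxa := hP.xa_nonneg
  have hxab := hP.xa_lt
  have hxb := hP.xb_le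
  have hc := hP.c_pos
  have hT := hP.T_pos
  have hR : 0 < P.R := by linarith
  -- `A` is the constant in front of the error
  set A : ℝ := P.R ^ 2 / (4 * (δ / 2)) * (2 / P.c) with hA
  have hA0 : 0 < A := by positivity
  refine ⟨min 1 (δ / 4 / (A * (2 * P.R))), lt_min one_pos (by positivity), ?_⟩
  intro η hη0 hη
  have hη1 : η ≤ 1 := hη.trans (min_le_left _ _)
  have hηA : A * (2 * P.R * η) ≤ δ / 4 := by
    have h1 := hη.trans (min_le_right _ _)
    rw [le_div_iff₀ (by positivity)] at h1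
    linarith
  set C : ℝ := 6 + P.T * (P.R + 1) ^ 2 with hC
  have hC0 : 0 < C := by positivity
  refine ⟨min (η * δ / (2 * C)) (δ / 4 / (A * C)), lt_min (by positivity) (by positivity), ?_⟩
  intro E _ M V bs μs Ps ε k G hε p hp ρ hρ
  have hV := G.V_pos
  have hε0 := G.eps_pos
  have hε1 : C * ε < η * δ := by
    have h1 := hε.trans (min_le_left _ _)
    rw [le_div_iff₀ (by positivity)] at h1
    have : 0 < C * ε := by positivity
    linarith
  have hε2 : A * (C * ε) ≤ δ / 4 := by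
    have h1 := hε.trans (min_le_right _ _)
    rw [le_div_iff₀ (by positivity)] at h1
    linarith
  filter_upwards [Mu.ends hd hP G hp hη0 hη1 hε1] with L hL
  obtain ⟨h1, h2, h3⟩ := hL
  have hρ1 : (P.xa + δ) * V ≤ ρ * V := by
    apply mul_le_mul_of_nonneg_right _ hV.le
    rcases hρ with h | h <;> rw [h] <;> linarith
  have hρ2 : ρ * V ≤ (P.xb - δ) * V := by
    apply mul_le_mul_of_nonneg_right _ hV.le
    rcases hρ with h | h <;> rw [h] <;> linarith
  have hle : μs - η ≤ μs + η := by linarith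
  obtain ⟨μ, hμ, hμ1⟩ := intermediate_value_Icc hle (m1_continuous M L).continuousOn
    (show ρ * V ∈ Set.Icc (m1 M L (μs - η)) (m1 M L (μs + η)) from
      ⟨h1.le.trans hρ1, hρ2.trans h2.le⟩)
  have hμη : |μ - μs| ≤ η := abs_le.2 ⟨by linarith [hμ.1], by linarith [hμ.2]⟩
  refine ⟨μ, hμη, hμ1, ?_⟩
  set e : ℝ := (3 + P.T * (P.R + 1) ^ 2) * ε + η * P.R with he
  have hZ : V * (2 * L + 1 : ℝ) ^ d * (Ps - e) ≤ Real.log (M.ZT L μ).toReal := by
    have h4 := ZT_tangent M L μs μ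
    have h5 := Mu.m1_nonneg M L μs
    have h6 : m1 M L μs ≤ P.R * V := (Mu.m1_le_N M L μs).trans G.N_le
    have h7 : -(η * (P.R * V)) ≤ (μ - μs) * m1 M L μs := by
      have h8 : -(|μ - μs| * m1 M L μs) ≤ (μ - μs) * m1 M L μs := by
        rw [← neg_mul]
        exact mul_le_mul_of_nonneg_right (neg_abs_le _) h5
      have h9 : |μ - μs| * m1 M L μs ≤ η * (P.R * V) :=
        mul_le_mul hμη h6 h5 hη0.le
      linarith
    have hs : (0 : ℝ) < (2 * L + 1 : ℝ) ^ d := by positivity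
    generalize (2 * L + 1 : ℝ) ^ d = s at *
    have h10 : -(η * (P.R * V)) * s ≤ (μ - μs) * m1 M L μs * s :=
      mul_le_mul_of_nonneg_right h7 hs.le
    rw [he]
    linarith
  have h4 := m2_le hP G (lam := δ / 2) (by positivity) hZ
  rw [hμ1, mul_div_assoc, div_self hV.ne', mul_one, div_le_iff₀ (by positivity)] at h4
  refine h4.trans ?_
  rw [mul_comm]
  apply mul_le_mul_of_nonneg_left _ (by positivity)
  have h5 : P.R ^ 2 / (4 * (δ / 2)) * (2 / P.c * (e + 2 * ε + |μ - μs| * P.R)) ≤ δ / 2 := by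
    have h6 : e + 2 * ε + |μ - μs| * P.R ≤ C * ε + 2 * P.R * η := by
      have h7 : |μ - μs| * P.R ≤ η * P.R := mul_le_mul_of_nonneg_right hμη hR.le
      rw [he, hC]
      linarith
    calc _ = A * (e + 2 * ε + |μ - μs| * P.R) := by rw [hA]; ring
      _ ≤ A * (C * ε + 2 * P.R * η) := mul_le_mul_of_nonneg_left h6 hA0.le
      _ ≤ _ := by linarith
  have h6 : (P.xa + P.xb) * ρ - P.xa * P.xb - ρ ^ 2 ≤ δ * (P.xb - P.xa) := by
    have h7 : (P.xa + P.xb) * ρ - P.xa * P.xb - ρ ^ 2 = (ρ - P.xa) * (P.xb - ρ) := by ring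
    rw [h7]
    rcases hρ with h | h
    · rw [h]
      nlinarith
    · rw [h]
      nlinarith
  linarith

end Pool.Agent.Vdw
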