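import Pool.Agent.Lib.MP_09cbbd_vw.GlueT
import Pool.Agent.Lib.MP_09cbbd_vw.Mu

/-!
# The gluing inequality with the second moment
-/

set_option autoImplicit false

namespace Pool.Agent.Vdw

open MeasureTheory Finset Filter Topology Pool.Agent.StableGas Pool.Agent.Kac
open Pool.Agent.SquareWell hiding Md cut

variable {d : ℕ} {E : Type} [MeasurableSpace E]

namespace GlL

theorem m1_nonneg (M : Md d E) (L : ℕ) (μ : ℝ) : 0 ≤ m1 M L μ := by
  unfold m1
  refine div_nonneg (integral_nonneg fun ω => ?_) (by positivity)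
  exact sum_nonneg fun _ _ => Nat.cast_nonneg _

theorem m1_le (M : Md d E) (L : ℕ) (μ : ℝ) : m1 M L μ ≤ M.N := by
  have := prob_PT M L μ
  unfold m1
  have hV : (0 : ℝ) < (2 * L + 1 : ℝ) ^ d := by positivity
  rw [div_le_iff₀ hV]
  have h1 : ∫ ω, ∑ i, (M.n (ω i) : ℝ) ∂PT M L μ ≤
      ∫ _ω : Tor d L → E, (M.N : ℝ) * (2 * L + 1 : ℝ) ^ d ∂PT M L μ := by
    refine integral_mono_of_nonneg (Eventually.of_forall fun ω => ?_) (integrable_const _)
      (Eventually.of_forall fun ω => ?_)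
    · exact sum_nonneg fun _ _ => Nat.cast_nonneg _
    · have h2 : ∑ i : Tor d L, (M.n (ω i) : ℝ) ≤ ∑ _i : Tor d L, (M.N : ℝ) :=
        sum_le_sum fun i _ => by exact_mod_cast M.n_le _
      refine h2.trans (le_of_eq ?_)
      rw [sum_const, nsmul_eq_mul, mul_comm, card_univ]
      congr 1
      have h3 : Fintype.card (Tor d L) = (2 * L + 1) ^ d := by
        unfold Tor
        rw [Fintype.card_fun, ZMod.card, Fintype.card_fin]
      rw [h3]
      push_cast
      ring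
  refine h1.trans (le_of_eq ?_)
  rw [integral_const]
  simp

/-- Comparison of the weights for two chemical potentials. -/
theorem w_le_w (M : Md d E) (μ ν : ℝ) (Y : Finset (Zd d)) (ω : Zd d → E) :
    M.w μ Y ω ≤ ex (|μ - ν| * (M.N * Y.card)) * M.w ν Y ω := by
  unfold Kac.Md.w
  rw [← mul_assoc]
  refine mul_le_mul' ?_ le_rfl
  have h1 : ex (|μ - ν| * (M.N * Y.card)) = ∏ _i ∈ Y, ex (|μ - ν| * M.N) := by
    rw [prod_ex, sum_const, nsmul_eq_mul]
    congr 1
    ring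
  rw [h1, ← prod_mul_distrib]
  refine TorP.prod_mono fun i _ => ?_
  rw [← mul_assoc, ← ex_add]
  refine mul_le_mul' (ex_le_ex.2 ?_) le_rfl
  have h2 : (M.n (ω i) : ℝ) ≤ M.N := by exact_mod_cast M.n_le _
  have h3 : (μ - ν) * M.n (ω i) ≤ |μ - ν| * M.N := by
    calc (μ - ν) * M.n (ω i) ≤ |μ - ν| * M.n (ω i) :=
          mul_le_mul_of_nonneg_right (le_abs_self _) (Nat.cast_nonneg _)
      _ ≤ _ := mul_le_mul_of_nonneg_left h2 (abs_nonneg _)
  linarith

theorem cut_nonneg (M : Md d E) (Y : Finset (Zd d)) : 0 ≤ cut M.S M.J Y :=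
  sum_nonneg fun v _ => mul_nonneg (M.J_nonneg v) (Nat.cast_nonneg _)

end GlL

open GlL

/-- Existence of a chemical potential with a given slope and with the gluing inequality. -/
theorem exists_glue (hd : 1 ≤ d) {P : Par} (hP : P.Ok) {δ : ℝ} (hδ : 0 < δ)
    (hδ2 : 2 * δ < P.xb - P.xa) :
    ∃ η0 : ℝ, 0 < η0 ∧ ∀ η : ℝ, 0 < η → η ≤ η0 → ∃ ε0 : ℝ, 0 < ε0 ∧
      ∀ (E : Type) (_ : MeasurableSpace E) (M : Md d E) (V bs μs Ps ε : ℝ) (k : ℕ),
      Good P M V bs μs Ps ε k → ε ≤ ε0 → ∀ p : ℝ → ℝ, M.IsP p →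
      ∀ ρ : ℝ, (ρ = P.xa + δ ∨ ρ = P.xb - δ) → ∃ μ : ℝ, |μ - μs| ≤ η ∧ Sub p μ (ρ * V) ∧
        Glue2 M V bs μ ρ (δ * (P.xb - P.xa + 1)) (p μ) := by
  classical
  obtain ⟨η0, hη0, H⟩ := exists_mu hd hP hδ hδ2
  refine ⟨η0, hη0, fun η hη hηle => ?_⟩
  obtain ⟨ε0, hε0, H⟩ := H η hη hηle
  refine ⟨ε0, hε0, ?_⟩
  intro E _ M V bs μs Ps ε k G hε p hp ρ hρ
  have hev := H E _ M V bs μs Ps ε k G hε p hp ρ hρ
  set τ : ℝ := δ * (P.xb - P.xa + 1) with hτ
  -- the sequence of chemical potentials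
  set u : ℕ → ℝ := fun L => if h : ∃ μ : ℝ, |μ - μs| ≤ η ∧
        m1 M L μ = ρ * V ∧ m2 M L μ ≤ V ^ 2 * (ρ ^ 2 + τ) then h.choose else μs with hu
  have hu1 : ∀ L, u L ∈ Set.Icc (μs - η) (μs + η) := by
    intro L
    by_cases h : ∃ μ : ℝ, |μ - μs| ≤ η ∧ m1 M L μ = ρ * V ∧ m2 M L μ ≤ V ^ 2 * (ρ ^ 2 + τ)
    · have h1 : u L = h.choose := by rw [hu]; exact dif_pos h
      have h2 := h.choose_spec.1
      rw [← h1, abs_le] at h2
      constructor <;> linarith [h2.1, h2.2]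
    · have h1 : u L = μs := by rw [hu]; exact dif_neg h
      rw [h1]
      constructor <;> linarith
  have hu2 : ∀ᶠ L in atTop, m1 M L (u L) = ρ * V ∧ m2 M L (u L) ≤ V ^ 2 * (ρ ^ 2 + τ) := by
    filter_upwards [hev] with L h
    have h1 : u L = h.choose := by rw [hu]; exact dif_pos h
    rw [h1]
    exact h.choose_spec.2
  obtain ⟨μ, hμ, φ, hφ, hlim⟩ := isCompact_Icc.tendsto_subseq hu1
  have hφt := hφ.tendsto_atTop
  refine ⟨μ, ?_, ?_⟩
  · rw [abs_le]
    constructor <;> linarith [hμ.1, hμ.2]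
  -- the free energy along the sequence
  set Z : ℕ → ℝ → ℝ := fun L x => Real.log (M.ZT L x).toReal / (2 * L + 1 : ℝ) ^ d with hZ
  have hV0 : ∀ L : ℕ, (0 : ℝ) < (2 * L + 1 : ℝ) ^ d := fun L => by positivity
  have htan : ∀ (L : ℕ) (x y : ℝ), Z L x + (y - x) * m1 M L x ≤ Z L y := by
    intro L x y
    have h := ZT_tangent M L x y
    simp only [hZ]
    have hV := hV0 L
    have e1 : Real.log (M.ZT L x).toReal / (2 * L + 1 : ℝ) ^ d + (y - x) * m1 M L x =
        (Real.log (M.ZT L x).toReal + (y - x) * m1 M L x * (2 * L + 1 : ℝ) ^ d) /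
          (2 * L + 1 : ℝ) ^ d := by
      field_simp
    rw [e1]
    exact div_le_div_of_nonneg_right h hV.le
  have hZlim : ∀ x, Tendsto (fun n => Z (φ n) x) atTop (𝓝 (p x)) := fun x =>
    (hp.torus hd x).comp hφt
  have habs : ∀ (L : ℕ) (x y : ℝ), |Z L x - Z L y| ≤ |x - y| * M.N := by
    intro L x y
    have h1 := htan L x y
    have h2 := htan L y x
    have hx0 := m1_nonneg M L x
    have hy0 := m1_nonneg M L y
    have hx1 := m1_le M L x
    have hy1 := m1_le M L y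
    have hN : (0 : ℝ) ≤ M.N := Nat.cast_nonneg _
    have h3 : (x - y) * m1 M L x ≤ |x - y| * M.N := by
      calc (x - y) * m1 M L x ≤ |x - y| * m1 M L x :=
            mul_le_mul_of_nonneg_right (le_abs_self _) hx0
        _ ≤ _ := mul_le_mul_of_nonneg_left hx1 (abs_nonneg _)
    have h4 : -(x - y) * m1 M L y ≤ |x - y| * M.N := by
      calc -(x - y) * m1 M L y ≤ |x - y| * m1 M L y :=
            mul_le_mul_of_nonneg_right (neg_le_abs _) hy0
        _ ≤ _ := mul_le_mul_of_nonneg_left hy1 (abs_nonneg _)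
    rw [abs_le]
    constructor
    · linarith
    · linarith
  have hdist : Tendsto (fun n => |u (φ n) - μ| * (M.N : ℝ)) atTop (𝓝 0) := by
    have h1 : Tendsto (fun n => u (φ n) - μ) atTop (𝓝 (μ - μ)) := hlim.sub_const μ
    rw [sub_self] at h1
    have h2 := h1.abs.mul_const (M.N : ℝ)
    rwa [abs_zero, zero_mul] at h2
  have hFlim : Tendsto (fun n => Z (φ n) (u (φ n))) atTop (𝓝 (p μ)) := by
    have h1 : Tendsto (fun n => Z (φ n) (u (φ n)) - Z (φ n) μ) atTop (𝓝 0) := by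
      rw [tendsto_zero_iff_abs_tendsto_zero]
      exact squeeze_zero (fun n => abs_nonneg _) (fun n => habs _ _ _) hdist
    have h2 := h1.add (hZlim μ)
    rw [zero_add] at h2
    refine h2.congr fun n => ?_
    ring
  have hu3 := hφt.eventually hu2
  constructor
  · -- the slope
    intro x
    have h1 : Tendsto (fun n => Z (φ n) (u (φ n)) + (x - u (φ n)) * (ρ * V)) atTop
        (𝓝 (p μ + (x - μ) * (ρ * V))) :=
      hFlim.add ((tendsto_const_nhds.sub hlim).mul_const _)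
    refine le_of_tendsto_of_tendsto h1 (hZlim x) ?_
    filter_upwards [hu3] with n hn
    have h2 := htan (φ n) (u (φ n)) x
    rwa [hn.1] at h2
  · -- the gluing inequality
    intro Y
    have hcut := cut_nonneg M Y
    have hK := M.hK
    have hI : M.int Y (({ω | ∀ i ∈ bd Y, M.c (ω i) = ω i}).indicator
        fun ω => M.w μ Y ω * ex (ρ * V * M.K * M.ou Y ω)) ≤
        ex (Y.card * p μ + M.K / 2 * V ^ 2 * (ρ ^ 2 + τ) * cut M.S M.J Y) := by
      have hlim2 : Tendsto (fun n => |u (φ n) - μ| * (M.N : ℝ) * Y.card +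
          (Y.card * Z (φ n) (u (φ n)) + M.K / 2 * V ^ 2 * (ρ ^ 2 + τ) * cut M.S M.J Y)) atTop
          (𝓝 (Y.card * p μ + M.K / 2 * V ^ 2 * (ρ ^ 2 + τ) * cut M.S M.J Y)) := by
        have h1 := (hdist.mul_const (Y.card : ℝ)).add ((hFlim.const_mul (Y.card : ℝ)).add_const
          (M.K / 2 * V ^ 2 * (ρ ^ 2 + τ) * cut M.S M.J Y))
        rwa [zero_mul, zero_add] at h1
      refine ge_of_tendsto (Gl.tendsto_ex hlim2) ?_
      obtain ⟨L0, hL0⟩ : ∃ L0 : ℕ, ∀ i ∈ Y, ∀ k, |i k| + M.r ≤ L0 := by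
        refine ⟨(∑ i ∈ Y, ∑ k, (i k).natAbs) + M.r, fun i hi k => ?_⟩
        have h1 : (i k).natAbs ≤ ∑ k, (i k).natAbs :=
          single_le_sum (f := fun k => (i k).natAbs) (fun _ _ => Nat.zero_le _) (mem_univ k)
        have h2 : ∑ k, (i k).natAbs ≤ ∑ i ∈ Y, ∑ k, (i k).natAbs :=
          single_le_sum (f := fun i : Zd d => ∑ k, (i k).natAbs) (fun _ _ => Nat.zero_le _) hi
        have h3 : |i k| = ((i k).natAbs : ℤ) := Int.abs_eq_natAbs _
        rw [h3]
        have h4 : (i k).natAbs ≤ ∑ i ∈ Y, ∑ k, (i k).natAbs := h1.trans h2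
        omega
      filter_upwards [hu3, hφt.eventually (eventually_ge_atTop L0),
        hφt.eventually (eventually_ge_atTop Y.card)] with n hn hn1 hn2
      have hY : ∀ i ∈ Y, ∀ k, |i k| + M.r ≤ φ n := fun i hi k => by
        have := hL0 i hi k
        omega
      have hL : Y.card < (2 * φ n + 1) ^ d := by
        calc Y.card < 2 * φ n + 1 := by omega
          _ = (2 * φ n + 1) ^ 1 := (pow_one _).symm
          _ ≤ _ := Nat.pow_le_pow_right (by omega) hd
      have h3 := glue_torus2 M (φ n) Y hY hL (u (φ n))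
      rw [hn.1] at h3
      have h4 : ex (Y.card * (Real.log (M.ZT (φ n) (u (φ n))).toReal / (2 * φ n + 1 : ℝ) ^ d) +
          M.K / 2 * m2 M (φ n) (u (φ n)) * cut M.S M.J Y) ≤
          ex (Y.card * Z (φ n) (u (φ n)) + M.K / 2 * V ^ 2 * (ρ ^ 2 + τ) * cut M.S M.J Y) := by
        refine ex_le_ex.2 ?_
        have h5 : M.K / 2 * m2 M (φ n) (u (φ n)) * cut M.S M.J Y ≤
            M.K / 2 * (V ^ 2 * (ρ ^ 2 + τ)) * cut M.S M.J Y :=
          mul_le_mul_of_nonneg_right (mul_le_mul_of_nonneg_left hn.2 (by positivity)) hcut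
        simp only [hZ]
        linarith
      have h6 : M.int Y (({ω | ∀ i ∈ bd Y, M.c (ω i) = ω i}).indicator
          fun ω => M.w μ Y ω * ex (ρ * V * M.K * M.ou Y ω)) ≤
          ex (|u (φ n) - μ| * (M.N : ℝ) * Y.card) *
          M.int Y (({ω | ∀ i ∈ bd Y, M.c (ω i) = ω i}).indicator
          fun ω => M.w (u (φ n)) Y ω * ex (ρ * V * M.K * M.ou Y ω)) := by
        have := TorP.fin_π M
        unfold Kac.Md.int
        have hmeas : Measurable (({ω : Zd d → E | ∀ i ∈ bd Y, M.c (ω i) = ω i}).indicator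
          fun ω => M.w (u (φ n)) Y ω * ex (ρ * V * M.K * M.ou Y ω)) :=
          Gl.measurable_Ps M (u (φ n)) (ρ * V) Y
        rw [← TorP.lm_const_mul M _ hmeas]
        refine TorP.lm_mono M _ (fun ω => ?_) _
        by_cases hω : ω ∈ {ω : Zd d → E | ∀ i ∈ bd Y, M.c (ω i) = ω i}
        · rw [Set.indicator_of_mem hω, Set.indicator_of_mem hω, ← mul_assoc]
          refine mul_le_mul' ?_ le_rfl
          have h7 := w_le_w M μ (u (φ n)) Y ω
          rw [abs_sub_comm] at h7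
          refine h7.trans (le_of_eq ?_)
          congr 2
          ring
        · rw [Set.indicator_of_notMem hω]
          exact zero_le
      refine h6.trans ?_
      rw [ex_add]
      exact mul_le_mul' le_rfl (h3.trans h4)
    have hF : Measurable fun ω : Zd d → E => M.w μ Y ω * ex (ρ * V * M.K * M.ou Y ω) :=
      (TorP.measurable_wG M id μ Y).mul (Gl.measurable_ou M Y (ρ * V * M.K))
    refine (int_tr2 M G.bs_nonneg G.push Y _ hF).trans ?_
    refine (mul_le_mul' le_rfl hI).trans (le_of_eq ?_)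
    rw [← ex_add]
    congr 1
    ring

end Pool.Agent.Vdw
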