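import Pool.Agent.Lib.MP_09cbbd_vw.TorC
import Pool.Agent.Lib.MP_09cbbd_kc.Glue

/-!
# The gluing inequality with the second moment
-/

set_option autoImplicit false

namespace Pool.Agent.Vdw

open MeasureTheory Finset Filter Topology Pool.Agent.StableGas Pool.Agent.Kac
open Pool.Agent.SquareWell hiding Md cut

variable {d : ℕ} {E : Type} [MeasurableSpace E]

open Pool.Agent.Kac.TorP Pool.Agent.Kac.Gl in
theorem int_push2 (M : Md d E) {bs : ℝ} (hpush : ∀ F : E → ENNReal, Measurable F →
      ∫⁻ x, F (M.c x) ∂M.π ≤ ex bs * ∫⁻ x in {x | M.c x = x}, F x ∂M.π)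
    (Y D : Finset (Zd d)) (hD : D ⊆ Y) (F : (Zd d → E) → ENNReal)
    (hF : Measurable F) (x : Zd d → E) :
    lmarginal (fun _ : Zd d => M.π) Y (fun ω => F fun i => if i ∈ D then M.c (ω i) else ω i) x ≤
      ex (bs * D.card) * lmarginal (fun _ : Zd d => M.π) Y
        ({ω | ∀ i ∈ D, M.c (ω i) = ω i}.indicator F) x := by
  have := fin_π M
  induction D using Finset.induction_on generalizing F with
  | empty => simp [ex_zero]
  | insert a D ha ih =>
    have haY : a ∈ Y := hD (mem_insert_self a D)
    set G : (Zd d → E) → ENNReal := ({ω | M.c (ω a) = ω a} : Set (Zd d → E)).indicator F with hG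
    have hGm : Measurable G := hF.indicator (measurableSet_core_at M a)
    have hGt : Measurable fun ω : Zd d → E => G fun i => if i ∈ D then M.c (ω i) else ω i :=
      hGm.comp (measurable_trim M D)
    have h1 : lmarginal (fun _ : Zd d => M.π) Y
        (fun ω => F fun i => if i ∈ insert a D then M.c (ω i) else ω i) x ≤
        ex bs * lmarginal (fun _ : Zd d => M.π) Y
          (fun ω => G fun i => if i ∈ D then M.c (ω i) else ω i) x := by
      have hFt : Measurable fun ω : Zd d → E =>
          F fun i => if i ∈ insert a D then M.c (ω i) else ω i :=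
        hF.comp (measurable_trim M (insert a D))
      rw [← lm_const_mul M Y hGt, lmarginal_erase' _ hFt haY,
        lmarginal_erase' _ (hGt.const_mul _) haY]
      refine lm_mono M _ (fun ω => ?_) x
      set z : Zd d → E := fun i => if i ∈ D then M.c (ω i) else ω i with hz
      have e1 : ∀ y : E, (fun i => if i ∈ insert a D then M.c (Function.update ω a y i)
          else Function.update ω a y i) = Function.update z a (M.c y) := fun y => by
        funext i
        by_cases hi : i = a
        · subst hi; simp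
        · by_cases hi2 : i ∈ D <;> simp [hz, hi, hi2]
      have e2 : ∀ y : E, (fun i => if i ∈ D then M.c (Function.update ω a y i)
          else Function.update ω a y i) = Function.update z a y := fun y => by
        funext i
        by_cases hi : i = a
        · subst hi; simp [ha]
        · by_cases hi2 : i ∈ D <;> simp [hz, hi, hi2]
      have hH : Measurable fun y : E => F (Function.update z a y) :=
        hF.comp (measurable_update z)
      have h2 := hpush (fun y => F (Function.update z a y)) hH
      show ∫⁻ y, F (fun i => if i ∈ insert a D then M.c (Function.update ω a y i)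
          else Function.update ω a y i) ∂M.π ≤
        ∫⁻ y, ex bs * G (fun i => if i ∈ D then M.c (Function.update ω a y i)
          else Function.update ω a y i) ∂M.π
      simp only [e1, e2]
      refine h2.trans ?_
      rw [lintegral_const_mul' _ _ (ex_ne_top _)]
      refine mul_le_mul' le_rfl (le_of_eq ?_)
      rw [← lintegral_indicator M.measurableSet_core]
      refine lintegral_congr fun y => ?_
      by_cases hy : M.c y = y
      · rw [Set.indicator_of_mem (show y ∈ {x | M.c x = x} from hy), hG,
          Set.indicator_of_mem (by simpa using hy)]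
      · rw [Set.indicator_of_notMem (show y ∉ {x | M.c x = x} from hy), hG,
          Set.indicator_of_notMem (by simpa using hy)]
    have h2 := ih (fun i hi => hD (mem_insert_of_mem hi)) G hGm
    have h3 : ({ω : Zd d → E | ∀ i ∈ D, M.c (ω i) = ω i}).indicator G =
        ({ω | ∀ i ∈ insert a D, M.c (ω i) = ω i}).indicator F := by
      rw [hG, Set.indicator_indicator]
      congr 1
      ext ω
      simp [and_comm]
    rw [h3] at h2
    calc _ ≤ _ := h1
      _ ≤ ex bs * (ex (bs * D.card) * _) := mul_le_mul' le_rfl h2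
      _ = _ := by
        rw [← mul_assoc, ← ex_add, card_insert_of_notMem ha]
        congr 2
        push_cast
        ring

/-- Trimming, with the better constant. -/
theorem int_tr2 (M : Md d E) {bs : ℝ} (hbs : 0 ≤ bs) (hpush : ∀ F : E → ENNReal, Measurable F →
      ∫⁻ x, F (M.c x) ∂M.π ≤ ex bs * ∫⁻ x in {x | M.c x = x}, F x ∂M.π)
    (Y : Finset (Zd d)) (F : (Zd d → E) → ENNReal) (hF : Measurable F) :
    M.int Y (fun ω => F (M.tr Y ω)) ≤ ex (bs * (bd Y).card) *
      M.int Y ({ω | ∀ i ∈ bd Y, M.c (ω i) = ω i}.indicator F) := by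
  have h := int_push2 M hpush Y (bd Y) (fun i hi => (mem_bd.1 hi).1) F hF fun _ => M.e0
  refine le_trans (le_of_eq ?_) h
  unfold Kac.Md.int Kac.Md.tr
  congr 1

open Pool.Agent.Kac.TorP Pool.Agent.Kac.Gl in
/-- The gluing inequality on a torus. -/
theorem glue_torus2 (M : Md d E) (L : ℕ) (Y : Finset (Zd d)) (hY : ∀ i ∈ Y, ∀ k, |i k| + M.r ≤ L)
    (hL : Y.card < (2 * L + 1) ^ d) (μ : ℝ) :
    M.int Y ({ω | ∀ i ∈ bd Y, M.c (ω i) = ω i}.indicator
        fun ω => M.w μ Y ω * ex (m1 M L μ * M.K * M.ou Y ω)) ≤
      ex (Y.card * (Real.log (M.ZT L μ).toReal / (2 * L + 1 : ℝ) ^ d) +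
        M.K / 2 * m2 M L μ * cut M.S M.J Y) := by
  have := fin_π M
  have hYL : ∀ i ∈ Y, ∀ k, |i k| ≤ L := fun i hi k => by
    have := hY i hi k
    omega
  have hinj : ∀ i ∈ Y, ∀ j ∈ Y, cst L i = cst L j → i = j := fun i hi j hj h => by
    rw [← vm_cst (hYL i hi), ← vm_cst (hYL j hj), h]
  set A := Y.image (cst L) with hA
  have hAc : A.card = Y.card := card_image_of_injOn fun i hi j hj h => hinj i hi j hj h
  have hAL : A.card < (2 * L + 1) ^ d := by rw [hAc]; exact hL
  set V : ℝ := (2 * L + 1 : ℝ) ^ d with hV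
  have hV0 : 0 < V := by rw [hV]; positivity
  set lz : ℝ := Real.log (M.ZT L μ).toReal with hlz
  set q : ℝ := m1 M L μ with hq
  set C1 : ℝ := (V - A.card) / V * lz - M.K / 2 * m2 M L μ * cut M.S M.J Y with hC1
  have hm := measurable_wG M (cst L) μ (univ : Finset (Tor d L))
  have e1 : M.ZT L μ = lmarginal (fun _ : Tor d L => M.π) A
      (lmarginal (fun _ : Tor d L => M.π) (univ \ A) (M.wG (cst L) μ univ)) (fun _ => M.e0) := by
    unfold Kac.Md.ZT
    rw [lintegral_eq_lmarginal_univ (fun _ => M.e0), ← lmarginal_union _ _ hm disjoint_sdiff,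
      union_sdiff_of_subset (subset_univ A)]
  have hmP : Measurable fun ω : Tor d L → E => Ps M μ q Y fun i => ω (cst L i) :=
    (measurable_Ps M μ q Y).comp (measurable_pi_iff.2 fun i => measurable_pi_apply _)
  have h1 : ex C1 * M.int Y (Ps M μ q Y) ≤ M.ZT L μ := by
    rw [e1, ← transfer M vm_inj (fun i hi => vm_cst (hYL i hi)) (measurable_Ps M μ q Y)
      (Ps_dep M μ q Y), ← lm_const_mul M _ hmP]
    refine lm_mono M A (fun ω => ?_) _
    by_cases hω : ∀ i ∈ bd Y, M.c (ω (cst L i)) = ω (cst L i)
    · refine le_trans ?_ (inner_ge M hY μ ω hω)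
      have h2 : Ps M μ q Y (fun i => ω (cst L i)) = M.w μ Y (fun i => ω (cst L i)) *
          ex (q * M.K * M.ou Y fun i => ω (cst L i)) := by
        unfold Ps
        exact Set.indicator_of_mem (show (fun i => ω (cst L i)) ∈
          {ω : Zd d → E | ∀ i ∈ bd Y, M.c (ω i) = ω i} from hω) _
      rw [h2, mul_left_comm]
      refine mul_le_mul' le_rfl ?_
      refine le_trans (le_of_eq ?_) (torus_lower2 M L μ A hAL (fd M L Y ω))
      rw [← ex_add]
      congr 1
      have h3 : ∑ j ∈ univ \ A, fd M L Y ω j = M.K * M.ou Y fun i => ω (cst L i) := by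
        have h4 := sum_fd M hY ω fun _ => 1
        simp only [mul_one] at h4
        rw [h4]
        unfold Kac.Md.ou
        rw [mul_sum]
        refine sum_congr rfl fun v _ => ?_
        rw [mul_sum, mul_sum]
        exact sum_congr rfl fun i _ => by ring
      rw [h3, cutT_eq M hY, hC1]
      ring
    · have h2 : Ps M μ q Y (fun i => ω (cst L i)) = 0 := by
        unfold Ps
        exact Set.indicator_of_notMem (show (fun i => ω (cst L i)) ∉
          {ω : Zd d → E | ∀ i ∈ bd Y, M.c (ω i) = ω i} from hω) _
      rw [h2, mul_zero]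
      exact zero_le
  have h2 : M.ZT L μ = ex lz := (ex_log (lt_of_lt_of_le one_pos (one_le_ZT M L μ)).ne'
    (ZT_ne_top M L μ)).symm
  rw [h2] at h1
  have h3 := mul_le_mul' (le_refl (ex (-C1))) h1
  rw [← mul_assoc, ← ex_add, ← ex_add, neg_add_cancel, ex_zero, one_mul] at h3
  refine h3.trans (ex_le_ex.2 (le_of_eq ?_))
  rw [hC1, hAc]
  field_simp
  ring

end Pool.Agent.Vdw
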