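import Pool.Agent.Lib.MP_09cbbd_vw.Def
import Pool.Agent.Lib.MP_09cbbd_kc.Can
import Pool.Agent.Lib.MP_09cbbd_kc.Kink

/-!
# The free energy of hard spheres of diameter one
-/

set_option autoImplicit false

namespace Pool.Agent.Vdw

open MeasureTheory Filter Topology Pool.Agent.StableGas Pool.Agent.SquareWellGas Pool.Agent.KacGas
  Pool.Agent.VdwGas

variable {d : ℕ}

/-- Particle numbers with prescribed density. -/
theorem tendsto_density (hd : 1 ≤ d) {ρ : ℝ} (hρ : 0 < ρ) :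
    Tendsto (fun j : ℕ => ((⌊ρ * (j : ℝ) ^ d⌋₊ : ℕ) : ℝ) / (j : ℝ) ^ d) atTop (𝓝 ρ) := by
  have h1 : Tendsto (fun j : ℕ => (j : ℝ) ^ d) atTop atTop :=
    (tendsto_pow_atTop (by omega)).comp tendsto_natCast_atTop_atTop
  have h2 := (tendsto_nat_floor_mul_div_atTop (R := ℝ) hρ.le).comp h1
  exact h2

theorem IsF.le_of (hd : 1 ≤ d) {a : ℝ} {u : (Fin d → ℝ) → ℝ} {f g : ℝ → ℝ} {r s : ℝ}
    (hf : IsF d a u f r) (hg : IsF d a u g s) : s ≤ r := by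
  by_contra hcon
  push Not at hcon
  obtain ⟨ρ, h1, h2⟩ := exists_between hcon
  have hρ : 0 < ρ := hf.1.trans h1
  have k1 := (hf.2 (fun j : ℕ => (j : ℝ)) (fun j => ⌊ρ * (j : ℝ) ^ d⌋₊) ρ
    tendsto_natCast_atTop_atTop (tendsto_density hd hρ)).2 h1
  have k2 := ((hg.2 (fun j : ℕ => (j : ℝ)) (fun j => ⌊ρ * (j : ℝ) ^ d⌋₊) ρ
    tendsto_natCast_atTop_atTop (tendsto_density hd hρ)).1 ⟨hρ, h2⟩).1
  obtain ⟨j, h3, h4⟩ := (k1.and k2).exists
  exact h4.ne' h3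

/-- The maximal density does not depend on the interaction, and `IsF` determines `f` and it. -/
theorem IsF.unique (hd : 1 ≤ d) {a : ℝ} {u : (Fin d → ℝ) → ℝ} {f g : ℝ → ℝ} {r s : ℝ}
    (hf : IsF d a u f r) (hg : IsF d a u g s) : r = s ∧ ∀ x ∈ Set.Ioo 0 r, f x = g x := by
  have hrs : r = s := le_antisymm (IsF.le_of hd hg hf) (IsF.le_of hd hf hg)
  refine ⟨hrs, fun x hx => ?_⟩
  have k1 := ((hf.2 (fun j : ℕ => (j : ℝ)) (fun j => ⌊x * (j : ℝ) ^ d⌋₊) x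
    tendsto_natCast_atTop_atTop (tendsto_density hd hx.1)).1 hx).2
  have k2 := ((hg.2 (fun j : ℕ => (j : ℝ)) (fun j => ⌊x * (j : ℝ) ^ d⌋₊) x
    tendsto_natCast_atTop_atTop (tendsto_density hd hx.1)).1 (hrs ▸ hx)).2
  exact tendsto_nhds_unique k1 k2

/-- The configurations. -/
def confN (d : ℕ) (a ℓ : ℝ) (N : ℕ) : Set (Fin N → Fin d → ℝ) :=
  {x : Fin N → Fin d → ℝ | (∀ i, x i ∈ Box d ℓ) ∧
    ∀ i j, i ≠ j → (2 * a) ^ 2 ≤ ∑ k, (x i k - x j k) ^ 2}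

theorem volume_confN_ne_top (a ℓ : ℝ) (N : ℕ) : volume (confN d a ℓ N) ≠ ⊤ := by
  have h1 : confN d a ℓ N ⊆ Set.pi Set.univ fun _ => Set.pi Set.univ fun _ =>
      Set.Ico (0 : ℝ) ℓ := by
    intro x hx i _ k _
    exact hx.1 i k
  refine ne_top_of_le_ne_top ?_ (measure_mono h1)
  rw [volume_pi_pi]
  simp only [volume_pi_pi, Real.volume_Ico, sub_zero, Finset.prod_const]
  exact ENNReal.pow_ne_top (ENNReal.pow_ne_top ENNReal.ofReal_ne_top)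

theorem integrableOn_exp {a : ℝ} {u : (Fin d → ℝ) → ℝ} (hu : Measurable u) {Cu : ℝ}
    (hCu : ∀ x, |u x| ≤ Cu) (ℓ : ℝ) (N : ℕ) :
    IntegrableOn (fun x : Fin N → Fin d → ℝ =>
      Real.exp (∑ i, ∑ j ∈ Finset.Ioi i, u (x i - x j))) (confN d a ℓ N) := by
  have hm : Measurable fun x : Fin N → Fin d → ℝ =>
      Real.exp (∑ i, ∑ j ∈ Finset.Ioi i, u (x i - x j)) := by
    refine Real.measurable_exp.comp ?_
    refine Finset.measurable_sum _ fun i _ => Finset.measurable_sum _ fun j _ => ?_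
    exact hu.comp ((measurable_pi_apply i).sub (measurable_pi_apply j))
  refine Measure.integrableOn_of_bounded (M := Real.exp (∑ i : Fin N, ∑ j ∈ Finset.Ioi i, Cu))
    (volume_confN_ne_top a ℓ N) hm.aestronglyMeasurable (ae_of_all _ fun x => ?_)
  rw [Real.norm_eq_abs, abs_of_pos (Real.exp_pos _), Real.exp_le_exp]
  exact Finset.sum_le_sum fun i _ => Finset.sum_le_sum fun j _ => (le_abs_self _).trans (hCu _)

theorem Z_pos_iff_volume {a : ℝ} {u : (Fin d → ℝ) → ℝ} (hu : Measurable u) {Cu : ℝ}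
    (hCu : ∀ x, |u x| ≤ Cu) (ℓ : ℝ) (N : ℕ) :
    0 < Z d a u ℓ N ↔ 0 < volume (confN d a ℓ N) := by
  have hN : (0 : ℝ) < ((N.factorial : ℝ))⁻¹ := by positivity
  have h1 : Z d a u ℓ N = ((N.factorial : ℝ))⁻¹ * ∫ x in confN d a ℓ N,
      Real.exp (∑ i, ∑ j ∈ Finset.Ioi i, u (x i - x j)) := rfl
  rw [h1, mul_pos_iff_of_pos_left hN,
    setIntegral_pos_iff_support_of_nonneg_ae (ae_of_all _ fun x => (Real.exp_pos _).le)
      (integrableOn_exp hu hCu ℓ N)]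
  have h2 : Function.support (fun x : Fin N → Fin d → ℝ =>
      Real.exp (∑ i, ∑ j ∈ Finset.Ioi i, u (x i - x j))) = Set.univ := by
    rw [Set.eq_univ_iff_forall]
    intro x
    exact (Real.exp_pos _).ne'
  rw [h2, Set.univ_inter]

theorem Z_pos_iff {a : ℝ} {u v : (Fin d → ℝ) → ℝ} (hu : Measurable u) (hv : Measurable v)
    {Cu Cv : ℝ} (hCu : ∀ x, |u x| ≤ Cu) (hCv : ∀ x, |v x| ≤ Cv) (ℓ : ℝ) (N : ℕ) :
    0 < Z d a u ℓ N ↔ 0 < Z d a v ℓ N := by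
  rw [Z_pos_iff_volume hu hCu, Z_pos_iff_volume hv hCv]

end Pool.Agent.Vdw
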