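import Pool.Agent.Lib.MP_09cbbd_vw.Asm
import Pool.Agent.Lib.MP_09cbbd_vw.Glue

/-!
# The pressure has a kink at the mean field coexistence
-/

set_option autoImplicit false

namespace Pool.Agent.Vdw

open MeasureTheory Finset Filter Topology Pool.Agent.StableGas Pool.Agent.Kac
open Pool.Agent.SquareWell hiding Md cut

variable {d : ℕ}

/-- Slopes are monotone. -/
theorem Sub.le {p : ℝ → ℝ} {μ ν s t : ℝ} (h1 : Sub p μ s) (h2 : Sub p ν t) (hst : s < t) :
    μ ≤ ν := by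
  have e1 := h1 ν
  have e2 := h2 μ
  by_contra hcon
  push Not at hcon
  nlinarith

/-- The kink. -/
theorem kink (hd : 2 ≤ d) {P : Par} (hP : P.Ok) {δ : ℝ} (hδ : 0 < δ) :
    ∃ ε0 : ℝ, 0 < ε0 ∧ ∀ (E : Type) (_ : MeasurableSpace E) (M : Md d E) (V bs μs Ps ε : ℝ)
      (k : ℕ), Good P M V bs μs Ps ε k → ε ≤ ε0 → ∀ p : ℝ → ℝ, M.IsP p →
      ∃ w : ℝ, (∀ h : ℝ, 0 < h → p w + h * ((P.xb - δ) * V) ≤ p (w + h)) ∧
        (∀ h : ℝ, 0 < h → p w - h * ((P.xa + δ) * V) ≤ p (w - h)) ∧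
        (∃ h : ℝ, 0 < h ∧ p (w + h) ≤ p w + h * ((P.xb + δ) * V)) ∧
        (∃ h : ℝ, 0 < h ∧ p (w - h) ≤ p w - h * ((P.xa - δ) * V)) := by
  have hab : 0 < P.xb - P.xa := sub_pos.2 hP.xa_lt
  have hc := hP.c_pos
  have hT := hP.T_pos
  obtain ⟨δ0, hδ0, hgap⟩ := no_gap hd hP
  obtain ⟨δ', hδ', hδδ, hδδ0, hδab⟩ : ∃ δ' : ℝ, 0 < δ' ∧ δ' ≤ δ ∧ δ' ≤ δ0 ∧
      2 * δ' < P.xb - P.xa := by
    refine ⟨min (min δ δ0) ((P.xb - P.xa) / 4), ?_, ?_, ?_, ?_⟩
    · exact lt_min (lt_min hδ hδ0) (by linarith)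
    · exact (min_le_left _ _).trans (min_le_left _ _)
    · exact (min_le_left _ _).trans (min_le_right _ _)
    · have := min_le_right (min δ δ0) ((P.xb - P.xa) / 4)
      linarith
  obtain ⟨η1, hη1, hgap⟩ := hgap δ' hδ' hδδ0
  obtain ⟨η2, hη2, hglue⟩ := exists_glue (d := d) (by omega) hP hδ' hδab
  -- the step `h`
  obtain ⟨h, hh, hhc⟩ : ∃ h : ℝ, 0 < h ∧ h ^ 2 / P.c ≤ h * δ / 2 := by
    refine ⟨P.c * δ / 2, by positivity, ?_⟩
    have : (P.c * δ / 2) ^ 2 / P.c = P.c * δ / 2 * δ / 2 := by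
      field_simp
    rw [this]
  obtain ⟨η, hη, hηη1, hηη2, hηh, hη1'⟩ : ∃ η : ℝ, 0 < η ∧ η ≤ η1 ∧ η ≤ η2 ∧ η ≤ h ∧ η ≤ 1 := by
    refine ⟨min (min η1 η2) (min h 1), lt_min (lt_min hη1 hη2) (lt_min hh one_pos), ?_, ?_, ?_, ?_⟩
    · exact (min_le_left _ _).trans (min_le_left _ _)
    · exact (min_le_left _ _).trans (min_le_right _ _)
    · exact (min_le_right _ _).trans (min_le_left _ _)
    · exact (min_le_right _ _).trans (min_le_right _ _)
  obtain ⟨ε1, hε1, hgap⟩ := hgap η hη hηη1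
  obtain ⟨ε2, hε2, hglue⟩ := hglue η hη hηη2
  obtain ⟨C, hC⟩ : ∃ C : ℝ, C = 2 + P.T * (P.R + 1) ^ 2 := ⟨_, rfl⟩
  have hC0 : 0 < C := by
    rw [hC]
    positivity
  refine ⟨min (min ε1 ε2) (h * δ / (2 * (2 + C))), ?_, ?_⟩
  · exact lt_min (lt_min hε1 hε2) (by positivity)
  intro E _ M V bs μs Ps ε k G hε p hp
  have hεε1 : ε ≤ ε1 := hε.trans ((min_le_left _ _).trans (min_le_left _ _))
  have hεε2 : ε ≤ ε2 := hε.trans ((min_le_left _ _).trans (min_le_right _ _))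
  have hεh : (2 + C) * ε ≤ h * δ / 2 := by
    have h1 : ε ≤ h * δ / (2 * (2 + C)) := hε.trans (min_le_right _ _)
    rw [le_div_iff₀ (by positivity)] at h1
    linarith
  have hV := G.V_pos
  obtain ⟨μa, hμa, hSa, hGa⟩ := hglue E _ M V bs μs Ps ε k G hεε2 p hp (P.xa + δ') (Or.inl rfl)
  obtain ⟨μb, hμb, hSb, hGb⟩ := hglue E _ M V bs μs Ps ε k G hεε2 p hp (P.xb - δ') (Or.inr rfl)
  have hle : μa ≤ μb := hSa.le hSb (by
    apply mul_lt_mul_of_pos_right _ hV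
    linarith)
  have heq : μa = μb := by
    rcases hle.lt_or_eq with hlt | heq
    · exact (hgap E _ M V bs μs Ps ε k G hεε1 p hp μa μb hlt hμa hμb hSa hSb hGa hGb).elim
    · exact heq
  subst heq
  obtain ⟨hw1, hw2⟩ := abs_le.1 hμa
  refine ⟨μa, fun h' hh' => ?_, fun h' hh' => ?_, ⟨h, hh, ?_⟩, ⟨h, hh, ?_⟩⟩
  · have e1 := hSb (μa + h')
    have e2 : h' * ((P.xb - δ) * V) ≤ h' * ((P.xb - δ') * V) := by
      apply mul_le_mul_of_nonneg_left _ hh'.le
      apply mul_le_mul_of_nonneg_right _ hV.le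
      linarith
    have e3 : μa + h' - μa = h' := by ring
    rw [e3] at e1
    linarith
  · have e1 := hSa (μa - h')
    have e2 : h' * ((P.xa + δ') * V) ≤ h' * ((P.xa + δ) * V) := by
      apply mul_le_mul_of_nonneg_left _ hh'.le
      apply mul_le_mul_of_nonneg_right _ hV.le
      linarith
    have e3 : μa - h' - μa = -h' := by ring
    rw [e3, neg_mul] at e1
    linarith
  · have e1 := p_up (by omega) hP G hp (μa + h)
    have e2 := p_lo (by omega) hP G hp μa (hμa.trans hη1') (Or.inr rfl : P.xb = P.xa ∨ P.xb = P.xb)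
    rw [← hC] at e2
    have hm : max ((μa + h - μs) * P.xa) ((μa + h - μs) * P.xb) = (μa + h - μs) * P.xb := by
      apply max_eq_right
      apply mul_le_mul_of_nonneg_left hP.xa_lt.le
      linarith
    rw [hm] at e1
    have hq : (μa + h - μs) ^ 2 / (4 * P.c) ≤ h ^ 2 / P.c := by
      rw [div_le_div_iff₀ (by positivity) hc]
      have h1 : (μa + h - μs) ^ 2 ≤ (2 * h) ^ 2 := by
        apply pow_le_pow_left₀ <;> linarith
      nlinarith
    have e3 : V * (Ps + 2 * ε + (μa + h - μs) * P.xb + (μa + h - μs) ^ 2 / (4 * P.c)) ≤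
        V * (Ps + (μa - μs) * P.xb - C * ε + h * (P.xb + δ)) := by
      apply mul_le_mul_of_nonneg_left _ hV.le
      linarith
    have e4 : V * (Ps + (μa - μs) * P.xb - C * ε + h * (P.xb + δ)) =
        V * (Ps + (μa - μs) * P.xb - C * ε) + h * ((P.xb + δ) * V) := by ring
    linarith
  · have e1 := p_up (by omega) hP G hp (μa - h)
    have e2 := p_lo (by omega) hP G hp μa (hμa.trans hη1') (Or.inl rfl : P.xa = P.xa ∨ P.xa = P.xb)
    rw [← hC] at e2
    have hm : max ((μa - h - μs) * P.xa) ((μa - h - μs) * P.xb) = (μa - h - μs) * P.xa := by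
      apply max_eq_left
      apply mul_le_mul_of_nonpos_left hP.xa_lt.le
      linarith
    rw [hm] at e1
    have hq : (μa - h - μs) ^ 2 / (4 * P.c) ≤ h ^ 2 / P.c := by
      rw [div_le_div_iff₀ (by positivity) hc]
      have h1 : (μa - h - μs) ^ 2 ≤ (2 * h) ^ 2 := by
        rw [← abs_of_nonneg (show (0 : ℝ) ≤ 2 * h by positivity), sq_abs, sq_le_sq, abs_of_nonneg
          (show (0 : ℝ) ≤ 2 * h by positivity), abs_le]
        constructor <;> linarith
      nlinarith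
    have e3 : V * (Ps + 2 * ε + (μa - h - μs) * P.xa + (μa - h - μs) ^ 2 / (4 * P.c)) ≤
        V * (Ps + (μa - μs) * P.xa - C * ε - h * (P.xa - δ)) := by
      apply mul_le_mul_of_nonneg_left _ hV.le
      linarith
    have e4 : V * (Ps + (μa - μs) * P.xa - C * ε - h * (P.xa - δ)) =
        V * (Ps + (μa - μs) * P.xa - C * ε) - h * ((P.xa - δ) * V) := by ring
    linarith

end Pool.Agent.Vdw
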