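import Pool.Agent.Lib.MP_09cbbd_vw.MFD

/-!
# Contact points of a continuous function with its concave envelope
-/

set_option autoImplicit false

namespace Pool.Agent.Vdw

open Set Filter Topology MeasureTheory

/-- `x` is a contact point: `g x` is at least the interpolation of the values at two points on
different sides of `x`. -/
def Con (g : ℝ → ℝ) (r x : ℝ) : Prop :=
  0 < x ∧ x < r ∧ ∀ y w, 0 < y → y < x → x < w → w < r →
    (w - x) * g y + (x - y) * g w ≤ (w - y) * g x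

/-- At a contact point there is an affine majorant. -/
theorem Con.slope {g : ℝ → ℝ} {r x : ℝ} (h : Con g r x) :
    ∃ m, ∀ y ∈ Ioo 0 r, g y ≤ g x + m * (y - x) := by
  obtain ⟨hx0, hxr, h⟩ := h
  set S : Set ℝ := {s | ∃ w, x < w ∧ w < r ∧ s = (g w - g x) / (w - x)} with hS
  have hub : ∀ y, 0 < y → y < x → ∀ s ∈ S, s ≤ (g x - g y) / (x - y) := by
    rintro y hy hyx s ⟨w, hw, hwr, rfl⟩
    rw [div_le_div_iff₀ (by linarith) (by linarith)]
    have := h y w hy hyx hw hwr
    nlinarith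
  have hne : S.Nonempty := ⟨_, (x + r) / 2, by linarith, by linarith, rfl⟩
  have hbdd : BddAbove S := ⟨_, hub (x / 2) (by linarith) (by linarith)⟩
  refine ⟨sSup S, fun y hy => ?_⟩
  rcases lt_trichotomy y x with hyx | rfl | hyx
  · have h1 : sSup S ≤ (g x - g y) / (x - y) := csSup_le hne (hub y hy.1 hyx)
    rw [le_div_iff₀ (by linarith)] at h1
    linarith
  · simp
  · have h1 : (g y - g x) / (y - x) ≤ sSup S := le_csSup hbdd ⟨y, hyx, hy.2, rfl⟩
    rw [div_le_iff₀ (by linarith)] at h1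
    linarith

/-- A point with an affine majorant is a contact point. -/
theorem Con.of_slope {g : ℝ → ℝ} {r x m : ℝ} (hx0 : 0 < x) (hxr : x < r)
    (h : ∀ y ∈ Ioo 0 r, g y ≤ g x + m * (y - x)) : Con g r x := by
  refine ⟨hx0, hxr, fun y w hy hyx hxw hwr => ?_⟩
  have h1 := h y ⟨hy, by linarith⟩
  have h2 := h w ⟨by linarith, hwr⟩
  nlinarith [mul_le_mul_of_nonneg_left h1 (by linarith : 0 ≤ w - x),
    mul_le_mul_of_nonneg_left h2 (by linarith : 0 ≤ x - y)]

/-- The set of the contact points is closed in `(0, r)`. -/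
theorem Con.of_closure {g : ℝ → ℝ} {r : ℝ} (hg : ContinuousOn g (Ioo 0 r)) {x : ℝ} (hx0 : 0 < x)
    (hxr : x < r) (h : x ∈ closure {x | Con g r x}) : Con g r x := by
  refine ⟨hx0, hxr, fun y w hy hyx hxw hwr => ?_⟩
  by_contra hcon
  rw [not_le] at hcon
  have hgx : ContinuousAt g x := hg.continuousAt (Ioo_mem_nhds hx0 hxr)
  have h1 : ∀ᶠ x' in 𝓝 x, (w - y) * g x' < (w - x') * g y + (x' - y) * g w := by
    refine ContinuousAt.eventually_lt ?_ ?_ hcon
    · exact continuousAt_const.mul hgx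
    · fun_prop
  have h2 : ∀ᶠ x' in 𝓝 x, y < x' := eventually_gt_nhds hyx
  have h3 : ∀ᶠ x' in 𝓝 x, x' < w := eventually_lt_nhds hxw
  have h4 := mem_closure_iff_frequently.1 h
  obtain ⟨x', hx', ⟨h5, h6⟩, h7⟩ := (h4.and_eventually ((h1.and h2).and h3)).exists
  have := hx'.2.2 y w hy h6 h7 hwr
  linarith

/-- Two contact points without contact points in between. -/
theorem Coex.of_con {g : ℝ → ℝ} {r : ℝ} (hg : ContinuousOn g (Ioo 0 r)) {x1 x2 : ℝ}
    (h1 : Con g r x1) (h2 : Con g r x2) (h12 : x1 < x2)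
    (hno : ∀ x, x1 < x → x < x2 → ¬ Con g r x) :
    0 < x1 ∧ x1 < x2 ∧ x2 < r ∧ ∃ m q : ℝ, (∀ x ∈ Set.Ioo 0 r, g x ≤ m * x + q) ∧
    g x1 = m * x1 + q ∧ g x2 = m * x2 + q ∧ ∀ x ∈ Set.Ioo x1 x2, g x < m * x + q := by
  obtain ⟨m1, hm1⟩ := h1.slope
  obtain ⟨m2, hm2⟩ := h2.slope
  have h0 : 0 < x1 := h1.1
  have hr : x2 < r := h2.2.1
  set s : ℝ := (g x2 - g x1) / (x2 - x1) with hs
  have hs' : s * (x2 - x1) = g x2 - g x1 := div_mul_cancel₀ _ (by linarith)
  have hsm1 : s ≤ m1 := by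
    have := hm1 x2 ⟨by linarith, hr⟩
    rw [hs, div_le_iff₀ (by linarith)]
    linarith
  have hsm2 : m2 ≤ s := by
    have := hm2 x1 ⟨h0, by linarith⟩
    rw [hs, le_div_iff₀ (by linarith)]
    linarith
  -- outside
  have hout1 : ∀ x, 0 < x → x ≤ x1 → g x ≤ s * x + (g x1 - s * x1) := by
    intro x hx hx1
    have := hm1 x ⟨hx, by linarith⟩
    nlinarith [mul_nonneg (sub_nonneg.2 hsm1) (sub_nonneg.2 hx1)]
  have hout2 : ∀ x, x2 ≤ x → x < r → g x ≤ s * x + (g x1 - s * x1) := by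
    intro x hx hx1
    have := hm2 x ⟨by linarith, hx1⟩
    nlinarith [mul_nonneg (sub_nonneg.2 hsm2) (sub_nonneg.2 hx)]
  -- inside
  have hcont : ContinuousOn (fun x => g x - (s * x + (g x1 - s * x1))) (Icc x1 x2) := by
    refine (hg.mono fun x hx => ⟨?_, ?_⟩).sub (by fun_prop)
    · linarith [hx.1]
    · linarith [hx.2]
  obtain ⟨y, hy, hmax⟩ := isCompact_Icc.exists_isMaxOn (nonempty_Icc.2 h12.le) hcont
  have hmax' : ∀ x ∈ Icc x1 x2, g x - (s * x + (g x1 - s * x1)) ≤
      g y - (s * y + (g x1 - s * x1)) := fun x hx => hmax hx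
  have hcon : ∀ y' ∈ Ioo x1 x2, (∀ x ∈ Icc x1 x2, g x - (s * x + (g x1 - s * x1)) ≤
      g y' - (s * y' + (g x1 - s * x1))) → False := by
    intro y' hy' hm
    refine hno y' hy'.1 hy'.2 (Con.of_slope (m := s) (by linarith [hy'.1]) (by linarith [hy'.2]) ?_)
    intro x hx
    have e1 := hm x1 ⟨le_rfl, h12.le⟩
    rcases le_total x x1 with h | h
    · have := hout1 x hx.1 h
      linarith
    · rcases le_total x2 x with h' | h'
      · have := hout2 x h' hx.2
        linarith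
      · have := hm x ⟨h, h'⟩
        linarith
  have hy0 : g y - (s * y + (g x1 - s * x1)) = 0 := by
    rcases eq_or_lt_of_le hy.1 with h | h
    · rw [← h]; ring
    · rcases eq_or_lt_of_le hy.2 with h' | h'
      · rw [h']; linarith
      · exact (hcon y ⟨h, h'⟩ hmax').elim
  refine ⟨h0, h12, hr, s, g x1 - s * x1, ?_, by ring, by linarith, ?_⟩
  · intro x hx
    rcases le_total x x1 with h | h
    · exact hout1 x hx.1 h
    · rcases le_total x2 x with h' | h'
      · exact hout2 x h' hx.2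
      · have := hmax' x ⟨h, h'⟩
        linarith
  · intro x hx
    have h3 := hmax' x ⟨hx.1.le, hx.2.le⟩
    rcases eq_or_lt_of_le h3 with h | h
    · exfalso
      refine hcon x hx fun x' hx' => ?_
      rw [h]
      exact hmax' x' hx'
    · linarith

end Pool.Agent.Vdw
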