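import Pool.Agent.Lib.MP_09cbbd_vw.MFC

/-!
# Van der Waals: existence of coexistence intervals
-/

set_option autoImplicit false

namespace Pool.Agent.Vdw

open Set Filter Topology MeasureTheory

/-- If all points are contact points then the function is concave. -/
theorem exists_not_con {g : ℝ → ℝ} {r : ℝ} (hc : ¬ ConcaveOn ℝ (Set.Ioo 0 r) g) :
    ∃ z ∈ Ioo 0 r, ¬ Con g r z := by
  by_contra hcon
  push Not at hcon
  refine hc (LinearOrder.concaveOn_of_lt (convex_Ioo 0 r) ?_)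
  intro x hx y hy hxy a b ha hb hab
  have hb' : b = 1 - a := by linarith
  subst hb'
  have hz1 : x < a • x + (1 - a) • y := by
    simp only [smul_eq_mul]
    nlinarith
  have hz2 : a • x + (1 - a) • y < y := by
    simp only [smul_eq_mul]
    nlinarith
  have h := (hcon (a • x + (1 - a) • y) ⟨hx.1.trans hz1, hz2.trans hy.2⟩).2.2 x y hx.1 hz1 hz2 hy.2
  simp only [smul_eq_mul] at *
  have h2 : (y - x) * (a * g x + (1 - a) * g y) ≤ (y - x) * g (a * x + (1 - a) * y) := by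
    nlinarith
  exact le_of_mul_le_mul_left h2 (by linarith)

/-- Each affine function of slope `m` touches from above. -/
theorem exists_max_slope {g : ℝ → ℝ} {r : ℝ} (hg : ContinuousOn g (Set.Ioo 0 r))
    (h0 : ∀ s : ℝ, ∃ y ∈ Set.Ioo 0 r, ∀ x ∈ Set.Ioo 0 y, g x ≤ g y - s * (y - x))
    (h1 : ∀ s : ℝ, ∃ y ∈ Set.Ioo 0 r, ∀ x ∈ Set.Ioo y r, g x ≤ g y - s * (x - y)) (m : ℝ) :
    ∃ p ∈ Ioo 0 r, ∀ x ∈ Ioo 0 r, g x ≤ g p + m * (x - p) := by
  obtain ⟨y0, hy0, k0⟩ := h0 m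
  obtain ⟨y1, hy1, k1⟩ := h1 (-m)
  have hsub : Icc (min y0 y1) (max y0 y1) ⊆ Ioo 0 r := fun x hx =>
    ⟨lt_of_lt_of_le (lt_min hy0.1 hy1.1) hx.1, lt_of_le_of_lt hx.2 (max_lt hy0.2 hy1.2)⟩
  have hcont : ContinuousOn (fun x => g x - m * x) (Icc (min y0 y1) (max y0 y1)) :=
    (hg.mono hsub).sub (by fun_prop)
  obtain ⟨p, hp, hmax⟩ := isCompact_Icc.exists_isMaxOn
    (nonempty_Icc.2 (le_trans (min_le_left _ _) (le_max_left _ _))) hcont
  have hmax' : ∀ x ∈ Icc (min y0 y1) (max y0 y1), g x - m * x ≤ g p - m * p := fun x hx => hmax hx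
  refine ⟨p, hsub hp, fun x hx => ?_⟩
  by_cases hx0 : min y0 y1 ≤ x
  · by_cases hx1 : x ≤ max y0 y1
    · have := hmax' x ⟨hx0, hx1⟩
      linarith
    · rw [not_le] at hx1
      have e1 := k1 x ⟨lt_of_le_of_lt (le_max_right _ _) hx1, hx.2⟩
      have e2 := hmax' y1 ⟨min_le_right _ _, le_max_right _ _⟩
      linarith
  · rw [not_le] at hx0
    have e1 := k0 x ⟨hx.1, lt_of_lt_of_le hx0 (min_le_left _ _)⟩
    have e2 := hmax' y0 ⟨min_le_left _ _, le_max_left _ _⟩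
    linarith

/-- A function which is not concave has a coexistence interval, if its slope is infinite at the
ends of the interval. -/
theorem exists_coex {g : ℝ → ℝ} {r : ℝ} (hr : 0 < r) (hg : ContinuousOn g (Set.Ioo 0 r))
    (h0 : ∀ s : ℝ, ∃ y ∈ Set.Ioo 0 r, ∀ x ∈ Set.Ioo 0 y, g x ≤ g y - s * (y - x))
    (h1 : ∀ s : ℝ, ∃ y ∈ Set.Ioo 0 r, ∀ x ∈ Set.Ioo y r, g x ≤ g y - s * (x - y))
    (hc : ¬ ConcaveOn ℝ (Set.Ioo 0 r) g) : ∃ x1 x2, Coex g r x1 x2 := by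
  obtain ⟨z, hz, hzc⟩ := exists_not_con hc
  -- bounds from above
  obtain ⟨M, hM⟩ : ∃ M, ∀ x, z ≤ x → x < r → g x ≤ M := by
    obtain ⟨y1, hy1, k1⟩ := h1 0
    have hsub : Icc z (max z y1) ⊆ Ioo 0 r := fun x hx =>
      ⟨lt_of_lt_of_le hz.1 hx.1, lt_of_le_of_lt hx.2 (max_lt hz.2 hy1.2)⟩
    obtain ⟨B, hB⟩ := isCompact_Icc.bddAbove_image (hg.mono hsub)
    refine ⟨max B (g y1), fun x hx hxr => ?_⟩
    by_cases hx1 : x ≤ max z y1
    · exact le_max_of_le_left (hB (mem_image_of_mem g ⟨hx, hx1⟩))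
    · rw [not_le] at hx1
      have := k1 x ⟨lt_of_le_of_lt (le_max_right _ _) hx1, hxr⟩
      exact le_max_of_le_right (by linarith)
  obtain ⟨N, hN⟩ : ∃ N, ∀ x, 0 < x → x ≤ z → g x ≤ N := by
    obtain ⟨y0, hy0, k0⟩ := h0 0
    have hsub : Icc (min z y0) z ⊆ Ioo 0 r := fun x hx =>
      ⟨lt_of_lt_of_le (lt_min hz.1 hy0.1) hx.1, lt_of_le_of_lt hx.2 hz.2⟩
    obtain ⟨B, hB⟩ := isCompact_Icc.bddAbove_image (hg.mono hsub)
    refine ⟨max B (g y0), fun x hx hxz => ?_⟩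
    by_cases hx1 : min z y0 ≤ x
    · exact le_max_of_le_left (hB (mem_image_of_mem g ⟨hx1, hxz⟩))
    · rw [not_le] at hx1
      have := k0 x ⟨hx, lt_of_lt_of_le hx1 (min_le_right _ _)⟩
      exact le_max_of_le_right (by linarith)
  -- contact points on the left
  have hleft : {x | Con g r x ∧ x < z}.Nonempty := by
    obtain ⟨m, hm0, hm⟩ : ∃ m : ℝ, 0 ≤ m ∧ M - g (z / 2) < m * (z / 2) := by
      refine ⟨(|M - g (z / 2)| + 1) / (z / 2), by have := hz.1; positivity, ?_⟩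
      rw [div_mul_cancel₀ _ (by linarith [hz.1])]
      linarith [le_abs_self (M - g (z / 2))]
    obtain ⟨p, hp, hmax⟩ := exists_max_slope hg h0 h1 m
    have hpc : Con g r p := Con.of_slope hp.1 hp.2 hmax
    refine ⟨p, hpc, ?_⟩
    by_contra hpz
    rw [not_lt] at hpz
    have e1 := hM p hpz hp.2
    have e2 := hmax (z / 2) ⟨by linarith [hz.1], by linarith [hz.1, hz.2]⟩
    nlinarith [mul_nonneg hm0 (sub_nonneg.2 hpz)]
  have hright : {x | Con g r x ∧ z < x}.Nonempty := by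
    obtain ⟨m, hm0, hm⟩ : ∃ m : ℝ, 0 ≤ m ∧ N - g ((z + r) / 2) < m * ((r - z) / 2) := by
      have hrz : 0 < r - z := by linarith [hz.2]
      refine ⟨(|N - g ((z + r) / 2)| + 1) / ((r - z) / 2), by positivity, ?_⟩
      rw [div_mul_cancel₀ _ (by linarith)]
      linarith [le_abs_self (N - g ((z + r) / 2))]
    obtain ⟨p, hp, hmax⟩ := exists_max_slope hg h0 h1 (-m)
    have hpc : Con g r p := Con.of_slope hp.1 hp.2 hmax
    refine ⟨p, hpc, ?_⟩
    by_contra hpz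
    rw [not_lt] at hpz
    have e1 := hN p hp.1 hpz
    have e2 := hmax ((z + r) / 2) ⟨by linarith [hz.1, hz.2], by linarith [hz.2]⟩
    nlinarith [mul_nonneg hm0 (sub_nonneg.2 hpz)]
  have hba : BddAbove {x | Con g r x ∧ x < z} := ⟨z, fun x hx => hx.2.le⟩
  have hbb : BddBelow {x | Con g r x ∧ z < x} := ⟨z, fun x hx => hx.2.le⟩
  set x1 := sSup {x | Con g r x ∧ x < z} with hx1
  set x2 := sInf {x | Con g r x ∧ z < x} with hx2
  have h1z : x1 ≤ z := csSup_le hleft fun x hx => hx.2.le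
  have h2z : z ≤ x2 := le_csInf hright fun x hx => hx.2.le
  have h1pos : 0 < x1 := by
    obtain ⟨x, hx⟩ := hleft
    exact lt_of_lt_of_le hx.1.1 (le_csSup hba hx)
  have h2r : x2 < r := by
    obtain ⟨x, hx⟩ := hright
    exact lt_of_le_of_lt (csInf_le hbb hx) hx.1.2.1
  have hc1 : Con g r x1 := Con.of_closure hg h1pos (lt_of_le_of_lt h1z hz.2)
    (closure_mono (fun x hx => hx.1) (csSup_mem_closure hleft hba))
  have hc2 : Con g r x2 := Con.of_closure hg (lt_of_lt_of_le hz.1 h2z) h2r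
    (closure_mono (fun x hx => hx.1) (csInf_mem_closure hright hbb))
  have h1z' : x1 < z := lt_of_le_of_ne h1z fun h => hzc (h ▸ hc1)
  have h2z' : z < x2 := lt_of_le_of_ne h2z fun h => hzc (h ▸ hc2)
  refine ⟨x1, x2, Coex.of_con hg hc1 hc2 (h1z'.trans h2z') ?_⟩
  intro x hx1' hx2' hcx
  rcases lt_trichotomy x z with h | h | h
  · exact absurd (le_csSup hba ⟨hcx, h⟩) (not_le.2 hx1')
  · exact hzc (h ▸ hcx)
  · exact absurd (csInf_le hbb ⟨hcx, h⟩) (not_le.2 hx2')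

end Pool.Agent.Vdw
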