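import Pool.Agent.Lib.MP_09cbbd_vw.Def
import Pool.Agent.Lib.MP_09cbbd_kc.Mod

/-!
# The gas on cells: more precise estimates
-/

set_option autoImplicit false

namespace Pool.Agent.Vdw

open MeasureTheory Finset Filter Topology Pool.Agent.StableGas Pool.Agent.SquareWellGas
  Pool.Agent.KacGas Pool.Agent.Kac
open Pool.Agent.SquareWell hiding Md cut

variable {d : ℕ} {J : (Fin d → ℝ) → ℝ}

namespace ModP

open Pool.Agent.ConfinedGas Pool.Agent.Kac.ModD Pool.Agent.Kac.ModM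

variable {ℓ : ℝ}

theorem att_zero (x y : Fin d → ℝ) : att (fun _ : Fin d → ℝ => (0 : ℝ)) x y = 1 := by
  unfold att
  rw [zero_div, ex_zero]

theorem h0_zero (x : EE d ℓ) : h0 ℓ (fun _ => (0 : ℝ)) x = 1 := by
  have e1 : ∀ {N : ℕ} (e : Con d N), sp (fun _ : Fin d → ℝ => (0 : ℝ)) e = 1 := by
    intro N e
    unfold sp
    refine prod_eq_one fun k _ => prod_eq_one fun l _ => ?_
    rw [att_zero, ite_self]
  have e2 : ∀ {N : ℕ} (e : Con d N), cp e (fun _ => 1) = 1 := by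
    intro N e
    unfold cp
    refine prod_eq_one fun k _ => ?_
    rw [ite_self]
  unfold h0
  rw [e1, e1]
  have e3 : ∀ a : Fin d → ℝ, att (fun _ : Fin d → ℝ => (0 : ℝ)) a = fun _ => 1 := by
    intro a
    funext b
    exact att_zero a b
  simp only [e3, e2, one_mul, one_pow]

theorem bx_one : SquareWell.bx d 1 = {0} := by
  ext v
  unfold SquareWell.bx
  simp only [Fintype.mem_piFinset, Finset.mem_Ico, mem_singleton]
  constructor
  · intro h
    funext k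
    have := h k
    simp only [Pi.zero_apply]
    omega
  · rintro rfl k
    simp

theorem gen (hℓ : 2 < ℓ) (μ : ℝ) :
    ∑' n : ℕ, ex (μ * n) * ENNReal.ofReal (Z d (1 / 2) (fun _ => 0) ℓ n) =
      ∫⁻ x, ex (μ * n0 ℓ x) ∂(pi0 (d := d) ℓ) := by
  have h0 : 0 < ℓ := by linarith
  have h1 := linkJ (ℓ := ℓ) (U := fun _ : Fin d → ℝ => (0 : ℝ)) measurable_const (fun _ => rfl)
    (SquareWell.bx d 1) (fun _ : Fin d → ℝ => ex μ) measurable_const (fun _ => e00 d ℓ)
  simp only [cells_box h0] at h1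
  rw [Nat.cast_one, one_mul] at h1
  rw [Z_sum measurable_const (fun _ => rfl) 0 (fun _ => le_rfl), h1, bx_one, lmarginal_singleton]
  refine lintegral_congr fun x => ?_
  unfold WL
  simp only [prod_singleton, Function.update_self, h0_zero, mul_one, pp_const, erase_singleton,
    prod_empty]

theorem lint_n0 (f : ℕ → ENNReal) : ∫⁻ x, f (n0 ℓ x) ∂(pi0 (d := d) ℓ) =
    ∑' n, f n * pi0 (d := d) ℓ {x | n0 ℓ x = n} := by
  have h1 : Measurable (n0 (d := d) ℓ) := measurable_n0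
  rw [← lintegral_map (f := f) (measurable_of_countable f) h1, lintegral_countable']
  refine tsum_congr fun n => ?_
  rw [Measure.map_apply h1 (measurableSet_singleton n)]
  rfl

theorem coef (A B : ℕ → ENNReal) (N : ℕ) (hA : ∀ n, A n ≠ ⊤) (hB : ∀ n, B n ≠ ⊤)
    (hA0 : ∀ n, N < n → A n = 0) (hB0 : ∀ n, N < n → B n = 0)
    (h : ∀ μ : ℝ, ∑' n : ℕ, ex (μ * n) * A n = ∑' n : ℕ, ex (μ * n) * B n) (n : ℕ) :
    A n = B n := by
  rcases lt_or_ge N n with hn | hn
  · rw [hA0 n hn, hB0 n hn]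
  have key : ∀ C : ℕ → ENNReal, (∀ n, C n ≠ ⊤) → (∀ n, N < n → C n = 0) → ∀ μ : ℝ,
      (∑' n : ℕ, ex (μ * n) * C n).toReal =
        (∑ n ∈ range (N + 1), Polynomial.C (C n).toReal * Polynomial.X ^ n).eval
          (Real.exp μ) := by
    intro C hC hC0 μ
    rw [tsum_eq_sum (s := range (N + 1)) fun m hm => by
      rw [mem_range, not_lt] at hm
      rw [hC0 m (by omega), mul_zero],
      ENNReal.toReal_sum fun m _ => ENNReal.mul_ne_top (ex_ne_top _) (hC m),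
      Polynomial.eval_finsetSum]
    refine sum_congr rfl fun m _ => ?_
    rw [ENNReal.toReal_mul, Polynomial.eval_mul, Polynomial.eval_C, Polynomial.eval_pow,
      Polynomial.eval_X, ← Real.exp_nat_mul, mul_comm (m : ℝ) μ, mul_comm]
    congr 1
    unfold ex
    exact ENNReal.toReal_ofReal (Real.exp_pos _).le
  have hp : (∑ n ∈ range (N + 1), Polynomial.C (A n).toReal * Polynomial.X ^ n : Polynomial ℝ) =
      ∑ n ∈ range (N + 1), Polynomial.C (B n).toReal * Polynomial.X ^ n := by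
    refine Polynomial.eq_of_infinite_eval_eq _ _ ((Set.Ioi_infinite (0 : ℝ)).mono ?_)
    intro y hy
    have hy' : Real.exp (Real.log y) = y := Real.exp_log hy
    have h1 := key A hA hA0 (Real.log y)
    have h2 := key B hB hB0 (Real.log y)
    rw [hy'] at h1 h2
    show Polynomial.eval y _ = Polynomial.eval y _
    rw [← h1, ← h2, h]
  have h3 := congrArg (fun p : Polynomial ℝ => p.coeff n) hp
  simp only [Polynomial.finsetSum_coeff, Polynomial.coeff_C_mul, Polynomial.coeff_X_pow,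
    mul_ite, mul_one, mul_zero, Finset.sum_ite_eq, mem_range] at h3
  rw [if_pos (by omega), if_pos (by omega)] at h3
  exact (ENNReal.toReal_eq_toReal_iff' (hA n) (hB n)).1 h3

theorem ofReal_Z0 (t : ℝ) (n : ℕ) : ENNReal.ofReal (Z d (1 / 2) (fun _ => 0) t n) =
    ((n.factorial : ENNReal))⁻¹ * volume (ModZ.CS d t n) := by
  rw [ModZ.ofReal_Z measurable_const (C := 0) (fun _ => le_rfl) t n]
  congr 1
  have e : ∀ x : Fin n → Fin d → ℝ, (ModZ.CS d t n).indicator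
      (fun x => ENNReal.ofReal (Real.exp (ModZ.En (fun _ : Fin d → ℝ => (0 : ℝ)) x))) x =
        (ModZ.CS d t n).indicator 1 x := by
    intro x
    have e1 : ∀ x : Fin n → Fin d → ℝ, ModZ.En (fun _ : Fin d → ℝ => (0 : ℝ)) x = 0 := by
      intro x
      unfold ModZ.En
      simp
    simp only [e1, Real.exp_zero, ENNReal.ofReal_one]
    rfl
  rw [lintegral_congr e, lintegral_indicator_one (ModZ.measurableSet_CS t n), ← volume_pi]

theorem up_eq (hℓ : 2 < ℓ) (n : ℕ) : pi0 (d := d) ℓ {x | n0 ℓ x = n} =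
    ENNReal.ofReal (Z d (1 / 2) (fun _ => 0) ℓ n) := by
  have hfin : ∀ A : Set (EE d ℓ), pi0 (d := d) ℓ A ≠ ⊤ := fun A =>
    ne_top_of_le_ne_top (ex_ne_top _) ((measure_mono (Set.subset_univ A)).trans (pi0_univ hℓ))
  refine (coef (fun n => ENNReal.ofReal (Z d (1 / 2) (fun _ => 0) ℓ n))
    (fun n => pi0 (d := d) ℓ {x | n0 ℓ x = n}) (mx (Box d ℓ)) (fun n => ENNReal.ofReal_ne_top)
    (fun n => hfin _) (fun m hm => ?_) (fun m hm => ?_) (fun μ => ?_) n).symm
  · have h1 : ModZ.CS d ℓ m = ∅ := by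
      by_contra hne
      obtain ⟨x, hx⟩ := Set.nonempty_iff_ne_empty.2 hne
      have h2 : (Cn (Fin m) (Box d ℓ)).Nonempty := ⟨x, fun i => hx.1 i, fun i j hij => by
        have := hx.2 i j hij
        norm_num at this
        exact this⟩
      exact absurd (le_mx bdd_Box h2) (not_le.2 hm)
    show ENNReal.ofReal (Z d (1 / 2) (fun _ => 0) ℓ m) = 0
    rw [ofReal_Z0, h1, measure_empty, mul_zero]
  · have h1 : {x : EE d ℓ | n0 ℓ x = m} = ∅ := by
      rw [Set.eq_empty_iff_forall_notMem]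
      intro x hx
      have hx' : n0 ℓ x = m := hx
      have := n0_le x
      omega
    show pi0 (d := d) ℓ {x | n0 ℓ x = m} = 0
    rw [h1, measure_empty]
  · rw [gen hℓ, lint_n0 (fun n => ex (μ * n))]

theorem lo_le (hℓ : 2 < ℓ) (n : ℕ) : ENNReal.ofReal (Z d (1 / 2) (fun _ => 0) (ℓ - 2) n) ≤
    pi0 (d := d) ℓ {x | c0 ℓ x = x ∧ n0 ℓ x = n} := by
  refine le_trans (le_of_eq ?_) (core_measure hℓ n)
  rw [ofReal_Z0]
  congr 1
  have e : ModZ.CS d (ℓ - 2) n = (fun x : Fin n → Fin d → ℝ => x + fun _ _ => 1) ⁻¹'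
      Cn (Fin n) (Cor d ℓ) := by
    ext x
    simp only [ModZ.CS, Cn, Cor, Box, Set.mem_ofPred_eq, Set.mem_preimage, Pi.add_apply,
      Set.mem_Ico]
    refine and_congr ?_ ?_
    · refine forall_congr' fun i => forall_congr' fun k => ?_
      constructor
      · rintro ⟨h1, h2⟩
        constructor <;> linarith
      · rintro ⟨h1, h2⟩
        constructor <;> linarith
    · refine forall_congr' fun i => forall_congr' fun j => forall_congr' fun _ => ?_
      have e1 : ∑ k, (x i k + 1 - (x j k + 1)) ^ 2 = ∑ k, (x i k - x j k) ^ 2 :=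
        sum_congr rfl fun k _ => by ring
      rw [e1]
      norm_num
  rw [e, measure_preimage_add_right]

theorem nu_univ' {V : ℝ} (hV : 0 ≤ V) (N : ℕ) {T : Set (Fin d → ℝ)}
    (hT : volume T ≤ ENNReal.ofReal V) : nu volume 1 N T Set.univ ≤ ex V := by
  rw [nu_apply N T MeasurableSet.univ]
  have h1 : ∀ n ∈ range (N + 1), ((n.factorial : ENNReal))⁻¹ *
      (Measure.pi fun _ : Fin n => (volume : Measure (Fin d → ℝ)))
        (pad N ⁻¹' Set.univ ∩ Cf 1 (Fin n) T) ≤ ENNReal.ofReal (V ^ n / n.factorial) := by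
    intro n _
    have hfac : (0 : ℝ) < n.factorial := by exact_mod_cast n.factorial_pos
    have h2 : (Measure.pi fun _ : Fin n => (volume : Measure (Fin d → ℝ)))
        (pad N ⁻¹' Set.univ ∩ Cf 1 (Fin n) T) ≤ ENNReal.ofReal (V ^ n) := by
      refine (measure_mono (Set.inter_subset_right.trans (Cf_subset_pi 1 (Fin n) T))).trans ?_
      rw [Measure.pi_pi, ENNReal.ofReal_pow hV]
      refine (Finset.prod_le_prod' fun i _ => hT).trans (le_of_eq ?_)
      simp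
    rw [div_eq_inv_mul, ENNReal.ofReal_mul (inv_nonneg.2 hfac.le), ENNReal.ofReal_inv_of_pos hfac,
      ENNReal.ofReal_natCast]
    exact mul_le_mul' le_rfl h2
  refine (sum_le_sum h1).trans ?_
  rw [← ENNReal.ofReal_sum_of_nonneg fun n _ => by positivity]
  exact ENNReal.ofReal_le_ofReal (Real.sum_le_exp_of_nonneg hV _)

theorem vol_strip (hℓ : 2 < ℓ) : volume (Box d ℓ \ Cor d ℓ) ≤
    ENNReal.ofReal (ℓ ^ d - (ℓ - 2) ^ d) := by
  have h0 : (0 : ℝ) ≤ ℓ := by linarith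
  have h2 : (0 : ℝ) ≤ ℓ - 2 := by linarith
  have vc : volume (Cor d ℓ) = ENNReal.ofReal ((ℓ - 2) ^ d) := by
    rw [cor_eq, volume_pi_pi]
    simp only [Real.volume_Ico, prod_const, card_univ, Fintype.card_fin]
    rw [ENNReal.ofReal_pow h2]
    congr 2
    ring
  rw [measure_sdiff Cor_sub mCor.nullMeasurableSet
    (ne_top_of_le_ne_top volBox_ne_top (measure_mono Cor_sub)), volBox, vc,
    ← ENNReal.ofReal_pow h0, ENNReal.ofReal_sub _ (pow_nonneg h2 d)]

theorem push (hℓ : 2 < ℓ) (F : EE d ℓ → ENNReal) (hF : Measurable F) :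
    ∫⁻ x, F (c0 ℓ x) ∂(pi0 (d := d) ℓ) ≤
      ex (ℓ ^ d - (ℓ - 2) ^ d) * ∫⁻ x in {x | c0 ℓ x = x}, F x ∂(pi0 (d := d) ℓ) := by
  have f1 : IsFiniteMeasure (nu volume 1 (Nm d ℓ) (Cor d ℓ)) := finite_nu Cor_sub
  have f2 : IsFiniteMeasure (nu volume 1 (Nm d ℓ) (Box d ℓ \ Cor d ℓ)) :=
    finite_nu Set.sdiff_subset
  have h0 : (0 : ℝ) ≤ ℓ := by linarith
  have hV : (0 : ℝ) ≤ ℓ ^ d - (ℓ - 2) ^ d := by
    have := pow_le_pow_left₀ (by linarith : (0 : ℝ) ≤ ℓ - 2) (by linarith : ℓ - 2 ≤ ℓ) d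
    linarith
  obtain ⟨f, hf⟩ : ∃ f : Con d (Nm d ℓ) → ENNReal, f = {a | Vd1 (Cor d ℓ) a}.indicator
    fun a => F (a, z0 d ℓ) := ⟨_, rfl⟩
  have hfm : Measurable f := by
    rw [hf]
    exact (hF.comp (measurable_id.prodMk measurable_const)).indicator mA
  have hz : MeasurableSet ({z0 d ℓ} : Set (Con d (Nm d ℓ))) := MeasurableSet.singleton _
  have e1 : ∫⁻ x, F (c0 ℓ x) ∂(pi0 (d := d) ℓ) ≤
      (∫⁻ a, f a ∂(nu volume 1 (Nm d ℓ) (Cor d ℓ))) * ex (ℓ ^ d - (ℓ - 2) ^ d) := by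
    unfold pi0
    rw [← lintegral_indicator measurableSet_Vd]
    have e2 : ∀ x : EE d ℓ, {x : EE d ℓ | Vd ℓ x}.indicator (fun x => F (c0 ℓ x)) x ≤
        f x.1 * 1 := by
      intro x
      by_cases hx : Vd ℓ x
      · have hx' : x ∈ {x : EE d ℓ | Vd ℓ x} := hx
        have hx1 : x.1 ∈ {a : Con d (Nm d ℓ) | Vd1 (Cor d ℓ) a} := hx.1
        rw [Set.indicator_of_mem hx', c0_of_Vd hx, hf, Set.indicator_of_mem hx1, mul_one]
      · have hx' : x ∉ {x : EE d ℓ | Vd ℓ x} := hx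
        rw [Set.indicator_of_notMem hx']
        exact zero_le
    refine (lintegral_mono e2).trans ?_
    rw [lintegral_prod_mul (g := fun _ => 1) hfm.aemeasurable measurable_const.aemeasurable]
    refine mul_le_mul' le_rfl ?_
    rw [lintegral_one]
    exact nu_univ' hV _ (vol_strip hℓ)
  have e3 : ∫⁻ a, f a ∂(nu volume 1 (Nm d ℓ) (Cor d ℓ)) ≤
      ∫⁻ x in {x | c0 ℓ x = x}, F x ∂(pi0 (d := d) ℓ) := by
    unfold pi0
    rw [Measure.restrict_restrict measurableSet_core0,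
      ← lintegral_indicator (measurableSet_core0.inter measurableSet_Vd)]
    have e4 : ∀ x : EE d ℓ, f x.1 * ({z0 d ℓ} : Set (Con d (Nm d ℓ))).indicator 1 x.2 ≤
        ({x : EE d ℓ | c0 ℓ x = x} ∩ {x : EE d ℓ | Vd ℓ x}).indicator F x := by
      rintro ⟨a, b⟩
      by_cases hb : b = z0 d ℓ
      · subst hb
        by_cases ha : Vd1 (Cor d ℓ) a
        · have ha' : a ∈ {a : Con d (Nm d ℓ) | Vd1 (Cor d ℓ) a} := ha
          have hx : ((a, z0 d ℓ) : EE d ℓ) ∈
              {x : EE d ℓ | c0 ℓ x = x} ∩ {x : EE d ℓ | Vd ℓ x} :=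
            ⟨c0_pair ha, (Vd_pair a).2 ha⟩
          rw [Set.indicator_of_mem hx, hf, Set.indicator_of_mem ha',
            Set.indicator_of_mem (Set.mem_singleton _)]
          simp
        · have ha' : a ∉ {a : Con d (Nm d ℓ) | Vd1 (Cor d ℓ) a} := ha
          rw [hf, Set.indicator_of_notMem ha', zero_mul]
          exact zero_le
      · have hb' : b ∉ ({z0 d ℓ} : Set (Con d (Nm d ℓ))) := hb
        rw [Set.indicator_of_notMem hb', mul_zero]
        exact zero_le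
    refine le_trans (le_of_eq ?_) (lintegral_mono e4)
    rw [lintegral_prod_mul hfm.aemeasurable (measurable_one.indicator hz).aemeasurable,
      lintegral_indicator_one hz]
    have h2 : nu volume 1 (Nm d ℓ) (Box d ℓ \ Cor d ℓ) {z0 d ℓ} = 1 :=
      nu_z0 (d := d) (Nm d ℓ) (Box d ℓ \ Cor d ℓ)
    rw [h2, mul_one]
  refine e1.trans ?_
  rw [mul_comm]
  exact mul_le_mul' le_rfl e3

end ModP

/-- Cells of side `ℓ > 2`, hard cores of diameter one, attraction `K J (x / (B ℓ))`. -/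
theorem exists_model2 (hJ : Ad J) {B : ℕ} (hB : 1 ≤ B) (hB1 : 1 ≤ ∑ v ∈ SB d B, JU J B v)
    {ℓ K : ℝ} (hℓ : 2 < ℓ) (hK : 0 < K) :
    ∃ (E : Type) (_ : MeasurableSpace E) (M : Md d E), M.S = SB d B ∧ M.J = JU J B ∧
      M.Jm = JL J B ∧ M.r = B ∧ M.N = mx (Box d ℓ) ∧ M.Ns = mx (Box d ℓ \ Cor d ℓ) ∧ M.K = K ∧
      (∀ F : E → ENNReal, Measurable F →
        ∫⁻ x, F (M.c x) ∂M.π ≤ ex (ℓ ^ d - (ℓ - 2) ^ d) * ∫⁻ x in {x | M.c x = x}, F x ∂M.π) ∧
      (∀ n : ℕ, M.π {x | M.n x = n} ≤ ENNReal.ofReal (Z d (1 / 2) (fun _ => 0) ℓ n)) ∧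
      (∀ n : ℕ, ENNReal.ofReal (Z d (1 / 2) (fun _ => 0) (ℓ - 2) n) ≤
        M.π {x | M.c x = x ∧ M.n x = n}) ∧
      ∀ (μ : ℝ) (L : ℕ), M.xi μ (SquareWell.bx d L) =
        ∑' n : ℕ, ex (μ * n) * ENNReal.ofReal (Z d (1 / 2) (uu J K (B * ℓ)) (L * ℓ) n) :=
  ⟨ModD.EE d ℓ, inferInstance, cellMd hJ hB hB1 hℓ hK, rfl, rfl, rfl, rfl, rfl, rfl, rfl,
    ModP.push hℓ, fun n => (ModP.up_eq hℓ n).le, ModP.lo_le hℓ, ModD.link0 hJ hB hℓ hK⟩

end Pool.Agent.Vdw
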