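import Pool.Agent.Lib.MP_09cbbd_vw.Blk

/-!
# The mean field functional on overlapping regions
-/

set_option autoImplicit false

namespace Pool.Agent.Vdw

open Finset Pool.Agent.StableGas Pool.Agent.Kac
open Pool.Agent.SquareWell hiding Md cut

variable {d : ℕ}

theorem q_nonneg (P : Par) (x : ℝ) : 0 ≤ P.q x := le_min (sq_nonneg _) (sq_nonneg _)

theorem en_nonneg {P : Par} (hP : P.Ok) {k : ℕ} {S : Finset (Zd d)} {j : Zd d → ℝ}
    (hJ : Jok P k S j) (A O : Finset (Zd d)) (x : Zd d → ℝ) : 0 ≤ en P S j A O x := by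
  classical
  unfold en
  have h1 : 0 ≤ ∑ i ∈ O, P.q (x i) := Finset.sum_nonneg fun i _ => q_nonneg P _
  have h2 : 0 ≤ ∑ v ∈ S, j v *
    (∑ i ∈ O.filter (fun i => i + v ∈ O), (x i - x (i + v)) ^ 2 +
      2 * ∑ i ∈ O.filter (fun i => i + v ∉ A), x i ^ 2) := by
    refine Finset.sum_nonneg fun v _ => mul_nonneg (hJ.nonneg v) ?_
    refine add_nonneg (Finset.sum_nonneg fun i _ => sq_nonneg _)
      (mul_nonneg zero_le_two (Finset.sum_nonneg fun i _ => sq_nonneg _))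
  have h3 := mul_nonneg hP.c_pos.le h1
  exact add_nonneg h3 (mul_nonneg (by norm_num) h2)

/-- Double counting. -/
theorem sum_overlap {ι κ : Type*} [DecidableEq ι] (F : Finset κ) (G : Finset ι)
    (G' : κ → Finset ι) (g : ι → ℝ) (hg : ∀ i, 0 ≤ g i) (hsub : ∀ p ∈ F, G' p ⊆ G) (m : ℕ)
    (hm : ∀ i ∈ G, (F.filter fun p => i ∈ G' p).card ≤ m) :
    ∑ p ∈ F, ∑ i ∈ G' p, g i ≤ m * ∑ i ∈ G, g i := by
  have h1 : ∀ p ∈ F, ∑ i ∈ G' p, g i = ∑ i ∈ G, if i ∈ G' p then g i else 0 := by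
    intro p hp
    rw [← Finset.sum_filter]
    refine Finset.sum_congr ?_ fun _ _ => rfl
    ext i
    rw [Finset.mem_filter]
    exact ⟨fun h => ⟨hsub p hp h, h⟩, fun h => h.2⟩
  rw [Finset.sum_congr rfl h1, Finset.sum_comm, Finset.mul_sum]
  refine Finset.sum_le_sum fun i hi => ?_
  rw [← Finset.sum_filter, Finset.sum_const, nsmul_eq_mul]
  exact mul_le_mul_of_nonneg_right (by exact_mod_cast hm i hi) (hg i)

/-- Overlapping regions. -/
theorem en_overlap {P : Par} (hP : P.Ok) {k : ℕ} {S : Finset (Zd d)} {j : Zd d → ℝ}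
    (hJ : Jok P k S j) (A O : Finset (Zd d)) (x : Zd d → ℝ) (F : Finset (Zd d))
    (O' : Zd d → Finset (Zd d)) (hsub : ∀ p ∈ F, O' p ⊆ O) (m : ℕ)
    (hm : ∀ i ∈ O, (F.filter fun p => i ∈ O' p).card ≤ m) :
    ∑ p ∈ F, en P S j A (O' p) x ≤ m * en P S j A O x := by
  classical
  have h1 : ∑ p ∈ F, ∑ i ∈ O' p, P.q (x i) ≤ m * ∑ i ∈ O, P.q (x i) :=
    sum_overlap F O O' _ (fun i => q_nonneg P _) hsub m hm
  have h2 : ∀ v, ∑ p ∈ F, ∑ i ∈ (O' p).filter (fun i => i + v ∈ O' p), (x i - x (i + v)) ^ 2 ≤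
      m * ∑ i ∈ O.filter (fun i => i + v ∈ O), (x i - x (i + v)) ^ 2 := by
    intro v
    refine sum_overlap F _ _ _ (fun i => sq_nonneg _) ?_ m ?_
    · intro p hp i hi
      rw [Finset.mem_filter] at hi ⊢
      exact ⟨hsub p hp hi.1, hsub p hp hi.2⟩
    · intro i hi
      refine le_trans (Finset.card_le_card ?_) (hm i (Finset.mem_filter.1 hi).1)
      intro p hp
      rw [Finset.mem_filter] at hp ⊢
      exact ⟨hp.1, (Finset.mem_filter.1 hp.2).1⟩
  have h3 : ∀ v, ∑ p ∈ F, ∑ i ∈ (O' p).filter (fun i => i + v ∉ A), x i ^ 2 ≤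
      m * ∑ i ∈ O.filter (fun i => i + v ∉ A), x i ^ 2 := by
    intro v
    refine sum_overlap F _ _ _ (fun i => sq_nonneg _) ?_ m ?_
    · intro p hp i hi
      rw [Finset.mem_filter] at hi ⊢
      exact ⟨hsub p hp hi.1, hi.2⟩
    · intro i hi
      refine le_trans (Finset.card_le_card ?_) (hm i (Finset.mem_filter.1 hi).1)
      intro p hp
      rw [Finset.mem_filter] at hp ⊢
      exact ⟨hp.1, (Finset.mem_filter.1 hp.2).1⟩
  unfold en
  rw [Finset.sum_add_distrib, ← Finset.mul_sum, ← Finset.mul_sum, Finset.sum_comm (s := F),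
    mul_add]
  have h4 : P.c * ∑ p ∈ F, ∑ i ∈ O' p, P.q (x i) ≤ m * (P.c * ∑ i ∈ O, P.q (x i)) := by
    calc P.c * ∑ p ∈ F, ∑ i ∈ O' p, P.q (x i) ≤ P.c * (m * ∑ i ∈ O, P.q (x i)) :=
          mul_le_mul_of_nonneg_left h1 hP.c_pos.le
      _ = m * (P.c * ∑ i ∈ O, P.q (x i)) := by ring
  have h5 : ∑ v ∈ S, ∑ p ∈ F, j v *
      (∑ i ∈ (O' p).filter (fun i => i + v ∈ O' p), (x i - x (i + v)) ^ 2 +
        2 * ∑ i ∈ (O' p).filter (fun i => i + v ∉ A), x i ^ 2) ≤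
      m * ∑ v ∈ S, j v * (∑ i ∈ O.filter (fun i => i + v ∈ O), (x i - x (i + v)) ^ 2 +
        2 * ∑ i ∈ O.filter (fun i => i + v ∉ A), x i ^ 2) := by
    rw [Finset.mul_sum]
    refine Finset.sum_le_sum fun v _ => ?_
    rw [← Finset.mul_sum, Finset.sum_add_distrib, ← Finset.mul_sum]
    have h6 := add_le_add (h2 v) (mul_le_mul_of_nonneg_left (h3 v) zero_le_two)
    calc _ ≤ j v * (m * ∑ i ∈ O.filter (fun i => i + v ∈ O), (x i - x (i + v)) ^ 2 +
          2 * (m * ∑ i ∈ O.filter (fun i => i + v ∉ A), x i ^ 2)) :=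
          mul_le_mul_of_nonneg_left h6 (hJ.nonneg v)
      _ = _ := by ring
  calc _ ≤ m * (P.c * ∑ i ∈ O, P.q (x i)) + 1 / 4 * (m * ∑ v ∈ S, j v *
        (∑ i ∈ O.filter (fun i => i + v ∈ O), (x i - x (i + v)) ^ 2 +
        2 * ∑ i ∈ O.filter (fun i => i + v ∉ A), x i ^ 2)) :=
        add_le_add h4 (mul_le_mul_of_nonneg_left h5 (by norm_num))
    _ = _ := by ring

/-- The same for the neighbourhoods of blocks. -/
theorem en_balls {P : Par} (hP : P.Ok) {k : ℕ} {S : Finset (Zd d)} {j : Zd d → ℝ}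
    (hJ : Jok P k S j) (A O : Finset (Zd d)) (x : Zd d → ℝ) (F : Finset (Zd d)) (s : ℕ)
    (hsub : ∀ p ∈ F, lift k (ball s p ∩ A) ⊆ O) :
    ∑ p ∈ F, en P S j (lift k A) (lift k (ball s p ∩ A)) x ≤
      (2 * s + 1) ^ d * en P S j (lift k A) O x := by
  classical
  have h := en_overlap hP hJ (lift k A) O x F (fun p => lift k (ball s p ∩ A)) hsub
    ((2 * s + 1) ^ d) ?_
  · refine h.trans (le_of_eq ?_)
    push_cast
    ring
  · intro i _
    obtain ⟨q, hq⟩ := exists_blk hJ.k_pos i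
    rw [← card_ball s q]
    refine Finset.card_le_card ?_
    intro p hp
    rw [Finset.mem_filter] at hp
    have h1 := (mem_lift_iff hq).1 hp.2
    have h2 := mem_ball.1 (Finset.mem_inter.1 h1).1
    rw [mem_ball]
    intro l
    have h3 := h2 l
    rw [abs_sub_comm]
    exact h3

end Pool.Agent.Vdw
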