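import Pool.Agent.Lib.MP_09cbbd_vw.Over
import Pool.Agent.Lib.MP_09cbbd_kc.Typ
import Pool.Agent.Lib.MP_09cbbd_kc.Pres

/-!
# Upper bounds by the mean field functional
-/

set_option autoImplicit false

namespace Pool.Agent.Vdw

open MeasureTheory Finset Filter Topology Pool.Agent.StableGas Pool.Agent.Kac
open Pool.Agent.SquareWell hiding Md cut

variable {d : ℕ} {E : Type} [MeasurableSpace E]

section

variable {P : Par} {M : Md d E} {V bs μs Ps ε : ℝ} {k : ℕ}

theorem Good.jok (hP : P.Ok) (G : Good P M V bs μs Ps ε k) : Jok P k M.S (jj M V) where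
  k_pos := G.k_pos
  S_neg := M.S_neg
  S_r := fun v hv l => (M.S_r v hv l).trans (by exact_mod_cast G.r_le)
  nonneg := fun v => mul_nonneg (mul_nonneg M.hK.le G.V_pos.le) (M.J_nonneg v)
  neg := fun v => by
    unfold jj
    rw [M.J_neg]
  tot_le := by
    unfold jj
    rw [← mul_sum]
    exact G.tot_le
  coer := G.coer

theorem den_of_mem {A : Finset (Zd d)} {i : Zd d} (hi : i ∈ A) (ω : Zd d → E) :
    den M V A ω i = (M.n (ω i) : ℝ) / V := by
  unfold den
  rw [if_pos hi]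

theorem den_of_notMem {A : Finset (Zd d)} {i : Zd d} (hi : i ∉ A) (ω : Zd d → E) :
    den M V A ω i = 0 := by
  unfold den
  rw [if_neg hi]

theorem den_nonneg (G : Good P M V bs μs Ps ε k) (A : Finset (Zd d)) (ω : Zd d → E) (i : Zd d) :
    0 ≤ den M V A ω i := by
  by_cases hi : i ∈ A
  · rw [den_of_mem hi]
    exact div_nonneg (Nat.cast_nonneg _) G.V_pos.le
  · rw [den_of_notMem hi]

theorem den_le (hP : P.Ok) (G : Good P M V bs μs Ps ε k) (A : Finset (Zd d)) (ω : Zd d → E)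
    (i : Zd d) : den M V A ω i ≤ P.R := by
  by_cases hi : i ∈ A
  · rw [den_of_mem hi, div_le_iff₀ G.V_pos]
    exact le_trans (by exact_mod_cast M.n_le (ω i)) G.N_le
  · rw [den_of_notMem hi]
    linarith [hP.xa_nonneg, hP.xa_lt, hP.xb_le]

/-- Sets which depend only on the numbers of particles in finitely many cells are measurable. -/
theorem measurableSet_of_n (M : Md d E) (A : Finset (Zd d)) (Q : Set (Zd d → E))
    (h : ∀ ω ω' : Zd d → E, (∀ i ∈ A, M.n (ω i) = M.n (ω' i)) → (ω ∈ Q ↔ ω' ∈ Q)) :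
    MeasurableSet Q := by
  let F : (Zd d → E) → (A → ℕ) := fun ω i => M.n (ω i)
  have hF : Measurable F :=
    measurable_pi_lambda _ fun i => M.measurable_n.comp (measurable_pi_apply (i : Zd d))
  have hQ : Q = F ⁻¹' (F '' Q) := by
    ext ω
    constructor
    · intro hω
      exact ⟨ω, hω, rfl⟩
    · rintro ⟨ω', hω', he⟩
      refine (h ω' ω fun i hi => ?_).1 hω'
      exact congrFun he ⟨i, hi⟩
  rw [hQ]
  exact hF (Set.to_countable _).measurableSet

theorem measurable_uo (P : Par) (M : Md d E) (V μs Ps ε : ℝ) :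
    Measurable (uo P M V μs Ps ε) := by
  exact (measurable_from_top (f := fun n : ℕ => ex (-(V * (Ps + ε - μs * ((n : ℝ) / V) -
    M.K * V * M.tot / 2 * ((n : ℝ) / V) ^ 2 - P.c * P.q ((n : ℝ) / V)))))).comp M.measurable_n

theorem lint_uo (G : Good P M V bs μs Ps ε k) :
    ∫⁻ e, uo P M V μs Ps ε e ∂M.π ≤ ex (Real.log (M.N + 1)) := by
  let u : ℕ → ℝ := fun n => V * (Ps + ε - μs * ((n : ℝ) / V) -
    M.K * V * M.tot / 2 * ((n : ℝ) / V) ^ 2 - P.c * P.q ((n : ℝ) / V))
  have hm : ∀ n : ℕ, MeasurableSet {e : E | M.n e = n} := fun n =>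
    M.measurable_n (measurableSet_singleton n)
  have h1 : ∀ e, uo P M V μs Ps ε e =
      ∑ n ∈ Finset.range (M.N + 1), Set.indicator {e : E | M.n e = n} (fun _ => ex (-(u n))) e := by
    intro e
    rw [Finset.sum_eq_single (M.n e)]
    · rw [Set.indicator_of_mem (by rfl)]
      rfl
    · intro n _ hn
      rw [Set.indicator_of_notMem]
      intro h
      exact hn h.symm
    · intro h
      exact absurd (Finset.mem_range.2 (Nat.lt_succ_of_le (M.n_le e))) h
  calc ∫⁻ e, uo P M V μs Ps ε e ∂M.π = ∫⁻ e, ∑ n ∈ Finset.range (M.N + 1),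
        Set.indicator {e : E | M.n e = n} (fun _ => ex (-(u n))) e ∂M.π := by
        exact lintegral_congr h1
    _ = ∑ n ∈ Finset.range (M.N + 1), ex (-(u n)) * M.π {e : E | M.n e = n} := by
        rw [lintegral_finset_sum _ fun n _ => measurable_const.indicator (hm n)]
        exact Finset.sum_congr rfl fun n _ => lintegral_indicator_const (hm n) _
    _ ≤ ∑ n ∈ Finset.range (M.N + 1), 1 := by
        refine Finset.sum_le_sum fun n _ => ?_
        calc ex (-(u n)) * M.π {e : E | M.n e = n} ≤ ex (-(u n)) * ex (u n) :=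
              mul_le_mul' le_rfl (G.up n)
          _ = 1 := by rw [← ex_add, neg_add_cancel, ex_zero]
    _ = ex (Real.log (M.N + 1)) := by
        rw [Finset.sum_const, Finset.card_range, nsmul_eq_mul, mul_one]
        unfold ex
        rw [Real.exp_log (by positivity)]
        have h2 : ((M.N : ℝ) + 1) = ((M.N + 1 : ℕ) : ℝ) := by push_cast; ring
        rw [h2, ENNReal.ofReal_natCast]

theorem int_prod (M : Md d E) (A : Finset (Zd d)) {f : E → ENNReal} (hf : Measurable f) :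
    M.int A (fun ω => ∏ i ∈ A, f (ω i)) = (∫⁻ e, f e ∂M.π) ^ A.card := by
  classical
  have hfin := Pres.fin_π M
  induction A using Finset.induction_on with
  | empty =>
    simp only [Finset.prod_empty, Finset.card_empty, pow_zero]
    unfold Kac.Md.int
    rw [lmarginal_empty]
  | insert a A ha ih =>
    have hd : Disjoint ({a} : Finset (Zd d)) A := Finset.disjoint_singleton_left.2 ha
    have h1 := Pres.int_mul M hd (f := fun ω => f (ω a)) (g := fun ω => ∏ i ∈ A, f (ω i))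
      (hf.comp (measurable_pi_apply a))
      (Finset.measurable_prod _ fun i _ => hf.comp (measurable_pi_apply i))
      (fun x y h => by
        beta_reduce
        rw [h a (Finset.mem_singleton_self a)])
      (fun x y h => Finset.prod_congr rfl fun i hi => by rw [h i hi])
    have h2 : M.int {a} (fun ω => f (ω a)) = ∫⁻ e, f e ∂M.π := by
      unfold Kac.Md.int
      rw [lmarginal_singleton]
      simp
    rw [h2, ih] at h1
    rw [Finset.card_insert_of_notMem ha, pow_succ', ← h1, Finset.insert_eq]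
    congr 1
    funext ω
    rw [← Finset.insert_eq, Finset.prod_insert ha]

theorem int_prod_uo (G : Good P M V bs μs Ps ε k) (A : Finset (Zd d)) :
    M.int A (fun ω => ∏ i ∈ A, uo P M V μs Ps ε (ω i)) ≤ ex (A.card * Real.log (M.N + 1)) := by
  rw [int_prod M A (measurable_uo P M V μs Ps ε), ← ex_pow]
  exact pow_le_pow_left' (lint_uo G) _

/-- The weight of a configuration. -/
theorem w_le_en (hP : P.Ok) (G : Good P M V bs μs Ps ε k) (μ : ℝ) (A : Finset (Zd d))
    (ω : Zd d → E) : M.w μ A ω ≤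
      ex (V * (∑ i ∈ A, (Ps + ε + (μ - μs) * den M V A ω i) -
        en P M.S (jj M V) A A (den M V A ω))) * ∏ i ∈ A, uo P M V μs Ps ε (ω i) := by
  classical
  have hV := G.V_pos
  obtain ⟨x, hx⟩ : ∃ x : Zd d → ℝ, x = den M V A ω := ⟨_, rfl⟩
  have hxi : ∀ i ∈ A, (M.n (ω i) : ℝ) = V * x i := by
    intro i hi
    rw [hx, den_of_mem hi]
    field_simp
  have hxi' : ∀ i ∈ A, (M.n (ω i) : ℝ) / V = x i := by
    intro i hi
    rw [hx, den_of_mem hi]
  rw [← hx]
  have h1 : M.w μ A ω ≤ ex (μ * ∑ i ∈ A, (M.n (ω i) : ℝ) +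
      M.K / 2 * ps M.S M.J A A (Typ.nn M ω)) := by
    rw [Typ.w_eq]
    refine (mul_le_mul' (Typ.on_le M μ A ω) (Typ.pp_le M A A ω)).trans (le_of_eq ?_)
    rw [← ex_add, ← Typ.ps_erase_self M A]
    congr 1
    ring
  have h2 : ∏ i ∈ A, uo P M V μs Ps ε (ω i) = ex (∑ i ∈ A, -(V * (Ps + ε - μs * x i -
      M.K * V * M.tot / 2 * x i ^ 2 - P.c * P.q (x i)))) := by
    rw [← prod_ex]
    refine Finset.prod_congr rfl fun i hi => ?_
    unfold uo
    rw [hxi' i hi]
  rw [h2, ← ex_add]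
  refine h1.trans (ex_le_ex.2 (le_of_eq ?_))
  -- the quadratic form
  set j := jj M V with hj
  have hps : M.K / 2 * ps M.S M.J A A (Typ.nn M ω) = V / 2 * ∑ v ∈ M.S, j v *
      ∑ i ∈ A.filter (fun i => i + v ∈ A), x i * x (i + v) := by
    unfold ps
    rw [Finset.mul_sum, Finset.mul_sum]
    refine Finset.sum_congr rfl fun v _ => ?_
    have h3 : ∑ i ∈ A.filter (fun i => i + v ∈ A), Typ.nn M ω i (i + v) =
        V ^ 2 * ∑ i ∈ A.filter (fun i => i + v ∈ A), x i * x (i + v) := by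
      rw [Finset.mul_sum]
      refine Finset.sum_congr rfl fun i hi => ?_
      rw [Finset.mem_filter] at hi
      rw [Typ.nn, hxi i hi.1, hxi _ hi.2]
      ring
    rw [h3, hj, jj]
    ring
  have hsw : ∑ v ∈ M.S, j v * ∑ i ∈ A.filter (fun i => i + v ∈ A), x i ^ 2 =
      ∑ v ∈ M.S, j v * ∑ i ∈ A.filter (fun i => i + v ∈ A), x (i + v) ^ 2 :=
    Alg.swap M.S A A j M.S_neg (fun v => by rw [hj, jj, jj, M.J_neg]) (fun i => x i ^ 2)
  have hin : ∀ v, ∑ i ∈ A.filter (fun i => i + v ∈ A), x i ^ 2 =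
      ∑ i ∈ A, x i ^ 2 - ∑ i ∈ A.filter (fun i => i + v ∉ A), x i ^ 2 := by
    intro v
    rw [← Finset.sum_filter_add_sum_filter_not A (fun i => i + v ∈ A) fun i => x i ^ 2]
    ring
  have hcross : ∀ v, ∑ i ∈ A.filter (fun i => i + v ∈ A), x i * x (i + v) =
      1 / 2 * ∑ i ∈ A.filter (fun i => i + v ∈ A), x i ^ 2 +
      1 / 2 * ∑ i ∈ A.filter (fun i => i + v ∈ A), x (i + v) ^ 2 -
      1 / 2 * ∑ i ∈ A.filter (fun i => i + v ∈ A), (x i - x (i + v)) ^ 2 := by
    intro v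
    rw [Finset.mul_sum, Finset.mul_sum, Finset.mul_sum, ← Finset.sum_add_distrib,
      ← Finset.sum_sub_distrib]
    exact Finset.sum_congr rfl fun i _ => by ring
  obtain ⟨X2, hX2⟩ : ∃ y, y = ∑ i ∈ A, x i ^ 2 := ⟨_, rfl⟩
  obtain ⟨B, hB⟩ : ∃ y, y = ∑ v ∈ M.S, j v * ∑ i ∈ A.filter (fun i => i + v ∉ A), x i ^ 2 :=
    ⟨_, rfl⟩
  obtain ⟨D, hD⟩ : ∃ y, y = ∑ v ∈ M.S, j v *
    ∑ i ∈ A.filter (fun i => i + v ∈ A), (x i - x (i + v)) ^ 2 := ⟨_, rfl⟩
  have htot : ∑ v ∈ M.S, j v = M.K * V * M.tot := by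
    rw [hj]
    unfold jj Kac.Md.tot
    rw [Finset.mul_sum]
  have hI : ∑ v ∈ M.S, j v * ∑ i ∈ A.filter (fun i => i + v ∈ A), x i ^ 2 =
      M.K * V * M.tot * X2 - B := by
    rw [hB, hX2, ← htot, Finset.sum_mul, ← Finset.sum_sub_distrib]
    refine Finset.sum_congr rfl fun v _ => ?_
    rw [hin v]
    ring
  have hC : ∑ v ∈ M.S, j v * ∑ i ∈ A.filter (fun i => i + v ∈ A), x i * x (i + v) =
      M.K * V * M.tot * X2 - B - 1 / 2 * D := by
    have h4 : ∑ v ∈ M.S, j v * ∑ i ∈ A.filter (fun i => i + v ∈ A), x i * x (i + v) =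
        1 / 2 * ∑ v ∈ M.S, j v * ∑ i ∈ A.filter (fun i => i + v ∈ A), x i ^ 2 +
        1 / 2 * ∑ v ∈ M.S, j v * ∑ i ∈ A.filter (fun i => i + v ∈ A), x (i + v) ^ 2 -
        1 / 2 * D := by
      rw [hD, Finset.mul_sum, Finset.mul_sum, Finset.mul_sum, ← Finset.sum_add_distrib,
        ← Finset.sum_sub_distrib]
      refine Finset.sum_congr rfl fun v _ => ?_
      rw [hcross v]
      ring
    rw [h4, ← hsw, hI]
    ring
  have hen : en P M.S j A A x = P.c * ∑ i ∈ A, P.q (x i) + 1 / 4 * (D + 2 * B) := by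
    have h5 : ∑ v ∈ M.S, j v * (∑ i ∈ A.filter (fun i => i + v ∈ A), (x i - x (i + v)) ^ 2 +
        2 * ∑ i ∈ A.filter (fun i => i + v ∉ A), x i ^ 2) = D + 2 * B := by
      rw [hD, hB, Finset.mul_sum, ← Finset.sum_add_distrib]
      refine Finset.sum_congr rfl fun v _ => ?_
      ring
    rw [← h5]
    rfl
  rw [hps, hC, hen]
  have hn : ∑ i ∈ A, (M.n (ω i) : ℝ) = V * ∑ i ∈ A, x i := by
    rw [Finset.mul_sum]
    exact Finset.sum_congr rfl fun i hi => hxi i hi
  have hs1 : ∑ i ∈ A, (Ps + ε + (μ - μs) * x i) =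
      (Ps + ε) * A.card + (μ - μs) * ∑ i ∈ A, x i := by
    rw [Finset.sum_add_distrib, Finset.sum_const, nsmul_eq_mul, ← Finset.mul_sum]
    ring
  have hs2 : ∑ i ∈ A, -(V * (Ps + ε - μs * x i - M.K * V * M.tot / 2 * x i ^ 2 -
      P.c * P.q (x i))) = -(V * ((Ps + ε) * A.card - μs * ∑ i ∈ A, x i -
      M.K * V * M.tot / 2 * X2 - P.c * ∑ i ∈ A, P.q (x i))) := by
    rw [Finset.sum_neg_distrib, ← Finset.mul_sum, Finset.sum_sub_distrib, Finset.sum_sub_distrib,
      Finset.sum_sub_distrib, Finset.sum_const, nsmul_eq_mul, ← Finset.mul_sum, ← Finset.mul_sum,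
      ← Finset.mul_sum, hX2]
    ring
  rw [hn, hs1, hs2]
  ring

end

end Pool.Agent.Vdw
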