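import Pool.Agent.Lib.MP_09cbbd_vw.Tor
import Pool.Agent.Lib.MP_09cbbd_vw.Up

/-!
# The torus near the mean field coexistence
-/

set_option autoImplicit false

namespace Pool.Agent.Vdw

open MeasureTheory Finset Filter Topology Pool.Agent.StableGas Pool.Agent.Kac
open Pool.Agent.SquareWell hiding Md cut

variable {d : ℕ} {E : Type} [MeasurableSpace E]

namespace Rig

theorem lint_prod {Γ : Type} [Fintype Γ] [DecidableEq Γ] (π : Measure E) [SigmaFinite π]
    (x₀ : E) {f : E → ENNReal} (hf : Measurable f) :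
    ∫⁻ ω : Γ → E, ∏ i, f (ω i) ∂(Measure.pi fun _ => π) = (∫⁻ x, f x ∂π) ^ Fintype.card Γ := by
  have key : ∀ (s : Finset Γ) (x : Γ → E),
      lmarginal (fun _ : Γ => π) s (fun ω => ∏ i ∈ s, f (ω i)) x = (∫⁻ x, f x ∂π) ^ s.card := by
    intro s
    induction s using Finset.induction_on with
    | empty => intro x; simp
    | insert a s ha ih =>
      intro x
      have hm : Measurable fun ω : Γ → E => ∏ i ∈ insert a s, f (ω i) :=
        Finset.measurable_prod _ fun i _ => hf.comp (measurable_pi_apply i)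
      have hm' : Measurable fun ω : Γ → E => ∏ i ∈ s, f (ω i) :=
        Finset.measurable_prod _ fun i _ => hf.comp (measurable_pi_apply i)
      rw [lmarginal_insert' _ hm ha]
      have e1 : (fun x : Γ → E => ∫⁻ y, ∏ i ∈ insert a s, f (Function.update x a y i) ∂π) =
          fun x => (∫⁻ x, f x ∂π) * ∏ i ∈ s, f (x i) := by
        funext x
        rw [← lintegral_mul_const _ hf]
        refine lintegral_congr fun y => ?_
        rw [prod_insert ha, Function.update_self]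
        congr 1
        refine prod_congr rfl fun i hi => ?_
        rw [Function.update_of_ne]
        rintro rfl
        exact ha hi
      rw [e1, card_insert_of_notMem ha, pow_succ']
      have e2 : lmarginal (fun _ : Γ => π) s (fun x => (∫⁻ x, f x ∂π) * ∏ i ∈ s, f (x i)) x =
          (∫⁻ x, f x ∂π) * lmarginal (fun _ : Γ => π) s (fun x => ∏ i ∈ s, f (x i)) x :=
        lintegral_const_mul _ (hm'.comp measurable_updateFinset)
      rw [e2, ih]
  rw [lintegral_eq_lmarginal_univ (fun _ => x₀), key, card_univ]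

theorem n_le_R {P : Par} {M : Md d E} {V bs μs Ps ε : ℝ} {k : ℕ}
    (G : Good P M V bs μs Ps ε k) (x : E) : (M.n x : ℝ) / V ≤ P.R := by
  rw [div_le_iff₀ G.V_pos]
  have h1 : (M.n x : ℝ) ≤ M.N := by exact_mod_cast M.n_le x
  exact h1.trans G.N_le

theorem q_nonneg (P : Par) (x : ℝ) : 0 ≤ P.q x := le_min (sq_nonneg _) (sq_nonneg _)

theorem q_le {P : Par} (hP : P.Ok) {x : ℝ} (h0 : 0 ≤ x) (h1 : x ≤ P.R) : P.q x ≤ P.R ^ 2 := by
  have h2 := hP.xa_nonneg
  have h3 := hP.xa_lt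
  have h4 := hP.xb_le
  refine (min_le_left _ _).trans ?_
  rw [sq_le_sq, abs_of_nonneg (by linarith : 0 ≤ P.R), abs_le]
  constructor <;> linarith

theorem measurable_q (P : Par) : Measurable P.q := by
  unfold Par.q
  exact ((measurable_id.sub_const P.xa).pow_const 2).min ((measurable_id.sub_const P.xb).pow_const 2)

theorem measurable_x (M : Md d E) (V : ℝ) {Γ : Type} (i : Γ) :
    Measurable fun ω : Γ → E => (M.n (ω i) : ℝ) / V :=
  (Kac.Tor.measurable_nn M i).div_const V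

end Rig

open Rig

section

variable {P : Par} {M : Md d E} {V bs μs Ps ε : ℝ} {k : ℕ}

/-- Upper bound for the weight on the torus. -/
theorem wG_le (hP : P.Ok) (G : Good P M V bs μs Ps ε k) (μ : ℝ) (L : ℕ) (ω : Tor d L → E) :
    M.wG (cst L) μ univ ω ≤
      ex (V * ∑ i, (Ps + ε + (μ - μs) * (M.n (ω i) / V) - P.c * P.q (M.n (ω i) / V))) *
        ∏ i, uo P M V μs Ps ε (ω i) := by
  have hV := G.V_pos
  have hK := M.hK
  set a : Tor d L → ℝ := fun i => (M.n (ω i) : ℝ) with ha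
  have ha0 : ∀ i, 0 ≤ a i := fun i => Nat.cast_nonneg _
  have h1 : M.wG (cst L) μ univ ω ≤ ex (∑ i, (μ * a i + M.K / 2 * M.tot * a i ^ 2)) := by
    unfold Kac.Md.wG
    have e1 : ∏ i : Tor d L, ex (μ * M.n (ω i)) * M.h (ω i) ≤
        ex (∑ i, (μ * a i + M.K / 2 * M.J 0 * a i ^ 2)) := by
      rw [← prod_ex]
      refine Finset.prod_le_prod' fun i _ => ?_
      rw [ex_add]
      refine mul_le_mul' le_rfl ((M.h_up (ω i)).trans (le_of_eq ?_))
      congr 1
      simp only [ha]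
      ring
    have e2 : ∀ v ∈ M.S.erase 0, (∏ i ∈ univ.filter (fun i => i + cst L v ∈ (univ : Finset (Tor d L))),
        M.g v (ω i) (ω (i + cst L v))) ≤ ex (M.K / 2 * M.J v * ∑ i, a i ^ 2) := by
      intro v _
      have e3 : (univ.filter fun i : Tor d L => i + cst L v ∈ (univ : Finset (Tor d L))) = univ := by
        rw [filter_true_of_mem]
        intro i _
        exact mem_univ _
      rw [e3]
      calc ∏ i : Tor d L, M.g v (ω i) (ω (i + cst L v))
          ≤ ∏ i : Tor d L, ex (M.K / 4 * M.J v * (a i ^ 2 + a (i + cst L v) ^ 2)) := by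
            refine Finset.prod_le_prod' fun i _ => (M.g_up v _ _).trans (ex_le_ex.2 ?_)
            have h2 : a i * a (i + cst L v) ≤ (a i ^ 2 + a (i + cst L v) ^ 2) / 2 := by
              nlinarith [sq_nonneg (a i - a (i + cst L v))]
            have h3 : 0 ≤ M.K / 2 * M.J v := mul_nonneg (by linarith) (M.J_nonneg v)
            calc M.K / 2 * M.J v * M.n (ω i) * M.n (ω (i + cst L v)) =
                M.K / 2 * M.J v * (a i * a (i + cst L v)) := by simp only [ha]; ring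
              _ ≤ M.K / 2 * M.J v * ((a i ^ 2 + a (i + cst L v) ^ 2) / 2) :=
                mul_le_mul_of_nonneg_left h2 h3
              _ = _ := by ring
        _ = ex (M.K / 2 * M.J v * ∑ i, a i ^ 2) := by
            rw [prod_ex, ← mul_sum, sum_add_distrib]
            have e4 : ∑ i : Tor d L, a (i + cst L v) ^ 2 = ∑ i, a i ^ 2 :=
              Fintype.sum_equiv (Equiv.addRight (cst L v)) _ _ fun i => rfl
            rw [e4]
            congr 1
            ring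
    have e5 : ∏ v ∈ M.S.erase 0, (∏ i ∈ univ.filter
        (fun i => i + cst L v ∈ (univ : Finset (Tor d L))), M.g v (ω i) (ω (i + cst L v))) ≤
        ex (M.K / 2 * (M.tot - M.J 0) * ∑ i, a i ^ 2) := by
      refine (Finset.prod_le_prod' e2).trans (le_of_eq ?_)
      rw [prod_ex, ← sum_mul, ← mul_sum]
      congr 3
      unfold Kac.Md.tot
      rw [← add_sum_erase _ _ M.zero_S]
      ring
    refine (mul_le_mul' e1 e5).trans (le_of_eq ?_)
    rw [← ex_add]
    congr 1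
    rw [sum_add_distrib, sum_add_distrib, ← mul_sum, ← mul_sum, ← mul_sum]
    ring
  refine h1.trans (le_of_eq ?_)
  unfold uo
  rw [prod_ex, ← ex_add]
  congr 1
  rw [mul_sum, ← sum_add_distrib]
  refine sum_congr rfl fun i _ => ?_
  simp only [ha]
  field_simp
  ring

theorem ZT_up (hP : P.Ok) (G : Good P M V bs μs Ps ε k) (μ : ℝ) (L : ℕ) :
    ∫⁻ ω : Tor d L → E, M.wG (cst L) μ univ ω *
      ex (V * P.c / 2 * ∑ i, P.q (M.n (ω i) / V)) ∂(Measure.pi fun _ => M.π) ≤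
      ex (V * (2 * L + 1 : ℝ) ^ d * (Ps + 2 * ε + |μ - μs| * P.R)) := by
  have hV := G.V_pos
  have hc := hP.c_pos
  have : IsFiniteMeasure M.π := TorP.fin_π M
  have hcard : (Fintype.card (Tor d L) : ℝ) = (2 * L + 1 : ℝ) ^ d := by
    rw [Fintype.card_fun, ZMod.card, Fintype.card_fin]
    push_cast
    ring
  have h1 : ∀ ω : Tor d L → E, M.wG (cst L) μ univ ω *
      ex (V * P.c / 2 * ∑ i, P.q (M.n (ω i) / V)) ≤
      ex (V * (2 * L + 1 : ℝ) ^ d * (Ps + ε + |μ - μs| * P.R)) *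
        ∏ i, uo P M V μs Ps ε (ω i) := by
    intro ω
    refine (mul_le_mul' (wG_le hP G μ L ω) le_rfl).trans ?_
    rw [mul_right_comm, ← ex_add]
    refine mul_le_mul' (ex_le_ex.2 ?_) le_rfl
    rw [← hcard, ← card_univ]
    have e1 : V * ((univ : Finset (Tor d L)).card : ℝ) * (Ps + ε + |μ - μs| * P.R) =
        ∑ _i : Tor d L, V * (Ps + ε + |μ - μs| * P.R) := by
      rw [sum_const, nsmul_eq_mul]
      ring
    rw [e1, mul_sum, mul_sum, ← sum_add_distrib]
    refine sum_le_sum fun i _ => ?_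
    have hx0 : (0 : ℝ) ≤ M.n (ω i) / V := by positivity
    have hx1 := n_le_R G (ω i)
    have hq := q_nonneg P ((M.n (ω i) : ℝ) / V)
    have h2 : (μ - μs) * (M.n (ω i) / V) ≤ |μ - μs| * P.R :=
      (mul_le_mul_of_nonneg_right (le_abs_self _) hx0).trans
        (mul_le_mul_of_nonneg_left hx1 (abs_nonneg _))
    have h3 : V * ((μ - μs) * (M.n (ω i) / V)) ≤ V * (|μ - μs| * P.R) :=
      mul_le_mul_of_nonneg_left h2 hV.le
    have h4 : 0 ≤ V * P.c / 2 * P.q (M.n (ω i) / V) := by positivity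
    linarith
  refine (lintegral_mono h1).trans ?_
  have hm : Measurable fun ω : Tor d L → E => ∏ i, uo P M V μs Ps ε (ω i) :=
    Finset.measurable_prod _ fun i _ => (measurable_uo P M V μs Ps ε).comp (measurable_pi_apply i)
  rw [lintegral_const_mul _ hm, lint_prod M.π M.e0 (measurable_uo P M V μs Ps ε)]
  refine (mul_le_mul' le_rfl (pow_le_pow_left' (lint_uo G) _)).trans ?_
  rw [ex_pow, ← ex_add, ex_le_ex, hcard]
  have h2 : (2 * L + 1 : ℝ) ^ d * Real.log (M.N + 1) ≤ (2 * L + 1 : ℝ) ^ d * (ε * V) :=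
    mul_le_mul_of_nonneg_left G.log_le (by positivity)
  linarith

namespace Rig

/-- The pointwise inequality. -/
theorem sq_le {P : Par} (hP : P.Ok) {lam : ℝ} (hlam : 0 < lam) {x : ℝ} (h0 : 0 ≤ x)
    (h1 : x ≤ P.R) : x ^ 2 ≤ (P.xa + P.xb) * x + (-(P.xa * P.xb) + lam) +
      P.R ^ 2 / (4 * lam) * P.q x := by
  have hxa := hP.xa_nonneg
  have hxab := hP.xa_lt
  have hxb := hP.xb_le
  have a1 : |x - P.xa| ≤ P.R := abs_le.2 ⟨by linarith, by linarith⟩
  have a2 : |x - P.xb| ≤ P.R := abs_le.2 ⟨by linarith, by linarith⟩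
  have amgm : ∀ y : ℝ, P.R * y ≤ lam + P.R ^ 2 / (4 * lam) * y ^ 2 := by
    intro y
    have h2 : 0 ≤ (2 * lam - P.R * y) ^ 2 / (4 * lam) := by positivity
    have h3 : (2 * lam - P.R * y) ^ 2 / (4 * lam) =
        lam - P.R * y + P.R ^ 2 / (4 * lam) * y ^ 2 := by
      field_simp
      ring
    linarith
  have h4 : (x - P.xa) * (x - P.xb) ≤ |x - P.xa| * |x - P.xb| := by
    rw [← abs_mul]; exact le_abs_self _
  have hprod : (x - P.xa) * (x - P.xb) ≤ lam + P.R ^ 2 / (4 * lam) * P.q x := by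
    unfold Par.q
    rcases min_choice ((x - P.xa) ^ 2) ((x - P.xb) ^ 2) with h | h
    · rw [h, ← sq_abs (x - P.xa)]
      refine h4.trans (le_trans ?_ (amgm _))
      rw [mul_comm]
      exact mul_le_mul_of_nonneg_right a2 (abs_nonneg _)
    · rw [h, ← sq_abs (x - P.xb)]
      refine h4.trans (le_trans ?_ (amgm _))
      exact mul_le_mul_of_nonneg_right a1 (abs_nonneg _)
  have h5 : x ^ 2 = (x - P.xa) * (x - P.xb) + (P.xa + P.xb) * x - P.xa * P.xb := by ring
  linarith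

theorem card_T (L : ℕ) : (Fintype.card (Tor d L) : ℝ) = (2 * L + 1 : ℝ) ^ d := by
  rw [Fintype.card_fun, ZMod.card, Fintype.card_fin]
  push_cast
  ring

theorem meas_sum (M : Md d E) {L : ℕ} {f : ℝ → ℝ} (hf : Measurable f) :
    Measurable fun ω : Tor d L → E => ∑ i, f (M.n (ω i)) :=
  Finset.measurable_sum _ fun i _ => hf.comp (Kac.Tor.measurable_nn M i)

theorem int_sum (M : Md d E) {L : ℕ} (μ : ℝ) {f : ℝ → ℝ} (hf : Measurable f) {C : ℝ}
    (hC : ∀ x : E, |f (M.n x)| ≤ C) :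
    Integrable (fun ω : Tor d L → E => ∑ i, f (M.n (ω i))) (PT M L μ) := by
  have : IsProbabilityMeasure (PT M L μ) := prob_PT M L μ
  refine Integrable.of_bound (meas_sum M hf).aestronglyMeasurable
    (∑ _i : Tor d L, C) (Eventually.of_forall fun ω => ?_)
  rw [Real.norm_eq_abs]
  exact (abs_sum_le_sum_abs _ _).trans (sum_le_sum fun i _ => hC (ω i))

end Rig

theorem Rig.jensen_q (hP : P.Ok) (G : Good P M V bs μs Ps ε k) {μ e : ℝ} {L : ℕ}
    (hZ : V * (2 * L + 1 : ℝ) ^ d * (Ps - e) ≤ Real.log (M.ZT L μ).toReal) :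
    ∫ ω : Tor d L → E, ∑ i, P.q (M.n (ω i) / V) ∂PT M L μ ≤
      (2 * L + 1 : ℝ) ^ d * (2 / P.c * (e + 2 * ε + |μ - μs| * P.R)) := by
  have hV := G.V_pos
  have hc := hP.c_pos
  set s : ℝ := (2 * L + 1 : ℝ) ^ d with hs
  have hs0 : 0 < s := by positivity
  have mQ : Measurable fun ω : Tor d L → E => ∑ i, P.q (M.n (ω i) / V) :=
    meas_sum M (f := fun x => P.q (x / V)) ((measurable_q P).comp (measurable_id.div_const V))
  have bQ : ∀ ω : Tor d L → E, |∑ i, P.q (M.n (ω i) / V)| ≤ ∑ _i : Tor d L, P.R ^ 2 := by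
    intro ω
    rw [abs_of_nonneg (sum_nonneg fun i _ => q_nonneg P _)]
    exact sum_le_sum fun i _ => q_le hP (by positivity) (n_le_R G (ω i))
  have h1 := jensen M L μ (X := fun ω => V * P.c / 2 * ∑ i, P.q (M.n (ω i) / V))
    (mQ.const_mul _) (C := V * P.c / 2 * (∑ _i : Tor d L, P.R ^ 2)) (fun ω => by
      rw [abs_mul, abs_of_pos (by positivity : 0 < V * P.c / 2)]
      exact mul_le_mul_of_nonneg_left (bQ ω) (by positivity))
  have h2 := h1.trans (ZT_up hP G μ L)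
  have h3 : ex (V * s * (Ps - e)) ≤ M.ZT L μ := by
    have h4 := ex_le_ex.2 hZ
    rwa [ex_log (lt_of_lt_of_le one_pos (one_le_ZT M L μ)).ne' (ZT_ne_top M L μ)] at h4
  have h4 := (mul_le_mul' h3 (le_refl (ex (∫ ω : Tor d L → E,
    V * P.c / 2 * ∑ i, P.q (M.n (ω i) / V) ∂PT M L μ)))).trans h2
  rw [← ex_add, ex_le_ex, integral_const_mul] at h4
  generalize (∫ ω : Tor d L → E, ∑ i, P.q (M.n (ω i) / V) ∂PT M L μ) = I at h4 ⊢
  rw [← hs] at h4
  have h5 : V * P.c / 2 * I ≤ V * s * (e + 2 * ε + |μ - μs| * P.R) := by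
    linarith
  have h6 : (V * P.c / 2) * (s * (2 / P.c * (e + 2 * ε + |μ - μs| * P.R))) =
      V * s * (e + 2 * ε + |μ - μs| * P.R) := by
    field_simp
  rw [← h6] at h5
  exact le_of_mul_le_mul_left h5 (by positivity)

theorem Rig.int_le (hP : P.Ok) (G : Good P M V bs μs Ps ε k) {μ lam : ℝ} {L : ℕ}
    (hlam : 0 < lam) :
    (∫ ω : Tor d L → E, ∑ i, (M.n (ω i) : ℝ) ^ 2 ∂PT M L μ) / V ^ 2 ≤
      (P.xa + P.xb) / V * (∫ ω : Tor d L → E, ∑ i, (M.n (ω i) : ℝ) ∂PT M L μ) +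
        (2 * L + 1 : ℝ) ^ d * (-(P.xa * P.xb) + lam) +
        P.R ^ 2 / (4 * lam) * ∫ ω : Tor d L → E, ∑ i, P.q (M.n (ω i) / V) ∂PT M L μ := by
  have hV := G.V_pos
  have hprob : IsProbabilityMeasure (PT M L μ) := prob_PT M L μ
  have bn : ∀ x : E, (M.n x : ℝ) ≤ M.N := fun x => by exact_mod_cast M.n_le x
  have iQ : Integrable (fun ω : Tor d L → E => ∑ i, P.q (M.n (ω i) / V)) (PT M L μ) :=
    int_sum M μ (f := fun x => P.q (x / V)) ((measurable_q P).comp (measurable_id.div_const V))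
      (C := P.R ^ 2) fun x => by
        rw [abs_of_nonneg (q_nonneg P _)]
        exact q_le hP (by positivity) (n_le_R G x)
  have iX1 : Integrable (fun ω : Tor d L → E => ∑ i, (M.n (ω i) : ℝ)) (PT M L μ) :=
    int_sum M μ (f := fun x => x) measurable_id (C := M.N) fun x => by
      rw [abs_of_nonneg (Nat.cast_nonneg _)]; exact bn x
  have iX2 : Integrable (fun ω : Tor d L → E => ∑ i, (M.n (ω i) : ℝ) ^ 2) (PT M L μ) :=
    int_sum M μ (f := fun x => x ^ 2) (measurable_id.pow_const 2) (C := (M.N : ℝ) ^ 2) fun x => by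
      rw [abs_of_nonneg (sq_nonneg _)]
      exact pow_le_pow_left₀ (Nat.cast_nonneg _) (bn x) 2
  have hpt : ∀ ω : Tor d L → E, (∑ i, (M.n (ω i) : ℝ) ^ 2) / V ^ 2 ≤
      (P.xa + P.xb) / V * (∑ i, (M.n (ω i) : ℝ)) + (2 * L + 1 : ℝ) ^ d * (-(P.xa * P.xb) + lam) +
      P.R ^ 2 / (4 * lam) * ∑ i, P.q (M.n (ω i) / V) := by
    intro ω
    have e1 : (∑ i, (M.n (ω i) : ℝ) ^ 2) / V ^ 2 = ∑ i, ((M.n (ω i) : ℝ) / V) ^ 2 := by
      rw [sum_div]
      exact sum_congr rfl fun i _ => by rw [div_pow]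
    have e2 : (P.xa + P.xb) / V * (∑ i, (M.n (ω i) : ℝ)) +
        (2 * L + 1 : ℝ) ^ d * (-(P.xa * P.xb) + lam) +
        P.R ^ 2 / (4 * lam) * ∑ i, P.q (M.n (ω i) / V) =
        ∑ i, ((P.xa + P.xb) * ((M.n (ω i) : ℝ) / V) +
          (-(P.xa * P.xb) + lam) + P.R ^ 2 / (4 * lam) * P.q (M.n (ω i) / V)) := by
      rw [sum_add_distrib, sum_add_distrib, sum_const, card_univ, nsmul_eq_mul, card_T, ← mul_sum,
        ← mul_sum, ← sum_div]
      ring
    rw [e1, e2]
    exact sum_le_sum fun i _ => sq_le hP hlam (by positivity) (n_le_R G (ω i))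
  have i1 := iX1.const_mul ((P.xa + P.xb) / V)
  have i2 : Integrable (fun _ : Tor d L → E => (2 * L + 1 : ℝ) ^ d * (-(P.xa * P.xb) + lam))
      (PT M L μ) := integrable_const _
  have i3 := iQ.const_mul (P.R ^ 2 / (4 * lam))
  have hI := integral_mono (iX2.div_const (V ^ 2)) ((i1.add i2).add i3) hpt
  have e1 : ∫ ω : Tor d L → E, (∑ i, (M.n (ω i) : ℝ) ^ 2) / V ^ 2 ∂PT M L μ =
      (∫ ω : Tor d L → E, ∑ i, (M.n (ω i) : ℝ) ^ 2 ∂PT M L μ) / V ^ 2 := integral_div _ _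
  have e2 := integral_add (i1.add i2) i3
  have e3 := integral_add i1 i2
  have e4 : ∫ ω : Tor d L → E, (P.xa + P.xb) / V * (∑ i, (M.n (ω i) : ℝ)) ∂PT M L μ =
      (P.xa + P.xb) / V * ∫ ω : Tor d L → E, ∑ i, (M.n (ω i) : ℝ) ∂PT M L μ :=
    integral_const_mul _ _
  have e5 : ∫ ω : Tor d L → E, P.R ^ 2 / (4 * lam) * ∑ i, P.q (M.n (ω i) / V) ∂PT M L μ =
      P.R ^ 2 / (4 * lam) * ∫ ω : Tor d L → E, ∑ i, P.q (M.n (ω i) / V) ∂PT M L μ :=
    integral_const_mul _ _
  have e6 : ∫ _ : Tor d L → E, (2 * L + 1 : ℝ) ^ d * (-(P.xa * P.xb) + lam) ∂PT M L μ =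
      (2 * L + 1 : ℝ) ^ d * (-(P.xa * P.xb) + lam) := by
    rw [integral_const, probReal_univ, one_smul]
  rw [← e1, ← e4, ← e5, ← e6, ← e3]
  exact hI.trans (le_of_eq e2)

/-- If the pressure of the torus is close to the mean field pressure, the density of a cell is
close to one of the two densities with large probability. -/
theorem m2_le (hP : P.Ok) (G : Good P M V bs μs Ps ε k) {μ e lam : ℝ} {L : ℕ} (hlam : 0 < lam)
    (hZ : V * (2 * L + 1 : ℝ) ^ d * (Ps - e) ≤ Real.log (M.ZT L μ).toReal) :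
    m2 M L μ / V ^ 2 ≤ (P.xa + P.xb) * (m1 M L μ / V) - P.xa * P.xb + lam +
      P.R ^ 2 / (4 * lam) * (2 / P.c * (e + 2 * ε + |μ - μs| * P.R)) := by
  have hV := G.V_pos
  have h1 := Rig.jensen_q hP G hZ
  have h2 := Rig.int_le hP G (μ := μ) (L := L) hlam
  unfold m1 m2
  generalize (∫ ω : Tor d L → E, ∑ i, (M.n (ω i) : ℝ) ^ 2 ∂PT M L μ) = I2 at h2 ⊢
  generalize (∫ ω : Tor d L → E, ∑ i, (M.n (ω i) : ℝ) ∂PT M L μ) = I1 at h2 ⊢
  generalize (∫ ω : Tor d L → E, ∑ i, P.q (M.n (ω i) / V) ∂PT M L μ) = IQ at h1 h2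
  have hs0 : (0 : ℝ) < (2 * L + 1 : ℝ) ^ d := by positivity
  generalize (2 * L + 1 : ℝ) ^ d = s at h1 h2 hs0 ⊢
  generalize 2 / P.c * (e + 2 * ε + |μ - μs| * P.R) = q at h1 ⊢
  have h7 : P.R ^ 2 / (4 * lam) * IQ ≤ P.R ^ 2 / (4 * lam) * (s * q) :=
    mul_le_mul_of_nonneg_left h1 (by positivity)
  have h8 : I2 / s / V ^ 2 = I2 / V ^ 2 / s := by
    field_simp
  have h9 : (P.xa + P.xb) * (I1 / s / V) = (P.xa + P.xb) / V * I1 / s := by
    field_simp
  rw [h8, h9, div_le_iff₀ hs0]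
  have h10 : ((P.xa + P.xb) / V * I1 / s - P.xa * P.xb + lam + P.R ^ 2 / (4 * lam) * q) * s =
      (P.xa + P.xb) / V * I1 + s * (-(P.xa * P.xb) + lam) + P.R ^ 2 / (4 * lam) * (s * q) := by
    have : (P.xa + P.xb) / V * I1 / s * s = (P.xa + P.xb) / V * I1 := div_mul_cancel₀ _ hs0.ne'
    linear_combination this
  rw [h10]
  linarith

end

end Pool.Agent.Vdw
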