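import Pool.Agent.Lib.MP_09cbbd_vw.ClsD
import Pool.Agent.Lib.MP_09cbbd_vw.Ent
import Pool.Agent.Lib.MP_09cbbd_kc.Asm

/-!
# Summation over the classes
-/

set_option autoImplicit false

namespace Pool.Agent.Vdw

open MeasureTheory Finset Filter Topology Pool.Agent.StableGas Pool.Agent.Kac
open Pool.Agent.SquareWell hiding Md cut

variable {d : ℕ} {E : Type} [MeasurableSpace E]

namespace Sum

theorem not_both {P : Par} {z : ℝ} (hz : 0 < z) (hz2 : 16 * z ≤ (P.xb - P.xa) ^ 2) {k : ℕ}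
    (hk : 1 ≤ k) {A : Finset (Zd d)} {x : Zd d → ℝ} {p : Zd d} (hD : Dq P z k A x p) :
    ¬ Vq P z k A x p := by
  rintro (h | h)
  · exact h hD.1
  · have h1 := hD.2
    have hkd : (0 : ℝ) < (k : ℝ) ^ d := by
      have : (0 : ℝ) < k := by exact_mod_cast hk
      positivity
    have h2 : ∑ i ∈ blk k p, (P.xb - P.xa) ^ 2 ≤
        ∑ i ∈ blk k p, (2 * (x i - P.xa) ^ 2 + 2 * (x i - P.xb) ^ 2) := by
      refine sum_le_sum fun i _ => ?_
      nlinarith [sq_nonneg ((x i - P.xa) + (x i - P.xb))]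
    rw [sum_const, card_blk, nsmul_eq_mul, sum_add_distrib, ← mul_sum, ← mul_sum] at h2
    push_cast at h2
    have h3 : (k : ℝ) ^ d * (16 * z) ≤ (k : ℝ) ^ d * (P.xb - P.xa) ^ 2 :=
      mul_le_mul_of_nonneg_left hz2 hkd.le
    have h4 : 0 < z * (k : ℝ) ^ d := by positivity
    linarith

section

variable (P : Par) (M : Md d E) (V z τ c0 c4 : ℝ) (k Mr : ℕ)

/-- Every configuration of low energy lies in a class. -/
theorem exists_class (hd : 2 ≤ d) (hP : P.Ok) (hz : 0 < z)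
    (hz2 : 16 * z ≤ (P.xb - P.xa) ^ 2) {m : ℕ} (hMr : 1 ≤ Mr)
    (hdet : ∀ (k : ℕ) (S : Finset (Zd d)) (j : Zd d → ℝ), Jok P k S j →
      ∀ (A : Finset (Zd d)) (x : Zd d → ℝ), (∀ i, 0 ≤ x i) → (∀ i, x i ≤ P.R) →
      (∀ i, i ∉ lift k A → x i = 0) → ∀ (s : ℕ) (L Y DL OL : Finset (Zd d)),
      Cut Mr A (Dq P z k A x) (Vq P z k A x) s L Y →
      (∀ i, i ∈ DL ↔ i ∈ L ∧ Dq P z k A x i) →
      (∀ i, i ∈ OL ↔ i ∈ L ∧ ¬ Dq P z k A x i ∧ ¬ Vq P z k A x i) →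
      ∃ κ, 1 ≤ κ ∧ κ ≤ m ∧
        c4 * (k : ℝ) ^ d * L.card ≤ QQ P S j k (P.m0 + 2) κ A x L DL OL)
    {bs μs Ps ε : ℝ} (G : Good P M V bs μs Ps ε k)
    (hc0 : 0 < c0) {A : Finset (Zd d)} (hA : NConn A) {s0 : ℕ} (hs0 : 1 ≤ s0)
    {ω : Zd d → E} (hω : en P M.S (jj M V) (lift k A) (lift k A) (den M V (lift k A) ω) ≤
      τ * (lift k A).card) : ∃ s κ L Y DL OL, 1 ≤ κ ∧ κ ≤ m ∧ 1 ≤ s ∧
      (s = s0 ∨ (s < s0 ∧ c0 * A.card ≤ 2 * s ^ 3 * num L s)) ∧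
      L ∈ Fam (fatr Mr A) s ∧ DL ⊆ L ∧ OL ⊆ L ∧
      ω ∈ Class P M V z τ c0 c4 k Mr A s κ L Y DL OL := by
  classical
  set B : Finset (Zd d) := bad Mr A (DD P M V z k A ω) (VC P M V z k A ω) with hB
  have hex : ∃ s, 1 ≤ s ∧ (s = s0 ∨ (s < s0 ∧ c0 * A.card ≤ 2 * (s : ℝ) ^ 3 * num B s)) :=
    ⟨s0, hs0, Or.inl rfl⟩
  set s := Nat.find hex with hs
  obtain ⟨h1, h2⟩ := Nat.find_spec hex
  rw [← hs] at h1 h2
  have hsm : s ≤ s0 := by rcases h2 with h2 | h2 <;> omega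
  have hmin : ∀ s', 1 ≤ s' → s' < s → (2 : ℝ) * s' ^ 3 * num B s' < c0 * A.card := by
    intro s' h3 h4
    have h5 := Nat.find_min hex h4
    by_contra hcon
    exact h5 ⟨h3, Or.inr ⟨by omega, not_lt.1 hcon⟩⟩
  have hfill := fill_small2 hc0.le B s A.card hmin
  obtain ⟨L, Y, hcut⟩ := exists_cut (D := DD P M V z k A ω)
    (V := VC P M V z k A ω) hd hMr hA (fun i hi => hi.1) (fun i hi => Or.inl hi)
    (fun i hi => not_both hz hz2 G.k_pos hi) s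
  have hL : ∀ x, x ∈ L ↔ x ∈ B ∧ s ≤ (fill (comp B x)).card := hcut.mem_L
  set DL : Finset (Zd d) := L.filter fun i => DD P M V z k A ω i with hDL
  set OL : Finset (Zd d) := L.filter fun i => ¬ DD P M V z k A ω i ∧ ¬ VC P M V z k A ω i with hOL
  have hDL' : ∀ i, i ∈ DL ↔ i ∈ L ∧ DD P M V z k A ω i := fun i => by rw [hDL, mem_filter]
  have hOL' : ∀ i, i ∈ OL ↔ i ∈ L ∧ ¬ DD P M V z k A ω i ∧ ¬ VC P M V z k A ω i :=
    fun i => by rw [hOL, mem_filter]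
  obtain ⟨κ, hκ1, hκ2, hκ3⟩ := hdet k M.S (jj M V) (G.jok hP) A (den M V (lift k A) ω)
    (den_nonneg G _ _) (den_le hP G _ _) (fun i hi => by unfold den; rw [if_neg hi]) s L Y DL OL
    hcut hDL' hOL'
  refine ⟨s, κ, L, Y, DL, OL, hκ1, hκ2, h1, ?_, ?_, filter_subset _ _, filter_subset _ _,
    hcut, hDL', hOL', hfill, hω, hκ3⟩
  · rcases h2 with h2 | h2
    · exact Or.inl h2
    · right
      refine ⟨h2.1, h2.2.trans ?_⟩
      have : (num B s : ℝ) ≤ num L s := by exact_mod_cast Asm.num_le hL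
      exact mul_le_mul_of_nonneg_left this (by positivity)
  · rw [Asm.mem_Fam]
    constructor
    · intro x hx
      have h3 := ((hL x).1 hx).1
      rw [hB] at h3
      unfold bad at h3
      exact (mem_filter.1 h3).1
    · intro x hx
      rw [Asm.comp_L hL hx]
      exact ((hL x).1 hx).2

variable {P M V z τ c0 c4 k Mr}

theorem class_sub (hMr : 1 ≤ Mr) {A : Finset (Zd d)} {s κ : ℕ}
    {L Y1 Y2 DL OL1 OL2 : Finset (Zd d)}
    {ω1 ω2 : Zd d → E} (h1 : ω1 ∈ Class P M V z τ c0 c4 k Mr A s κ L Y1 DL OL1)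
    (h2 : ω2 ∈ Class P M V z τ c0 c4 k Mr A s κ L Y2 DL OL2) :
    Y2 ⊆ Y1 := by
  obtain ⟨c1, d1, _⟩ := h1
  obtain ⟨c2, d2, _⟩ := h2
  have hnear : ∀ i j : Zd d, j ∈ Nb i → near Mr i j := by
    intro i j hj k
    rw [mem_Nb] at hj
    have h3 := hj k
    rw [abs_le]
    constructor <;> omega
  refine c1.uniq Y2 ⟨fun x hx hxL => (Finset.disjoint_left.1 c2.Y_disj) hx hxL, ?_⟩ ?_
  · intro x hx y hyL hxy
    by_contra hy
    exact hyL (c2.nearY x hx y hy (hnear x y hxy.mem_Nb)).2.2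
  · intro i hi j hj hij
    have hjY : j ∉ Y2 := fun h => (Finset.disjoint_left.1 c2.Y_disj) h hj
    have h3 := (c2.nearY i hi j hjY (hnear i j hij)).2.1
    exact ((d1 j).1 ((d2 j).2 ⟨hj, h3⟩)).2

theorem class_uniq (hMr : 1 ≤ Mr) {A : Finset (Zd d)} {s κ : ℕ}
    {L Y1 Y2 DL OL1 OL2 : Finset (Zd d)}
    {ω1 ω2 : Zd d → E} (h1 : ω1 ∈ Class P M V z τ c0 c4 k Mr A s κ L Y1 DL OL1)
    (h2 : ω2 ∈ Class P M V z τ c0 c4 k Mr A s κ L Y2 DL OL2) :
    Y1 = Y2 :=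
  Subset.antisymm (class_sub hMr h2 h1) (class_sub hMr h1 h2)

variable (P M V z τ c0 c4 k Mr)

/-- The dense region of a nonempty class. -/
noncomputable def yy (A : Finset (Zd d)) (s κ : ℕ) (L DL OL : Finset (Zd d)) :
    Finset (Zd d) := by
  classical exact if h : ∃ Y, (Class P M V z τ c0 c4 k Mr A s κ L Y DL OL).Nonempty then
    h.choose else ∅

theorem mem_yy (hMr : 1 ≤ Mr) {A : Finset (Zd d)} {s κ : ℕ} {L Y DL OL : Finset (Zd d)}
    {ω : Zd d → E} (h : ω ∈ Class P M V z τ c0 c4 k Mr A s κ L Y DL OL) :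
    ω ∈ Class P M V z τ c0 c4 k Mr A s κ L (yy P M V z τ c0 c4 k Mr A s κ L DL OL) DL OL := by
  classical
  have hex : ∃ Y, (Class P M V z τ c0 c4 k Mr A s κ L Y DL OL).Nonempty := ⟨Y, ω, h⟩
  have e : yy P M V z τ c0 c4 k Mr A s κ L DL OL = hex.choose := by
    unfold yy
    rw [dif_pos hex]
  obtain ⟨ω', hω'⟩ := hex.choose_spec
  rw [← e] at hω'
  rw [← class_uniq hMr h hω']
  exact h

/-- Integral over all classes with given `s` and `L`. -/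
noncomputable def gg (μ : ℝ) (A : Finset (Zd d)) (κ s : ℕ) (L : Finset (Zd d)) (ω : Zd d → E) :
    ENNReal :=
  ∑ q ∈ L.powerset ×ˢ L.powerset,
    (Class P M V z τ c0 c4 k Mr A s κ L (yy P M V z τ c0 c4 k Mr A s κ L q.1 q.2) q.1
      q.2).indicator (M.w μ (lift k A)) ω

theorem measurable_gg (μ : ℝ) (A : Finset (Zd d)) (κ s : ℕ) (L : Finset (Zd d)) :
    Measurable (gg P M V z τ c0 c4 k Mr μ A κ s L) := by
  unfold gg
  exact Finset.measurable_fun_sum _ fun q _ =>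
    (measurable_w M μ (lift k A)).indicator (measurableSet_Class P M V z τ c0 c4 k Mr A s κ L _ _ _)

theorem int_gg (μ : ℝ) (A : Finset (Zd d)) (κ s : ℕ) (L : Finset (Zd d)) {t : ENNReal}
    (hT : ∀ Y DL OL, M.int (lift k A) ((Class P M V z τ c0 c4 k Mr A s κ L Y DL OL).indicator
      (M.w μ (lift k A))) ≤ t) :
    M.int (lift k A) (gg P M V z τ c0 c4 k Mr μ A κ s L) ≤ 4 ^ L.card * t := by
  unfold gg
  rw [Asm.int_sum M (L.powerset ×ˢ L.powerset) fun q _ =>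
    (measurable_w M μ (lift k A)).indicator
      (measurableSet_Class P M V z τ c0 c4 k Mr A s κ L _ _ _)]
  refine (Finset.sum_le_card_nsmul _ _ t fun q _ => hT _ _ _).trans ?_
  rw [card_product, card_powerset, nsmul_eq_mul, ← mul_pow]
  norm_num

theorem le_gg (hMr : 1 ≤ Mr) {μ : ℝ} {A : Finset (Zd d)} {s κ : ℕ} {L Y DL OL : Finset (Zd d)}
    {ω : Zd d → E} (h : ω ∈ Class P M V z τ c0 c4 k Mr A s κ L Y DL OL) (h1 : DL ⊆ L)
    (h2 : OL ⊆ L) : M.w μ (lift k A) ω ≤ gg P M V z τ c0 c4 k Mr μ A κ s L ω := by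
  unfold gg
  have h3 : (DL, OL) ∈ L.powerset ×ˢ L.powerset :=
    mem_product.2 ⟨mem_powerset.2 h1, mem_powerset.2 h2⟩
  refine le_trans ?_ (Finset.single_le_sum (f := fun q : Finset (Zd d) × Finset (Zd d) =>
    (Class P M V z τ c0 c4 k Mr A s κ L (yy P M V z τ c0 c4 k Mr A s κ L q.1 q.2) q.1
      q.2).indicator (M.w μ (lift k A)) ω) (fun _ _ => zero_le) h3)
  rw [Set.indicator_of_mem (mem_yy P M V z τ c0 c4 k Mr hMr h)]

theorem measurableSet_high (A : Finset (Zd d)) :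
    MeasurableSet {ω : Zd d → E | τ * (lift k A).card < en P M.S (jj M V) (lift k A) (lift k A)
      (den M V (lift k A) ω)} := by
  classical
  refine measurableSet_of_n M (lift k A) _ fun ω ω' h => ?_
  have e : den M V (lift k A) ω = den M V (lift k A) ω' := by
    funext i
    unfold den
    split_ifs with hi
    · rw [h i hi]
    · rfl
  rw [Set.mem_ofPred_eq, Set.mem_ofPred_eq, e]

end

end Sum

/-- Sum over the classes. -/
theorem sum_classes2 (hd : 2 ≤ d) {P : Par} (hP : P.Ok) {z : ℝ} (hz : 0 < z)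
    (hz2 : 16 * z ≤ (P.xb - P.xa) ^ 2) {m Mr : ℕ} {c4 : ℝ} (hMr : 1 ≤ Mr)
    (hdet : ∀ (k : ℕ) (S : Finset (Zd d)) (j : Zd d → ℝ), Jok P k S j →
      ∀ (A : Finset (Zd d)) (x : Zd d → ℝ), (∀ i, 0 ≤ x i) → (∀ i, x i ≤ P.R) →
      (∀ i, i ∉ lift k A → x i = 0) → ∀ (s : ℕ) (L Y DL OL : Finset (Zd d)),
      Cut Mr A (Dq P z k A x) (Vq P z k A x) s L Y →
      (∀ i, i ∈ DL ↔ i ∈ L ∧ Dq P z k A x i) →
      (∀ i, i ∈ OL ↔ i ∈ L ∧ ¬ Dq P z k A x i ∧ ¬ Vq P z k A x i) →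
      ∃ κ, 1 ≤ κ ∧ κ ≤ m ∧
        c4 * (k : ℝ) ^ d * L.card ≤ QQ P S j k (P.m0 + 2) κ A x L DL OL)
    {M : Md d E} {V bs μs Ps ε : ℝ} {k : ℕ} (G : Good P M V bs μs Ps ε k)
    {τ c0 : ℝ} (hc0 : 0 < c0) (μ : ℝ) (A : Finset (Zd d)) (hA : NConn A) (s0 : ℕ) (hs0 : 1 ≤ s0)
    (T : ℕ → Finset (Zd d) → ENNReal)
    (hT : ∀ s κ L Y DL OL, 1 ≤ κ → κ ≤ m → M.int (lift k A)
      ((Class P M V z τ c0 c4 k Mr A s κ L Y DL OL).indicator (M.w μ (lift k A))) ≤ T s L) :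
    M.xi μ (lift k A) ≤ M.int (lift k A)
        ({ω | τ * (lift k A).card < en P M.S (jj M V) (lift k A) (lift k A)
          (den M V (lift k A) ω)}.indicator (M.w μ (lift k A))) +
      m * (∑ s ∈ Finset.Ico 1 s0, ∑ L ∈ (Fam (fatr Mr A) s).filter
        (fun L => c0 * A.card ≤ 2 * s ^ 3 * num L s), 4 ^ L.card * T s L +
      ∑ L ∈ Fam (fatr Mr A) s0, 4 ^ L.card * T s0 L) := by
  classical
  set F : ℕ → Finset (Finset (Zd d)) := fun s => (Fam (fatr Mr A) s).filter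
    (fun L => c0 * A.card ≤ 2 * s ^ 3 * num L s) with hF
  set H : Set (Zd d → E) := {ω | τ * (lift k A).card < en P M.S (jj M V) (lift k A) (lift k A)
    (den M V (lift k A) ω)} with hH
  set g : ℕ → ℕ → Finset (Zd d) → (Zd d → E) → ENNReal :=
    fun κ s L => Sum.gg P M V z τ c0 c4 k Mr μ A κ s L with hg
  have hgm : ∀ κ s L, Measurable (g κ s L) := fun κ s L =>
    Sum.measurable_gg P M V z τ c0 c4 k Mr μ A κ s L
  have hpt : ∀ ω, M.w μ (lift k A) ω ≤ (H.indicator (M.w μ (lift k A)) ω) +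
      ∑ κ ∈ Finset.Icc 1 m, (∑ s ∈ Finset.Ico 1 s0, ∑ L ∈ F s, g κ s L ω +
      ∑ L ∈ Fam (fatr Mr A) s0, g κ s0 L ω) := by
    intro ω
    by_cases hω : ω ∈ H
    · rw [Set.indicator_of_mem hω]
      exact le_self_add
    · have hω' : en P M.S (jj M V) (lift k A) (lift k A) (den M V (lift k A) ω) ≤
          τ * (lift k A).card := not_lt.1 hω
      obtain ⟨s, κ, L, Y, DL, OL, hκ1, hκ2, h1, h2, h3, h4, h5, h6⟩ :=
        Sum.exists_class P M V z τ c0 c4 k Mr hd hP hz hz2 hMr hdet G hc0 hA hs0 hω'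
      have hle := Sum.le_gg P M V z τ c0 c4 k Mr hMr (μ := μ) h6 h4 h5
      refine le_trans ?_ le_add_self
      refine le_trans ?_ (Finset.single_le_sum (f := fun κ =>
        (∑ s ∈ Finset.Ico 1 s0, ∑ L ∈ F s, g κ s L ω +
        ∑ L ∈ Fam (fatr Mr A) s0, g κ s0 L ω)) (fun _ _ => zero_le)
        (Finset.mem_Icc.2 ⟨hκ1, hκ2⟩))
      rcases h2 with rfl | ⟨h2, h7⟩
      · refine le_trans ?_ le_add_self
        exact hle.trans (Finset.single_le_sum (f := fun L => g κ s L ω)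
          (fun _ _ => zero_le) h3)
      · refine le_trans ?_ le_self_add
        refine hle.trans ?_
        have h8 : L ∈ F s := mem_filter.2 ⟨h3, h7⟩
        refine (Finset.single_le_sum (f := fun L => g κ s L ω)
          (fun _ _ => zero_le) h8).trans ?_
        exact Finset.single_le_sum (f := fun s => ∑ L ∈ F s, g κ s L ω)
          (fun _ _ => zero_le) (Finset.mem_Ico.2 ⟨h1, h2⟩)
  have hm1 : Measurable (H.indicator (M.w μ (lift k A))) :=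
    (measurable_w M μ (lift k A)).indicator (Sum.measurableSet_high P M V τ k A)
  have hm2 : ∀ κ, Measurable fun ω => ∑ s ∈ Finset.Ico 1 s0, ∑ L ∈ F s, g κ s L ω := fun κ =>
    Finset.measurable_fun_sum _ fun s _ => Finset.measurable_fun_sum _ fun L _ => hgm κ s L
  have hm3 : ∀ κ, Measurable fun ω => ∑ L ∈ Fam (fatr Mr A) s0, g κ s0 L ω := fun κ =>
    Finset.measurable_fun_sum _ fun L _ => hgm κ s0 L
  unfold Kac.Md.xi
  refine (Asm.int_mono M hpt).trans ?_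
  have hm4 : ∀ κ, Measurable fun ω => ∑ s ∈ Finset.Ico 1 s0, ∑ L ∈ F s, g κ s L ω +
      ∑ L ∈ Fam (fatr Mr A) s0, g κ s0 L ω := fun κ => (hm2 κ).add (hm3 κ)
  rw [Asm.int_add M hm1, Asm.int_sum M (Finset.Icc 1 m) (fun κ _ => hm4 κ)]
  refine add_le_add le_rfl ?_
  refine (Finset.sum_le_card_nsmul (Finset.Icc 1 m) _ (∑ s ∈ Finset.Ico 1 s0, ∑ L ∈ F s,
      4 ^ L.card * T s L + ∑ L ∈ Fam (fatr Mr A) s0, 4 ^ L.card * T s0 L) fun κ hκ => ?_).trans ?_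
  · rw [Finset.mem_Icc] at hκ
    rw [Asm.int_add M (hm2 κ)]
    rw [Asm.int_sum M (Finset.Ico 1 s0) (fun s _ => Finset.measurable_fun_sum _ fun L _ =>
        hgm κ s L),
      Asm.int_sum M (Fam (fatr Mr A) s0) (fun L _ => hgm κ s0 L)]
    refine add_le_add ?_ ?_
    · refine sum_le_sum fun s _ => ?_
      rw [Asm.int_sum M (F s) (fun L _ => hgm κ s L)]
      exact sum_le_sum fun L _ => Sum.int_gg P M V z τ c0 c4 k Mr μ A κ s L
        fun Y DL OL => hT s κ L Y DL OL hκ.1 hκ.2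
    · exact sum_le_sum fun L _ => Sum.int_gg P M V z τ c0 c4 k Mr μ A κ s0 L
        fun Y DL OL => hT s0 κ L Y DL OL hκ.1 hκ.2
  · rw [Nat.card_Icc, nsmul_eq_mul, Nat.add_sub_cancel]

end Pool.Agent.Vdw
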