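import Pool.Agent.Lib.MP_09cbbd_vw.Defs
import Pool.Agent.Lib.MP_09cbbd_kc.TorP

/-!
# The torus: moments
-/

set_option autoImplicit false

namespace Pool.Agent.Vdw

open MeasureTheory Finset Filter Topology Pool.Agent.StableGas Pool.Agent.Kac
open Pool.Agent.SquareWell hiding Md cut

variable {d : ℕ} {E : Type} [MeasurableSpace E] (M : Md d E)

/-- The Gibbs measure of the torus. -/
noncomputable def PT (L : ℕ) (μ : ℝ) : Measure (Tor d L → E) :=
  (M.ZT L μ)⁻¹ • (Measure.pi fun _ => M.π).withDensity (M.wG (cst L) μ univ)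

/-- Mean number of particles of a cell. -/
noncomputable def m1 (L : ℕ) (μ : ℝ) : ℝ :=
  (∫ ω, ∑ i, (M.n (ω i) : ℝ) ∂PT M L μ) / (2 * L + 1 : ℝ) ^ d

/-- Second moment of the number of particles of a cell. -/
noncomputable def m2 (L : ℕ) (μ : ℝ) : ℝ :=
  (∫ ω, ∑ i, (M.n (ω i) : ℝ) ^ 2 ∂PT M L μ) / (2 * L + 1 : ℝ) ^ d

theorem ZT_ne_zero (L : ℕ) (μ : ℝ) : M.ZT L μ ≠ 0 :=
  (lt_of_lt_of_le one_pos (one_le_ZT M L μ)).ne'

theorem lintegral_PT (L : ℕ) (μ : ℝ) {F : (Tor d L → E) → ENNReal} (hF : Measurable F) :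
    ∫⁻ ω, F ω ∂PT M L μ = (M.ZT L μ)⁻¹ *
      ∫⁻ ω, M.wG (cst L) μ univ ω * F ω ∂(Measure.pi fun _ => M.π) := by
  rw [PT, lintegral_smul_measure, lintegral_withDensity_eq_lintegral_mul _
    (TorP.measurable_wG M (cst L) μ univ) hF]
  rfl

theorem prob_PT (L : ℕ) (μ : ℝ) : IsProbabilityMeasure (PT M L μ) := by
  refine ⟨?_⟩
  have h := lintegral_PT M L μ (F := fun _ => 1) measurable_const
  rw [lintegral_one] at h
  rw [h]
  simp only [mul_one]
  exact ENNReal.inv_mul_cancel (ZT_ne_zero M L μ) (ZT_ne_top M L μ)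

theorem measurable_sumn (L : ℕ) : Measurable fun ω : Tor d L → E => ∑ i, (M.n (ω i) : ℝ) :=
  Finset.measurable_sum _ fun i _ => Pool.Agent.Kac.Tor.measurable_nn M i

theorem sumn_nonneg (L : ℕ) (ω : Tor d L → E) : 0 ≤ ∑ i, (M.n (ω i) : ℝ) :=
  Finset.sum_nonneg fun _ _ => Nat.cast_nonneg _

theorem card_tor (L : ℕ) : (Fintype.card (Tor d L) : ℝ) = (2 * L + 1 : ℝ) ^ d := by
  simp [ZMod.card]

theorem sumn_le (L : ℕ) (ω : Tor d L → E) :
    ∑ i, (M.n (ω i) : ℝ) ≤ (2 * L + 1 : ℝ) ^ d * M.N := by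
  calc ∑ i, (M.n (ω i) : ℝ) ≤ ∑ _i : Tor d L, (M.N : ℝ) :=
        Finset.sum_le_sum fun i _ => by exact_mod_cast M.n_le (ω i)
    _ = (2 * L + 1 : ℝ) ^ d * M.N := by
        rw [Finset.sum_const, nsmul_eq_mul, Finset.card_univ, card_tor]

/-- Jensen's inequality. -/
theorem jensen (L : ℕ) (μ : ℝ) {X : (Tor d L → E) → ℝ} (hX : Measurable X) {C : ℝ}
    (hC : ∀ ω, |X ω| ≤ C) : M.ZT L μ * ex (∫ ω, X ω ∂PT M L μ) ≤
      ∫⁻ ω, M.wG (cst L) μ univ ω * ex (X ω) ∂(Measure.pi fun _ => M.π) := by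
  haveI := prob_PT M L μ
  have hXi : Integrable X (PT M L μ) :=
    Integrable.of_bound hX.aestronglyMeasurable C (Filter.Eventually.of_forall hC)
  have hEm : Measurable fun ω => Real.exp (X ω) := Real.measurable_exp.comp hX
  have hEi : Integrable (fun ω => Real.exp (X ω)) (PT M L μ) := by
    refine Integrable.of_bound hEm.aestronglyMeasurable (Real.exp C)
      (Filter.Eventually.of_forall fun ω => ?_)
    rw [Real.norm_eq_abs, abs_of_pos (Real.exp_pos _)]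
    exact Real.exp_le_exp.2 ((le_abs_self _).trans (hC ω))
  have h1 : Real.exp (∫ ω, X ω ∂PT M L μ) ≤ ∫ ω, Real.exp (X ω) ∂PT M L μ :=
    convexOn_exp.map_integral_le Real.continuous_exp.continuousOn isClosed_univ
      (Filter.Eventually.of_forall fun _ => Set.mem_univ _) hXi hEi
  have h2 : ex (∫ ω, X ω ∂PT M L μ) ≤ ∫⁻ ω, ex (X ω) ∂PT M L μ := by
    unfold ex
    rw [← ofReal_integral_eq_lintegral_ofReal hEi
      (Filter.Eventually.of_forall fun ω => (Real.exp_pos _).le)]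
    exact ENNReal.ofReal_le_ofReal h1
  rw [lintegral_PT M L μ (Pool.Agent.Kac.Tor.measurable_ex hX)] at h2
  calc M.ZT L μ * ex (∫ ω, X ω ∂PT M L μ)
      ≤ M.ZT L μ * ((M.ZT L μ)⁻¹ *
        ∫⁻ ω, M.wG (cst L) μ univ ω * ex (X ω) ∂(Measure.pi fun _ => M.π)) :=
        mul_le_mul_right h2 _
    _ = _ := by
        rw [← mul_assoc, ENNReal.mul_inv_cancel (ZT_ne_zero M L μ) (ZT_ne_top M L μ), one_mul]

/-- Tangent inequality. -/
theorem ZT_tangent (L : ℕ) (μ μ' : ℝ) :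
    Real.log (M.ZT L μ).toReal + (μ' - μ) * m1 M L μ * (2 * L + 1 : ℝ) ^ d ≤
      Real.log (M.ZT L μ').toReal := by
  have hpos : (0 : ℝ) < (2 * L + 1 : ℝ) ^ d := by positivity
  have hX : Measurable fun ω : Tor d L → E => (μ' - μ) * ∑ i, (M.n (ω i) : ℝ) :=
    (measurable_sumn M L).const_mul _
  have h1 := jensen M L μ hX (C := |μ' - μ| * ((2 * L + 1 : ℝ) ^ d * M.N)) (fun ω => by
    rw [abs_mul, abs_of_nonneg (sumn_nonneg M L ω)]
    exact mul_le_mul_of_nonneg_left (sumn_le M L ω) (abs_nonneg _))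
  have h2 : ∫⁻ ω, M.wG (cst L) μ univ ω * ex ((μ' - μ) * ∑ i, (M.n (ω i) : ℝ))
      ∂(Measure.pi fun _ => M.π) = M.ZT L μ' := by
    unfold Md.ZT
    refine lintegral_congr fun ω => ?_
    rw [TorP.wG_eq M _ μ', TorP.wG_eq M _ μ, mul_comm, ← mul_assoc, ← ex_add]
    congr 2
    ring
  have h3 : ∫ ω, (μ' - μ) * ∑ i, (M.n (ω i) : ℝ) ∂PT M L μ =
      (μ' - μ) * m1 M L μ * (2 * L + 1 : ℝ) ^ d := by
    rw [integral_const_mul, m1]
    field_simp
  rw [h2, h3] at h1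
  have h4 := ENNReal.toReal_mono (ZT_ne_top M L μ') h1
  rw [ENNReal.toReal_mul, ex_toReal] at h4
  have h5 : 0 < (M.ZT L μ).toReal := ENNReal.toReal_pos (ZT_ne_zero M L μ) (ZT_ne_top M L μ)
  have h6 := Real.log_le_log (mul_pos h5 (Real.exp_pos _)) h4
  rwa [Real.log_mul h5.ne' (Real.exp_pos _).ne', Real.log_exp] at h6

/-- Integrals with respect to the Gibbs measure in terms of the weight at `μ = 0`. -/
theorem integral_PT (L : ℕ) (μ : ℝ) (f : (Tor d L → E) → ℝ) :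
    ∫ ω, f ω ∂PT M L μ = (M.ZT L μ).toReal⁻¹ *
      ∫ ω, Real.exp (μ * ∑ i, (M.n (ω i) : ℝ)) * (M.wG (cst L) 0 univ ω).toReal * f ω
        ∂(Measure.pi fun _ => M.π) := by
  have hfin := TorP.fin_π M
  obtain ⟨C, hC, hw⟩ := TorP.wG_bound M (cst L) μ univ
  rw [PT, integral_smul_measure, ENNReal.toReal_inv,
    integral_withDensity_eq_integral_toReal_smul₀
      (TorP.measurable_wG M (cst L) μ univ).aemeasurable
      (Filter.Eventually.of_forall fun ω => lt_of_le_of_lt (hw ω) (lt_top_iff_ne_top.2 hC)),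
    smul_eq_mul]
  congr 1
  refine integral_congr_ae (Filter.Eventually.of_forall fun ω => ?_)
  show (M.wG (cst L) μ univ ω).toReal • f ω = _
  rw [TorP.wG_eq M _ μ, ENNReal.toReal_mul, ex_toReal, smul_eq_mul]

theorem continuous_int0 (L : ℕ) (a : ℕ) : Continuous fun μ : ℝ =>
    ∫ ω, Real.exp (μ * ∑ i, (M.n (ω i) : ℝ)) * (M.wG (cst L) 0 univ ω).toReal *
      (∑ i, (M.n (ω i) : ℝ)) ^ a ∂(Measure.pi fun _ => M.π) := by
  have hfin := TorP.fin_π M
  obtain ⟨C, hC, hw⟩ := TorP.wG_bound M (cst L) 0 univ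
  set K : ℝ := (2 * L + 1 : ℝ) ^ d * M.N with hK
  have hK0 : 0 ≤ K := by positivity
  rw [continuous_iff_continuousAt]
  intro μ0
  refine continuousAt_of_dominated (bound := fun _ => Real.exp ((|μ0| + 1) * K) * C.toReal * K ^ a)
    ?_ ?_ (integrable_const _) ?_
  · refine Filter.Eventually.of_forall fun μ => Measurable.aestronglyMeasurable ?_
    exact ((Real.measurable_exp.comp ((measurable_sumn M L).const_mul μ)).mul
      (TorP.measurable_wG M (cst L) 0 univ).ennreal_toReal).mul ((measurable_sumn M L).pow_const a)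
  · have h1 : ∀ᶠ μ : ℝ in 𝓝 μ0, |μ| ≤ |μ0| + 1 := by
      have h2 : ∀ᶠ μ : ℝ in 𝓝 μ0, |μ| < |μ0| + 1 :=
        continuous_abs.continuousAt.eventually_lt continuousAt_const (by linarith)
      exact h2.mono fun μ h => h.le
    refine h1.mono fun μ hμ => Filter.Eventually.of_forall fun ω => ?_
    have h3 := sumn_nonneg M L ω
    have h4 := sumn_le M L ω
    rw [Real.norm_eq_abs, abs_of_nonneg (by positivity)]
    refine mul_le_mul (mul_le_mul (Real.exp_le_exp.2 ?_) ?_ ENNReal.toReal_nonneg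
      (Real.exp_pos _).le) (pow_le_pow_left₀ h3 h4 a) (by positivity) (by positivity)
    · calc μ * ∑ i, (M.n (ω i) : ℝ) ≤ |μ| * ∑ i, (M.n (ω i) : ℝ) :=
            mul_le_mul_of_nonneg_right (le_abs_self _) h3
        _ ≤ (|μ0| + 1) * K := mul_le_mul hμ h4 h3 (by positivity)
    · exact ENNReal.toReal_mono hC (hw ω)
  · refine Filter.Eventually.of_forall fun ω => ?_
    fun_prop

theorem toReal_ZT (L : ℕ) (μ : ℝ) : (M.ZT L μ).toReal =
    ∫ ω, Real.exp (μ * ∑ i, (M.n (ω i) : ℝ)) * (M.wG (cst L) 0 univ ω).toReal *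
      (∑ i, (M.n (ω i) : ℝ)) ^ 0 ∂(Measure.pi fun _ => M.π) := by
  haveI := prob_PT M L μ
  have h := integral_PT M L μ (fun _ => 1)
  rw [integral_const, smul_eq_mul, mul_one, probReal_univ] at h
  have h5 : (M.ZT L μ).toReal ≠ 0 :=
    (ENNReal.toReal_pos (ZT_ne_zero M L μ) (ZT_ne_top M L μ)).ne'
  simp only [pow_zero]
  rw [eq_comm, inv_mul_eq_one₀ h5] at h
  exact h

theorem m1_continuous (L : ℕ) : Continuous (m1 M L) := by
  have h1 : m1 M L = fun μ => (M.ZT L μ).toReal⁻¹ *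
      (∫ ω, Real.exp (μ * ∑ i, (M.n (ω i) : ℝ)) * (M.wG (cst L) 0 univ ω).toReal *
      (∑ i, (M.n (ω i) : ℝ)) ^ 1 ∂(Measure.pi fun _ => M.π)) / (2 * L + 1 : ℝ) ^ d := by
    funext μ
    rw [m1, integral_PT]
    simp only [pow_one]
  have h2 : Continuous fun μ => (M.ZT L μ).toReal := by
    have h3 : (fun μ => (M.ZT L μ).toReal) = _ := funext fun μ => toReal_ZT M L μ
    rw [h3]
    exact continuous_int0 M L 0
  rw [h1]
  refine Continuous.div_const ((h2.inv₀ fun μ => ?_).mul (continuous_int0 M L 1)) _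
  exact (ENNReal.toReal_pos (ZT_ne_zero M L μ) (ZT_ne_top M L μ)).ne'

end Pool.Agent.Vdw
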