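import Pool.Agent.Lib.MP_09cbbd_vw.Tor

/-!
# The torus: the partition function of the complement of a set
-/

set_option autoImplicit false

namespace Pool.Agent.Vdw

open MeasureTheory Finset Filter Topology Pool.Agent.StableGas Pool.Agent.Kac
open Pool.Agent.SquareWell hiding Md cut

namespace TorCN

open Pool.Agent.Kac.Tor

variable {d : ℕ} {E : Type} [MeasurableSpace E] (M : Md d E)

/-- The pair weights. -/
theorem pair_bound2 (v : Zd d) (x y : E) {k c D : ℕ} (hk : k ≠ 0) (hcD : c + D = k) :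
    M.g v x y ≤ (M.g v x y ^ (1 / (k : ℝ))) ^ c *
      ex (M.K / 2 * (M.J v * D) / k * (M.n x * M.n y)) := by
  have hk0 : (0:ℝ) < k := by exact_mod_cast Nat.pos_of_ne_zero hk
  calc M.g v x y = (M.g v x y ^ (1 / (k : ℝ))) ^ (c + D) := by
        rw [hcD, Pool.Agent.Kac.Tor.rpow_inv_pow _ hk]
    _ = (M.g v x y ^ (1 / (k : ℝ))) ^ c * (M.g v x y ^ (1 / (k : ℝ))) ^ D := pow_add _ _ _
    _ ≤ _ := by
      refine mul_le_mul' le_rfl ?_
      have h1 : M.g v x y ^ (1 / (k : ℝ)) ≤ ex (M.K / 2 * M.J v * M.n x * M.n y / k) := by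
        have h2 : M.g v x y ^ (1 / (k : ℝ)) ≤ ex (M.K / 2 * M.J v * M.n x * M.n y) ^ (1 / (k : ℝ)) :=
          ENNReal.rpow_le_rpow (M.g_up v x y) (by positivity)
        refine h2.trans ?_
        rw [ex_rpow, ex_le_ex, mul_one_div]
      refine (pow_le_pow_left' h1 D).trans ?_
      rw [ex_pow, ex_le_ex]
      apply le_of_eq
      ring

variable {Γ : Type} [AddCommGroup Γ] [DecidableEq Γ] [Fintype Γ] (φ : Zd d → Γ)

omit [DecidableEq Γ] in
theorem sum_pair_le (x : Γ → ℝ) (a : Γ) : ∑ j : Γ, x j * x (j + a) ≤ ∑ j : Γ, x j ^ 2 := by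
  have h1 : ∑ j : Γ, x (j + a) ^ 2 = ∑ j : Γ, x j ^ 2 :=
    Fintype.sum_equiv (Equiv.addRight a) _ _ fun j => rfl
  have h2 : ∑ j : Γ, x j * x (j + a) ≤ ∑ j : Γ, (x j ^ 2 / 2 + x (j + a) ^ 2 / 2) :=
    sum_le_sum fun j _ => by nlinarith [sq_nonneg (x j - x (j + a))]
  rw [sum_add_distrib, ← sum_div, ← sum_div, h1] at h2
  linarith

theorem pointwise2 (μ : ℝ) (A : Finset Γ) (hA : (univ \ A).card ≠ 0) (f : Γ → ℝ) (ω : Γ → E) :
    M.wG φ μ univ ω * ex (((∑ j ∈ univ \ A, f j) * ∑ i, (M.n (ω i) : ℝ) -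
        M.K / 2 * ct φ M.S M.J A * ∑ i, (M.n (ω i) : ℝ) ^ 2) / ((univ \ A).card : ℝ)) ≤
      ∏ t : Γ, W M φ μ (univ \ A) f (fun j => ω (j + t)) ^ (1 / (((univ \ A).card : ℕ) : ℝ)) := by
  set B : Finset Γ := univ \ A with hB
  set k : ℕ := B.card with hk
  have hk0 : (0:ℝ) < k := by exact_mod_cast Nat.pos_of_ne_zero hA
  have hr : (0:ℝ) ≤ 1 / (k : ℝ) := by positivity
  set D : Zd d → ℕ := fun v => (A.filter fun i => i + φ v ∉ A).card with hD
  set c : Zd d → ℕ := fun v => (B.filter fun i => i + φ v ∈ B).card with hc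
  have hAB : univ \ B = A := by rw [hB, sdiff_sdiff_right_self]; simp
  have hcD : ∀ v, c v + D v = k := by
    intro v
    have := card_shift B (φ v)
    rw [hAB] at this
    exact this
  -- the right side
  have hR : ∏ t : Γ, W M φ μ B f (fun j => ω (j + t)) ^ (1 / (k : ℝ)) =
      (∏ j : Γ, ex (μ * M.n (ω j)) * M.h (ω j)) *
        (∏ v ∈ M.S.erase 0, ∏ j : Γ, (M.g v (ω j) (ω (j + φ v)) ^ (1 / (k : ℝ))) ^ c v) *
        ∏ j : Γ, ex ((∑ i ∈ B, f i) / k * M.n (ω j)) := by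
    have hterm : ∀ t : Γ, W M φ μ B f (fun j => ω (j + t)) ^ (1 / (k : ℝ)) =
        (∏ i ∈ B, (ex (μ * M.n (ω (i + t))) * M.h (ω (i + t))) ^ (1 / (k : ℝ))) *
          (∏ v ∈ M.S.erase 0, ∏ i ∈ B.filter (fun i => i + φ v ∈ B),
            M.g v (ω (i + t)) (ω (i + φ v + t)) ^ (1 / (k : ℝ))) *
          ∏ i ∈ B, (ex (f i * M.n (ω (i + t)))) ^ (1 / (k : ℝ)) := by
      intro t
      unfold W Pool.Agent.Kac.Md.wG
      rw [ENNReal.mul_rpow_of_nonneg _ _ hr, ENNReal.mul_rpow_of_nonneg _ _ hr]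
      simp only [← ENNReal.prod_rpow_of_nonneg hr]
    simp only [hterm]
    rw [prod_mul_distrib, prod_mul_distrib]
    congr 1
    · congr 1
      · rw [prod_shift B fun _ j => (ex (μ * M.n (ω j)) * M.h (ω j)) ^ (1 / (k : ℝ))]
        rw [prod_const, ← hk, ← prod_pow]
        exact prod_congr rfl fun j _ => rpow_inv_pow _ hA
      · rw [Finset.prod_comm]
        refine prod_congr rfl fun v _ => ?_
        have h1 : ∀ t : Γ, ∏ i ∈ B.filter (fun i => i + φ v ∈ B),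
            M.g v (ω (i + t)) (ω (i + φ v + t)) ^ (1 / (k : ℝ)) =
            ∏ i ∈ B.filter (fun i => i + φ v ∈ B),
              M.g v (ω (i + t)) (ω (i + t + φ v)) ^ (1 / (k : ℝ)) := by
          intro t
          refine prod_congr rfl fun i _ => ?_
          rw [add_right_comm]
        have h5 : ∏ t : Γ, ∏ i ∈ B.filter (fun i => i + φ v ∈ B),
              M.g v (ω (i + t)) (ω (i + t + φ v)) ^ (1 / (k : ℝ)) =
            ∏ i ∈ B.filter (fun i => i + φ v ∈ B), ∏ j : Γ,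
              M.g v (ω j) (ω (j + φ v)) ^ (1 / (k : ℝ)) :=
          prod_shift (B.filter fun i => i + φ v ∈ B)
            fun _ j => M.g v (ω j) (ω (j + φ v)) ^ (1 / (k : ℝ))
        rw [prod_congr rfl fun t _ => h1 t, h5, prod_const, ← prod_pow]
    · rw [prod_shift B fun i j => (ex (f i * M.n (ω j))) ^ (1 / (k : ℝ)), Finset.prod_comm]
      refine prod_congr rfl fun j _ => ?_
      simp only [ex_rpow]
      rw [prod_ex, ← sum_mul, ← sum_mul]
      congr 1
      ring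
  rw [hR]
  -- the left side
  unfold Pool.Agent.Kac.Md.wG
  have hfil : ∀ v, (univ.filter fun i : Γ => i + φ v ∈ (univ : Finset Γ)) = univ := by
    intro v
    rw [filter_true_of_mem]
    intro i _
    exact mem_univ _
  simp only [hfil]
  have h1 : ∏ v ∈ M.S.erase 0, ∏ j : Γ, M.g v (ω j) (ω (j + φ v)) ≤
      (∏ v ∈ M.S.erase 0, ∏ j : Γ, (M.g v (ω j) (ω (j + φ v)) ^ (1 / (k : ℝ))) ^ c v) *
        ex (M.K / 2 * ct φ M.S M.J A / k * ∑ j, (M.n (ω j) : ℝ) ^ 2) := by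
    have h2 : ∏ v ∈ M.S.erase 0, ∏ j : Γ, M.g v (ω j) (ω (j + φ v)) ≤
        ∏ v ∈ M.S.erase 0, ∏ j : Γ, ((M.g v (ω j) (ω (j + φ v)) ^ (1 / (k : ℝ))) ^ c v *
          ex (M.K / 2 * (M.J v * D v) / k * (M.n (ω j) * M.n (ω (j + φ v))))) :=
      Finset.prod_le_prod' fun v _ => Finset.prod_le_prod' fun j _ =>
        pair_bound2 M v _ _ hA (hcD v)
    refine h2.trans ?_
    simp only [prod_mul_distrib]
    refine mul_le_mul' le_rfl ?_
    simp only [prod_ex]
    rw [ex_le_ex]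
    have h3 : ∀ v ∈ M.S.erase 0, ∑ j : Γ, M.K / 2 * (M.J v * D v) / k *
        ((M.n (ω j) : ℝ) * M.n (ω (j + φ v))) ≤
        M.K / 2 * (M.J v * D v) / k * ∑ j, (M.n (ω j) : ℝ) ^ 2 := by
      intro v _
      rw [← mul_sum]
      refine mul_le_mul_of_nonneg_left (sum_pair_le _ _) ?_
      have e1 := M.hK
      have e2 := M.J_nonneg v
      positivity
    refine (sum_le_sum h3).trans ?_
    rw [← sum_mul]
    refine mul_le_mul_of_nonneg_right ?_ (sum_nonneg fun _ _ => sq_nonneg _)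
    rw [← sum_div]
    refine div_le_div_of_nonneg_right ?_ hk0.le
    rw [← mul_sum]
    refine mul_le_mul_of_nonneg_left ?_ (by linarith [M.hK])
    exact sum_le_sum_of_subset_of_nonneg (erase_subset _ _)
      fun v _ _ => mul_nonneg (M.J_nonneg v) (Nat.cast_nonneg _)
  refine (mul_le_mul' (mul_le_mul' le_rfl h1) le_rfl).trans (le_of_eq ?_)
  rw [prod_ex, ← mul_assoc, mul_assoc _ (ex _) (ex _), ← ex_add]
  congr 2
  rw [← mul_sum]
  field_simp
  ring

theorem lower2 (μ : ℝ) (A : Finset Γ) (hA : (univ \ A).card ≠ 0) (f : Γ → ℝ) :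
    ∫⁻ ω : Γ → E, M.wG φ μ univ ω * ex (((∑ j ∈ univ \ A, f j) * ∑ i, (M.n (ω i) : ℝ) -
        M.K / 2 * ct φ M.S M.J A * ∑ i, (M.n (ω i) : ℝ) ^ 2) / ((univ \ A).card : ℝ))
        ∂(Measure.pi fun _ => M.π) ≤
      (lmarginal (fun _ : Γ => M.π) (univ \ A) (W M φ μ (univ \ A) f) fun _ => M.e0) ^
        ((Fintype.card Γ : ℝ) / ((univ \ A).card : ℝ)) := by
  have : IsFiniteMeasure M.π := ⟨M.π_univ.trans_lt (ex_ne_top _).lt_top⟩
  set B : Finset Γ := univ \ A with hB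
  set k : ℕ := B.card with hk
  have hk0 : (0:ℝ) < k := by exact_mod_cast Nat.pos_of_ne_zero hA
  refine (lintegral_mono fun ω => pointwise2 M φ μ A hA f ω).trans ?_
  have hinj : ∀ t : Γ, Function.Injective fun j : Γ => j + t := fun t => add_left_injective t
  have hm : ∀ t : Γ, Measurable fun ω : Γ → E => W M φ μ B f fun j => ω (j + t) := fun t =>
    (measurable_W M φ μ B f).comp (measurable_pi_lambda _ fun j => measurable_pi_apply (j + t))
  have h1 := finner M.π (univ : Finset Γ) (fun t => B.image fun j => j + t)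
    (fun _ => 1 / (k : ℝ)) (fun _ _ => by positivity) (fun j => by
      have h2 : (univ.filter fun t : Γ => j ∈ B.image fun j => j + t).card = k := by
        rw [hk]
        refine card_bij (fun t _ => j - t) (fun t ht => ?_) (fun t _ t' _ h => ?_) fun i hi => ?_
        · obtain ⟨i, hi, rfl⟩ := mem_image.mp (mem_filter.mp ht).2
          simpa using hi
        · exact sub_right_injective h
        · refine ⟨j - i, ?_, by simp⟩
          rw [mem_filter]
          exact ⟨mem_univ _, mem_image.mpr ⟨i, hi, by simp⟩⟩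
      rw [← sum_filter, sum_const, h2, nsmul_eq_mul]
      field_simp)
    (fun t ω => W M φ μ B f fun j => ω (j + t)) (fun t _ => hm t)
    (fun t _ ω ω' h => W_congr M φ μ B f fun j hj => h (j + t) (mem_image_of_mem _ hj))
    (fun _ => M.e0)
  refine h1.trans (le_of_eq ?_)
  have h3 : ∀ t : Γ, lmarginal (fun _ : Γ => M.π) (B.image fun j => j + t)
      (fun ω => W M φ μ B f fun j => ω (j + t)) (fun _ => M.e0) =
      lmarginal (fun _ : Γ => M.π) B (W M φ μ B f) fun _ => M.e0 := fun t =>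
    lmarginal_image (X := fun _ : Γ => E) (μ := fun _ : Γ => M.π) (hinj t) B
      (measurable_W M φ μ B f) fun _ => M.e0
  simp only [h3]
  rw [prod_const, card_univ, ← ENNReal.rpow_natCast, ← ENNReal.rpow_mul]
  congr 1
  ring

end TorCN

open TorCN

variable {d : ℕ} {E : Type} [MeasurableSpace E] (M : Md d E)

/-- The partition function of the complement of `A` in the field `f`. -/
theorem torus_lower2 (L : ℕ) (μ : ℝ) (A : Finset (Tor d L)) (hA : A.card < (2 * L + 1) ^ d)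
    (f : Tor d L → ℝ) :
    ex ((((2 * L + 1 : ℝ) ^ d - A.card) / (2 * L + 1 : ℝ) ^ d) * Real.log (M.ZT L μ).toReal +
      (∑ j ∈ univ \ A, f j) * m1 M L μ - M.K / 2 * cutT L M.S M.J A * m2 M L μ) ≤
      M.ZC L μ A f := by
  have hcard : Fintype.card (Tor d L) = (2 * L + 1) ^ d := by
    rw [Fintype.card_fun, ZMod.card, Fintype.card_fin]
  have h1 : (univ \ A).card = (2 * L + 1) ^ d - A.card := by
    rw [card_sdiff_of_subset (subset_univ A), card_univ, hcard]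
  have h2 : (univ \ A).card ≠ 0 := by omega
  have h3 := lower2 M (cst L) μ A h2 f
  have h4 : (((univ \ A).card : ℕ) : ℝ) = (2 * L + 1 : ℝ) ^ d - A.card := by
    rw [h1, Nat.cast_sub hA.le]
    push_cast
    ring
  have h5 : ((Fintype.card (Tor d L) : ℕ) : ℝ) = (2 * L + 1 : ℝ) ^ d := by
    rw [hcard]
    push_cast
    ring
  rw [h4, h5] at h3
  obtain ⟨k, hk⟩ : ∃ k : ℝ, k = (2 * L + 1 : ℝ) ^ d - A.card := ⟨_, rfl⟩
  obtain ⟨n, hn⟩ : ∃ n : ℝ, n = (2 * L + 1 : ℝ) ^ d := ⟨_, rfl⟩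
  have hn0 : 0 < n := by rw [hn]; positivity
  have hk0 : 0 < k := by
    rw [hk, ← h4]
    exact_mod_cast Nat.pos_of_ne_zero h2
  rw [← hk, ← hn] at h3 ⊢
  have hP := prob_PT M L μ
  have hnb : ∀ (ω : Tor d L → E) (i : Tor d L), (M.n (ω i) : ℝ) ≤ M.N := fun ω i => by
    exact_mod_cast M.n_le _
  have hm : ∀ i : Tor d L, Measurable fun ω : Tor d L → E => (M.n (ω i) : ℝ) :=
    Pool.Agent.Kac.Tor.measurable_nn M
  have hm1 : Measurable fun ω : Tor d L → E => ∑ i, (M.n (ω i) : ℝ) :=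
    Finset.measurable_fun_sum _ fun i _ => hm i
  have hm2 : Measurable fun ω : Tor d L → E => ∑ i, (M.n (ω i) : ℝ) ^ 2 :=
    Finset.measurable_fun_sum _ fun i _ => (hm i).pow_const 2
  have hb1 : ∀ ω : Tor d L → E, |∑ i, (M.n (ω i) : ℝ)| ≤ n * M.N := by
    intro ω
    rw [abs_of_nonneg (sum_nonneg fun _ _ => Nat.cast_nonneg _)]
    refine (sum_le_card_nsmul _ _ _ fun i _ => hnb ω i).trans (le_of_eq ?_)
    rw [card_univ, nsmul_eq_mul, h5, hn]
  have hb2 : ∀ ω : Tor d L → E, |∑ i, (M.n (ω i) : ℝ) ^ 2| ≤ n * (M.N : ℝ) ^ 2 := by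
    intro ω
    rw [abs_of_nonneg (sum_nonneg fun _ _ => sq_nonneg _)]
    refine (sum_le_card_nsmul _ _ _ fun i _ =>
      pow_le_pow_left₀ (Nat.cast_nonneg _) (hnb ω i) 2).trans (le_of_eq ?_)
    rw [card_univ, nsmul_eq_mul, h5, hn]
  obtain ⟨F, hF⟩ : ∃ F : ℝ, F = ∑ j ∈ univ \ A, f j := ⟨_, rfl⟩
  obtain ⟨c, hc⟩ : ∃ c : ℝ, c = M.K / 2 * cutT L M.S M.J A := ⟨_, rfl⟩
  have hct : Pool.Agent.Kac.Tor.ct (cst L) M.S M.J A = cutT L M.S M.J A := rfl
  rw [hct, ← hc, ← hF] at h3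
  rw [← hc, ← hF]
  have hi1 : Integrable (fun ω : Tor d L → E => ∑ i, (M.n (ω i) : ℝ)) (PT M L μ) :=
    Integrable.of_bound hm1.aestronglyMeasurable (n * M.N)
      (Eventually.of_forall fun ω => by rw [Real.norm_eq_abs]; exact hb1 ω)
  have hi2 : Integrable (fun ω : Tor d L → E => ∑ i, (M.n (ω i) : ℝ) ^ 2) (PT M L μ) :=
    Integrable.of_bound hm2.aestronglyMeasurable (n * (M.N : ℝ) ^ 2)
      (Eventually.of_forall fun ω => by rw [Real.norm_eq_abs]; exact hb2 ω)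
  have hX : Measurable fun ω : Tor d L → E =>
      (F * ∑ i, (M.n (ω i) : ℝ) - c * ∑ i, (M.n (ω i) : ℝ) ^ 2) / k :=
    ((hm1.const_mul F).sub (hm2.const_mul c)).div_const k
  have hJ := jensen M L μ hX (C := (|F| * (n * M.N) + |c| * (n * (M.N : ℝ) ^ 2)) / k) (fun ω => by
    rw [abs_div, abs_of_pos hk0]
    refine div_le_div_of_nonneg_right ((abs_sub _ _).trans (add_le_add ?_ ?_)) hk0.le
    · rw [abs_mul]
      exact mul_le_mul_of_nonneg_left (hb1 ω) (abs_nonneg _)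
    · rw [abs_mul]
      exact mul_le_mul_of_nonneg_left (hb2 ω) (abs_nonneg _))
  have hint : ∫ ω, (F * ∑ i, (M.n (ω i) : ℝ) - c * ∑ i, (M.n (ω i) : ℝ) ^ 2) / k ∂PT M L μ =
      (n / k) * (F * m1 M L μ - c * m2 M L μ) := by
    rw [integral_div, integral_sub (hi1.const_mul F) (hi2.const_mul c), integral_const_mul,
      integral_const_mul]
    unfold m1 m2
    rw [← hn]
    field_simp
  rw [hint] at hJ
  have h6 := hJ.trans h3
  have hZ0 : M.ZT L μ ≠ 0 := (lt_of_lt_of_le one_pos (Pool.Agent.Kac.one_le_ZT M L μ)).ne'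
  have hZt : M.ZT L μ ≠ ⊤ := ZT_ne_top M L μ
  have h7 : M.ZT L μ = ex (Real.log (M.ZT L μ).toReal) := by
    unfold ex
    rw [Real.exp_log (ENNReal.toReal_pos hZ0 hZt), ENNReal.ofReal_toReal hZt]
  rw [h7, ← ex_add] at h6
  have h8 := ENNReal.rpow_le_rpow h6 (show 0 ≤ k / n by positivity)
  rw [ex_rpow] at h8
  have h9 : (Real.log (M.ZT L μ).toReal + n / k * (F * m1 M L μ - c * m2 M L μ)) * (k / n) =
      k / n * Real.log (M.ZT L μ).toReal + F * m1 M L μ - c * m2 M L μ := by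
    field_simp
    ring
  rw [h9] at h8
  refine h8.trans (le_of_eq ?_)
  rw [← ENNReal.rpow_mul]
  have h10 : n / k * (k / n) = 1 := by field_simp
  rw [h10, ENNReal.rpow_one]
  rfl

end Pool.Agent.Vdw
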